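import Pool.Agent.W_448so_h63.GJ
import Pool.Agent.W_448ut_h16.UtF

/-!
# The cross terms of energy at most twelve (MP_448cb3_co, case B, Route T, block H): definitions

`NoT P m`: two covers of an element of level `m`, one of them double, have a common cover.
`EE i e`: the energy minus twice the order. `KsC`, `KsA`, `KsB`: the swap of the two unmatched
elements `y` (lower) and `u` (upper) of a part. `KP1`, `KP2`: the parts with unmatched elements.
-/

namespace Pool.Agent.GaussPoset.Win.H2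

set_option linter.unusedSectionVars false

open Finset I2 K2 Ut

universe u

variable {P : Type u} [Fintype P] [PartialOrder P] [DecidableEq P] {r i : ℕ} {e : P → ℕ}

variable {ι : Type*} [DecidableEq ι] {κ : P → ι} {K : Finset P} {psi : P → P}

/-- two covers of an element of level `m`, one of them double, have a common cover -/
def NoT (P : Type u) [Fintype P] [PartialOrder P] [DecidableEq P] (m : ℕ) : Prop :=
  ∀ z : P, lev z = m → ∀ y ∈ uc z, ∀ y' ∈ uc z, y ≠ y' → (uc y).card = 2 →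
    ∃ x, x ∈ uc y ∧ x ∈ uc y'

lemma NoT.noQ {m : ℕ} (h : NoT P m) : NoQ P m :=
  fun z hz y hy y' hy' hne h1 _ => h z hz y hy y' hy' hne h1

/-- the energy minus twice the order -/
noncomputable def EE (i : ℕ) (e : P → ℕ) : ℤ :=
  ∑ x, (e x : ℤ) - 2 * (((AL i e).card : ℤ) + (AU i e).card) + 2 * ((pL i e : ℤ) + pU i e)

/-- the surroundings of the swap of `y` (lower) and `u` (upper) are empty -/
structure KsC (y u : P) (e : P → ℕ) : Prop where
  s0 : ∀ x ∈ uc y ∪ dc u, e x = 0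
  lo : ∀ x ∈ uc y ∪ dc u, ∀ w ∈ dc x, w ≠ y → e w = 0
  up : ∀ x ∈ uc y ∪ dc u, ∀ v ∈ uc x, v ≠ u → e v = 0
  dy : ∀ z ∈ dc y, e z = 0
  uu : ∀ v ∈ uc u, e v = 0

/-- the first state of the swap -/
structure KsA (y u : P) (e : P → ℕ) : Prop extends KsC y u e where
  ey : e y = 1
  eu : e u = 0

/-- the second state of the swap -/
structure KsB (y u : P) (e : P → ℕ) : Prop extends KsC y u e where
  ey : e y = 0
  eu : e u = 1

/-- the elements which are read by the swap of `y` and `u` -/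
def KRd (y u x : P) : Prop := x = y ∨ x = u ∨ x ∈ uc y ∪ dc u ∨
  (∃ s ∈ uc y ∪ dc u, x ∈ dc s ∨ x ∈ uc s) ∨ x ∈ dc y ∨ x ∈ uc u

/-- a part with two unmatched elements, first kind: every element of level `i + 2` of the part which
has a child outside the parts is over the twins or over a single element -/
structure KP1 (i : ℕ) (κ : P → ι) (K : Finset P) (a : ι) (w0 y u : P) : Prop where
  hK : ∀ k, (k ∈ K ∧ κ k = a) ↔ (k = y ∨ k = u)
  ly : lev y = i + 1
  lu : lev u + 1 = i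
  ne : w0 ≠ y
  tw : uc w0 = uc y
  com : ∃ x, x ∈ uc y ∧ x ∈ dc u
  kid : ∀ z ∈ dc y, w0 ∈ uc z
  far : ∀ z : P, lev z = i + 2 → z ∉ cuni (i + 1) κ → ∀ x ∈ uc z, κ x ≠ a
  crs : ∀ z : P, lev z = i + 2 → z ∈ cext (i + 1) κ a → (∃ t, t ∉ cuni (i + 1) κ ∧ t ⋖ z) →
    y ∈ uc z ∨ ∃ s ∈ uc z, (uc s).card = 1

/-- a part with two unmatched elements, second kind: every element of level `i + 2` of the part which
has a child outside the parts is over the twins or over `w3`, `w4` -/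
structure KP2 (i : ℕ) (κ : P → ι) (K : Finset P) (a : ι) (w0 y u w2 w3 w4 x0 x1 x2 x3 x4 x5 : P) :
    Prop where
  hK : ∀ k, (k ∈ K ∧ κ k = a) ↔ (k = y ∨ k = u)
  ly : lev y = i + 1
  lu : lev u + 1 = i
  ne : w0 ≠ y
  uc0 : uc w0 = {x0, x1}
  ucy : uc y = {x0, x1}
  dcu : dc u = {x1, x2}
  uc2 : uc w2 = {x2, x3}
  uc3 : uc w3 = {x3, x4}
  uc4 : uc w4 = {x4, x5}
  dc0 : dc x0 = {w0, y}
  dc1 : dc x1 = {w0, y}
  dc2 : dc x2 = {w2}
  dc4 : dc x4 = {w3, w4}
  nd : [x0, x1, x2, x3, x4, x5].Nodup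
  nw : [w0, y, w2, w3, w4].Nodup
  kid : ∀ z ∈ dc y, w0 ∈ uc z
  far : ∀ z : P, lev z = i + 2 → z ∉ cuni (i + 1) κ → ∀ x ∈ uc z, κ x ≠ a
  crs : ∀ z : P, lev z = i + 2 → z ∈ cext (i + 1) κ a → (∃ t, t ∉ cuni (i + 1) κ ∧ t ⋖ z) →
    y ∈ uc z ∨ uc z = {w3, w4}

end Pool.Agent.GaussPoset.Win.H2
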