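import Pool.Agent.W_448h2_h63.HF

/-!
# The parts with unmatched elements, one structure (MP_448cb3_co, case B, Route T, block H)
-/

namespace Pool.Agent.GaussPoset.Win.H2

set_option linter.unusedSectionVars false

open Finset I2 K2 Ut

universe u

variable {P : Type u} [Fintype P] [PartialOrder P] [DecidableEq P] {r i : ℕ} {e : P → ℕ}

variable {ι : Type*} [DecidableEq ι] {κ : P → ι} {K C : Finset P} {psi : P → P}

variable {a : ι} {w0 y u w2 x0 x1 x2 : P}

/-- a block: two doubles `p`, `q` with the common site `m`, away from `w0`, `y`, `w2` and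
`x0`, `x1`, `x2` -/
structure Bd (w0 y w2 x0 x1 x2 p q l m s : P) : Prop where
  ne : p ≠ q
  ucp : uc p = {l, m}
  ucq : uc q = {m, s}
  dcm : dc m = {p, q}
  lm : l ≠ m
  sm : s ≠ m
  ls : l ≠ s
  m0 : m ≠ x0
  m1 : m ≠ x1
  m2 : m ≠ x2
  p0 : p ≠ w0
  py : p ≠ y
  p2 : p ≠ w2
  q0 : q ≠ w0
  qy : q ≠ y
  q2 : q ≠ w2

/-- a part with the two unmatched elements `y` (lower) and `u` (upper): `w0` has the same covers as
`y`; every element of level `i + 2` of the part which has a child outside the parts is over `y`, or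
over an element with one cover, or over the two doubles of a block -/
structure KP (i : ℕ) (κ : P → ι) (K : Finset P) (a : ι) (w0 y u w2 x0 x1 x2 : P) : Prop where
  hK : ∀ k, (k ∈ K ∧ κ k = a) ↔ (k = y ∨ k = u)
  ly : lev y = i + 1
  lu : lev u + 1 = i
  ne : w0 ≠ y
  uc0 : uc w0 = {x0, x1}
  ucy : uc y = {x0, x1}
  dcu : dc u = {x1, x2}
  dc0 : dc x0 = {w0, y}
  dc1 : dc x1 = {w0, y}
  dc2 : dc x2 = {w2}
  n01 : x0 ≠ x1
  n12 : x1 ≠ x2
  n02 : x0 ≠ x2
  kid : ∀ z ∈ dc y, w0 ∈ uc z
  crs : ∀ z : P, lev z = i + 2 → z ∈ cext (i + 1) κ a → (∃ t, t ∉ cuni (i + 1) κ ∧ t ⋖ z) →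
    y ∈ uc z ∨ (∃ s ∈ uc z, (uc s).card = 1) ∨
      ∃ p q l m s, Bd w0 y w2 x0 x1 x2 p q l m s ∧ uc z = {p, q}

theorem KP.twk (Q : KP i κ K a w0 y u w2 x0 x1 x2)
    (hKs : K ⊆ dbL P i ∪ dbU P i) : Tw i (cext (i + 1) κ a) K w0 y u x1 := by
  refine ⟨?_, Q.ly, Q.lu, Q.ne, ?_, ?_, ?_, Q.kid⟩
  · intro k hk hkC
    exact (Q.hK k).1 ⟨hk, mem_cext.1 hkC k le_rfl (K_lev hKs hk)⟩
  · rw [Q.uc0, Q.ucy]
  · rw [Q.ucy]; simp
  · rw [Q.dcu]; simp

lemma KP.ky (Q : KP i κ K a w0 y u w2 x0 x1 x2) : y ∈ K ∧ κ y = a := (Q.hK y).2 (Or.inl rfl)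

lemma KP.ku (Q : KP i κ K a w0 y u w2 x0 x1 x2) : u ∈ K ∧ κ u = a := (Q.hK u).2 (Or.inr rfl)

/-- the levels -/
lemma KP.lv (H : Gr P r) (Q : KP i κ K a w0 y u w2 x0 x1 x2) :
    lev x0 = i ∧ lev x1 = i ∧ lev x2 = i ∧ lev w0 = i + 1 ∧ lev w2 = i + 1 := by
  have hy := Q.ly
  have hu := Q.lu
  have a1 := lev_uc H (x := y) (v := x0) (by rw [Q.ucy]; simp)
  have a2 := lev_uc H (x := y) (v := x1) (by rw [Q.ucy]; simp)
  have a3 := lev_uc H (x := w0) (v := x0) (by rw [Q.uc0]; simp)
  have a4 := lev_dc H (x := u) (v := x2) (by rw [Q.dcu]; simp)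
  have a5 := lev_dc H (x := x2) (v := w2) (by rw [Q.dc2]; simp)
  omega

/-- the sites of the two unmatched elements -/
lemma KP.st (Q : KP i κ K a w0 y u w2 x0 x1 x2) {x : P} :
    x ∈ uc y ∪ dc u ↔ x = x0 ∨ x = x1 ∨ x = x2 := by
  rw [mem_union, Q.ucy, Q.dcu]
  simp only [mem_insert, mem_singleton]
  tauto

/-- the labels -/
lemma KP.kst (H : Gr P r) (hκ : Split (i + 1) κ) (Q : KP i κ K a w0 y u w2 x0 x1 x2) {x : P}
    (hx : x ∈ uc y ∪ dc u) : κ x = a := by
  have hy := Q.ky.2
  have hu := Q.ku.2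
  have L := Q.lv H
  rcases Q.st.1 hx with h | h | h
  · rw [h, ← hκ (x := y) (y := x0) (mem_uc.1 (by rw [Q.ucy]; simp)) Q.ly.le]
    exact hy
  · rw [h, ← hκ (x := y) (y := x1) (mem_uc.1 (by rw [Q.ucy]; simp)) Q.ly.le]
    exact hy
  · rw [h, hκ (x := x2) (y := u) (mem_dc.1 (by rw [Q.dcu]; simp)) (by omega)]
    exact hu

section bdl

variable {p q l m s z : P}

/-- the data of a block inside the part -/
theorem Bd.bk (H : Gr P r) (Q : KP i κ K a w0 y u w2 x0 x1 x2)
    (B : Bd w0 y w2 x0 x1 x2 p q l m s) (hz : lev z = i + 2) (hzC : z ∈ cext (i + 1) κ a)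
    (huz : uc z = {p, q}) : Bk i K x1 p q l m s := by
  have hp : p ∈ uc z := by rw [huz]; simp
  have hq : q ∈ uc z := by rw [huz]; simp
  have lp := lev_uc H hp
  have lq := lev_uc H hq
  have kp : κ p = a := mem_cext.1 hzC p (mem_uc.1 hp).le (by omega)
  have kq : κ q = a := mem_cext.1 hzC q (mem_uc.1 hq).le (by omega)
  have hu := Q.lu
  refine ⟨by omega, B.ne, ?_, ?_, B.ucp, B.ucq, B.dcm, B.lm, B.sm, B.ls, B.m1⟩
  · intro h
    rcases (Q.hK p).1 ⟨h, kp⟩ with h | h
    · exact B.py h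
    · rw [h] at lp
      omega
  · intro h
    rcases (Q.hK q).1 ⟨h, kq⟩ with h | h
    · exact B.qy h
    · rw [h] at lq
      omega

end bdl

section five

variable (H : Gr P r) (hir : i ≤ r) (hT : NoT P (i + 2)) (hg : ∀ m, m + 1 = i → Good P m)
include H hir hT hg

/-- the energy of an extremal part is at least five, and at five the swap is active -/
theorem KP.five {p q l m s d : P} (Q : KP i κ K a w0 y u w2 x0 x1 x2)
    (hKs : K ⊆ dbL P i ∪ dbU P i) (hs : Spt (cext (i + 1) κ a) e) (hld : lev d = i + 2)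
    (hud : uc d = {p, q}) (D : Bd w0 y w2 x0 x1 x2 p q l m s)
    (B : BT d p q l m s e) (hkb : (KB i K e).Nonempty) :
    5 ≤ ∑ x, e x ∧ (∑ x, e x = 5 → KsA y u e ∨ KsB y u e) := by
  classical
  have W := Q.twk hKs
  obtain ⟨M1, M2, M3, -, -⟩ := Q.lv H
  have L1 := lev_uc H (x := d) (v := p) (by rw [hud]; simp)
  have L2 := lev_uc H (x := d) (v := q) (by rw [hud]; simp)
  have L3 := lev_uc H (x := p) (v := m) (by rw [D.ucp]; simp)
  have L4 := Q.ly
  have L5 := Q.lu
  have hlv : ∀ {p q : P}, lev p ≠ lev q → p ≠ q := fun h h' => h (by rw [h'])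
  have key : ∀ k, (k = y ∨ k = u) → e k = 1 →
      ∑ x ∈ insert d (insert p (insert q (insert m {k}))), e x = 5 := by
    intro k hk h1
    have hpk : p ≠ k := by
      rcases hk with h' | h'
      · rw [h']; exact D.py
      · rw [h']; exact hlv (by omega)
    have hqk : q ≠ k := by
      rcases hk with h' | h'
      · rw [h']; exact D.qy
      · rw [h']; exact hlv (by omega)
    have hdk : d ≠ k := by
      rcases hk with h' | h' <;> rw [h'] <;> exact hlv (by omega)
    have hmk : m ≠ k := by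
      rcases hk with h' | h' <;> rw [h'] <;> exact hlv (by omega)
    have n1 : d ∉ insert p (insert q (insert m ({k} : Finset P))) := by
      simp only [mem_insert, mem_singleton, not_or]
      exact ⟨hlv (by omega), hlv (by omega), hlv (by omega), hdk⟩
    have n2 : p ∉ insert q (insert m ({k} : Finset P)) := by
      simp only [mem_insert, mem_singleton, not_or]
      exact ⟨D.ne, hlv (by omega), hpk⟩
    have n3 : q ∉ insert m ({k} : Finset P) := by
      simp only [mem_insert, mem_singleton, not_or]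
      exact ⟨hlv (by omega), hqk⟩
    have n4 : m ∉ ({k} : Finset P) := by
      simp only [mem_singleton]
      exact hmk
    rw [sum_insert n1, sum_insert n2, sum_insert n3, sum_insert n4, sum_singleton, B.p1, B.q1, h1]
    rcases B.dm with ⟨h2, h3⟩ | ⟨h2, h3⟩ <;> omega
  obtain ⟨k, hk⟩ := hkb
  have hk' : (k = y ∨ k = u) ∧ e k = 1 := by
    rcases KB_sub H hir hT hg W hs hk with ⟨h, h1, -⟩ | ⟨h, h1, -⟩
    · exact ⟨Or.inl h, by rw [h]; exact (bL_data H hir hT.noQ hg h1).2.2.1⟩
    · exact ⟨Or.inr h, by rw [h]; exact (bU_data H hir hT.noQ hg h1).2.2.1⟩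
  have h5 := key k hk'.1 hk'.2
  refine ⟨by rw [← h5]; exact sum_sub, fun hsum => ?_⟩
  have hz : ∀ x, x ≠ d → x ≠ p → x ≠ q → x ≠ m → x ≠ k → e x = 0 := by
    intro x g1 g2 g3 g4 g5
    refine zero_of_sum (S := insert d (insert p (insert q (insert m {k})))) (by omega) ?_
    simp only [mem_insert, mem_singleton, not_or]
    exact ⟨g1, g2, g3, g4, g5⟩
  have hC : KsC y u e := by
    refine ⟨?_, ?_, ?_, ?_, ?_⟩
    · intro x hx
      have hx' := Q.st.1 hx
      have hl : lev x = i := by
        rcases hx' with h | h | h <;> rw [h] <;> assumption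
      have hxm : x ≠ m := by
        rcases hx' with h | h | h <;> rw [h]
        · exact D.m0.symm
        · exact D.m1.symm
        · exact D.m2.symm
      refine hz x (hlv (by omega)) (hlv (by omega)) (hlv (by omega)) hxm ?_
      rcases hk'.1 with h | h <;> rw [h] <;> exact hlv (by omega)
    · intro x hx w hw hwy
      have hx' := Q.st.1 hx
      have hw' : w = w0 ∨ w = w2 := by
        rcases hx' with h | h | h <;> rw [h] at hw
        · rw [Q.dc0, mem_insert, mem_singleton] at hw
          tauto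
        · rw [Q.dc1, mem_insert, mem_singleton] at hw
          tauto
        · rw [Q.dc2, mem_singleton] at hw
          exact Or.inr hw
      obtain ⟨-, -, -, l4, l5⟩ := Q.lv H
      have hlw : lev w = i + 1 := by
        rcases hw' with h | h <;> rw [h] <;> assumption
      refine hz w (hlv (by omega)) ?_ ?_ (hlv (by omega)) ?_
      · rcases hw' with h | h <;> rw [h]
        · exact D.p0.symm
        · exact D.p2.symm
      · rcases hw' with h | h <;> rw [h]
        · exact D.q0.symm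
        · exact D.q2.symm
      · rcases hk'.1 with h | h
        · rw [h]; exact hwy
        · rw [h]; exact hlv (by omega)
    · intro x hx v hv hvu
      have hl : lev x = i := by
        rcases Q.st.1 hx with h | h | h <;> rw [h] <;> assumption
      have hlv2 := lev_uc H hv
      refine hz v (hlv (by omega)) (hlv (by omega)) (hlv (by omega)) (hlv (by omega)) ?_
      rcases hk'.1 with h | h
      · rw [h]; exact hlv (by omega)
      · rw [h]; exact hvu
    · intro z hzy
      have hlz := lev_dc H hzy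
      refine hz z ?_ (hlv (by omega)) (hlv (by omega)) (hlv (by omega)) ?_
      · rintro rfl
        have h6 : y ∈ uc z := mem_uc.2 (mem_dc.1 hzy)
        rw [hud, mem_insert, mem_singleton] at h6
        rcases h6 with h6 | h6
        · exact D.py h6.symm
        · exact D.qy h6.symm
      · rcases hk'.1 with h | h <;> rw [h] <;> exact hlv (by omega)
    · intro v hv
      have hlv2 := lev_uc H hv
      refine hz v (hlv (by omega)) (hlv (by omega)) (hlv (by omega)) (hlv (by omega)) ?_
      rcases hk'.1 with h | h <;> rw [h] <;> exact hlv (by omega)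
  rcases hk'.1 with h | h
  · left
    refine ⟨hC, by rw [← h]; exact hk'.2, hz u (hlv (by omega)) (hlv (by omega)) (hlv (by omega))
      (hlv (by omega)) (by rw [h]; exact hlv (by omega))⟩
  · right
    refine ⟨hC, hz y (hlv (by omega)) D.py.symm D.qy.symm (hlv (by omega))
      (by rw [h]; exact hlv (by omega)), by rw [← h]; exact hk'.2⟩

end five

end Pool.Agent.GaussPoset.Win.H2
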