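import Pool.Agent.W_448h2_h63.HA

/-!
# The inequality on one side with all slacks (MP_448cb3_co, case B, Route T, block H)
-/

namespace Pool.Agent.GaussPoset.Win.H2

set_option linter.unusedSectionVars false

open Finset I2 K2

universe u

variable {P : Type u} [DecidableEq P]

variable {c c' : P → Finset P} {e : P → ℕ} {t : P → ℕ} {V Sd : Finset P}

/-- two covers at distance two, one of them double, have a common cover -/
def SdT (c : P → Finset P) (t : P → ℕ) (Sd : Finset P) : Prop :=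
  ∀ z ∈ Sd, t z = 2 → ∀ y ∈ c z, ∀ y' ∈ c z, y ≠ y' → (c y).card = 2 → ∃ x, x ∈ c y ∧ x ∈ c y'

/-- an excited element away from a bad element has a surplus -/
lemma far_T (S : SideQ c c' t V Sd) (hT : SdT c t Sd)
    (adm : ∀ z ∈ Sd, ¬ (kd c' e z ∧ gu c e z)) {y z : P}
    (hy : y ∈ bd c c' e t Sd) (hz : z ∈ c' y) (he : 1 ≤ e z) : 1 ≤ sur c c' e z := by
  rcases far_cases S adm hy hz he with h | ⟨h1, h2, h3, w, w1, w2, w3, w4⟩
  · exact h
  · exfalso
    have hy' := hy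
    rw [mem_bd] at hy
    obtain ⟨hyS, ty, ey, ky, cy⟩ := hy
    have hzS : z ∈ Sd := S.cout y (Or.inl hyS) z hz
    have hyz : y ∈ c z := (S.dual z y).2 hz
    have tz : t z = 2 := by
      have := (S.cin z hzS y hyz).2
      omega
    obtain ⟨x, hx, hx'⟩ := hT z hzS tz y hyz w w1 (fun h => w2 h.symm) (cc_eq_two S cy).1
    have hky : kd c' e y := ⟨z, hz, by omega⟩
    have ex : e x < e y := not_gu_of_kd adm hyS hky x hx
    have h4 := (cc_eq_two S cy).2 x hx ex
    have h5 : y ∈ kr c' e x := mem_kr.2 ⟨(S.dual y x).1 hx, ex⟩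
    have h6 : w ∈ kr c' e x := mem_kr.2 ⟨(S.dual w x).1 hx', by omega⟩
    rw [Finset.card_eq_one] at h4
    obtain ⟨q, hq⟩ := h4
    rw [hq, mem_singleton] at h5 h6
    exact w2 (h6.trans h5.symm)

/-- payment for the bad elements with an excited child -/
theorem pay_T (S : SideQ c c' t V Sd) (hT : SdT c t Sd)
    (adm : ∀ z ∈ Sd, ¬ (kd c' e z ∧ gu c e z)) {B : Finset P}
    (hB : B ⊆ bd c c' e t Sd) (hex : ∀ y ∈ B, ∃ z ∈ c' y, 1 ≤ e z) :
    ∃ Z X : Finset P, ∃ f : P → P,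
      (∀ y ∈ B, f y ∈ Z ∧ f y ∈ c' y) ∧
      (∀ z ∈ Z, z ∈ Sd ∧ t z = 2 ∧ 1 ≤ e z ∧ 1 ≤ sur c c' e z ∧ ∃ y ∈ B, f y = z) ∧
      (∀ x ∈ X, x ∈ V ∧ 1 ≤ e x ∧ (∃ y, y ∈ c' x) ∧ (∀ y ∈ c' x, y ∈ B) ∧
        ∃ z ∈ Z, ∀ y ∈ c' x, f y = z) ∧
      B.card ≤ Z.card + X.card := by
  classical
  choose! f hf using hex
  have hfs : ∀ y ∈ B, 1 ≤ sur c c' e (f y) := fun y hy => far_T S hT adm (hB hy) (hf y hy).1 (hf y hy).2
  set Z := B.image f with hZ
  set Z2 := Z.filter (fun z => 2 ≤ (B.filter (fun y => f y = z)).card) with hZ2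
  have hzZ : ∀ z ∈ Z, ∃ y ∈ B, f y = z := fun z hz => by simpa [hZ] using hz
  have hpair : ∀ z ∈ Z2, ∃ y ∈ B, ∃ y' ∈ B, y ≠ y' ∧ f y = z ∧ f y' = z := by
    intro z hz
    rw [hZ2, mem_filter] at hz
    have h1 : 1 < (B.filter (fun y => f y = z)).card := by omega
    rw [Finset.one_lt_card] at h1
    obtain ⟨y, hy, y', hy', hne⟩ := h1
    rw [mem_filter] at hy hy'
    exact ⟨y, hy.1, y', hy'.1, hne, hy.2, hy'.2⟩
  choose! g hg g' hg' hne hfg hfg' using hpair
  have hmid : ∀ z ∈ Z2, ∃ x ∈ V, x ∈ c (g z) ∧ x ∈ c (g' z) ∧ 1 ≤ e x := by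
    intro z hz
    have h1 := (hf (g z) (hg z hz)).1
    have h2 := (hf (g' z) (hg' z hz)).1
    rw [hfg z hz] at h1
    rw [hfg' z hz] at h2
    exact mid_of_bd S adm (hB (hg z hz)) (hB (hg' z hz)) (hne z hz) h1 h2
  choose! m hmV hm hm' hme using hmid
  have hlow : ∀ z ∈ Z2, c' (m z) = {g z, g' z} := by
    intro z hz
    symm
    apply Finset.eq_of_subset_of_card_le
    · intro y hy
      rw [mem_insert, mem_singleton] at hy
      rcases hy with rfl | rfl
      · exact (S.dual _ _).1 (hm z hz)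
      · exact (S.dual _ _).1 (hm' z hz)
    · rw [Finset.card_pair (hne z hz)]
      exact S.c2' _
  have hinj : Set.InjOn m Z2 := by
    intro z hz z' hz' h
    have h1 := hlow z hz
    rw [h, hlow z' hz'] at h1
    have h2 : g z ∈ ({g z', g' z'} : Finset P) := by
      rw [h1]
      exact mem_insert_self _ _
    rw [mem_insert, mem_singleton] at h2
    rw [← hfg z hz]
    rcases h2 with h2 | h2
    · rw [h2]
      exact hfg z' hz'
    · rw [h2]
      exact hfg' z' hz'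
  refine ⟨Z, Z2.image m, f, ?_, ?_, ?_, ?_⟩
  · intro y hy
    exact ⟨mem_image_of_mem f hy, (hf y hy).1⟩
  · intro z hz
    obtain ⟨y, hy, rfl⟩ := hzZ z hz
    have h1 := hB hy
    have h2 := (mem_bd.1 h1)
    have h3 : f y ∈ Sd := S.cout y (Or.inl h2.1) _ (hf y hy).1
    refine ⟨h3, ?_, (hf y hy).2, hfs y hy, y, hy, rfl⟩
    have h4 := (S.cin (f y) h3 y ((S.dual _ _).2 (hf y hy).1)).2
    omega
  · intro x hx
    rw [mem_image] at hx
    obtain ⟨z, hz, rfl⟩ := hx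
    have h1 := hlow z hz
    refine ⟨hmV z hz, hme z hz, ⟨g z, ?_⟩, ?_, z, (mem_filter.1 hz).1, ?_⟩
    · rw [h1]
      exact mem_insert_self _ _
    · intro y hy
      rw [h1, mem_insert, mem_singleton] at hy
      rcases hy with rfl | rfl
      · exact hg z hz
      · exact hg' z hz
    · intro y hy
      rw [h1, mem_insert, mem_singleton] at hy
      rcases hy with rfl | rfl
      · exact hfg z hz
      · exact hfg' z hz
  · rw [Finset.card_image_of_injOn hinj]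
    have h1 : B.card = ∑ z ∈ Z, (B.filter (fun y => f y = z)).card :=
      Finset.card_eq_sum_card_image f B
    have h2 : ∀ z ∈ Z, (B.filter (fun y => f y = z)).card ≤
        1 + (if 2 ≤ (B.filter (fun y => f y = z)).card then 1 else 0) := by
      intro z hz
      have h3 : B.filter (fun y => f y = z) ⊆ c z := by
        intro y hy
        rw [mem_filter] at hy
        have := (hf y hy.1).1
        rw [hy.2] at this
        exact (S.dual _ _).2 this
      have h4 := card_le_card h3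
      have := S.c2 z
      split_ifs <;> omega
    rw [h1]
    refine (Finset.sum_le_sum h2).trans (le_of_eq ?_)
    rw [Finset.sum_add_distrib, Finset.sum_const, smul_eq_mul, mul_one, ← Finset.card_filter]

open Classical in
/-- the slack of an element -/
noncomputable def sl (c c' : P → Finset P) (e : P → ℕ) (t : P → ℕ) (Sd Z : Finset P) (z : P) : ℤ :=
  sur c c' e z - (if z ∈ Z then 1 else 0) + (if z ∈ bd c c' e t Sd then 1 else 0)

lemma sl_nonneg (S : SideQ c c' t V Sd) (adm : ∀ z ∈ Sd, ¬ (kd c' e z ∧ gu c e z)) {Z : Finset P}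
    (hZ : ∀ z ∈ Z, z ∈ Sd ∧ t z = 2 ∧ 1 ≤ sur c c' e z) {z : P} (hz : z ∈ Sd) :
    0 ≤ sl c c' e t Sd Z z := by
  classical
  unfold sl
  by_cases h1 : z ∈ Z
  · have h2 := hZ z h1
    have h3 : z ∉ bd c c' e t Sd := by
      intro h
      rw [mem_bd] at h
      omega
    rw [if_pos h1, if_neg h3]
    omega
  · rw [if_neg h1]
    by_cases h2 : z ∈ bd c c' e t Sd
    · rw [if_pos h2]
      have := sur_ge S adm hz
      omega
    · rw [if_neg h2]
      have := sur_nonneg S adm hz h2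
      omega

open Classical in
/-- THE INEQUALITY ON ONE SIDE with all slacks -/
theorem side_full (S : SideQ c c' t V Sd) (hT : SdT c t Sd)
    (adm : ∀ z ∈ Sd, ¬ (kd c' e z ∧ gu c e z)) {B : Finset P}
    (hB : B ⊆ bd c c' e t Sd) (hex : ∀ y ∈ B, ∃ z ∈ c' y, 1 ≤ e z) :
    ∃ Z X : Finset P, ∃ f : P → P,
      (∀ y ∈ B, f y ∈ Z ∧ f y ∈ c' y) ∧
      (∀ z ∈ Z, z ∈ Sd ∧ t z = 2 ∧ 1 ≤ e z ∧ 1 ≤ sur c c' e z ∧ ∃ y ∈ B, f y = z) ∧
      (∀ x ∈ X, x ∈ V ∧ 1 ≤ e x ∧ (∃ y, y ∈ c' x) ∧ (∀ y ∈ c' x, y ∈ B) ∧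
        ∃ z ∈ Z, ∀ y ∈ c' x, f y = z) ∧
      ∑ z ∈ Sd, sl c c' e t Sd Z z + 2 * ((KD c' e V).card : ℤ) ≤
        ∑ z ∈ Sd, (e z : ℤ) + 2 * ((fr c c' e Sd).card : ℤ) +
          ((bd c c' e t Sd) \ B).card + X.card := by
  classical
  obtain ⟨Z, X, f, hf, hZ, hX, hc⟩ := pay_T S hT adm hB hex
  refine ⟨Z, X, f, hf, hZ, hX, ?_⟩
  have h1 := sum_cc S adm
  have h2 : ∑ z ∈ Sd, sur c c' e z = ∑ z ∈ Sd, (e z : ℤ) - ∑ z ∈ KK c e Sd, cc c c' e z := by
    unfold sur KK
    rw [Finset.sum_sub_distrib, Finset.sum_filter]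
  have h3 : ∑ z ∈ Sd, sl c c' e t Sd Z z = ∑ z ∈ Sd, sur c c' e z - Z.card +
      (bd c c' e t Sd).card := by
    unfold sl
    rw [Finset.sum_add_distrib, Finset.sum_sub_distrib, ← Finset.sum_filter, ← Finset.sum_filter,
      Finset.sum_const, Finset.sum_const]
    have h9 : Sd.filter (fun z => z ∈ Z) = Z := by
      ext z
      rw [mem_filter]
      exact ⟨fun h => h.2, fun h => ⟨(hZ z h).1, h⟩⟩
    have h10 : Sd.filter (fun z => z ∈ bd c c' e t Sd) = bd c c' e t Sd := by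
      ext z
      rw [mem_filter]
      exact ⟨fun h => h.2, fun h => ⟨(mem_bd.1 h).1, h⟩⟩
    rw [h9, h10]
    simp only [nsmul_eq_mul, mul_one]
  have h11 : ((bd c c' e t Sd) \ B).card + B.card = (bd c c' e t Sd).card :=
    Finset.card_sdiff_add_card_eq_card hB
  have h12 : (((bd c c' e t Sd) \ B).card : ℤ) + B.card = (bd c c' e t Sd).card := by
    exact_mod_cast h11
  have h13 : (B.card : ℤ) ≤ Z.card + X.card := by exact_mod_cast hc
  rw [h3, h2, h1]
  linarith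

end Pool.Agent.GaussPoset.Win.H2
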