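import Pool.Agent.W_448h2_h63.HB

/-!
# The inequality of a configuration with all slacks (MP_448cb3_co, case B, Route T, block H)
-/

namespace Pool.Agent.GaussPoset.Win.H2

set_option linter.unusedSectionVars false

open Finset I2 K2

universe u

variable {P : Type u} [Fintype P] [PartialOrder P] [DecidableEq P] {r i : ℕ} {e : P → ℕ}

variable {ι : Type*} [DecidableEq ι] {κ : P → ι} {K : Finset P} {psi : P → P}

/-- a bad lower element with an excited child -/
def BLx (i : ℕ) (e : P → ℕ) (y : P) : Prop := y ∈ bL i e ∧ ∃ z ∈ dc y, 1 ≤ e z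

/-- a bad upper element with an excited child -/
def BUx (i : ℕ) (e : P → ℕ) (y : P) : Prop := y ∈ bU i e ∧ ∃ z ∈ uc y, 1 ≤ e z

/-- the data of the payment on the lower side -/
structure LowD (i : ℕ) (e : P → ℕ) (Z X : Finset P) (f : P → P) : Prop where
  fy : ∀ y, BLx i e y → f y ∈ Z ∧ f y ∈ dc y
  zz : ∀ z ∈ Z, lev z = i + 2 ∧ 1 ≤ e z ∧ 1 ≤ sur uc dc e z ∧ ∃ y, BLx i e y ∧ f y = z
  xx : ∀ x ∈ X, lev x = i ∧ 1 ≤ e x ∧ (∃ y, y ∈ dc x) ∧ (∀ y ∈ dc x, BLx i e y) ∧
    ∃ z ∈ Z, ∀ y ∈ dc x, f y = z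

/-- the data of the payment on the upper side -/
structure UpD (i : ℕ) (e : P → ℕ) (Z X : Finset P) (f : P → P) : Prop where
  fy : ∀ y, BUx i e y → f y ∈ Z ∧ f y ∈ uc y
  zz : ∀ z ∈ Z, lev z + 2 = i ∧ 1 ≤ e z ∧ 1 ≤ sur dc uc e z ∧ ∃ y, BUx i e y ∧ f y = z
  xx : ∀ x ∈ X, lev x = i ∧ 1 ≤ e x ∧ (∃ y, y ∈ uc x) ∧ (∀ y ∈ uc x, BUx i e y) ∧
    ∃ z ∈ Z, ∀ y ∈ uc x, f y = z

/-- the slack of a lower element -/
noncomputable def slL (i : ℕ) (e : P → ℕ) (Z : Finset P) (z : P) : ℤ :=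
  sl uc dc e (fun x : P => lev x - i) (lS P i) Z z

/-- the slack of an upper element -/
noncomputable def slU (i : ℕ) (e : P → ℕ) (Z : Finset P) (z : P) : ℤ :=
  sl dc uc e (fun x : P => i - lev x) (uS P i) Z z

lemma low_T (hT : NoT P (i + 2)) : SdT uc (fun x : P => lev x - i) (lS P i) := by
  intro z hz ht y hy y' hy' hne h1
  rw [mem_lS] at hz
  simp only at ht
  exact hT z (by omega) y hy y' hy' hne h1

lemma up_T (H : Gr P r) (hir : i ≤ r) (hg : ∀ m, m + 1 = i → Good P m) :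
    SdT dc (fun x : P => i - lev x) (uS P i) := by
  intro z hz ht y hy y' hy' hne _
  exact (I2.side_up H hir hg).good z hz ht y hy y' hy' hne

lemma slL_nonneg (H : Gr P r) (hT : NoT P (i + 2)) (hL : AdmL i e) {Z X : Finset P} {f : P → P}
    (D : LowD i e Z X f) {z : P} (hz : i < lev z) : 0 ≤ slL i e Z z := by
  refine sl_nonneg (K2.side_low (i := i) H hT.noQ) (adm_low hL) ?_ (mem_lS.2 hz)
  intro z hz
  obtain ⟨h1, h2, h3, -⟩ := D.zz z hz
  exact ⟨mem_lS.2 (by omega), by omega, h3⟩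

lemma slU_nonneg (H : Gr P r) (hir : i ≤ r) (hg : ∀ m, m + 1 = i → Good P m) (hU : AdmU i e)
    {Z X : Finset P} {f : P → P} (D : UpD i e Z X f) {z : P} (hz : lev z < i) :
    0 ≤ slU i e Z z := by
  refine sl_nonneg (K2.side_up (i := i) H hir hg) (adm_up hU) ?_ (mem_uS.2 hz)
  intro z hz
  obtain ⟨h1, h2, h3, -⟩ := D.zz z hz
  exact ⟨mem_uS.2 (by omega), by omega, h3⟩

lemma sum_all (e : P → ℕ) : ∑ x, (e x : ℤ) =
    ∑ x ∈ lS P i, (e x : ℤ) + ∑ x ∈ uS P i, (e x : ℤ) + ∑ x ∈ lv P i, (e x : ℤ) := by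
  classical
  have h6 : (univ : Finset P) = (lS P i ∪ uS P i) ∪ lv P i := by
    ext x
    simp only [mem_univ, mem_union, mem_lS, mem_uS, mem_lv, true_iff]
    omega
  rw [h6, Finset.sum_union, Finset.sum_union]
  · rw [disjoint_left]
    intro x hx hx'
    rw [mem_lS] at hx
    rw [mem_uS] at hx'
    omega
  · rw [disjoint_left]
    intro x hx hx'
    rw [mem_union, mem_lS, mem_uS] at hx
    rw [mem_lv] at hx'
    omega

/-- the full inequality -/
structure Full (i : ℕ) (K : Finset P) (psi : P → P) (e : P → ℕ) (ZL XL ZU XU : Finset P)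
    (fL fU : P → P) : Prop where
  low : LowD i e ZL XL fL
  upp : UpD i e ZU XU fU
  ineq : ∑ z ∈ lS P i, slL i e ZL z + ∑ z ∈ uS P i, slU i e ZU z +
    (∑ x ∈ lv P i, (e x : ℤ) - (KB i K e).card - XL.card - XU.card) ≤
      EE i e + (SK i K psi e).card

/-- THE FULL INEQUALITY of a configuration -/
theorem full_T (H : Gr P r) (hir : i ≤ r) (hT : NoT P (i + 2))
    (hg : ∀ m, m + 1 = i → Good P m) (hM : Mat P i K psi)
    (hL : AdmL i e) (hU : AdmU i e) (hd : Disjoint (AL i e) (AU i e)) :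
    ∃ ZL XL ZU XU : Finset P, ∃ fL fU : P → P, Full i K psi e ZL XL ZU XU fL fU := by
  classical
  have hq := hT.noQ
  have SL := K2.side_low (i := i) H hq
  have SU := K2.side_up (i := i) H hir hg
  obtain ⟨BL, hBL⟩ : ∃ BL : Finset P, ∀ y, y ∈ BL ↔ y ∈ bL i e ∧ ∃ z ∈ dc y, 1 ≤ e z :=
    ⟨(bL i e).filter (fun y => ∃ z ∈ dc y, 1 ≤ e z), fun y => mem_filter⟩
  obtain ⟨BU, hBU⟩ : ∃ BU : Finset P, ∀ y, y ∈ BU ↔ y ∈ bU i e ∧ ∃ z ∈ uc y, 1 ≤ e z :=
    ⟨(bU i e).filter (fun y => ∃ z ∈ uc y, 1 ≤ e z), fun y => mem_filter⟩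
  obtain ⟨ZL, XL, fL, hfL, hZL, hXL, iL⟩ := side_full SL (low_T hT) (adm_low hL) (B := BL)
    (fun y hy => ((hBL y).1 hy).1) (fun y hy => ((hBL y).1 hy).2)
  obtain ⟨ZU, XU, fU, hfU, hZU, hXU, iU⟩ := side_full SU (up_T H hir hg) (adm_up hU) (B := BU)
    (fun y hy => ((hBU y).1 hy).1) (fun y hy => ((hBU y).1 hy).2)
  rw [KD_low, fr_low] at iL
  rw [KD_up, fr_up] at iU
  change ∑ z ∈ lS P i, slL i e ZL z + _ ≤ _ + ((bL i e \ BL).card : ℤ) + _ at iL
  change ∑ z ∈ uS P i, slU i e ZU z + _ ≤ _ + ((bU i e \ BU).card : ℤ) + _ at iU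
  -- the unexcited bad elements
  have h1 : (bL i e \ BL).card ≤ ((SK i K psi e).filter (fun y => e y = 1)).card +
      ((KB i K e).filter (fun y => i < lev y)).card := by
    refine le_trans (card_le_card (t := ((SK i K psi e).filter (fun y => e y = 1)) ∪
      ((KB i K e).filter (fun y => i < lev y))) ?_) (card_union_le _ _)
    intro y hy
    rw [mem_sdiff, hBL] at hy
    have h0 : ∀ z ∈ dc y, e z = 0 := by
      intro z hz
      by_contra hne
      exact hy.2 ⟨hy.1, z, hz, by omega⟩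
    rw [mem_union, mem_filter, mem_filter]
    by_cases hK : y ∈ K
    · right
      have := (mem_dbL'.1 (mem_bL hM H hq hy.1).1).1
      exact ⟨mem_KB.2 ⟨hK, Or.inl ⟨hy.1, h0⟩⟩, by omega⟩
    · left
      exact low_simple hM H hq hU hd hy.1 hK h0
  have h2 : (bU i e \ BU).card ≤ ((SK i K psi e).filter (fun y => ¬ e y = 1)).card +
      ((KB i K e).filter (fun y => ¬ i < lev y)).card := by
    have hs : (bU i e \ BU).card = ((bU i e \ BU).filter (fun y => y ∉ K)).card +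
        ((bU i e \ BU).filter (fun y => ¬ y ∉ K)).card :=
      (Finset.card_filter_add_card_filter_not _).symm
    have ha : ((bU i e \ BU).filter (fun y => y ∉ K)).card ≤
        ((SK i K psi e).filter (fun y => ¬ e y = 1)).card := by
      have h0 : ∀ w ∈ (bU i e \ BU).filter (fun y => y ∉ K),
          w ∈ dbU P i ∧ w ∉ K ∧ psi w ∈ SK i K psi e ∧ e (psi w) = 0 := by
        intro w hw
        rw [mem_filter, mem_sdiff, hBU] at hw
        have h0 : ∀ z ∈ uc w, e z = 0 := by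
          intro z hz
          by_contra hne
          exact hw.1.2 ⟨hw.1.1, z, hz, by omega⟩
        obtain ⟨k1, k2, k3⟩ := up_simple hM H hir hg hL hd hw.1.1 hw.2 h0
        exact ⟨k1, hw.2, k2, k3⟩
      refine card_le_card_of_injOn psi ?_ ?_
      · intro w hw
        have := h0 w hw
        rw [mem_coe, mem_filter]
        exact ⟨this.2.2.1, by omega⟩
      · intro w hw w' hw' heq
        have k := h0 w hw
        have k' := h0 w' hw'
        have h3 := (psi_up hM k.1 k.2.1).2.2.1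
        have h4 := (psi_up hM k'.1 k'.2.1).2.2.1
        rw [← h3, ← h4, heq]
    have hb : ((bU i e \ BU).filter (fun y => ¬ y ∉ K)).card ≤
        ((KB i K e).filter (fun y => ¬ i < lev y)).card := by
      refine card_le_card ?_
      intro y hy
      rw [mem_filter, mem_sdiff, hBU, not_not] at hy
      have h0 : ∀ z ∈ uc y, e z = 0 := by
        intro z hz
        by_contra hne
        exact hy.1.2 ⟨hy.1.1, z, hz, by omega⟩
      rw [mem_filter]
      have := (mem_dbU'.1 (mem_bU hM H hir hg hy.1.1).1).1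
      exact ⟨mem_KB.2 ⟨hy.2, Or.inr ⟨hy.1.1, h0⟩⟩, by omega⟩
    omega
  have h3 : ((SK i K psi e).filter (fun y => e y = 1)).card +
      ((SK i K psi e).filter (fun y => ¬ e y = 1)).card = (SK i K psi e).card :=
    Finset.card_filter_add_card_filter_not _
  have h3' : ((KB i K e).filter (fun y => i < lev y)).card +
      ((KB i K e).filter (fun y => ¬ i < lev y)).card = (KB i K e).card :=
    Finset.card_filter_add_card_filter_not _
  refine ⟨ZL, XL, ZU, XU, fL, fU, ⟨?_, ?_, ?_⟩, ⟨?_, ?_, ?_⟩, ?_⟩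
  · intro y hy
    exact hfL y ((hBL y).2 hy)
  · intro z hz
    obtain ⟨h4, h5, h6, h7, y, hy, hfy⟩ := hZL z hz
    rw [mem_lS] at h4
    exact ⟨by omega, h6, h7, y, (hBL y).1 hy, hfy⟩
  · intro x hx
    obtain ⟨h4, h5, h6, h7, h8⟩ := hXL x hx
    exact ⟨mem_lv.1 h4, h5, h6, fun y hy => (hBL y).1 (h7 y hy), h8⟩
  · intro y hy
    exact hfU y ((hBU y).2 hy)
  · intro z hz
    obtain ⟨h4, h5, h6, h7, y, hy, hfy⟩ := hZU z hz
    rw [mem_uS] at h4
    exact ⟨by omega, h6, h7, y, (hBU y).1 hy, hfy⟩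
  · intro x hx
    obtain ⟨h4, h5, h6, h7, h8⟩ := hXU x hx
    exact ⟨mem_lv.1 h4, h5, h6, fun y hy => (hBU y).1 (h7 y hy), h8⟩
  · unfold EE
    rw [sum_all (i := i) e]
    have g1 : ((bL i e \ BL).card : ℤ) + (bU i e \ BU).card ≤ (SK i K psi e).card +
        (KB i K e).card := by
      have : (bL i e \ BL).card + (bU i e \ BU).card ≤ (SK i K psi e).card +
        (KB i K e).card := by omega
      exact_mod_cast this
    linarith

end Pool.Agent.GaussPoset.Win.H2
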