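import Pool.Agent.W_448h2_h63.HC

/-!
# The bounds on a part (MP_448cb3_co, case B, Route T, block H)
-/

namespace Pool.Agent.GaussPoset.Win.H2

set_option linter.unusedSectionVars false

open Finset I2 K2

universe u

variable {P : Type u} [Fintype P] [PartialOrder P] [DecidableEq P] {r i : ℕ} {e : P → ℕ}

variable {ι : Type*} [DecidableEq ι] {κ : P → ι} {K C : Finset P} {psi : P → P}

section basic

variable (H : Gr P r) (hir : i ≤ r) (hT : NoT P (i + 2)) (hg : ∀ m, m + 1 = i → Good P m)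
include H hir hT hg

/-- two bad elements on the two sides have different sites -/
lemma no_both (hM : Mat P i K psi) (hd : Disjoint (AL i e) (AU i e)) {y : P} (hy : y ∈ bL i e)
    (hK : y ∉ K) (h : psi y ∈ bU i e) : False := by
  obtain ⟨k1, k2, -, k4, -, -⟩ := bL_data H hir hT.noQ hg hy
  obtain ⟨p1, p2, -, p4⟩ := K2.psi_low hM (mem_dbL'.2 ⟨k1, k2⟩) hK
  have hl := mem_dbU'.1 p1
  have h1 : ns i (psi y) = ns i y := by
    rw [k4, ← p2]
    unfold ns
    rw [if_neg (by omega)]
  refine bad_ns_ne H hir hT.noQ hg hd (mem_union_right _ h) (mem_union_left _ hy) ?_ h1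
  intro h6
  rw [h6] at hl
  omega

/-- the site of a lower bad element which is full on the upper side -/
lemma up_full (hM : Mat P i K psi) (hd : Disjoint (AL i e) (AU i e)) {y x : P} (hy : y ∈ bL i e)
    (hx : x ∈ uc y) (hU : ∀ w ∈ uc x, BUx i e w) : y ∈ K := by
  by_contra hK
  obtain ⟨k1, k2, -, k4, -, -⟩ := bL_data H hir hT.noQ hg hy
  obtain ⟨p1, p2, -, p4⟩ := K2.psi_low hM (mem_dbL'.2 ⟨k1, k2⟩) hK
  refine no_both H hir hT hg hM hd hy hK (hU _ ?_).1
  rw [mem_uc, ← mem_dc, p2]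
  exact hx

/-- the label of the sites bounds a set of labelled sites -/
lemma card_lab {Y : Finset P} (hY : ∀ x ∈ Y, lev x = i ∧ 1 ≤ e x) :
    (Y.card : ℤ) ≤ ∑ x ∈ lv P i, (e x : ℤ) := by
  have h1 : Y.card ≤ ∑ x ∈ lv P i, e x := by
    rw [Finset.card_eq_sum_ones]
    refine le_trans (Finset.sum_le_sum (g := fun x => e x) fun x hx => (hY x hx).2) ?_
    exact Finset.sum_le_sum_of_subset fun x hx => mem_lv.2 (hY x hx).1
  exact_mod_cast h1

/-- a set of labelled sites with as many elements as the total label -/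
lemma lab_eq {Y : Finset P} (hY : ∀ x ∈ Y, lev x = i ∧ 1 ≤ e x)
    (hs : ∑ x ∈ lv P i, (e x : ℤ) ≤ Y.card) {x : P} (hx : lev x = i) (h1 : 1 ≤ e x) :
    x ∈ Y ∧ e x = 1 := by
  classical
  have hsub : Y ⊆ lv P i := fun x hx => mem_lv.2 (hY x hx).1
  have h2 : ∑ x ∈ lv P i, (e x : ℤ) = ∑ x ∈ lv P i \ Y, (e x : ℤ) + ∑ x ∈ Y, (e x : ℤ) :=
    (Finset.sum_sdiff hsub).symm
  have h3 : (Y.card : ℤ) ≤ ∑ x ∈ Y, (e x : ℤ) := by
    rw [Finset.card_eq_sum_ones]
    push_cast
    refine Finset.sum_le_sum fun x hx => ?_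
    have := (hY x hx).2
    omega
  have h4 : 0 ≤ ∑ x ∈ lv P i \ Y, (e x : ℤ) := Finset.sum_nonneg fun x _ => by positivity
  have h5 : ∑ x ∈ lv P i \ Y, (e x : ℤ) = 0 := by linarith
  have h6 : ∑ x ∈ Y, ((e x : ℤ) - 1) = 0 := by
    rw [Finset.sum_sub_distrib, Finset.sum_const, nsmul_eq_mul, mul_one]
    linarith
  have hxY : x ∈ Y := by
    by_contra hn
    have h7 := (Finset.sum_eq_zero_iff_of_nonneg fun x _ => by positivity).1 h5 x
      (mem_sdiff.2 ⟨mem_lv.2 hx, hn⟩)
    have : e x = 0 := by exact_mod_cast h7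
    omega
  refine ⟨hxY, ?_⟩
  have h7 := (Finset.sum_eq_zero_iff_of_nonneg (fun x hx => by
    have := (hY x hx).2
    have : (1 : ℤ) ≤ e x := by exact_mod_cast this
    linarith)).1 h6 x hxY
  have : (e x : ℤ) = 1 := by linarith
  exact_mod_cast this

lemma spt_pos (hs : Spt C e) {x : P} (h : 1 ≤ e x) : x ∈ C := by
  by_contra hx
  have := hs x hx
  omega

variable {ZL XL ZU XU : Finset P} {fL fU : P → P}

/-- the sum of the slacks is not negative, and at least the slack of one element -/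
lemma sum_sl (hL : AdmL i e) (hU : AdmU i e) (F : Full i K psi e ZL XL ZU XU fL fU) :
    0 ≤ ∑ z ∈ lS P i, slL i e ZL z ∧ 0 ≤ ∑ z ∈ uS P i, slU i e ZU z ∧
    (∀ z, i < lev z → slL i e ZL z ≤ ∑ z ∈ lS P i, slL i e ZL z) ∧
    (∀ z, lev z < i → slU i e ZU z ≤ ∑ z ∈ uS P i, slU i e ZU z) := by
  have h1 : ∀ z ∈ lS P i, 0 ≤ slL i e ZL z := fun z hz =>
    slL_nonneg H hT hL F.low (mem_lS.1 hz)
  have h2 : ∀ z ∈ uS P i, 0 ≤ slU i e ZU z := fun z hz =>
    slU_nonneg H hir hg hU F.upp (mem_uS.1 hz)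
  exact ⟨Finset.sum_nonneg h1, Finset.sum_nonneg h2,
    fun z hz => Finset.single_le_sum h1 (mem_lS.2 hz),
    fun z hz => Finset.single_le_sum h2 (mem_uS.2 hz)⟩

/-- deep elements and near single elements have slack -/
lemma sl_deep (hL : AdmL i e) (D : LowD i e ZL XL fL) {z : P} (h1 : 1 ≤ e z)
    (hz : i + 3 ≤ lev z ∨ (lev z = i + 1 ∧ (uc z).card = 1)) : 1 ≤ slL i e ZL z := by
  classical
  have S := K2.side_low (i := i) H hT.noQ
  have hnZ : z ∉ ZL := by
    intro h
    have := (D.zz z h).1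
    omega
  have hnb : z ∉ bd uc dc e (fun x : P => lev x - i) (lS P i) := by
    intro h
    rw [mem_bd] at h
    have h2 := (cc_eq_two S h.2.2.2.2).1
    have h3 := h.2.1
    rcases hz with h4 | h4
    · omega
    · omega
  unfold slL sl
  rw [if_neg hnZ, if_neg hnb, sub_zero, add_zero]
  rcases hz with h4 | h4
  · exact sur_pos S (adm_low hL) (mem_lS.2 (by omega)) (by omega) h1
  · have h5 := sur_single (c := uc) (c' := dc) (e := e) h4.2
    have : (1 : ℤ) ≤ e z := by exact_mod_cast h1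
    linarith

end basic

section nat

variable (H : Gr P r) (hir : i ≤ r) (hT : NoT P (i + 2)) (hg : ∀ m, m + 1 = i → Good P m)
include H hir hT hg

/-- THE BOUND on a part without unmatched elements -/
theorem nat_bound (hM : Mat P i K psi) (hL : AdmL i e) (hU : AdmU i e)
    (hd : Disjoint (AL i e) (AU i e)) (hs : Spt C e) (hK : ∀ k ∈ K, k ∉ C) :
    0 ≤ EE i e + (SK i K psi e).card ∧
    ((∃ s, lev s = i + 1 ∧ (uc s).card = 1 ∧ 1 ≤ e s) → 1 ≤ EE i e + (SK i K psi e).card) := by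
  classical
  obtain ⟨ZL, XL, ZU, XU, fL, fU, F⟩ := full_T H hir hT hg hM hL hU hd
  have hKe : ∀ y, 1 ≤ e y → y ∉ K := fun y h1 hy => hK y hy (spt_pos H hir hT hg hs h1)
  have hKB : KB i K e = ∅ := by
    rw [Finset.eq_empty_iff_forall_notMem]
    intro k hk
    rw [mem_KB] at hk
    have h7 : e k = 1 := by
      rcases hk.2 with h | h
      · exact (bL_data H hir hT.noQ hg h.1).2.2.1
      · exact (bU_data H hir hT.noQ hg h.1).2.2.1
    exact hKe k (by omega) hk.1
  have hdis : Disjoint XL XU := by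
    rw [disjoint_left]
    intro x hx hx'
    obtain ⟨l1, e1, ⟨y, hy⟩, h2, -⟩ := F.low.xx x hx
    obtain ⟨-, -, -, h3, -⟩ := F.upp.xx x hx'
    have hyb := (h2 y hy).1
    have := up_full H hir hT hg hM hd hyb (mem_uc.2 (mem_dc.1 hy)) h3
    exact hKe y (by rw [(bL_data H hir hT.noQ hg hyb).2.2.1]) this
  have h1 := card_lab H hir hT hg (e := e) (Y := XL ∪ XU) (i := i) (by
    intro x hx
    rcases mem_union.1 hx with h | h
    · exact ⟨(F.low.xx x h).1, (F.low.xx x h).2.1⟩
    · exact ⟨(F.upp.xx x h).1, (F.upp.xx x h).2.1⟩)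
  rw [card_union_of_disjoint hdis] at h1
  obtain ⟨s1, s2, s3, s4⟩ := sum_sl H hir hT hg hL hU F
  have h2 := F.ineq
  rw [hKB, card_empty] at h2
  push_cast at h1 h2
  refine ⟨by linarith, ?_⟩
  rintro ⟨s, a1, a2, a3⟩
  have h3 := sl_deep H hir hT hg hL F.low a3 (Or.inr ⟨a1, a2⟩)
  have h4 := s3 s (by omega)
  linarith

end nat

/-- the two unmatched elements of a part -/
structure Tw (i : ℕ) (C K : Finset P) (w0 y u x1 : P) : Prop where
  hK : ∀ k ∈ K, k ∈ C → k = y ∨ k = u
  ly : lev y = i + 1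
  lu : lev u + 1 = i
  ne : w0 ≠ y
  tw : uc w0 = uc y
  cy : x1 ∈ uc y
  cu : x1 ∈ dc u
  kid : ∀ z ∈ dc y, w0 ∈ uc z

section tw

variable (H : Gr P r) (hir : i ≤ r) (hT : NoT P (i + 2)) (hg : ∀ m, m + 1 = i → Good P m)
include H hir hT hg

variable {w0 y u x1 : P} (W : Tw i C K w0 y u x1)
include W

/-- excited twins are not bad -/
lemma twin_not (h0 : 1 ≤ e w0) (hy : 1 ≤ e y) : y ∉ bL i e ∧ w0 ∉ bL i e := by
  constructor
  · intro h
    obtain ⟨-, -, -, h4, ⟨a, ha, ha0⟩, h6⟩ := bL_data H hir hT.noQ hg h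
    have h7 := h6 a ha ha0
    rw [h4, ← W.tw] at ha
    have h8 : w0 ∈ kr dc e a := mem_kr.2 ⟨mem_dc.2 (mem_uc.1 ha), by omega⟩
    rw [h7, mem_singleton] at h8
    exact W.ne h8
  · intro h
    obtain ⟨-, -, -, h4, ⟨a, ha, ha0⟩, h6⟩ := bL_data H hir hT.noQ hg h
    have h7 := h6 a ha ha0
    rw [h4, W.tw] at ha
    have h8 : y ∈ kr dc e a := mem_kr.2 ⟨mem_dc.2 (mem_uc.1 ha), by omega⟩
    rw [h7, mem_singleton] at h8
    exact W.ne h8.symm

lemma not_BLx (hL : AdmL i e) : ¬ BLx i e y := by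
  rintro ⟨hb, z, hz, hz1⟩
  obtain ⟨-, -, ey, -⟩ := bL_data H hir hT.noQ hg hb
  have h1 := W.kid z hz
  have h2 := lev_dc H hz
  have hly := W.ly
  have h3 : 1 ≤ e w0 := exc_le H hL hz1 (mem_uc.1 h1).le (by
    have := lev_uc H h1
    omega)
  exact (twin_not H hir hT hg W h3 (by omega)).1 hb

lemma KB_sub (hs : Spt C e) {k : P} (hk : k ∈ KB i K e) :
    (k = y ∧ y ∈ bL i e ∧ ∀ z ∈ dc y, e z = 0) ∨ (k = u ∧ u ∈ bU i e ∧ ∀ z ∈ uc u, e z = 0) := by
  have hly := W.ly
  have hlu := W.lu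
  rw [mem_KB] at hk
  obtain ⟨h1, h2⟩ := hk
  have h7 : e k = 1 := by
    rcases h2 with h | h
    · exact (bL_data H hir hT.noQ hg h.1).2.2.1
    · exact (bU_data H hir hT.noQ hg h.1).2.2.1
  have h8 := W.hK k h1 (spt_pos H hir hT hg hs (by omega))
  rcases h8 with rfl | rfl
  · left
    rcases h2 with h | h
    · exact ⟨rfl, h⟩
    · have := (bU_data H hir hT.noQ hg h.1).1
      omega
  · right
    rcases h2 with h | h
    · have := (bL_data H hir hT.noQ hg h.1).1
      omega
    · exact ⟨rfl, h⟩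

variable {ZL XL ZU XU : Finset P} {fL fU : P → P}

lemma tw_dis (hM : Mat P i K psi) (hL : AdmL i e) (hd : Disjoint (AL i e) (AU i e)) (hs : Spt C e)
    (F : Full i K psi e ZL XL ZU XU fL fU) : Disjoint XL XU := by
  have hlu := W.lu
  rw [disjoint_left]
  intro x hx hx'
  obtain ⟨l1, e1, ⟨v, hv⟩, h2, -⟩ := F.low.xx x hx
  obtain ⟨-, -, -, h3, -⟩ := F.upp.xx x hx'
  have hvb := (h2 v hv).1
  obtain ⟨v1, -, v3, -⟩ := bL_data H hir hT.noQ hg hvb
  have h4 := up_full H hir hT hg hM hd hvb (mem_uc.2 (mem_dc.1 hv)) h3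
  rcases W.hK v h4 (spt_pos H hir hT hg hs (by omega)) with rfl | rfl
  · exact not_BLx H hir hT hg W hL (h2 v hv)
  · omega

/-- the count of the labelled sites -/
lemma tw_lab (hM : Mat P i K psi) (hL : AdmL i e) (hd : Disjoint (AL i e) (AU i e)) (hs : Spt C e)
    (F : Full i K psi e ZL XL ZU XU fL fU) {Y : Finset P}
    (hY : ∀ x ∈ Y, lev x = i ∧ 1 ≤ e x ∧ x ∉ XL ∧ x ∉ XU) :
    (XL.card : ℤ) + XU.card + Y.card ≤ ∑ x ∈ lv P i, (e x : ℤ) := by
  classical
  have hdis := tw_dis H hir hT hg W hM hL hd hs F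
  have h1 := card_lab H hir hT hg (e := e) (Y := (XL ∪ XU) ∪ Y) (i := i) (by
    intro x hx
    rcases mem_union.1 hx with h | h
    · rcases mem_union.1 h with h | h
      · exact ⟨(F.low.xx x h).1, (F.low.xx x h).2.1⟩
      · exact ⟨(F.upp.xx x h).1, (F.upp.xx x h).2.1⟩
    · exact ⟨(hY x h).1, (hY x h).2.1⟩)
  rw [card_union_of_disjoint, card_union_of_disjoint hdis] at h1
  · push_cast at h1
    exact h1
  · rw [disjoint_left]
    intro x hx hx'
    have := hY x hx'
    rcases mem_union.1 hx with h | h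
    · exact this.2.2.1 h
    · exact this.2.2.2 h

/-- the common site of the two unmatched elements, both bad -/
lemma tw_both (hM : Mat P i K psi) (hL : AdmL i e) (hd : Disjoint (AL i e) (AU i e)) (hs : Spt C e)
    (F : Full i K psi e ZL XL ZU XU fL fU) (hy : 1 ≤ e y) (hu : u ∈ bU i e)
    (hu0 : ∀ z ∈ uc u, e z = 0) : lev x1 = i ∧ 1 ≤ e x1 ∧ x1 ∉ XL ∧ x1 ∉ XU := by
  have hly := W.ly
  have l1 := lev_uc H W.cy
  refine ⟨by omega, ?_, ?_, ?_⟩
  · by_contra h
    have h0 : e x1 = 0 := by omega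
    obtain ⟨-, -, eu, -, -, -⟩ := bU_data H hir hT.noQ hg hu
    have h5 : x1 ∈ AL i e := by
      rw [NormD_mem_AL]
      exact ⟨by omega, y, mem_uc.1 W.cy, by omega⟩
    have h6 : x1 ∈ AU i e := by
      rw [NormD_mem_AU]
      exact ⟨by omega, u, mem_dc.1 W.cu, by omega⟩
    exact disjoint_left.1 hd h5 h6
  · intro h
    exact not_BLx H hir hT hg W hL ((F.low.xx x1 h).2.2.2.1 y (mem_dc.2 (mem_uc.1 W.cy)))
  · intro h
    obtain ⟨-, z, hz, hz1⟩ := (F.upp.xx x1 h).2.2.2.1 u (mem_uc.2 (mem_dc.1 W.cu))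
    have := hu0 z hz
    omega

/-- the number of the sites of the two unmatched elements -/
lemma tw_star (hM : Mat P i K psi) (hL : AdmL i e) (hd : Disjoint (AL i e) (AU i e)) (hs : Spt C e)
    (F : Full i K psi e ZL XL ZU XU fL fU) :
    ((KB i K e).card : ℤ) + XL.card + XU.card ≤ ∑ x ∈ lv P i, (e x : ℤ) + 1 ∧
    (1 ≤ e w0 → 1 ≤ e y →
      ((KB i K e).card : ℤ) + XL.card + XU.card ≤ ∑ x ∈ lv P i, (e x : ℤ)) := by
  classical
  have h0 := tw_lab H hir hT hg W hM hL hd hs F (Y := ∅) (fun x hx => absurd hx (notMem_empty x))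
  rw [card_empty] at h0
  push_cast at h0
  rcases Nat.lt_or_ge (KB i K e).card 1 with hc | hc
  · have : (KB i K e).card = 0 := by omega
    rw [this]
    push_cast
    exact ⟨by linarith, fun _ _ => by linarith⟩
  · by_cases hyK : y ∈ KB i K e
    · obtain ⟨-, hyb, hy0⟩ := (KB_sub H hir hT hg W hs hyK).resolve_right (by
        rintro ⟨h, -⟩
        have h8 := W.ly
        have h9 := W.lu
        rw [h] at h8
        omega)
      have ey := (bL_data H hir hT.noQ hg hyb).2.2.1
      refine ⟨?_, fun h1 h2 => absurd hyb (twin_not H hir hT hg W h1 h2).1⟩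
      by_cases huK : u ∈ KB i K e
      · obtain ⟨-, hub, hu0⟩ := (KB_sub H hir hT hg W hs huK).resolve_left (by
          rintro ⟨h, -⟩
          have h8 := W.ly
          have h9 := W.lu
          rw [← h] at h8
          omega)
        have h1 := tw_lab H hir hT hg W hM hL hd hs F (Y := {x1}) (fun x hx => by
          rw [mem_singleton] at hx
          subst hx
          exact tw_both H hir hT hg W hM hL hd hs F (by omega) hub hu0)
        rw [card_singleton] at h1
        have h2 : (KB i K e).card ≤ 2 := by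
          refine (card_le_card (t := {y, u}) ?_).trans card_le_two
          intro k hk
          rw [mem_insert, mem_singleton]
          rcases KB_sub H hir hT hg W hs hk with h | h
          · exact Or.inl h.1
          · exact Or.inr h.1
        have h3 : ((KB i K e).card : ℤ) ≤ 2 := by exact_mod_cast h2
        push_cast at h1
        linarith
      · have h2 : (KB i K e).card ≤ 1 := by
          refine (card_le_card (t := {y}) ?_).trans (card_singleton y).le
          intro k hk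
          rw [mem_singleton]
          rcases KB_sub H hir hT hg W hs hk with h | h
          · exact h.1
          · rw [h.1] at hk
            exact absurd hk huK
        have h3 : ((KB i K e).card : ℤ) ≤ 1 := by exact_mod_cast h2
        linarith
    · have h2 : (KB i K e).card ≤ 1 := by
        refine (card_le_card (t := {u}) ?_).trans (card_singleton u).le
        intro k hk
        rw [mem_singleton]
        rcases KB_sub H hir hT hg W hs hk with h | h
        · rw [h.1] at hk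
          exact absurd hk hyK
        · exact h.1
      have h3 : ((KB i K e).card : ℤ) ≤ 1 := by exact_mod_cast h2
      refine ⟨by linarith, fun h4 h5 => ?_⟩
      obtain ⟨k, hk⟩ := card_pos.1 (by omega : 0 < (KB i K e).card)
      rcases KB_sub H hir hT hg W hs hk with h | ⟨h6, hub, hu0⟩
      · rw [h.1] at hk
        exact absurd hk hyK
      · have h1 := tw_lab H hir hT hg W hM hL hd hs F (Y := {x1}) (fun x hx => by
          rw [mem_singleton] at hx
          subst hx
          exact tw_both H hir hT hg W hM hL hd hs F h5 hub hu0)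
        rw [card_singleton] at h1
        push_cast at h1
        linarith

/-- THE BOUND on a part with two unmatched elements -/
theorem tw_bound (hM : Mat P i K psi) (hL : AdmL i e) (hU : AdmU i e)
    (hd : Disjoint (AL i e) (AU i e)) (hs : Spt C e) :
    -1 ≤ EE i e + (SK i K psi e).card ∧
    ((∃ z, 1 ≤ e z ∧ (i + 3 ≤ lev z ∨ (lev z = i + 1 ∧ (uc z).card = 1))) →
      0 ≤ EE i e + (SK i K psi e).card) ∧
    (1 ≤ e w0 → 1 ≤ e y → 0 ≤ EE i e + (SK i K psi e).card) := by
  classical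
  obtain ⟨ZL, XL, ZU, XU, fL, fU, F⟩ := full_T H hir hT hg hM hL hU hd
  obtain ⟨s1, s2, s3, s4⟩ := sum_sl H hir hT hg hL hU F
  obtain ⟨t1, t2⟩ := tw_star H hir hT hg W hM hL hd hs F
  have h2 := F.ineq
  refine ⟨by linarith, ?_, ?_⟩
  · rintro ⟨z, a1, a2⟩
    have h3 := sl_deep H hir hT hg hL F.low a1 a2
    have h4 := s3 z (by omega)
    linarith
  · intro a1 a2
    have := t2 a1 a2
    linarith

end tw

end Pool.Agent.GaussPoset.Win.H2
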