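import Pool.Agent.W_448h2_h63.HD

/-!
# The block of two doubles with a common child (MP_448cb3_co, case B, Route T, block H)
-/

namespace Pool.Agent.GaussPoset.Win.H2

set_option linter.unusedSectionVars false

open Finset I2 K2

universe u

variable {P : Type u} [Fintype P] [PartialOrder P] [DecidableEq P] {r i : ℕ} {e : P → ℕ}

variable {ι : Type*} [DecidableEq ι] {κ : P → ι} {K C : Finset P} {psi : P → P}

lemma slL_Z {Z : Finset P} {z : P} (h1 : z ∈ Z) (h2 : z ∉ bL i e) :
    slL i e Z z = sur uc dc e z - 1 := by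
  classical
  unfold slL sl
  unfold bL at h2
  rw [if_pos h1, if_neg h2, add_zero]

lemma slL_b {Z : Finset P} {z : P} (h1 : z ∉ Z) (h2 : z ∈ bL i e) :
    slL i e Z z = sur uc dc e z + 1 := by
  classical
  unfold slL sl
  unfold bL at h2
  rw [if_neg h1, if_pos h2, sub_zero]

lemma slL_n {Z : Finset P} {z : P} (h1 : z ∉ Z) (h2 : z ∉ bL i e) :
    slL i e Z z = sur uc dc e z := by
  classical
  unfold slL sl
  unfold bL at h2
  rw [if_neg h1, if_neg h2, sub_zero, add_zero]

/-- equality in the bound of a part with two unmatched elements -/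
structure Tight (i : ℕ) (K : Finset P) (e : P → ℕ) (ZL XL ZU XU : Finset P) (y u x1 : P) :
    Prop where
  l0 : ∀ z, i < lev z → slL i e ZL z = 0
  u0 : ∀ z, lev z < i → slU i e ZU z = 0
  lab : ∀ x, lev x = i → 1 ≤ e x → e x = 1 ∧ (x ∈ XL ∨ x ∈ XU ∨ x = x1)
  kb : (KB i K e).Nonempty

section blk

variable (H : Gr P r) (hir : i ≤ r) (hT : NoT P (i + 2)) (hg : ∀ m, m + 1 = i → Good P m)
include H hir hT hg

variable {w0 y u x1 : P} {ZL XL ZU XU : Finset P} {fL fU : P → P}

theorem tight_of (W : Tw i C K w0 y u x1) (hM : Mat P i K psi) (hL : AdmL i e) (hU : AdmU i e)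
    (hd : Disjoint (AL i e) (AU i e)) (hs : Spt C e) (F : Full i K psi e ZL XL ZU XU fL fU)
    (hlt : EE i e + (SK i K psi e).card < 0) : Tight i K e ZL XL ZU XU y u x1 := by
  classical
  obtain ⟨s1, s2, s3, s4⟩ := sum_sl H hir hT hg hL hU F
  obtain ⟨t1, t2⟩ := tw_star H hir hT hg W hM hL hd hs F
  have h2 := F.ineq
  have q1 : ∑ z ∈ lS P i, slL i e ZL z = 0 := by linarith
  have q2 : ∑ z ∈ uS P i, slU i e ZU z = 0 := by linarith
  have q3 : ∑ x ∈ lv P i, (e x : ℤ) + 1 = ((KB i K e).card : ℤ) + XL.card + XU.card := by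
    linarith
  have h0 := tw_lab H hir hT hg W hM hL hd hs F (Y := ∅) (fun x hx => absurd hx (notMem_empty x))
  rw [card_empty] at h0
  push_cast at h0
  have hne : (KB i K e).Nonempty := by
    rw [← card_pos]
    have : (0 : ℤ) < (KB i K e).card := by linarith
    exact_mod_cast this
  have hdis := tw_dis H hir hT hg W hM hL hd hs F
  refine ⟨?_, ?_, ?_, hne⟩
  · intro z hz
    have a1 := s3 z hz
    have a2 := slL_nonneg H hT hL F.low hz
    linarith
  · intro z hz
    have a1 := s4 z hz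
    have a2 := slU_nonneg H hir hg hU F.upp hz
    linarith
  · have hb : ∀ x ∈ XL ∪ XU, lev x = i ∧ 1 ≤ e x := by
      intro x hx
      rcases mem_union.1 hx with h | h
      · exact ⟨(F.low.xx x h).1, (F.low.xx x h).2.1⟩
      · exact ⟨(F.upp.xx x h).1, (F.upp.xx x h).2.1⟩
    rcases Nat.lt_or_ge (KB i K e).card 2 with hc | hc
    · have hc' : ((KB i K e).card : ℤ) ≤ 1 := by
        have : (KB i K e).card ≤ 1 := by omega
        exact_mod_cast this
      intro x hx h1
      have h3 := lab_eq H hir hT hg (e := e) (Y := XL ∪ XU) hb (by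
        rw [card_union_of_disjoint hdis]
        push_cast
        linarith) hx h1
      refine ⟨h3.2, ?_⟩
      rcases mem_union.1 h3.1 with h | h
      · exact Or.inl h
      · exact Or.inr (Or.inl h)
    · obtain ⟨k, hk, k', hk', hkk⟩ := Finset.one_lt_card.1 (by omega : 1 < (KB i K e).card)
      have hboth : (y ∈ bL i e ∧ ∀ z ∈ dc y, e z = 0) ∧ (u ∈ bU i e ∧ ∀ z ∈ uc u, e z = 0) := by
        rcases KB_sub H hir hT hg W hs hk with ⟨h, h1⟩ | ⟨h, h1⟩ <;>
          rcases KB_sub H hir hT hg W hs hk' with ⟨h', h1'⟩ | ⟨h', h1'⟩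
        · exact absurd (h.trans h'.symm) hkk
        · exact ⟨h1, h1'⟩
        · exact ⟨h1', h1⟩
        · exact absurd (h.trans h'.symm) hkk
      have ey := (bL_data H hir hT.noQ hg hboth.1.1).2.2.1
      obtain ⟨c1, c2, c3, c4⟩ := tw_both H hir hT hg W hM hL hd hs F (by omega) hboth.2.1
        hboth.2.2
      have h2 : (KB i K e).card ≤ 2 := by
        refine (card_le_card (t := {y, u}) ?_).trans card_le_two
        intro k hk
        rw [mem_insert, mem_singleton]
        rcases KB_sub H hir hT hg W hs hk with h | h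
        · exact Or.inl h.1
        · exact Or.inr h.1
      have hc' : ((KB i K e).card : ℤ) ≤ 2 := by exact_mod_cast h2
      have hdis' : Disjoint (XL ∪ XU) {x1} := by
        rw [disjoint_singleton_right, mem_union]
        rintro (h | h)
        · exact c3 h
        · exact c4 h
      intro x hx h1
      have h3 := lab_eq H hir hT hg (e := e) (Y := (XL ∪ XU) ∪ {x1}) (by
        intro x hx
        rcases mem_union.1 hx with h | h
        · exact hb x h
        · rw [mem_singleton] at h
          subst h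
          exact ⟨c1, c2⟩) (by
        rw [card_union_of_disjoint hdis', card_union_of_disjoint hdis, card_singleton]
        push_cast
        linarith) hx h1
      refine ⟨h3.2, ?_⟩
      rcases mem_union.1 h3.1 with h | h
      · rcases mem_union.1 h with h | h
        · exact Or.inl h
        · exact Or.inr (Or.inl h)
      · exact Or.inr (Or.inr (mem_singleton.1 h))

/-- the block of two doubles with a common child -/
structure Bk (i : ℕ) (K : Finset P) (x1 p q l m s : P) : Prop where
  lp : lev p = i + 1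
  ne : p ≠ q
  kp : p ∉ K
  kq : q ∉ K
  ucp : uc p = {l, m}
  ucq : uc q = {m, s}
  dcm : dc m = {p, q}
  lm : l ≠ m
  sm : s ≠ m
  ls : l ≠ s
  mx : m ≠ x1

lemma Bk.symm {p q l m s : P} (B : Bk i K x1 p q l m s) (hlq : lev q = i + 1) :
    Bk i K x1 q p s m l where
  lp := hlq
  ne := B.ne.symm
  kp := B.kq
  kq := B.kp
  ucp := by rw [B.ucq, pair_comm]
  ucq := by rw [B.ucp, pair_comm]
  dcm := by rw [B.dcm, pair_comm]
  lm := B.sm
  sm := B.lm
  ls := B.ls.symm
  mx := B.mx

omit hir hT hg in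
lemma pair_uc {p l m x : P} (h : uc p = {l, m}) : x ∈ uc p ↔ x = l ∨ x = m := by
  rw [h, mem_insert, mem_singleton]

/-- the extremal states of the block -/
structure BT (d p q l m s : P) (e : P → ℕ) : Prop where
  p1 : e p = 1
  q1 : e q = 1
  l0 : e l = 0
  s0 : e s = 0
  o0 : ∀ d', d' ≠ d → (d' ⋖ p ∨ d' ⋖ q) → e d' = 0
  v0 : ∀ v, m ⋖ v → e v = 0
  dm : (e d = 2 ∧ e m = 0) ∨ (e d = 1 ∧ e m = 1)

/-- a bad element does not share a site with label zero with an excited element -/
lemma bad_zero {b s w : P} (hb : b ∈ bL i e) (hs : s ∈ uc b) (h0 : e s = 0) (hw : w ∈ dc s)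
    (hne : w ≠ b) (h1 : 1 ≤ e w) : False := by
  obtain ⟨-, -, -, h4, -, h6⟩ := bL_data H hir hT.noQ hg hb
  have h7 := h6 s (by rw [h4]; exact hs) h0
  have h8 : w ∈ kr dc e s := mem_kr.2 ⟨hw, by omega⟩
  rw [h7, mem_singleton] at h8
  exact hne h8

lemma exc_cov (hL : AdmL i e) {z a : P} (hz : i + 2 ≤ lev z) (h1 : 1 ≤ e z) (ha : a ∈ uc z) :
    1 ≤ e a := by
  have := lev_uc H ha
  exact exc_le H hL h1 (mem_uc.1 ha).le (by omega)

/-- an element of level `i + 2` with label one pays for a bad element -/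
lemma one_pay (hL : AdmL i e) (D : LowD i e ZL XL fL) (h0 : ∀ z, i < lev z → slL i e ZL z = 0)
    {z : P} (hz : lev z = i + 2) (h1 : e z = 1) : ∃ b, BLx i e b ∧ fL b = z ∧ b ∈ uc z := by
  classical
  have hnk : ¬ kl uc e z := by
    rintro ⟨a, ha, hlt⟩
    have := exc_cov H hir hT hg hL (by omega) (by omega) ha
    omega
  have hs : sur uc dc e z = 1 := by
    unfold sur
    rw [if_neg hnk, h1]
    norm_num
  have hb : z ∉ bL i e := by
    intro h
    have := (bL_data H hir hT.noQ hg h).1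
    omega
  have hZ : z ∈ ZL := by
    by_contra hn
    have h2 := h0 z (by omega)
    rw [slL_n hn hb, hs] at h2
    omega
  obtain ⟨-, -, -, b, b1, b2⟩ := D.zz z hZ
  refine ⟨b, b1, b2, ?_⟩
  have h3 := (D.fy b b1).2
  rw [b2] at h3
  exact mem_uc.2 (mem_dc.1 h3)

variable {p q l m s d : P}

lemma Bk.lq (B : Bk i K x1 p q l m s) : lev q = i + 1 := by
  have h1 : m ∈ uc p := by rw [B.ucp]; simp
  have h2 : m ∈ uc q := by rw [B.ucq]; simp
  have h3 := lev_uc H h1
  have h4 := lev_uc H h2
  have := B.lp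
  omega

/-- the killer case: no cover has a label larger than one -/
lemma blk_le (B : Bk i K x1 p q l m s) (hL : AdmL i e) (D : LowD i e ZL XL fL)
    (h0 : ∀ z, i < lev z → slL i e ZL z = 0) (hud : uc d = {p, q}) (ed : e d = 2)
    (hcc : cc uc dc e d = 2) (hk : kl uc e d) : e p ≤ 1 := by
  classical
  have S := K2.side_low (i := i) H hT.noQ
  have hlp := B.lp
  have hlq := B.lq H hir hT hg
  have hpd : p ∈ uc d := by rw [hud]; simp
  have hqd : q ∈ uc d := by rw [hud]; simp
  have hld := lev_uc H hpd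
  have hq1 := exc_cov H hir hT hg hL (z := d) (by omega) (by omega) hqd
  by_contra hp2
  obtain ⟨a, ha, hlt⟩ := hk
  rw [hud, mem_insert, mem_singleton] at ha
  rcases ha with rfl | rfl
  · omega
  · have hma : m ∈ uc a := by rw [B.ucq]; simp
    have hmp : m ∈ uc p := by rw [B.ucp]; simp
    have hkd : kd dc e a := ⟨d, mem_dc.2 (mem_uc.1 hqd), by omega⟩
    have em : e m < e a := not_gu_of_kd (adm_low hL) (mem_lS.2 (by omega)) hkd m hma
    have hpZ : p ∉ ZL := by
      intro h
      have := (D.zz p h).1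
      omega
    have hpb : p ∉ bL i e := by
      intro h
      have := (bL_data H hir hT.noQ hg h).2.2.1
      omega
    have h2 := h0 p (by omega)
    rw [slL_n hpZ hpb] at h2
    have hkp : kl uc e p := ⟨m, hmp, by omega⟩
    unfold sur at h2
    rw [if_pos hkp] at h2
    have h3 := cc_le_two (e := e) S p
    have h4 : (2 : ℤ) ≤ e p := by exact_mod_cast (by omega : 2 ≤ e p)
    have h5 : cc uc dc e p = 2 := by linarith
    have h6 := (cc_eq_two S h5).2 m hmp (by omega)
    rw [Finset.card_eq_one] at h6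
    obtain ⟨w, hw⟩ := h6
    have h7 : p ∈ kr dc e m := mem_kr.2 ⟨mem_dc.2 (mem_uc.1 hmp), by omega⟩
    have h8 : a ∈ kr dc e m := mem_kr.2 ⟨mem_dc.2 (mem_uc.1 hma), by omega⟩
    rw [hw, mem_singleton] at h7 h8
    exact B.ne (h7.trans h8.symm)

/-- the killer does not pay -/
lemma blk_nZ (B : Bk i K x1 p q l m s) (hL : AdmL i e) (hud : uc d = {p, q})
    (ed : 2 ≤ e d) (hb : p ∈ bL i e) : False := by
  have hlp := B.lp
  have hlq := B.lq H hir hT hg
  have hpd : p ∈ uc d := by rw [hud]; simp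
  have hqd : q ∈ uc d := by rw [hud]; simp
  have hld := lev_uc H hpd
  have hq1 := exc_cov H hir hT hg hL (z := d) (by omega) (by omega) hqd
  have ep := (bL_data H hir hT.noQ hg hb).2.2.1
  have hmp : m ∈ uc p := by rw [B.ucp]; simp
  have hmq : m ∈ uc q := by rw [B.ucq]; simp
  have hkd : kd dc e p := ⟨d, mem_dc.2 (mem_uc.1 hpd), by omega⟩
  have em : e m < e p := not_gu_of_kd (adm_low hL) (mem_lS.2 (by omega)) hkd m hmp
  exact bad_zero H hir hT hg hb hmp (by omega) (mem_dc.2 (mem_uc.1 hmq)) B.ne.symm hq1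

/-- the other children of `p` in the killer case -/
lemma blk_o1 (B : Bk i K x1 p q l m s) (hL : AdmL i e) (D : LowD i e ZL XL fL)
    (h0 : ∀ z, i < lev z → slL i e ZL z = 0) (hud : uc d = {p, q}) (ed : e d = 2)
    (hcc : cc uc dc e d = 2) (ep : e p = 1) (eq : e q = 1) (el : e l = 0) (em : e m = 0)
    {d' : P} (hne : d' ≠ d) (hd' : d' ⋖ p) : e d' = 0 := by
  classical
  have S := K2.side_low (i := i) H hT.noQ
  have hlp := B.lp
  have hpd : p ∈ uc d := by rw [hud]; simp
  have hpd' : p ∈ uc d' := mem_uc.2 hd'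
  have hld' := lev_uc H hpd'
  have hmp : m ∈ uc p := by rw [B.ucp]; simp
  have hmq : m ∈ uc q := by rw [B.ucq]; simp
  by_contra hn
  have h1 : e d' = 1 := by
    by_contra h2
    have h3 := (cc_eq_two S hcc).2 p hpd (by omega)
    rw [Finset.card_eq_one] at h3
    obtain ⟨w, hw⟩ := h3
    have h7 : d ∈ kr dc e p := mem_kr.2 ⟨mem_dc.2 (mem_uc.1 hpd), by omega⟩
    have h8 : d' ∈ kr dc e p := mem_kr.2 ⟨mem_dc.2 hd', by omega⟩
    rw [hw, mem_singleton] at h7 h8
    exact hne (h8.trans h7.symm)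
  obtain ⟨b, b1, b2, b3⟩ := one_pay H hir hT hg hL D h0 (by omega) h1
  by_cases hbp : b = p
  · subst hbp
    exact bad_zero H hir hT hg b1.1 hmp em (mem_dc.2 (mem_uc.1 hmq)) B.ne.symm (by omega)
  · have hb2 := (bL_data H hir hT.noQ hg b1.1).2.1
    obtain ⟨s', hs1, hs2⟩ := hT d' (by omega) b b3 p hpd' hbp hb2
    have hs0 : e s' = 0 := by
      rcases (pair_uc H B.ucp).1 hs2 with h | h <;> rw [h] <;> assumption
    exact bad_zero H hir hT hg b1.1 hs1 hs0 (mem_dc.2 (mem_uc.1 hs2)) (Ne.symm hbp) (by omega)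

/-- the free case: the middle site -/
lemma blk_mid (B : Bk i K x1 p q l m s) (hM : Mat P i K psi) (hL : AdmL i e)
    (hd : Disjoint (AL i e) (AU i e)) (F : Full i K psi e ZL XL ZU XU fL fU)
    (hlab : ∀ x, lev x = i → 1 ≤ e x → e x = 1 ∧ (x ∈ XL ∨ x ∈ XU ∨ x = x1))
    (hq1 : 1 ≤ e q) (hb : BLx i e p) (hf : fL p = d) :
    e m = 1 ∧ BLx i e q ∧ fL q = d := by
  have hlp := B.lp
  have hmp : m ∈ uc p := by rw [B.ucp]; simp
  have hmq : m ∈ uc q := by rw [B.ucq]; simp
  have hlm := lev_uc H hmp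
  have em : 1 ≤ e m := by
    by_contra hn
    exact bad_zero H hir hT hg hb.1 hmp (by omega) (mem_dc.2 (mem_uc.1 hmq)) B.ne.symm hq1
  obtain ⟨h1, h2⟩ := hlab m (by omega) em
  have h3 : m ∈ XL := by
    rcases h2 with h | h | h
    · exact h
    · exact absurd (up_full H hir hT hg hM hd hb.1 hmp (F.upp.xx m h).2.2.2.1) B.kp
    · exact absurd h B.mx
  obtain ⟨-, -, -, h4, z, -, h5⟩ := F.low.xx m h3
  have hq : q ∈ dc m := mem_dc.2 (mem_uc.1 hmq)
  have hp : p ∈ dc m := mem_dc.2 (mem_uc.1 hmp)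
  exact ⟨h1, h4 q hq, by rw [h5 q hq, ← h5 p hp, hf]⟩

/-- the other children of `p` in the free case -/
lemma blk_o2 (B : Bk i K x1 p q l m s) (hL : AdmL i e) (D : LowD i e ZL XL fL)
    (h0 : ∀ z, i < lev z → slL i e ZL z = 0) (hp : BLx i e p) (hfp : fL p = d)
    (hfq : fL q = d) (em : e m = 1) (el : e l = 0)
    {d' : P} (hne : d' ≠ d) (hd' : d' ⋖ p) : e d' = 0 := by
  classical
  have hlp := B.lp
  have hpd' : p ∈ uc d' := mem_uc.2 hd'
  have hld' := lev_uc H hpd'
  have hmp : m ∈ uc p := by rw [B.ucp]; simp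
  have ep := (bL_data H hir hT.noQ hg hp.1).2.2.1
  by_contra hn
  have h1 : e d' = 1 := by
    by_contra h2
    exact hL p (by omega) ⟨⟨d', hd', by omega⟩, m, mem_uc.1 hmp, by omega⟩
  obtain ⟨b, b1, b2, b3⟩ := one_pay H hir hT hg hL D h0 (by omega) h1
  have hbp : b ≠ p := by
    rintro rfl
    exact hne (b2.symm.trans hfp)
  have hb2 := (bL_data H hir hT.noQ hg b1.1).2.1
  obtain ⟨s', hs1, hs2⟩ := hT d' (by omega) b b3 p hpd' hbp hb2
  rcases (pair_uc H B.ucp).1 hs2 with h | h
  · exact bad_zero H hir hT hg b1.1 hs1 (by rw [h]; exact el) (mem_dc.2 (mem_uc.1 hs2))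
      (Ne.symm hbp) (by omega)
  · have h3 : b ∈ dc m := by
      rw [← h]
      exact mem_dc.2 (mem_uc.1 hs1)
    rw [B.dcm, mem_insert, mem_singleton] at h3
    rcases h3 with h3 | h3
    · exact hbp h3
    · rw [h3, hfq] at b2
      exact hne b2.symm

/-- the zero site of a bad element whose other site is labelled -/
lemma blk_end (B : Bk i K x1 p q l m s) (hp : BLx i e p) (em : e m = 1) : e l = 0 := by
  obtain ⟨-, -, -, h4, ⟨a, ha, ha0⟩, -⟩ := bL_data H hir hT.noQ hg hp.1
  rw [h4] at ha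
  rcases (pair_uc H B.ucp).1 ha with h | h
  · rw [← h]
    exact ha0
  · rw [h] at ha0
    omega

/-- THE EXTREMAL STATES OF THE BLOCK -/
theorem blk_tight (B : Bk i K x1 p q l m s) (hM : Mat P i K psi) (hL : AdmL i e)
    (hd : Disjoint (AL i e) (AU i e)) (F : Full i K psi e ZL XL ZU XU fL fU)
    (T : Tight i K e ZL XL ZU XU y u x1) (hud : uc d = {p, q}) (he : 1 ≤ e d) :
    BT d p q l m s e := by
  classical
  have S := K2.side_low (i := i) H hT.noQ
  have hlp := B.lp
  have hlq := B.lq H hir hT hg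
  have B' := B.symm H hir hT hg hlq
  have hpd : p ∈ uc d := by rw [hud]; simp
  have hqd : q ∈ uc d := by rw [hud]; simp
  have hud' : uc d = {q, p} := by rw [hud, pair_comm]
  have hld := lev_uc H hpd
  have hp1 := exc_cov H hir hT hg hL (z := d) (by omega) he hpd
  have hq1 := exc_cov H hir hT hg hL (z := d) (by omega) he hqd
  have hmp : m ∈ uc p := by rw [B.ucp]; simp
  have hmq : m ∈ uc q := by rw [B.ucq]; simp
  have hlp' : l ∈ uc p := by rw [B.ucp]; simp
  have hsq' : s ∈ uc q := by rw [B.ucq]; simp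
  have hlm := lev_uc H hmp
  have hll := lev_uc H hlp'
  have hls := lev_uc H hsq'
  have hdb : d ∉ bL i e := by
    intro h
    have := (bL_data H hir hT.noQ hg h).1
    omega
  by_cases hk : kl uc e d
  · have ed : 2 ≤ e d := by
      obtain ⟨a, ha, hlt⟩ := hk
      have := exc_cov H hir hT hg hL (z := d) (by omega) he ha
      omega
    have hdZ : d ∉ ZL := by
      intro h
      obtain ⟨-, -, -, b, b1, b2⟩ := F.low.zz d h
      have h3 := (F.low.fy b b1).2
      rw [b2, mem_dc] at h3
      have h4 : b ∈ uc d := mem_uc.2 h3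
      rw [hud, mem_insert, mem_singleton] at h4
      rcases h4 with rfl | rfl
      · exact blk_nZ H hir hT hg B hL hud ed b1.1
      · exact blk_nZ H hir hT hg B' hL hud' ed b1.1
    have h2 := T.l0 d (by omega)
    rw [slL_n hdZ hdb] at h2
    unfold sur at h2
    rw [if_pos hk] at h2
    have h3 := cc_le_two (e := e) S d
    have h4 : (2 : ℤ) ≤ e d := by exact_mod_cast ed
    have h5 : cc uc dc e d = 2 := by linarith
    have h6 : e d = 2 := by
      have : (e d : ℤ) = 2 := by linarith
      exact_mod_cast this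
    have ep : e p = 1 := by
      have := blk_le H hir hT hg B hL F.low T.l0 hud h6 h5 hk
      omega
    have eq : e q = 1 := by
      have := blk_le H hir hT hg B' hL F.low T.l0 hud' h6 h5 hk
      omega
    have hkp : kd dc e p := ⟨d, mem_dc.2 (mem_uc.1 hpd), by omega⟩
    have hkq : kd dc e q := ⟨d, mem_dc.2 (mem_uc.1 hqd), by omega⟩
    have em := not_gu_of_kd (adm_low hL) (mem_lS.2 (by omega)) hkp m hmp
    have el := not_gu_of_kd (adm_low hL) (mem_lS.2 (by omega)) hkp l hlp'
    have es := not_gu_of_kd (adm_low hL) (mem_lS.2 (by omega)) hkq s hsq'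
    have em0 : e m = 0 := by omega
    have el0 : e l = 0 := by omega
    have es0 : e s = 0 := by omega
    refine ⟨ep, eq, el0, es0, ?_, ?_, Or.inl ⟨h6, em0⟩⟩
    · rintro d' hne (h | h)
      · exact blk_o1 H hir hT hg B hL F.low T.l0 hud h6 h5 ep eq el0 em0 hne h
      · exact blk_o1 H hir hT hg B' hL F.low T.l0 hud' h6 h5 eq ep es0 em0 hne h
    · intro v hv
      by_contra hn
      have h7 : m ∈ AL i e := by
        rw [NormD_mem_AL]
        exact ⟨by omega, p, mem_uc.1 hmp, by omega⟩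
      have h8 : m ∈ AU i e := by
        rw [NormD_mem_AU]
        exact ⟨by omega, v, hv, by omega⟩
      exact disjoint_left.1 hd h7 h8
  · have hs : sur uc dc e d = e d := by
      unfold sur
      rw [if_neg hk, sub_zero]
    have hdZ : d ∈ ZL := by
      by_contra hn
      have h2 := T.l0 d (by omega)
      rw [slL_n hn hdb, hs] at h2
      have : e d = 0 := by exact_mod_cast h2
      omega
    have h2 := T.l0 d (by omega)
    rw [slL_Z hdZ hdb, hs] at h2
    have ed : e d = 1 := by
      have : (e d : ℤ) = 1 := by linarith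
      exact_mod_cast this
    obtain ⟨-, -, -, b, b1, b2⟩ := F.low.zz d hdZ
    have h3 := (F.low.fy b b1).2
    rw [b2, mem_dc] at h3
    have h4 : b ∈ uc d := mem_uc.2 h3
    rw [hud, mem_insert, mem_singleton] at h4
    obtain ⟨em, hbp, hfp, hbq, hfq⟩ : e m = 1 ∧ BLx i e p ∧ fL p = d ∧ BLx i e q ∧ fL q = d := by
      rcases h4 with rfl | rfl
      · obtain ⟨a1, a2, a3⟩ := blk_mid H hir hT hg B hM hL hd F T.lab hq1 b1 b2
        exact ⟨a1, b1, b2, a2, a3⟩
      · obtain ⟨a1, a2, a3⟩ := blk_mid H hir hT hg B' hM hL hd F T.lab hp1 b1 b2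
        exact ⟨a1, a2, a3, b1, b2⟩
    have ep := (bL_data H hir hT.noQ hg hbp.1).2.2.1
    have eq := (bL_data H hir hT.noQ hg hbq.1).2.2.1
    have el0 := blk_end H hir hT hg B hbp em
    have es0 := blk_end H hir hT hg B' hbq em
    refine ⟨ep, eq, el0, es0, ?_, ?_, Or.inr ⟨ed, em⟩⟩
    · rintro d' hne (h | h)
      · exact blk_o2 H hir hT hg B hL F.low T.l0 hbp hfp hfq em el0 hne h
      · exact blk_o2 H hir hT hg B' hL F.low T.l0 hbq hfq hfp em es0 hne h
    · intro v hv
      by_contra hn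
      have cp : (uc p).card = 2 := by rw [B.ucp, card_pair B.lm]
      have cq : (uc q).card = 2 := by rw [B.ucq, card_pair B.sm.symm]
      obtain ⟨p1, p2, p3, -⟩ := K2.psi_low hM (mem_dbL'.2 ⟨hlp, cp⟩) B.kp
      obtain ⟨q1, q2, q3, -⟩ := K2.psi_low hM (mem_dbL'.2 ⟨hlq, cq⟩) B.kq
      have g1 : psi p ∈ uc m := by
        rw [mem_uc, ← mem_dc, p2]
        exact hmp
      have g2 : psi q ∈ uc m := by
        rw [mem_uc, ← mem_dc, q2]
        exact hmq
      have g3 : psi p ≠ psi q := by
        intro h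
        apply B.ne
        rw [← p3, ← q3, h]
      have g4 : uc m = {psi p, psi q} := by
        symm
        apply Finset.eq_of_subset_of_card_le
        · intro x hx
          rw [mem_insert, mem_singleton] at hx
          rcases hx with rfl | rfl <;> assumption
        · rw [card_pair g3]
          exact uc_card_le H m
      have g5 : v ∈ uc m := mem_uc.2 hv
      rw [g4, mem_insert, mem_singleton] at g5
      rcases g5 with h | h
      · have g6 : l ∈ dc v := by rw [h, p2]; exact hlp'
        have h7 : l ∈ AL i e := by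
          rw [NormD_mem_AL]
          exact ⟨by omega, p, mem_uc.1 hlp', by omega⟩
        have h8 : l ∈ AU i e := by
          rw [NormD_mem_AU]
          exact ⟨by omega, v, mem_dc.1 g6, by omega⟩
        exact disjoint_left.1 hd h7 h8
      · have g6 : s ∈ dc v := by rw [h, q2]; exact hsq'
        have h7 : s ∈ AL i e := by
          rw [NormD_mem_AL]
          exact ⟨by omega, q, mem_uc.1 hsq', by omega⟩
        have h8 : s ∈ AU i e := by
          rw [NormD_mem_AU]
          exact ⟨by omega, v, mem_dc.1 g6, by omega⟩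
        exact disjoint_left.1 hd h7 h8

end blk

end Pool.Agent.GaussPoset.Win.H2
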