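import Pool.Agent.W_448h2_h63.HE

/-!
# The parts with unmatched elements (MP_448cb3_co, case B, Route T, block H)
-/

namespace Pool.Agent.GaussPoset.Win.H2

set_option linter.unusedSectionVars false

open Finset I2 K2

universe u

variable {P : Type u} [Fintype P] [PartialOrder P] [DecidableEq P] {r i : ℕ} {e : P → ℕ}

variable {ι : Type*} [DecidableEq ι] {κ : P → ι} {K C : Finset P} {psi : P → P}

variable {a : ι} {w0 y u w2 w3 w4 x0 x1 x2 x3 x4 x5 : P}

lemma K_lev (hKs : K ⊆ dbL P i ∪ dbU P i) {k : P} (hk : k ∈ K) : lev k ≤ i + 1 := by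
  rcases mem_union.1 (hKs hk) with h | h
  · have := mem_dbL'.1 h
    omega
  · have := mem_dbU'.1 h
    omega

/-- the unmatched elements of a part of the first kind -/
theorem KP1.twk (Q : KP1 i κ K a w0 y u) (hKs : K ⊆ dbL P i ∪ dbU P i) :
    ∃ x1, Tw i (cext (i + 1) κ a) K w0 y u x1 := by
  obtain ⟨x1, h1, h2⟩ := Q.com
  refine ⟨x1, ⟨?_, Q.ly, Q.lu, Q.ne, Q.tw, h1, h2, Q.kid⟩⟩
  intro k hk hkC
  exact (Q.hK k).1 ⟨hk, mem_cext.1 hkC k le_rfl (K_lev hKs hk)⟩

/-- the unmatched elements of a part of the second kind -/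
theorem KP2.twk (Q : KP2 i κ K a w0 y u w2 w3 w4 x0 x1 x2 x3 x4 x5)
    (hKs : K ⊆ dbL P i ∪ dbU P i) : Tw i (cext (i + 1) κ a) K w0 y u x1 := by
  refine ⟨?_, Q.ly, Q.lu, Q.ne, ?_, ?_, ?_, Q.kid⟩
  · intro k hk hkC
    exact (Q.hK k).1 ⟨hk, mem_cext.1 hkC k le_rfl (K_lev hKs hk)⟩
  · rw [Q.uc0, Q.ucy]
  · rw [Q.ucy]; simp
  · rw [Q.dcu]; simp

/-- the levels of the elements of a part of the second kind -/
structure KL (i : ℕ) (w0 y u w2 w3 w4 x0 x1 x2 x3 x4 x5 : P) : Prop where
  w0 : lev w0 = i + 1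
  y : lev y = i + 1
  u : lev u + 1 = i
  w2 : lev w2 = i + 1
  w3 : lev w3 = i + 1
  w4 : lev w4 = i + 1
  x0 : lev x0 = i
  x1 : lev x1 = i
  x2 : lev x2 = i
  x3 : lev x3 = i
  x4 : lev x4 = i
  x5 : lev x5 = i

theorem KP2.kl (H : Gr P r) (Q : KP2 i κ K a w0 y u w2 w3 w4 x0 x1 x2 x3 x4 x5) :
    KL i w0 y u w2 w3 w4 x0 x1 x2 x3 x4 x5 := by
  have hy := Q.ly
  have hu := Q.lu
  have a1 := lev_uc H (x := y) (v := x0) (by rw [Q.ucy]; simp)
  have a2 := lev_uc H (x := y) (v := x1) (by rw [Q.ucy]; simp)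
  have a3 := lev_uc H (x := w0) (v := x0) (by rw [Q.uc0]; simp)
  have a4 := lev_dc H (x := u) (v := x2) (by rw [Q.dcu]; simp)
  have a5 := lev_uc H (x := w2) (v := x2) (by rw [Q.uc2]; simp)
  have a6 := lev_uc H (x := w2) (v := x3) (by rw [Q.uc2]; simp)
  have a7 := lev_uc H (x := w3) (v := x3) (by rw [Q.uc3]; simp)
  have a8 := lev_uc H (x := w3) (v := x4) (by rw [Q.uc3]; simp)
  have a9 := lev_uc H (x := w4) (v := x4) (by rw [Q.uc4]; simp)
  have b1 := lev_uc H (x := w4) (v := x5) (by rw [Q.uc4]; simp)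
  exact ⟨by omega, hy, hu, by omega, by omega, by omega, by omega, by omega, by omega, by omega,
    by omega, by omega⟩

/-- the labels of the elements of a part of the second kind -/
structure KK' (κ : P → ι) (a : ι) (w0 y u w2 w3 w4 x0 x1 x2 x3 x4 x5 : P) : Prop where
  w0 : κ w0 = a
  y : κ y = a
  u : κ u = a
  w2 : κ w2 = a
  w3 : κ w3 = a
  w4 : κ w4 = a
  x0 : κ x0 = a
  x1 : κ x1 = a
  x2 : κ x2 = a
  x3 : κ x3 = a
  x4 : κ x4 = a
  x5 : κ x5 = a

theorem KP2.ka (H : Gr P r) (hκ : Split (i + 1) κ)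
    (Q : KP2 i κ K a w0 y u w2 w3 w4 x0 x1 x2 x3 x4 x5) :
    KK' κ a w0 y u w2 w3 w4 x0 x1 x2 x3 x4 x5 := by
  have L := Q.kl H
  have hy := ((Q.hK y).2 (Or.inl rfl)).2
  have hu := ((Q.hK u).2 (Or.inr rfl)).2
  have key : ∀ {p q : P}, q ∈ uc p → lev p ≤ i + 1 → κ p = κ q := fun h1 h2 =>
    hκ (mem_uc.1 h1) h2
  have a1 := key (p := y) (q := x0) (by rw [Q.ucy]; simp) L.y.le
  have a2 := key (p := y) (q := x1) (by rw [Q.ucy]; simp) L.y.le
  have a3 := key (p := w0) (q := x0) (by rw [Q.uc0]; simp) L.w0.le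
  have a4 : κ x2 = κ u := hκ (mem_dc.1 (by rw [Q.dcu]; simp)) (by have := L.x2; omega)
  have a5 := key (p := w2) (q := x2) (by rw [Q.uc2]; simp) L.w2.le
  have a6 := key (p := w2) (q := x3) (by rw [Q.uc2]; simp) L.w2.le
  have a7 := key (p := w3) (q := x3) (by rw [Q.uc3]; simp) L.w3.le
  have a8 := key (p := w3) (q := x4) (by rw [Q.uc3]; simp) L.w3.le
  have a9 := key (p := w4) (q := x4) (by rw [Q.uc4]; simp) L.w4.le
  have b1 := key (p := w4) (q := x5) (by rw [Q.uc4]; simp) L.w4.le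
  have c0 : κ x0 = a := a1.symm.trans hy
  have c1 : κ x1 = a := a2.symm.trans hy
  have c2 : κ x2 = a := a4.trans hu
  have d2 : κ w2 = a := a5.trans c2
  have c3 : κ x3 = a := a6.symm.trans d2
  have d3 : κ w3 = a := a7.trans c3
  have c4 : κ x4 = a := a8.symm.trans d3
  have d4 : κ w4 = a := a9.trans c4
  have c5 : κ x5 = a := b1.symm.trans d4
  exact ⟨a3.trans c0, hy, hu, d2, d3, d4, c0, c1, c2, c3, c4, c5⟩

theorem KP2.bk (H : Gr P r) (hκ : Split (i + 1) κ)
    (Q : KP2 i κ K a w0 y u w2 w3 w4 x0 x1 x2 x3 x4 x5) : Bk i K x1 w3 w4 x3 x4 x5 := by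
  have L := Q.kl H
  have A := Q.ka H hκ
  have nd := Q.nd
  have nw := Q.nw
  simp only [List.nodup_cons, List.mem_cons, List.not_mem_nil, or_false, not_or,
    List.nodup_nil, and_true, not_false_eq_true] at nd nw
  have hnk : ∀ k, κ k = a → lev k = i + 1 → k ≠ y → k ∉ K := by
    intro k h1 h2 h3 hk
    rcases (Q.hK k).1 ⟨hk, h1⟩ with h | h
    · exact h3 h
    · have := L.u
      rw [h] at h2
      omega
  refine ⟨L.w3, ?_, hnk w3 A.w3 L.w3 ?_, hnk w4 A.w4 L.w4 ?_, Q.uc3, Q.uc4, Q.dc4, ?_, ?_, ?_, ?_⟩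
  · tauto
  · tauto
  · tauto
  · tauto
  · intro h
    exact nd.2.2.2.2 h.symm
  · tauto
  · intro h
    exact nd.2.1.2.2.1 h.symm

/-- the total label bounds the labels of a finite set -/
lemma sum_sub {S : Finset P} : ∑ x ∈ S, e x ≤ ∑ x, e x :=
  Finset.sum_le_sum_of_subset (subset_univ S)

lemma zero_of_sum {S : Finset P} (h : ∑ x, e x ≤ ∑ x ∈ S, e x) {x : P} (hx : x ∉ S) : e x = 0 := by
  have h1 : ∑ x ∈ insert x S, e x ≤ ∑ x, e x := sum_sub
  rw [sum_insert hx] at h1
  omega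

section five

variable (H : Gr P r) (hir : i ≤ r) (hT : NoT P (i + 2)) (hg : ∀ m, m + 1 = i → Good P m)
include H hir hT hg

/-- the energy of an extremal part is at least five, and at five the swap is active -/
theorem five (hκ : Split (i + 1) κ) (Q : KP2 i κ K a w0 y u w2 w3 w4 x0 x1 x2 x3 x4 x5)
    (hKs : K ⊆ dbL P i ∪ dbU P i) (hs : Spt (cext (i + 1) κ a) e) {d : P} (hud : uc d = {w3, w4})
    (B : BT d w3 w4 x3 x4 x5 e) (hkb : (KB i K e).Nonempty) :
    5 ≤ ∑ x, e x ∧ (∑ x, e x = 5 → KsA y u e ∨ KsB y u e) := by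
  classical
  have L := Q.kl H
  have W := Q.twk hKs
  have nd := Q.nd
  have nw := Q.nw
  simp only [List.nodup_cons, List.mem_cons, List.not_mem_nil, or_false, not_or,
    List.nodup_nil, and_true, not_false_eq_true] at nd nw
  have hld := lev_uc H (x := d) (v := w3) (by rw [hud]; simp)
  have hw34 : w3 ≠ w4 := by tauto
  have L1 := L.w3
  have L2 := L.w4
  have L3 := L.x4
  have L4 := L.y
  have L5 := L.u
  have key : ∀ k, (k = y ∨ k = u) → e k = 1 →
      ∑ x ∈ insert d (insert w3 (insert w4 (insert x4 {k}))), e x = 5 := by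
    intro k hk h1
    have n1 : d ∉ insert w3 (insert w4 (insert x4 ({k} : Finset P))) := by
      simp only [mem_insert, mem_singleton, not_or]
      refine ⟨?_, ?_, ?_, ?_⟩ <;> intro h
      · rw [h] at hld; omega
      · rw [h] at hld; omega
      · rw [h] at hld; omega
      · rcases hk with h' | h' <;> rw [h, h'] at hld <;> omega
    have n2 : w3 ∉ insert w4 (insert x4 ({k} : Finset P)) := by
      simp only [mem_insert, mem_singleton, not_or]
      refine ⟨hw34, ?_, ?_⟩ <;> intro h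
      · rw [h] at L1; omega
      · rcases hk with h' | h'
        · rw [h'] at h; tauto
        · rw [h, h'] at L1; omega
    have n3 : w4 ∉ insert x4 ({k} : Finset P) := by
      simp only [mem_insert, mem_singleton, not_or]
      refine ⟨?_, ?_⟩ <;> intro h
      · rw [h] at L2; omega
      · rcases hk with h' | h'
        · rw [h'] at h; tauto
        · rw [h, h'] at L2; omega
    have n4 : x4 ∉ ({k} : Finset P) := by
      simp only [mem_singleton]
      intro h
      rcases hk with h' | h' <;> rw [h, h'] at L3 <;> omega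
    rw [sum_insert n1, sum_insert n2, sum_insert n3, sum_insert n4, sum_singleton, B.p1, B.q1, h1]
    rcases B.dm with ⟨h2, h3⟩ | ⟨h2, h3⟩ <;> omega
  obtain ⟨k, hk⟩ := hkb
  have hk' : (k = y ∨ k = u) ∧ e k = 1 := by
    rcases KB_sub H hir hT hg W hs hk with ⟨h, h1, -⟩ | ⟨h, h1, -⟩
    · exact ⟨Or.inl h, by rw [h]; exact (bL_data H hir hT.noQ hg h1).2.2.1⟩
    · exact ⟨Or.inr h, by rw [h]; exact (bU_data H hir hT.noQ hg h1).2.2.1⟩
  have h5 := key k hk'.1 hk'.2
  refine ⟨by rw [← h5]; exact sum_sub, fun hsum => ?_⟩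
  have hz : ∀ x, x ≠ d → x ≠ w3 → x ≠ w4 → x ≠ x4 → x ≠ k → e x = 0 := by
    intro x g1 g2 g3 g4 g5
    refine zero_of_sum (S := insert d (insert w3 (insert w4 (insert x4 {k})))) (by omega) ?_
    simp only [mem_insert, mem_singleton, not_or]
    exact ⟨g1, g2, g3, g4, g5⟩
  have hlv : ∀ {p q : P}, lev p ≠ lev q → p ≠ q := fun h h' => h (by rw [h'])
  have M1 := L.x0
  have M2 := L.x1
  have M3 := L.x2
  have hst : ∀ x, x ∈ uc y ∪ dc u → x = x0 ∨ x = x1 ∨ x = x2 := by
    intro x hx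
    rw [mem_union, Q.ucy, Q.dcu] at hx
    simp only [mem_insert, mem_singleton] at hx
    tauto
  have hkl : lev k ≠ i ∧ lev k ≠ i + 2 ∧ lev k + 2 ≠ i := by
    rcases hk'.1 with h | h <;> rw [h] <;> omega
  have hC : KsC y u e := by
    refine ⟨?_, ?_, ?_, ?_, ?_⟩
    · intro x hx
      rcases hst x hx with h | h | h <;> subst h
      · exact hz _ (hlv (by omega)) (hlv (by omega)) (hlv (by omega)) (by tauto) (hlv (by omega))
      · exact hz _ (hlv (by omega)) (hlv (by omega)) (hlv (by omega)) (by tauto) (hlv (by omega))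
      · exact hz _ (hlv (by omega)) (hlv (by omega)) (hlv (by omega)) (by tauto) (hlv (by omega))
    · intro x hx w hw hwy
      have hw' : w = w0 ∨ w = w2 := by
        rcases hst x hx with h | h | h <;> subst h
        · rw [Q.dc0, mem_insert, mem_singleton] at hw
          tauto
        · rw [Q.dc1, mem_insert, mem_singleton] at hw
          tauto
        · rw [Q.dc2, mem_singleton] at hw
          tauto
      have hlw : lev w = i + 1 := by
        rcases hw' with h | h <;> rw [h]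
        · exact L.w0
        · exact L.w2
      refine hz w (hlv (by omega)) ?_ ?_ (hlv (by omega)) ?_
      · rcases hw' with h | h <;> rw [h] <;> tauto
      · rcases hw' with h | h <;> rw [h] <;> tauto
      · rcases hk'.1 with h | h
        · rw [h]; exact hwy
        · rw [h]; exact hlv (by omega)
    · intro x hx v hv hvu
      have hl : lev x = i := by
        rcases hst x hx with h | h | h <;> rw [h] <;> assumption
      have hlv2 := lev_uc H hv
      refine hz v (hlv (by omega)) (hlv (by omega)) (hlv (by omega)) (hlv (by omega)) ?_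
      rcases hk'.1 with h | h
      · rw [h]; exact hlv (by omega)
      · rw [h]; exact hvu
    · intro z hzy
      have hlz := lev_dc H hzy
      refine hz z ?_ (hlv (by omega)) (hlv (by omega)) (hlv (by omega)) (hlv (by omega))
      rintro rfl
      have : y ∈ uc z := mem_uc.2 (mem_dc.1 hzy)
      rw [hud, mem_insert, mem_singleton] at this
      tauto
    · intro v hv
      have hlv2 := lev_uc H hv
      refine hz v (hlv (by omega)) (hlv (by omega)) (hlv (by omega)) (hlv (by omega))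
        (hlv (by omega))
  rcases hk'.1 with h | h
  · left
    refine ⟨hC, by rw [← h]; exact hk'.2, hz u (hlv (by omega)) (hlv (by omega)) (hlv (by omega))
      (hlv (by omega)) (by rw [h]; exact hlv (by omega))⟩
  · right
    refine ⟨hC, hz y (hlv (by omega)) (by tauto) (by tauto) (hlv (by omega))
      (by rw [h]; exact hlv (by omega)), by rw [← h]; exact hk'.2⟩

end five

end Pool.Agent.GaussPoset.Win.H2
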