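import Pool.Agent.W_448h2_h63.HG

/-!
# The touched parts (MP_448cb3_co, case B, Route T, block H)
-/

namespace Pool.Agent.GaussPoset.Win.H2

set_option linter.unusedSectionVars false

open Finset I2 K2 Ut

universe u

variable {P : Type u} [Fintype P] [PartialOrder P] [DecidableEq P] {r i : ℕ} {e : P → ℕ}

variable {ι : Type*} [DecidableEq ι] {κ : P → ι} {K C : Finset P} {psi : P → P}

variable {a : ι} {w0 y u w2 x0 x1 x2 : P}

/-- the value of a configuration: energy minus twice the order, simple edges summed -/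
noncomputable def Vl (i : ℕ) (K : Finset P) (psi : P → P) (e : P → ℕ) : ℤ :=
  EE i e + 2 * ((SK i K psi e).card : ℤ)

lemma Vl_ge : EE i e + (SK i K psi e).card ≤ Vl i K psi e := by
  unfold Vl
  have : (0 : ℤ) ≤ (SK i K psi e).card := by positivity
  linarith

lemma Vl_par : ∃ k : ℤ, Vl i K psi e = ((∑ x, e x : ℕ) : ℤ) + 2 * k := by
  refine ⟨-(((AL i e).card : ℤ) + (AU i e).card) + ((pL i e : ℤ) + pU i e) +
    (SK i K psi e).card, ?_⟩
  unfold Vl EE
  push_cast
  ring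

/-- every touched part has an excited element with an excited child outside the parts -/
theorem touch (H : Gr P r) (hκ : Split (i + 1) κ) (hL : AdmL i e) {a : ι}
    (ha : a ∈ Ut.Tch (i + 1) κ e) : ∃ c t, t ∉ cuni (i + 1) κ ∧ 1 ≤ e t ∧ t ⋖ c ∧
      c ∈ cext (i + 1) κ a ∧ i + 1 ≤ lev c ∧ 1 ≤ e c := by
  classical
  obtain ⟨y, ⟨hy, z, hz, hz0, hzy⟩, hya⟩ := Ut.mem_Tch.1 ha
  set T := univ.filter (fun t : P => z ≤ t ∧ t ≤ y ∧ t ∉ cuni (i + 1) κ) with hT
  have hzT : z ∈ T := by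
    rw [hT, mem_filter]
    exact ⟨mem_univ _, le_rfl, hzy, hz⟩
  obtain ⟨t, ht, hmin⟩ := exists_min_image T (fun t => lev t) ⟨z, hzT⟩
  rw [hT, mem_filter] at ht
  obtain ⟨-, h1, h2, h3⟩ := ht
  have hlt : t < y := by
    refine lt_of_le_of_ne h2 ?_
    rintro rfl
    exact h3 (le_mem_cuni hκ hy)
  obtain ⟨c, hc, hcy⟩ := exists_covBy_le_of_lt hlt
  have hlc := lev_uc H (mem_uc.2 hc)
  have hcu : c ∈ cuni (i + 1) κ := by
    by_contra hn
    have := hmin c (by
      rw [hT, mem_filter]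
      exact ⟨mem_univ _, h1.trans hc.le, hcy, hn⟩)
    omega
  have hlt2 := (two_up H hκ h3).1
  have et : 1 ≤ e t := exc_le H hL (by omega) h1 (by omega)
  unfold cuni at hcu
  rw [mem_biUnion] at hcu
  obtain ⟨b, -, hb⟩ := hcu
  have hba : b = a := by
    rw [← hya]
    exact (mem_cext.1 hb y hcy hy).symm
  rw [hba] at hb
  exact ⟨c, t, h3, et, hc, hb, by omega, exc_le H hL et hc.le (by omega)⟩

lemma mem_of_cuni {z y : P} (hz : z ∈ cuni (i + 1) κ) (hzy : z ≤ y) (hl : lev y ≤ i + 1)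
    (hy : κ y = a) : z ∈ cext (i + 1) κ a := by
  unfold cuni at hz
  rw [mem_biUnion] at hz
  obtain ⟨b, -, hb⟩ := hz
  have h1 := mem_cext.1 hb y hzy hl
  rw [← h1, hy] at hb
  exact hb

/-- elements with two covers have no child of level `i + 2` outside the parts -/
lemma kid_mem (H : Gr P r) (hSS : ∀ z : P, lev z = i + 2 → z ∉ cuni (i + 1) κ → ∀ x ∈ uc z,
    (uc x).card = 1) {z w : P} (hw : lev w = i + 1) (hk : κ w = a) (hc : (uc w).card = 2)
    (hz : z ⋖ w) : z ∈ cext (i + 1) κ a := by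
  have hl := lev_uc H (mem_uc.2 hz)
  by_cases h : z ∈ cuni (i + 1) κ
  · exact mem_of_cuni h hz.le hw.le hk
  · have := hSS z (by omega) h w (mem_uc.2 hz)
    omega

lemma rst_mem {x : P} (hx : x ∈ C) : rst C e x = e x := by
  unfold rst
  rw [if_pos hx]

/-- the surroundings of a swap are read inside the part -/
theorem KP.ksC (H : Gr P r) (hκ : Split (i + 1) κ) (Q : KP i κ K a w0 y u w2 x0 x1 x2)
    (hSS : ∀ z : P, lev z = i + 2 → z ∉ cuni (i + 1) κ → ∀ x ∈ uc z, (uc x).card = 1)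
    (h : KsC y u (rst (cext (i + 1) κ a) e)) : KsC y u e := by
  have hly := Q.ly
  have hlu := Q.lu
  obtain ⟨l0, l1, l2, -, -⟩ := Q.lv H
  have hlst : ∀ x ∈ uc y ∪ dc u, lev x = i := by
    intro x hx
    rcases Q.st.1 hx with h | h | h <;> rw [h] <;> assumption
  have key : ∀ x, lev x ≤ i + 1 → κ x = a → rst (cext (i + 1) κ a) e x = e x :=
    fun x hx hk => rst_mem (mem_cext_of_le hκ hx hk)
  refine ⟨?_, ?_, ?_, ?_, ?_⟩
  · intro x hx
    have h1 := hlst x hx
    rw [← key x (by omega) (Q.kst H hκ hx)]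
    exact h.s0 x hx
  · intro x hx w hw hwy
    have h1 := hlst x hx
    have h2 := lev_dc H hw
    have h3 : κ w = a := (hκ (mem_dc.1 hw) (by omega)).trans (Q.kst H hκ hx)
    rw [← key w (by omega) h3]
    exact h.lo x hx w hw hwy
  · intro x hx v hv hvu
    have h1 := hlst x hx
    have h2 := lev_uc H hv
    have h3 : κ v = a := (hκ (mem_uc.1 hv) (by omega)).symm.trans (Q.kst H hκ hx)
    rw [← key v (by omega) h3]
    exact h.up x hx v hv hvu
  · intro z hz
    have h1 := kid_mem H hSS hly Q.ky.2 (by rw [Q.ucy, card_pair Q.n01]) (mem_dc.1 hz)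
    rw [← rst_mem (e := e) h1]
    exact h.dy z hz
  · intro v hv
    have h2 := lev_uc H hv
    have h3 : κ v = a := (hκ (mem_uc.1 hv) (by omega)).symm.trans Q.ku.2
    rw [← key v (by omega) h3]
    exact h.uu v hv

theorem KP.ks (H : Gr P r) (hκ : Split (i + 1) κ) (Q : KP i κ K a w0 y u w2 x0 x1 x2)
    (hSS : ∀ z : P, lev z = i + 2 → z ∉ cuni (i + 1) κ → ∀ x ∈ uc z, (uc x).card = 1) :
    (KsA y u (rst (cext (i + 1) κ a) e) → KsA y u e) ∧
    (KsB y u (rst (cext (i + 1) κ a) e) → KsB y u e) := by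
  have hly := Q.ly
  have hlu := Q.lu
  have h1 : rst (cext (i + 1) κ a) e y = e y := rst_mem (mem_cext_of_le hκ (by omega) Q.ky.2)
  have h2 : rst (cext (i + 1) κ a) e u = e u := rst_mem (mem_cext_of_le hκ (by omega) Q.ku.2)
  constructor
  · intro h
    exact ⟨Q.ksC H hκ hSS h.toKsC, by rw [← h1]; exact h.ey, by rw [← h2]; exact h.eu⟩
  · intro h
    exact ⟨Q.ksC H hκ hSS h.toKsC, by rw [← h1]; exact h.ey, by rw [← h2]; exact h.eu⟩

/-- the sum of a restriction -/
lemma sum_rst' (C : Finset P) (e : P → ℕ) : ∑ x, rst C e x = ∑ x ∈ C, e x := by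
  classical
  unfold rst
  rw [Finset.sum_ite_mem, univ_inter]

section cases

variable (H : Gr P r) (hir : i ≤ r) (hT : NoT P (i + 2)) (hg : ∀ m, m + 1 = i → Good P m)
include H hir hT hg

/-- A TOUCHED PART with unmatched elements -/
theorem KP.cases (hκ : Split (i + 1) κ) (hM : Mat P i K psi) (hKs : K ⊆ dbL P i ∪ dbU P i)
    (hSS : ∀ z : P, lev z = i + 2 → z ∉ cuni (i + 1) κ → ∀ x ∈ uc z, (uc x).card = 1)
    (Q : KP i κ K a w0 y u w2 x0 x1 x2) {D : Finset P} {sw : P → Sw P}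
    (hD : ∀ z p q l m s, lev z = i + 2 → z ∈ cext (i + 1) κ a → Bd w0 y w2 x0 x1 x2 p q l m s →
      uc z = {p, q} → z ∈ D ∧ (sw z = ⟨p, q, l, m, s⟩ ∨ sw z = ⟨q, p, s, m, l⟩))
    (hLe : AdmL i e) (hL : AdmL i (rst (cext (i + 1) κ a) e))
    (hU : AdmU i (rst (cext (i + 1) κ a) e))
    (hd : Disjoint (AL i (rst (cext (i + 1) κ a) e)) (AU i (rst (cext (i + 1) κ a) e)))
    (hA : ∀ d ∈ D, ¬ StA d (sw d) e) (hKA : ¬ KsA y u e) (hT' : a ∈ Ut.Tch (i + 1) κ e) :
    -1 ≤ Vl i K psi (rst (cext (i + 1) κ a) e) ∧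
    (Vl i K psi (rst (cext (i + 1) κ a) e) < 0 →
      (∃ d ∈ D, d ∈ cext (i + 1) κ a ∧ StB d (sw d) e) ∨ KsB y u e ∨
      (7 ≤ ∑ x ∈ cext (i + 1) κ a, e x ∧ ∃ d ∈ cext (i + 1) κ a, lev d = i + 2 ∧
        ∃ t, t ⋖ d ∧ t ∉ cuni (i + 1) κ ∧ 2 ≤ e t)) := by
  classical
  set f := rst (cext (i + 1) κ a) e with hf
  have W := Q.twk hKs
  have hs : Spt (cext (i + 1) κ a) f := rst_spt _ _
  have hPC : Part (i + 1) (cext (i + 1) κ a) := part_cext H le_rfl hκ a
  obtain ⟨b1, b2, b3⟩ := tw_bound H hir hT hg W hM hL hU hd hs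
  have hV := Vl_ge (i := i) (K := K) (psi := psi) (e := f)
  refine ⟨by linarith, fun hlt => ?_⟩
  have hlt' : EE i f + (SK i K psi f).card < 0 := by linarith
  have hV1 : Vl i K psi f = -1 := by
    have : -1 ≤ Vl i K psi f := by linarith
    omega
  have ndeep : ∀ z ∈ cext (i + 1) κ a, 1 ≤ e z →
      ¬ (i + 3 ≤ lev z ∨ (lev z = i + 1 ∧ (uc z).card = 1)) := by
    intro z hz h1 h2
    have := b2 ⟨z, by rw [hf, rst_mem hz]; exact h1, h2⟩
    linarith
  obtain ⟨c, t, ht, et, htc, hc, hlc, ec⟩ := touch H hκ hLe hT'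
  have hlt3 := lev_uc H (mem_uc.2 htc)
  have hlt2 := (two_up H hκ ht).1
  -- the level of the touched element
  have hlc2 : lev c = i + 2 := by
    rcases Nat.lt_or_ge (lev c) (i + 2) with h | h
    · exfalso
      exact ndeep c hc ec (Or.inr ⟨by omega, hSS t (by omega) ht c (mem_uc.2 htc)⟩)
    · rcases Nat.lt_or_ge (i + 2) (lev c) with h' | h'
      · exact absurd (Or.inl (by omega)) (ndeep c hc ec)
      · omega
  have hcov : ∀ x ∈ uc c, x ∈ cext (i + 1) κ a ∧ 1 ≤ e x ∧ lev x = i + 1 := by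
    intro x hx
    have := lev_uc H hx
    exact ⟨hPC.up hc (mem_uc.1 hx), exc_le H hLe ec (mem_uc.1 hx).le (by omega), by omega⟩
  rcases Q.crs c hlc2 hc ⟨t, ht, htc⟩ with hy | ⟨s, hs1, hs2⟩ | ⟨p, q, l, m, s, B, hud⟩
  · exfalso
    have h1 := hcov y hy
    have h2 := hcov w0 (Q.kid c (mem_dc.2 (mem_uc.1 hy)))
    have h3 := b3 (by rw [hf, rst_mem h2.1]; exact h2.2.1) (by rw [hf, rst_mem h1.1]; exact h1.2.1)
    linarith
  · exfalso
    have h1 := hcov s hs1
    exact ndeep s h1.1 h1.2.1 (Or.inr ⟨h1.2.2, hs2⟩)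
  · have hbk := B.bk H Q hlc2 hc hud
    obtain ⟨ZL, XL, ZU, XU, fL, fU, F⟩ := full_T H hir hT hg hM hL hU hd
    have TT := tight_of H hir hT hg W hM hL hU hd hs F hlt'
    have efc : f c = e c := by rw [hf, rst_mem hc]
    have hBT := blk_tight H hir hT hg hbk hM hL hd F TT hud (by rw [efc]; exact ec)
    obtain ⟨g5, g6⟩ := Q.five H hir hT hg hKs hs hlc2 hud B hBT TT.kb
    obtain ⟨hcD, hsw⟩ := hD c p q l m s hlc2 hc B hud
    have hpu : p ∈ uc c := by rw [hud]; simp
    have hqu : q ∈ uc c := by rw [hud]; simp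
    have hmp : m ∈ uc p := by rw [B.ucp]; simp
    have hlp' : l ∈ uc p := by rw [B.ucp]; simp
    have hsq : s ∈ uc q := by rw [B.ucq]; simp
    have hpC := (hcov p hpu).1
    have hqC := (hcov q hqu).1
    have lp := (hcov p hpu).2.2
    have lq := (hcov q hqu).2.2
    have hmC := hPC.up hpC (mem_uc.1 hmp)
    have hlC := hPC.up hpC (mem_uc.1 hlp')
    have hsC := hPC.up hqC (mem_uc.1 hsq)
    have lm := lev_uc H hmp
    have kp : κ p = a := mem_cext.1 hpC p le_rfl (by omega)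
    have kq : κ q = a := mem_cext.1 hqC q le_rfl (by omega)
    have cp : (uc p).card = 2 := by rw [B.ucp, card_pair B.lm]
    have cq : (uc q).card = 2 := by rw [B.ucq, card_pair B.sm.symm]
    have ef : ∀ x ∈ cext (i + 1) κ a, f x = e x := fun x hx => by rw [hf, rst_mem hx]
    by_cases ht1 : ∀ t', t' ⋖ c → e t' ≤ 1
    · left
      have ep : e p = 1 := by rw [← ef p hpC]; exact hBT.p1
      have eq : e q = 1 := by rw [← ef q hqC]; exact hBT.q1
      have el : e l = 0 := by rw [← ef l hlC]; exact hBT.l0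
      have es : e s = 0 := by rw [← ef s hsC]; exact hBT.s0
      have eo : ∀ d', d' ≠ c → (d' ⋖ p ∨ d' ⋖ q) → e d' = 0 := by
        intro d' hne hd'
        have h1 : d' ∈ cext (i + 1) κ a := by
          rcases hd' with h | h
          · exact kid_mem H hSS lp kp cp h
          · exact kid_mem H hSS lq kq cq h
        rw [← ef d' h1]
        exact hBT.o0 d' hne hd'
      have ev : ∀ v, m ⋖ v → e v = 0 := by
        intro v hv
        rw [← ef v (hPC.up hmC hv)]
        exact hBT.v0 v hv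
      have hC : StC c (sw c) e := by
        rcases hsw with h | h <;> rw [h]
        · exact ⟨ep, eq, el, es, ht1, eo, ev⟩
        · exact ⟨eq, ep, es, el, ht1, fun d' h1 h2 => eo d' h1 h2.symm, ev⟩
      have hx : (sw c).x = m := by rcases hsw with h | h <;> rw [h]
      have em : f m = e m := ef m hmC
      rcases hBT.dm with ⟨h1, h2⟩ | ⟨h1, h2⟩
      · exfalso
        refine hA c hcD ⟨hC, by rw [← efc]; exact h1, by rw [hx, ← em]; exact h2⟩
      · exact ⟨c, hcD, hc, ⟨hC, by rw [← efc]; exact h1, by rw [hx, ← em]; exact h2⟩⟩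
    · right
      push Not at ht1
      obtain ⟨t', h1, h2⟩ := ht1
      have hsum : ∑ x, f x = ∑ x ∈ cext (i + 1) κ a, e x := sum_rst' _ _
      rcases Nat.lt_or_ge (∑ x, f x) 6 with h6 | h6
      · left
        rcases g6 (by omega) with h | h
        · exact absurd ((Q.ks H hκ hSS).1 h) hKA
        · exact (Q.ks H hκ hSS).2 h
      · right
        obtain ⟨k, hk⟩ := Vl_par (i := i) (K := K) (psi := psi) (e := f)
        rw [hV1] at hk
        refine ⟨by omega, c, hc, hlc2, t', h1, ?_, h2⟩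
        intro h3
        have h4 : t' ∈ cext (i + 1) κ a := by
          refine mem_of_cuni h3 (h1.le.trans (mem_uc.1 hpu).le) (by omega) kp
        have h5 := lev_uc H (mem_uc.2 h1)
        exact ndeep t' h4 (by omega) (Or.inl (by omega))

end cases

end Pool.Agent.GaussPoset.Win.H2
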