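import Pool.Agent.W_448h2_h63.HH

/-!
# The count of a cross configuration of energy at most twelve (MP_448cb3_co, Route T, block H)
-/

namespace Pool.Agent.GaussPoset.Win.H2

set_option linter.unusedSectionVars false

open Finset I2 K2 Ut

universe u

variable {P : Type u} [Fintype P] [PartialOrder P] [DecidableEq P] {r i : ℕ} {e : P → ℕ}

variable {ι : Type*} [DecidableEq ι] {κ : P → ι} {K C : Finset P} {psi : P → P}

/-- the label of an element: the label of an element of level `0` above it -/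
noncomputable def lb (κ : P → ι) (x : P) : ι := κ (Classical.choose (exists_top x))

lemma lb_eq {l : ℕ} {a : ι} {x : P} (hx : x ∈ cext l κ a) : lb κ x = a := by
  have h := Classical.choose_spec (exists_top x)
  exact mem_cext.1 hx _ h.1 (by rw [h.2]; exact Nat.zero_le _)

open Classical in
/-- the elements outside the parts -/
noncomputable def crz (i : ℕ) (κ : P → ι) : Finset P := univ.filter (fun z => z ∉ cuni (i + 1) κ)

lemma mem_crz {z : P} : z ∈ crz i κ ↔ z ∉ cuni (i + 1) κ := by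
  classical
  unfold crz
  simp

/-- a hot part -/
def Hot (i : ℕ) (κ : P → ι) (e : P → ℕ) (a : ι) : Prop :=
  7 ≤ ∑ x ∈ cext (i + 1) κ a, e x ∧ ∃ d ∈ cext (i + 1) κ a, lev d = i + 2 ∧
    ∃ t, t ⋖ d ∧ t ∉ cuni (i + 1) κ ∧ 2 ≤ e t

section cross

variable (H : Gr P r) (hT : NoT P (i + 2))
include H hT

lemma crz_nonneg (hκ : Split (i + 1) κ) (hL : AdmL i e) {z : P} (hz : z ∈ crz i κ) :
    0 ≤ sur uc dc e z := by
  have S := K2.side_low (i := i) H hT.noQ
  have h1 := (two_up H hκ (mem_crz.1 hz)).1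
  refine sur_nonneg S (adm_low hL) (mem_lS.2 (by omega)) ?_
  intro h
  rw [mem_bd] at h
  have := h.2.1
  omega

lemma crz_sum (hκ : Split (i + 1) κ) (hL : AdmL i e) {z : P} (hz : z ∈ crz i κ) :
    0 ≤ ∑ z ∈ crz i κ, sur uc dc e z ∧ sur uc dc e z ≤ ∑ z ∈ crz i κ, sur uc dc e z := by
  have h1 : ∀ z ∈ crz i κ, 0 ≤ sur uc dc e z := fun z hz => crz_nonneg H hT hκ hL hz
  exact ⟨Finset.sum_nonneg h1, Finset.single_le_sum h1 hz⟩

lemma crz_deep (hκ : Split (i + 1) κ) (hL : AdmL i e) {z : P} (hz : z ∈ crz i κ)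
    (hl : i + 3 ≤ lev z) (h1 : 1 ≤ e z) : 1 ≤ sur uc dc e z := by
  have S := K2.side_low (i := i) H hT.noQ
  exact sur_pos S (adm_low hL) (mem_lS.2 (by omega)) (by omega) h1

lemma crz_two (hL : AdmL i e) {z : P} (hl : i + 3 ≤ lev z) (h1 : e z = 2) :
    sur uc dc e z = 2 := by
  classical
  have S := K2.side_low (i := i) H hT.noQ
  have hk : ¬ kl uc e z := by
    intro hk
    have := K2.t_le_of_kl S (adm_low hL) (lev z - i) z (mem_lS.2 (by omega)) hk rfl
    omega
  unfold sur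
  rw [if_neg hk, h1]
  norm_num

/-- the energy below a hot part -/
theorem hot_two (hκ : Split (i + 1) κ) (hL : AdmL i e) {a : ι}
    (h7 : 7 ≤ ∑ x ∈ cext (i + 1) κ a, e x) {d t : P} (hd : d ∈ cext (i + 1) κ a)
    (hld : lev d = i + 2) (htd : t ⋖ d) (ht : t ∉ cuni (i + 1) κ) (h12 : ∑ x, e x ≤ 12)
    (h3 : 3 ≤ e t) : False := by
  classical
  have hlt := lev_uc H (mem_uc.2 htd)
  have hta : t ∉ cext (i + 1) κ a := by
    intro h
    apply ht
    unfold cuni
    rw [mem_biUnion]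
    obtain ⟨y, hy, hy0⟩ := exists_top t
    exact ⟨a, mem_image.2 ⟨y, mem_univ y, mem_cext.1 h y hy (by omega)⟩, h⟩
  have hta' := hta
  rw [mem_cext] at hta'
  push Not at hta'
  obtain ⟨y', hy', hl', hne⟩ := hta'
  obtain ⟨c', hc1, hc2⟩ := exists_covBy_le_of_lt (lt_of_le_of_ne hy' (by rintro rfl; omega))
  have hlc := lev_uc H (mem_uc.2 hc1)
  obtain ⟨p, hp1, hp2⟩ := exists_covBy_le_of_lt (lt_of_le_of_ne hc2 (by rintro rfl; omega))
  have hlp := lev_uc H (mem_uc.2 hp1)
  have hkp : κ p ≠ a := by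
    rw [hκ.le p hp2 (by omega)]
    exact hne
  have hpa : p ∉ cext (i + 1) κ a := fun h => hkp (mem_cext.1 h p le_rfl (by omega))
  have hca : c' ∉ cext (i + 1) κ a := fun h => hkp (mem_cext.1 h p hp1.le (by omega))
  have ec : 1 ≤ e c' := exc_le H hL (by omega) hc1.le (by omega)
  have ep : 1 ≤ e p := exc_le H hL ec hp1.le (by omega)
  have h5 : ∑ x ∈ insert t (insert c' (insert p (cext (i + 1) κ a))), e x ≤ ∑ x, e x := sum_sub
  rw [sum_insert, sum_insert, sum_insert hpa] at h5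
  · have e1 : e c' = 1 := by omega
    have e2 : e p = 1 := by omega
    exact hL c' (by omega) ⟨⟨t, hc1, by omega⟩, p, hp1, by omega⟩
  · rw [mem_insert, not_or]
    refine ⟨?_, hca⟩
    rintro rfl
    omega
  · rw [mem_insert, mem_insert, not_or, not_or]
    refine ⟨?_, ?_, hta⟩
    · rintro rfl
      omega
    · rintro rfl
      omega

end cross

open Classical in
/-- THE COUNT -/
theorem count (H : Gr P r) (hir : i ≤ r) (hT : NoT P (i + 2)) (hg : ∀ m, m + 1 = i → Good P m)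
    (hκ : Split (i + 1) κ) (hM : Mat P i K psi) (hKs : K ⊆ dbL P i ∪ dbU P i)
    (hSS : ∀ z : P, lev z = i + 2 → z ∉ cuni (i + 1) κ → ∀ x ∈ uc z, (uc x).card = 1)
    (hJ : ∀ z : P, lev z = i + 2 → z ∉ cuni (i + 1) κ → ∃ x ∈ uc z, ∀ k ∈ K, κ k ≠ κ x)
    {S : Finset ι} (hS : Ut.Tch (i + 1) κ e = S) (hne : S.Nonempty) {D Y : Finset P}
    {sw : P → Sw P} {ku : P → P}
    (hpart : ∀ a ∈ S, (∀ k ∈ K, κ k ≠ a) ∨ ∃ w0 y u w2 x0 x1 x2,
      KP i κ K a w0 y u w2 x0 x1 x2 ∧ y ∈ Y ∧ ku y = u ∧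
      ∀ z p q l m s, lev z = i + 2 → z ∈ cext (i + 1) κ a → Bd w0 y w2 x0 x1 x2 p q l m s →
        uc z = {p, q} → z ∈ D ∧ (sw z = ⟨p, q, l, m, s⟩ ∨ sw z = ⟨q, p, s, m, l⟩))
    (hL : AdmL i e) (hadm : ∀ a ∈ S, AdmL i (rst (cext (i + 1) κ a) e) ∧
      AdmU i (rst (cext (i + 1) κ a) e) ∧
      Disjoint (AL i (rst (cext (i + 1) κ a) e)) (AU i (rst (cext (i + 1) κ a) e)))
    (hloc : ∑ a ∈ S, EE i (rst (cext (i + 1) κ a) e) + ∑ z ∈ crz i κ, sur uc dc e z ≤ EE i e)
    (hSK : ∑ a ∈ S, (SK i K psi (rst (cext (i + 1) κ a) e)).card ≤ (SK i K psi e).card)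
    (hA : ∀ d ∈ D, ¬ StA d (sw d) e) (hKA : ∀ y ∈ Y, ¬ KsA y (ku y) e)
    (h12 : ∑ x, e x ≤ 12) :
    1 ≤ EE i e + 2 * ((SK i K psi e).card : ℤ) +
      2 * ((D.filter (fun d => StB d (sw d) e)).card : ℤ) +
      2 * ((Y.filter (fun y => KsB y (ku y) e)).card : ℤ) := by
  classical
  set V : ι → ℤ := fun a => Vl i K psi (rst (cext (i + 1) κ a) e) with hV
  set Q := D.filter (fun d => StB d (sw d) e) with hQ
  set R := Y.filter (fun y => KsB y (ku y) e) with hR
  -- the natural parts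
  have hnat : ∀ a ∈ S, (∀ k ∈ K, κ k ≠ a) → 0 ≤ V a ∧
      (∀ s ∈ cext (i + 1) κ a, lev s = i + 1 → (uc s).card = 1 → 1 ≤ e s → 1 ≤ V a) := by
    intro a ha hn
    obtain ⟨q1, q2, q3⟩ := hadm a ha
    have h1 := nat_bound H hir hT hg hM q1 q2 q3 (rst_spt _ _) (C := cext (i + 1) κ a) (K := K)
      (psi := psi) (by
        intro k hk hkC
        exact hn k hk (mem_cext.1 hkC k le_rfl (K_lev hKs hk)))
    have h2 := Vl_ge (i := i) (K := K) (psi := psi) (e := rst (cext (i + 1) κ a) e)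
    refine ⟨h1.1.trans h2, ?_⟩
    intro s hs l1 c1 e1
    exact (h1.2 ⟨s, l1, c1, by rw [rst_mem hs]; exact e1⟩).trans h2
  -- the parts with unmatched elements
  have hkp : ∀ a ∈ S, -1 ≤ V a ∧ (V a < 0 → (∃ d ∈ Q, d ∈ cext (i + 1) κ a) ∨
      (∃ y ∈ R, y ∈ cext (i + 1) κ a) ∨ Hot i κ e a) := by
    intro a ha
    rcases hpart a ha with hn | ⟨w0, y, u, w2, x0, x1, x2, KPa, hyY, hku, hDD⟩
    · have := (hnat a ha hn).1
      exact ⟨by linarith, fun h => absurd h (by linarith)⟩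
    · obtain ⟨q1, q2, q3⟩ := hadm a ha
      have hKA' : ¬ KsA y u e := by
        rw [← hku]
        exact hKA y hyY
      obtain ⟨h1, h2⟩ := KPa.cases H hir hT hg hκ hM hKs hSS hDD hL q1 q2 q3 hA hKA'
        (by rw [hS]; exact ha)
      refine ⟨h1, fun h => ?_⟩
      rcases h2 h with ⟨d, d1, d2, d3⟩ | h3 | h3
      · exact Or.inl ⟨d, mem_filter.2 ⟨d1, d3⟩, d2⟩
      · refine Or.inr (Or.inl ⟨y, mem_filter.2 ⟨hyY, ?_⟩, ?_⟩)
        · rw [hku]
          exact h3
        · exact mem_cext_of_le hκ KPa.ly.le KPa.ky.2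
      · exact Or.inr (Or.inr h3)
  set N1 := S.filter (fun a => V a < 0 ∧ ∃ d ∈ Q, d ∈ cext (i + 1) κ a) with hN1
  set N2 := S.filter (fun a => V a < 0 ∧ ∃ y ∈ R, y ∈ cext (i + 1) κ a) with hN2
  set N3 := S.filter (fun a => V a < 0 ∧ Hot i κ e a) with hN3
  have c1 : N1.card ≤ Q.card := by
    refine (card_le_card (t := Q.image (lb κ)) ?_).trans card_image_le
    intro a ha
    rw [hN1, mem_filter] at ha
    obtain ⟨-, -, d, d1, d2⟩ := ha
    exact mem_image.2 ⟨d, d1, lb_eq d2⟩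
  have c2 : N2.card ≤ R.card := by
    refine (card_le_card (t := R.image (lb κ)) ?_).trans card_image_le
    intro a ha
    rw [hN2, mem_filter] at ha
    obtain ⟨-, -, d, d1, d2⟩ := ha
    exact mem_image.2 ⟨d, d1, lb_eq d2⟩
  have hVa : ∀ a ∈ S, -(if a ∈ N1 then (1 : ℤ) else 0) - (if a ∈ N2 then 1 else 0) -
      (if a ∈ N3 then 1 else 0) ≤ V a := by
    intro a ha
    obtain ⟨h1, h2⟩ := hkp a ha
    by_cases h3 : V a < 0
    · rcases h2 h3 with h | h | h
      · rw [if_pos (show a ∈ N1 by rw [hN1, mem_filter]; exact ⟨ha, h3, h⟩)]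
        split_ifs <;> linarith
      · rw [if_pos (show a ∈ N2 by rw [hN2, mem_filter]; exact ⟨ha, h3, h⟩)]
        split_ifs <;> linarith
      · rw [if_pos (show a ∈ N3 by rw [hN3, mem_filter]; exact ⟨ha, h3, h⟩)]
        split_ifs <;> linarith
    · split_ifs <;> linarith
  have hsumV : -(N1.card : ℤ) - N2.card - N3.card ≤ ∑ a ∈ S, V a := by
    have h1 := Finset.sum_le_sum hVa
    rw [Finset.sum_sub_distrib, Finset.sum_sub_distrib, Finset.sum_neg_distrib,
      Finset.sum_ite_mem, Finset.sum_ite_mem, Finset.sum_ite_mem, Finset.sum_const,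
      Finset.sum_const, Finset.sum_const] at h1
    have e1 : S ∩ N1 = N1 := inter_eq_right.2 (filter_subset _ _)
    have e2 : S ∩ N2 = N2 := inter_eq_right.2 (filter_subset _ _)
    have e3 : S ∩ N3 = N3 := inter_eq_right.2 (filter_subset _ _)
    rw [e1, e2, e3] at h1
    simpa using h1
  have hT1 : ∑ a ∈ S, V a + ∑ z ∈ crz i κ, sur uc dc e z ≤
      EE i e + 2 * ((SK i K psi e).card : ℤ) := by
    have h1 : ∑ a ∈ S, V a = ∑ a ∈ S, EE i (rst (cext (i + 1) κ a) e) +
        2 * ((∑ a ∈ S, (SK i K psi (rst (cext (i + 1) κ a) e)).card : ℕ) : ℤ) := by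
      rw [hV]
      unfold Vl
      rw [Finset.sum_add_distrib, ← Finset.mul_sum]
      push_cast
      rfl
    rw [h1]
    have h2 : ((∑ a ∈ S, (SK i K psi (rst (cext (i + 1) κ a) e)).card : ℕ) : ℤ) ≤
        (SK i K psi e).card := by exact_mod_cast hSK
    linarith
  have c1' : (N1.card : ℤ) ≤ Q.card := by exact_mod_cast c1
  have c2' : (N2.card : ℤ) ≤ R.card := by exact_mod_cast c2
  obtain ⟨a0, ha0⟩ := hne
  obtain ⟨cc0, t0, ht0, et0, htc0, -, -, -⟩ := touch H hκ hL (a := a0) (by rw [hS]; exact ha0)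
  have hz0 := crz_sum H hT hκ hL (mem_crz.2 ht0)
  rcases N3.eq_empty_or_nonempty with h3 | ⟨a, ha⟩
  · rw [h3, card_empty] at hsumV
    by_cases hN : N1 = ∅ ∧ N2 = ∅
    · -- no part with a negative value
      have hnn : ∀ a ∈ S, 0 ≤ V a := by
        intro a ha
        have := hVa a ha
        rw [hN.1, hN.2, h3] at this
        simpa using this
      have hs0 : 0 ≤ ∑ a ∈ S, V a := Finset.sum_nonneg hnn
      have key : 1 ≤ ∑ a ∈ S, V a + ∑ z ∈ crz i κ, sur uc dc e z := by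
        have hlt0 := (two_up H hκ ht0).1
        rcases Nat.lt_or_ge (lev t0) (i + 3) with hl | hl
        · have hl2 : lev t0 = i + 2 := by omega
          obtain ⟨x, hx, hxk⟩ := hJ t0 hl2 ht0
          have hlx := lev_uc H hx
          have hbS : κ x ∈ S := by
            rw [← hS, Ut.mem_Tch]
            exact ⟨x, ⟨by omega, t0, ht0, by omega, (mem_uc.1 hx).le⟩, rfl⟩
          have hxC : x ∈ cext (i + 1) κ (κ x) := mem_cext_of_le hκ (by omega) rfl
          have ex : 1 ≤ e x := exc_le H hL et0 (mem_uc.1 hx).le (by omega)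
          have h1 := (hnat _ hbS hxk).2 x hxC (by omega) (hSS t0 hl2 ht0 x hx) ex
          have h2 : V (κ x) ≤ ∑ a ∈ S, V a := Finset.single_le_sum hnn hbS
          linarith
        · have h1 := crz_deep H hT hκ hL (mem_crz.2 ht0) hl et0
          linarith [hz0.2]
      have : (0 : ℤ) ≤ Q.card := by positivity
      have : (0 : ℤ) ≤ R.card := by positivity
      linarith
    · have h4 : (1 : ℤ) ≤ Q.card + R.card := by
        have : 1 ≤ Q.card + R.card := by
          rw [not_and_or] at hN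
          rcases hN with h | h
          · have := card_pos.2 (nonempty_iff_ne_empty.2 h)
            omega
          · have := card_pos.2 (nonempty_iff_ne_empty.2 h)
            omega
        exact_mod_cast this
      push_cast at hsumV
      linarith [hz0.1]
  · -- a hot part
    have haS := ha
    rw [hN3, mem_filter] at haS
    obtain ⟨haS, -, h7, d, hd, hld, t, htd, ht, ht2⟩ := haS
    have hlt := lev_uc H (mem_uc.2 htd)
    have et : e t = 2 := by
      by_contra hn
      exact hot_two H hT hκ hL h7 hd hld htd ht h12 (by omega)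
    have h5 := crz_two H hT hL (z := t) (by omega) et
    have h6 := (crz_sum H hT hκ hL (mem_crz.2 ht)).2
    have h8 : N3.card ≤ 1 := by
      rw [Finset.card_le_one]
      intro b hb b' hb'
      rw [hN3, mem_filter] at hb hb'
      by_contra hbb
      have h9 : ∑ x ∈ cext (i + 1) κ b ∪ cext (i + 1) κ b', e x ≤ ∑ x, e x := sum_sub
      rw [sum_union (disj_cext hbb)] at h9
      have := hb.2.2.1
      have := hb'.2.2.1
      omega
    have h8' : (N3.card : ℤ) ≤ 1 := by exact_mod_cast h8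
    have : (0 : ℤ) ≤ Q.card := by positivity
    have : (0 : ℤ) ≤ R.card := by positivity
    linarith

end Pool.Agent.GaussPoset.Win.H2
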