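import Pool.Agent.W_448h2_h63.HI
import Pool.Agent.W_448ut_h16.UtG
import Pool.Agent.W_448h2_h64.InvA

/-!
# The cross series of energy at most twelve (MP_448cb3_co, Route T, block H)
-/

namespace Pool.Agent.GaussPoset.Win.H2

set_option linter.unusedSectionVars false

open Finset I2 K2 Ut

universe u

variable {P : Type u} [Fintype P] [PartialOrder P] [DecidableEq P] {r i : ℕ} {e : P → ℕ}

variable {ι : Type*} [DecidableEq ι] {κ : P → ι} {K C : Finset P} {psi : P → P}

/-- the elements of a part with unmatched elements -/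
structure KE (P : Type u) where
  w0 : P
  y : P
  u : P
  w2 : P
  x0 : P
  x1 : P
  x2 : P

/-- `KP` for a record -/
def KPr (i : ℕ) (κ : P → ι) (K : Finset P) (a : ι) (t : KE P) : Prop :=
  KP i κ K a t.w0 t.y t.u t.w2 t.x0 t.x1 t.x2

/-- a block for a record -/
def Bdr (t : KE P) (s : Sw P) : Prop := Bd t.w0 t.y t.w2 t.x0 t.x1 t.x2 s.w s.w' s.p s.x s.q

/-- two descriptions of a block -/
lemma Bd.eq {w0 y w2 x0 x1 x2 p q l m s w0' y' w2' x0' x1' x2' z : P} {t : Sw P}
    (B : Bd w0 y w2 x0 x1 x2 p q l m s)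
    (B' : Bd w0' y' w2' x0' x1' x2' t.w t.w' t.p t.x t.q) (h : uc z = {p, q})
    (h' : uc z = {t.w, t.w'}) : t = ⟨p, q, l, m, s⟩ ∨ t = ⟨q, p, s, m, l⟩ := by
  have hw : t.w = p ∨ t.w = q := by
    have : t.w ∈ uc z := by rw [h']; simp
    rw [h, mem_insert, mem_singleton] at this
    exact this
  have hw' : t.w' = p ∨ t.w' = q := by
    have : t.w' ∈ uc z := by rw [h']; simp
    rw [h, mem_insert, mem_singleton] at this
    exact this
  have hmid : ∀ x, x ∈ uc p → x ∈ uc q → x = m := by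
    intro x h1 h2
    rw [B.ucp, mem_insert, mem_singleton] at h1
    rw [B.ucq, mem_insert, mem_singleton] at h2
    rcases h1 with h1 | h1
    · rcases h2 with h2 | h2
      · exact h2
      · exact absurd (h1.symm.trans h2) B.ls
    · exact h1
  have hx : t.x ∈ uc t.w := by rw [B'.ucp]; simp
  have hx' : t.x ∈ uc t.w' := by rw [B'.ucq]; simp
  have hp : t.p ∈ uc t.w := by rw [B'.ucp]; simp
  have hq : t.q ∈ uc t.w' := by rw [B'.ucq]; simp
  have e1 : ∀ x, x ∈ uc p → x ≠ m → x = l := by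
    intro x h1 h2
    rw [B.ucp, mem_insert, mem_singleton] at h1
    tauto
  have e2 : ∀ x, x ∈ uc q → x ≠ m → x = s := by
    intro x h1 h2
    rw [B.ucq, mem_insert, mem_singleton] at h1
    tauto
  rcases hw with h1 | h1 <;> rcases hw' with h2 | h2
  · exact absurd (h1.trans h2.symm) B'.ne
  · left
    rw [h1] at hx hp
    rw [h2] at hx' hq
    have hm := hmid t.x hx hx'
    have h3 := e1 t.p hp (by rw [← hm]; exact B'.lm)
    have h4 := e2 t.q hq (by rw [← hm]; exact B'.sm)
    cases t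
    simp only at h1 h2 hm h3 h4
    rw [h1, h2, hm, h3, h4]
  · right
    rw [h1] at hx hp
    rw [h2] at hx' hq
    have hm := hmid t.x hx' hx
    have h3 := e2 t.p hp (by rw [← hm]; exact B'.lm)
    have h4 := e1 t.q hq (by rw [← hm]; exact B'.sm)
    cases t
    simp only at h1 h2 hm h3 h4
    rw [h1, h2, hm, h3, h4]
  · exact absurd (h1.trans h2.symm) B'.ne

section lev

variable {a : ι} {t : KE P} {s : Sw P} {z : P}

lemma Bdr.lvs (H : Gr P r) (B : Bdr t s) (hz : lev z = i + 2) (h : uc z = {s.w, s.w'}) :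
    lev s.w = i + 1 ∧ lev s.w' = i + 1 ∧ lev s.p = i ∧ lev s.x = i ∧ lev s.q = i := by
  have h1 := lev_uc H (x := z) (v := s.w) (by rw [h]; simp)
  have h2 := lev_uc H (x := z) (v := s.w') (by rw [h]; simp)
  have h3 := lev_uc H (x := s.w) (v := s.p) (by rw [B.ucp]; simp)
  have h4 := lev_uc H (x := s.w) (v := s.x) (by rw [B.ucp]; simp)
  have h5 := lev_uc H (x := s.w') (v := s.q) (by rw [B.ucq]; simp)
  omega

lemma Bdr.ok (H : Gr P r) (B : Bdr t s) (hz : lev z = i + 2) (h : uc z = {s.w, s.w'}) :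
    SwOK P i z s :=
  ⟨hz, (B.lvs H hz h).2.2.2.1, h, B.ucp, B.ucq, B.dcm⟩

lemma Bdr.kap (H : Gr P r) (hκ : Split (i + 1) κ) (B : Bdr t s) (hz : lev z = i + 2)
    (hzC : z ∈ cext (i + 1) κ a) (h : uc z = {s.w, s.w'}) :
    κ s.w = a ∧ κ s.w' = a ∧ κ s.p = a ∧ κ s.x = a ∧ κ s.q = a := by
  obtain ⟨l1, l2, l3, l4, l5⟩ := B.lvs H hz h
  have k1 : κ s.w = a := mem_cext.1 hzC s.w (mem_uc.1 (by rw [h]; simp)).le (by omega)
  have k2 : κ s.w' = a := mem_cext.1 hzC s.w' (mem_uc.1 (by rw [h]; simp)).le (by omega)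
  refine ⟨k1, k2, ?_, ?_, ?_⟩
  · rw [← hκ (x := s.w) (y := s.p) (mem_uc.1 (by rw [B.ucp]; simp)) (by omega)]
    exact k1
  · rw [← hκ (x := s.w) (y := s.x) (mem_uc.1 (by rw [B.ucp]; simp)) (by omega)]
    exact k1
  · rw [← hκ (x := s.w') (y := s.q) (mem_uc.1 (by rw [B.ucq]; simp)) (by omega)]
    exact k2

end lev

/-- the independence of a toggle and a swap -/
theorem indep (H : Gr P r) (hκ : Split (i + 1) κ) {a b : ι} {t t' : KE P} {s : Sw P} {z : P}
    (B : Bdr t s) (hz : lev z = i + 2) (hzC : z ∈ cext (i + 1) κ a) (h : uc z = {s.w, s.w'})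
    (Q : KPr i κ K b t') (hab : a = b → t = t') :
    ¬ Rd z s t'.y ∧ ¬ Rd z s t'.u ∧ ¬ KRd t'.y t'.u z ∧ ¬ KRd t'.y t'.u s.x := by
  obtain ⟨l1, l2, l3, l4, l5⟩ := B.lvs H hz h
  obtain ⟨k1, k2, k3, k4, k5⟩ := B.kap H hκ hz hzC h
  have ly := Q.ly
  have lu := Q.lu
  have ky := Q.ky.2
  have kU := Q.ku.2
  have hlv : ∀ {p q : P}, lev p ≠ lev q → p ≠ q := fun h h' => h (by rw [h'])
  have hyw : t'.y ≠ s.w := by
    intro h1
    have hba : a = b := by rw [← k1, ← h1, ky]
    have := B.py
    rw [hab hba] at this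
    exact this h1.symm
  have hyw' : t'.y ≠ s.w' := by
    intro h1
    have hba : a = b := by rw [← k2, ← h1, ky]
    have := B.qy
    rw [hab hba] at this
    exact this h1.symm
  have hxst : s.x ∉ uc t'.y ∪ dc t'.u := by
    intro h1
    have hk := KP.kst H hκ Q h1
    have hba : a = b := by rw [← k4, hk]
    have hm0 := B.m0
    have hm1 := B.m1
    have hm2 := B.m2
    rw [hab hba] at hm0 hm1 hm2
    rcases (KP.st Q).1 h1 with h2 | h2 | h2
    · exact hm0 h2
    · exact hm1 h2
    · exact hm2 h2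
  have lst : ∀ x ∈ uc t'.y ∪ dc t'.u, lev x = i := by
    intro x hx
    obtain ⟨q0, q1, q2, -, -⟩ := KP.lv H Q
    rcases (KP.st Q).1 hx with h2 | h2 | h2 <;> rw [h2] <;> assumption
  refine ⟨?_, ?_, ?_, ?_⟩
  · rintro (g | g | g | g | g | g | g | g | g)
    · exact hyw g
    · exact hyw' g
    · rw [g] at ly; omega
    · rw [g] at ly; omega
    · rw [g] at ly; omega
    · rw [g] at ly; omega
    · have := lev_uc H (mem_uc.2 g); omega
    · rcases g.2 with g | g <;> have := lev_uc H (mem_uc.2 g) <;> omega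
    · have := lev_uc H (mem_uc.2 g); omega
  · rintro (g | g | g | g | g | g | g | g | g)
    · rw [g] at lu; omega
    · rw [g] at lu; omega
    · rw [g] at lu; omega
    · rw [g] at lu; omega
    · rw [g] at lu; omega
    · rw [g] at lu; omega
    · have := lev_uc H (mem_uc.2 g); omega
    · rcases g.2 with g | g <;> have := lev_uc H (mem_uc.2 g) <;> omega
    · exact hxst (mem_union_right _ (mem_dc.2 g))
  · rintro (g | g | g | ⟨x, hx, g | g⟩ | g | g)
    · rw [g] at hz; omega
    · rw [g] at hz; omega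
    · have := lst z g; omega
    · have := lst x hx
      have := lev_dc H g
      omega
    · have := lst x hx
      have := lev_uc H g
      omega
    · have h1 : t'.y ∈ uc z := mem_uc.2 (mem_dc.1 g)
      rw [h, mem_insert, mem_singleton] at h1
      rcases h1 with h1 | h1
      · exact hyw h1
      · exact hyw' h1
    · have := lev_uc H g; omega
  · rintro (g | g | g | ⟨x, hx, g | g⟩ | g | g)
    · rw [g] at l4; omega
    · rw [g] at l4; omega
    · exact hxst g
    · have := lst x hx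
      have := lev_dc H g
      omega
    · have := lst x hx
      have := lev_uc H g
      omega
    · have := lev_dc H g; omega
    · have := lev_uc H g; omega

/-- the independence of two swaps -/
theorem indep2 (H : Gr P r) (hκ : Split (i + 1) κ) {a b : ι} {t t' : KE P}
    (Q : KPr i κ K a t) (Q' : KPr i κ K b t') (hab : a ≠ b) :
    ¬ KRd t'.y t'.u t.y ∧ ¬ KRd t'.y t'.u t.u := by
  have ly := Q.ly
  have lu := Q.lu
  have ky := Q.ky.2
  have kU := Q.ku.2
  have ly' := Q'.ly
  have lu' := Q'.lu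
  have ky' := Q'.ky.2
  have kU' := Q'.ku.2
  have lst : ∀ x ∈ uc t'.y ∪ dc t'.u, lev x = i := by
    intro x hx
    obtain ⟨q0, q1, q2, -, -⟩ := KP.lv H Q'
    rcases (KP.st Q').1 hx with h2 | h2 | h2 <;> rw [h2] <;> assumption
  constructor
  · rintro (g | g | g | ⟨x, hx, g | g⟩ | g | g)
    · exact hab (by rw [← ky, g, ky'])
    · rw [g] at ly; omega
    · have := lst _ g; omega
    · have h1 := lst x hx
      have h2 := KP.kst H hκ Q' hx
      exact hab (by rw [← ky, hκ (mem_dc.1 g) (by omega), h2])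
    · have := lst x hx
      have := lev_uc H g
      omega
    · have := lev_dc H g; omega
    · have := lev_uc H g; omega
  · rintro (g | g | g | ⟨x, hx, g | g⟩ | g | g)
    · rw [g] at lu; omega
    · exact hab (by rw [← kU, g, kU'])
    · have := lst _ g; omega
    · have := lst x hx
      have := lev_dc H g
      omega
    · have h1 := lst x hx
      have h2 := KP.kst H hκ Q' hx
      exact hab (by rw [← kU, ← hκ (mem_uc.1 g) (by omega), h2])
    · have := lev_dc H g; omega
    · have := lev_uc H g; omega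

end Pool.Agent.GaussPoset.Win.H2
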