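import Pool.Agent.W_448h2_h63.HJ

/-!
# The cross series of energy at most twelve: assembly (MP_448cb3_co, Route T, block H)
-/

namespace Pool.Agent.GaussPoset.Win.H2

set_option linter.unusedSectionVars false

open Finset I2 K2 Ut

universe u

variable {P : Type u} [Fintype P] [PartialOrder P] [DecidableEq P] {r i : ℕ} {e : P → ℕ}

variable {ι : Type*} [DecidableEq ι] {κ : P → ι} {K C : Finset P} {psi : P → P}

/-- the localisation of a configuration -/
def Loc (i : ℕ) (κ : P → ι) (K : Finset P) (psi : P → P) (S : Finset ι) (e : P → ℕ) : Prop :=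
  (∀ a ∈ S, AdmL i (rst (cext (i + 1) κ a) e) ∧ AdmU i (rst (cext (i + 1) κ a) e) ∧
      Disjoint (AL i (rst (cext (i + 1) κ a) e)) (AU i (rst (cext (i + 1) κ a) e))) ∧
    ∑ a ∈ S, EE i (rst (cext (i + 1) κ a) e) + ∑ z ∈ crz i κ, sur uc dc e z ≤ EE i e ∧
    ∑ a ∈ S, (SK i K psi (rst (cext (i + 1) κ a) e)).card ≤ (SK i K psi e).card

open Classical in
/-- THE CROSS SERIES OF ENERGY AT MOST TWELVE, given the localisation -/
theorem h2_of_loc (H : Gr P r) (hir : i ≤ r) (hT : NoT P (i + 2))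
    (hg : ∀ m, m + 1 = i → Good P m)
    (hκ : Split (i + 1) κ) (hM : Mat P i K psi) (hKs : K ⊆ dbL P i ∪ dbU P i)
    (hSS : ∀ z : P, lev z = i + 2 → z ∉ cuni (i + 1) κ → ∀ x ∈ uc z, (uc x).card = 1)
    (hJ : ∀ z : P, lev z = i + 2 → z ∉ cuni (i + 1) κ → ∃ x ∈ uc z, ∀ k ∈ K, κ k ≠ κ x)
    (hpart : ∀ a ∈ univ.image κ, (∀ k ∈ K, κ k ≠ a) ∨ ∃ w0 y u w2 x0 x1 x2,
      KP i κ K a w0 y u w2 x0 x1 x2)
    (hloc : ∀ S e, Spt (US (i + 1) κ S) e → AdmL i e → AdmU i e →
      Disjoint (AL i e) (AU i e) → Loc i κ K psi S e) :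
    ∀ S, S ⊆ univ.image κ → S.Nonempty → ∀ n, 1 ≤ n → n ≤ 12 →
      dd ^ ((st i (US (i + 1) κ S)).card - (n - 1) / 2) ∣ XC i (i + 1) κ S n := by
  classical
  intro S hS hne n hn1 hn12
  obtain ⟨a0, ha0⟩ := hne
  obtain ⟨xx0, -, -⟩ := mem_image.1 (hS ha0)
  haveI : Nonempty (KE P) := ⟨⟨xx0, xx0, xx0, xx0, xx0, xx0, xx0⟩⟩
  have hex : ∀ a, (a ∈ S ∧ ¬ ∀ k ∈ K, κ k ≠ a) → ∃ t : KE P, KPr i κ K a t := by
    intro a ha
    rcases hpart a (hS ha.1) with h | ⟨w0, y, u, w2, x0, x1, x2, h⟩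
    · exact absurd h ha.2
    · exact ⟨⟨w0, y, u, w2, x0, x1, x2⟩, h⟩
  choose! kd hkd using hex
  set A := S.filter (fun a => ¬ ∀ k ∈ K, κ k ≠ a) with hA
  have hAS : ∀ a ∈ A, a ∈ S ∧ KPr i κ K a (kd a) := by
    intro a ha
    rw [hA, mem_filter] at ha
    exact ⟨ha.1, hkd a ha⟩
  set D := univ.filter (fun z : P => ∃ s : Sw P, ∃ a ∈ A, lev z = i + 2 ∧
    z ∈ cext (i + 1) κ a ∧ Bdr (kd a) s ∧ uc z = {s.w, s.w'}) with hD
  haveI : Nonempty (Sw P) := ⟨⟨xx0, xx0, xx0, xx0, xx0⟩⟩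
  have hex2 : ∀ z, z ∈ D → ∃ s : Sw P, ∃ a ∈ A, lev z = i + 2 ∧
      z ∈ cext (i + 1) κ a ∧ Bdr (kd a) s ∧ uc z = {s.w, s.w'} := by
    intro z hz
    exact (mem_filter.1 hz).2
  choose! sw hsw using hex2
  set Y := A.image (fun a => (kd a).y) with hY
  set ku : P → P := fun y => (kd (κ y)).u with hku
  have hYa : ∀ y ∈ Y, ∃ a ∈ A, (kd a).y = y ∧ ku y = (kd a).u ∧ κ y = a := by
    intro y hy
    obtain ⟨a, ha, rfl⟩ := mem_image.1 hy
    have h1 := (hAS a ha).2.ky.2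
    refine ⟨a, ha, rfl, ?_, h1⟩
    rw [hku]
    simp only
    rw [h1]
  have F : Fam P i D sw := by
    refine ⟨?_, ?_, ?_, ?_⟩
    · intro z hz
      obtain ⟨a, ha, h1, h2, h3, h4⟩ := hsw z hz
      exact h3.ok H h1 h4
    · intro z hz
      obtain ⟨a, ha, h1, h2, h3, h4⟩ := hsw z hz
      exact h3.lm
    · intro z hz
      obtain ⟨a, ha, h1, h2, h3, h4⟩ := hsw z hz
      exact h3.sm
    · intro z hz
      obtain ⟨a, ha, h1, h2, h3, h4⟩ := hsw z hz
      exact h3.ne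
  have G : FamK P i Y ku := by
    refine ⟨?_, ?_, ?_, ?_⟩
    · intro y hy
      obtain ⟨a, ha, h1, h2, -⟩ := hYa y hy
      rw [← h1]
      exact (hAS a ha).2.ly
    · intro y hy
      obtain ⟨a, ha, h1, h2, -⟩ := hYa y hy
      rw [h2]
      exact (hAS a ha).2.lu
    · intro y hy
      obtain ⟨a, ha, h1, h2, -⟩ := hYa y hy
      rw [← h1, (hAS a ha).2.ucy, card_pair (hAS a ha).2.n01]
    · intro y hy
      obtain ⟨a, ha, h1, h2, -⟩ := hYa y hy
      rw [h2, (hAS a ha).2.dcu, card_pair (hAS a ha).2.n12]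
  have hPC : Part (i + 1) (US (i + 1) κ S) := part_US H le_rfl hκ S
  refine XC_toggle2 H le_rfl hκ F G ?_ ?_ ?_ ?_ ?_ n _ ?_
  · intro z hz
    obtain ⟨a, ha, h1, h2, h3, h4⟩ := hsw z hz
    exact cext_sub_US (hAS a ha).1 h2
  · intro z hz
    obtain ⟨a, ha, h1, h2, h3, h4⟩ := hsw z hz
    exact cext_sub_cuni (hS (hAS a ha).1) h2
  · intro y hy
    obtain ⟨a, ha, h1, h2, -⟩ := hYa y hy
    have Q := (hAS a ha).2
    have l1 := Q.ly
    have l2 := Q.lu
    rw [h2, ← h1]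
    exact ⟨cext_sub_US (hAS a ha).1 (mem_cext_of_le hκ (by omega) Q.ky.2),
      cext_sub_US (hAS a ha).1 (mem_cext_of_le hκ (by omega) Q.ku.2)⟩
  · intro z hz y hy
    obtain ⟨a, ha, h1, h2, h3, h4⟩ := hsw z hz
    obtain ⟨b, hb, g1, g2, -⟩ := hYa y hy
    rw [g2, ← g1]
    exact indep H hκ h3 h1 h2 h4 (hAS b hb).2 (fun h => by rw [h])
  · intro y hy y' hy' hne'
    obtain ⟨a, ha, g1, g2, -⟩ := hYa y hy
    obtain ⟨b, hb, g1', g2', -⟩ := hYa y' hy'
    rw [g2, ← g1, g2', ← g1']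
    refine indep2 H hκ (hAS a ha).2 (hAS b hb).2 ?_
    rintro rfl
    exact hne' (g1.symm.trans g1')
  · intro Q hQ R hR
    set N := (st i (US (i + 1) κ S)).card - (n - 1) / 2 with hN
    set q := Q.card + R.card with hq
    rcases Nat.lt_or_ge N q with hNq | hNq
    · exact Dvd.dvd.mul_right (pow_dvd_pow dd hNq.le) _
    have hsplit : dd ^ N = dd ^ q * dd ^ ((st i (US (i + 1) κ S)).card - ((n - 1) / 2 + q)) := by
      rw [← pow_add]
      congr 1
      omega
    rw [hsplit]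
    refine mul_dvd_mul_left _ ?_
    refine class_dvd hM H ?_ ?_
    · -- closure under the simple swaps
      intro e he y0 hy0
      rw [mem_filter, mem_filter] at he ⊢
      obtain ⟨⟨h1, h2⟩, h3, h4⟩ := he
      refine ⟨⟨?_, ?_⟩, ?_, ?_⟩
      · exact (pa_sw hM H hy0 hPC n).2 h1
      · rw [Tch_sw hM H hy0 hκ]
        exact h2
      · intro d hd
        rw [StA_sw hM H hy0 (F.ok d hd), StB_sw hM H hy0 (F.ok d hd)]
        exact h3 d hd
      · intro y hy
        obtain ⟨a, ha, g1, g2, -⟩ := hYa y hy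
        have hyK : y ∈ K := by rw [← g1]; exact (hAS a ha).2.ky.1
        have huK : ku y ∈ K := by rw [g2]; exact (hAS a ha).2.ku.1
        have hyd : y ∈ dbL P i := mem_dbL'.2 ⟨G.ly y hy, G.cy y hy⟩
        have hud : ku y ∈ dbU P i := mem_dbU'.2 ⟨G.lu y hy, G.cu y hy⟩
        rw [KsA_sw hM H hy0 hyK huK hyd hud, KsB_sw hM H hy0 hyK huK hyd hud]
        exact h4 y hy
    · intro e he
      rw [mem_filter, mem_filter] at he
      obtain ⟨⟨h1, h2⟩, h3, h4⟩ := he
      have hspt := spt_of_mem h1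
      have hsum : ∑ x, e x = n := (mem_pa.1 h1).1
      refine tC_dvd fun hL hU hd => ?_
      obtain ⟨o1, o2, o3⟩ := hloc S e hspt hL hU hd
      have hc := count (D := D) (Y := Y) (sw := sw) (ku := ku) H hir hT hg hκ hM hKs hSS hJ h2
        ⟨a0, ha0⟩ ?_ hL o1 o2 o3 (fun d hd => (h3 d hd).1) (fun y hy => (h4 y hy).1) (by omega)
      · have e1 : D.filter (fun d => StB d (sw d) e) = Q := by
          ext d
          rw [mem_filter]
          constructor
          · rintro ⟨g1, g2⟩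
            exact (h3 d g1).2.1 g2
          · intro g1
            exact ⟨hQ g1, (h3 d (hQ g1)).2.2 g1⟩
        have e2 : Y.filter (fun y => KsB y (ku y) e) = R := by
          ext y
          rw [mem_filter]
          constructor
          · rintro ⟨g1, g2⟩
            exact (h4 y g1).2.1 g2
          · intro g1
            exact ⟨hR g1, (h4 y (hR g1)).2.2 g1⟩
        rw [e1, e2] at hc
        unfold EE at hc
        have e3 : ∑ x, (e x : ℤ) = n := by
          rw [← hsum]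
          push_cast
          rfl
        rw [e3] at hc
        omega
      · intro a ha
        by_cases hn : ∀ k ∈ K, κ k ≠ a
        · exact Or.inl hn
        · right
          have haA : a ∈ A := by rw [hA, mem_filter]; exact ⟨ha, hn⟩
          have Qa := (hAS a haA).2
          have hyY : (kd a).y ∈ Y := mem_image_of_mem _ haA
          obtain ⟨b, hb, g1, g2, g3⟩ := hYa _ hyY
          refine ⟨(kd a).w0, (kd a).y, (kd a).u, (kd a).w2, (kd a).x0, (kd a).x1, (kd a).x2, Qa,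
            hyY, ?_, ?_⟩
          · rw [hku]
            simp only
            rw [Qa.ky.2]
          · intro z p q' l m s hz hzC B huz
            have hzD : z ∈ D := by
              rw [hD, mem_filter]
              exact ⟨mem_univ _, ⟨p, q', l, m, s⟩, a, haA, hz, hzC, B, huz⟩
            refine ⟨hzD, ?_⟩
            obtain ⟨b', hb', -, -, g6, g7⟩ := hsw z hzD
            exact B.eq g6 huz g7

end Pool.Agent.GaussPoset.Win.H2
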