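import Pool.Agent.W_448h2_h63.HK

/-!
# The simple edges of the restrictions (MP_448cb3_co, Route T, block H)
-/

namespace Pool.Agent.GaussPoset.Win.H2

set_option linter.unusedSectionVars false

open Finset I2 K2 Ut

universe u

variable {P : Type u} [Fintype P] [PartialOrder P] [DecidableEq P] {r i : ℕ} {e : P → ℕ}

variable {ι : Type*} [DecidableEq ι] {κ : P → ι} {K C : Finset P} {psi : P → P}

/-- a simple edge of a restriction is a simple edge -/
theorem SK_rst (H : Gr P r) (hκ : Split (i + 1) κ) (hM : Mat P i K psi)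
    (hSS : ∀ z : P, lev z = i + 2 → z ∉ cuni (i + 1) κ → ∀ x ∈ uc z, (uc x).card = 1) {a : ι}
    {y : P} (hy : y ∈ SK i K psi (rst (cext (i + 1) κ a) e)) :
    y ∈ SK i K psi e ∧ y ∈ cext (i + 1) κ a := by
  obtain ⟨h1, h2, h3⟩ := mem_SK.1 hy
  obtain ⟨p1, p2, p3, p4⟩ := K2.psi_low hM h1 h2
  have l1 := mem_dbL'.1 h1
  have l2 := mem_dbU'.1 p1
  have hPC : Part (i + 1) (cext (i + 1) κ a) := part_cext H le_rfl hκ a
  -- both elements have the label of a site
  obtain ⟨x0, hx0⟩ := uc_nonempty H (x := y) (by omega)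
  have lx0 := lev_uc H hx0
  have k1 : κ y = κ x0 := hκ (mem_uc.1 hx0) (by omega)
  have k2 : κ x0 = κ (psi y) := hκ (mem_dc.1 (by rw [p2]; exact hx0)) (by omega)
  have hyC : y ∈ cext (i + 1) κ a := by
    rcases h3.one with ⟨g, -⟩ | ⟨-, g⟩
    · by_contra hn
      rw [rst_spt _ _ y hn] at g
      omega
    · have hp : psi y ∈ cext (i + 1) κ a := by
        by_contra hn
        rw [rst_spt _ _ _ hn] at g
        omega
      have k3 : κ (psi y) = a := mem_cext.1 hp _ le_rfl (by omega)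
      exact mem_cext_of_le hκ (by omega) (by rw [k1, k2, k3])
  have ka : κ y = a := mem_cext.1 hyC y le_rfl (by omega)
  have kx : ∀ x ∈ uc y, κ x = a ∧ lev x = i := by
    intro x hx
    have := lev_uc H hx
    exact ⟨by rw [← hκ (mem_uc.1 hx) (by omega), ka], by omega⟩
  have key : ∀ x, lev x ≤ i + 1 → κ x = a → rst (cext (i + 1) κ a) e x = e x :=
    fun x hx hk => rst_mem (mem_cext_of_le hκ hx hk)
  have kp : κ (psi y) = a := by rw [← k2, ← k1, ka]
  have ey : rst (cext (i + 1) κ a) e y = e y := rst_mem hyC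
  have ep : rst (cext (i + 1) κ a) e (psi y) = e (psi y) := key _ (by omega) kp
  refine ⟨mem_SK.2 ⟨h1, h2, ?_, ?_, ?_, ?_, ?_, ?_⟩, hyC⟩
  · rw [← ey, ← ep]
    exact h3.one
  · intro z hz
    have h4 := kid_mem H hSS l1.1 ka l1.2 (mem_dc.1 hz)
    rw [← rst_mem (e := e) h4]
    exact h3.lo z hz
  · intro v hv
    have h4 := lev_uc H hv
    rw [← key v (by omega) (by rw [← hκ (mem_uc.1 hv) (by omega), kp])]
    exact h3.up v hv
  · obtain ⟨x, hx, hx1⟩ := h3.ex
    refine ⟨x, hx, ?_⟩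
    rw [← key x (by have := (kx x hx).2; omega) (kx x hx).1]
    exact hx1
  · intro x hx hx1 z hz hzy
    obtain ⟨q1, q2⟩ := kx x hx
    have h4 := lev_dc H hz
    rw [← key z (by omega) (by rw [hκ (mem_dc.1 hz) (by omega), q1])]
    refine h3.lo' x hx ?_ z hz hzy
    rw [key x (by omega) q1]
    exact hx1
  · intro x hx hx1 v hv hvy
    obtain ⟨q1, q2⟩ := kx x hx
    have h4 := lev_uc H hv
    rw [← key v (by omega) (by rw [← hκ (mem_uc.1 hv) (by omega), q1])]
    refine h3.up' x hx ?_ v hv hvy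
    rw [key x (by omega) q1]
    exact hx1

/-- THE SIMPLE EDGES of the restrictions -/
theorem SK_sum (H : Gr P r) (hκ : Split (i + 1) κ) (hM : Mat P i K psi)
    (hSS : ∀ z : P, lev z = i + 2 → z ∉ cuni (i + 1) κ → ∀ x ∈ uc z, (uc x).card = 1)
    (S : Finset ι) :
    ∑ a ∈ S, (SK i K psi (rst (cext (i + 1) κ a) e)).card ≤ (SK i K psi e).card := by
  classical
  rw [← card_biUnion]
  · refine card_le_card ?_
    intro y hy
    rw [mem_biUnion] at hy
    obtain ⟨a, -, hy⟩ := hy
    exact (SK_rst H hκ hM hSS hy).1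
  · intro a _ b _ hab
    rw [Function.onFun, disjoint_left]
    intro y hy hy'
    exact disjoint_left.1 (disj_cext hab) (SK_rst H hκ hM hSS hy).2 (SK_rst H hκ hM hSS hy').2

end Pool.Agent.GaussPoset.Win.H2
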