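import Pool.Agent.W_448h2_h63.HL
import Pool.Agent.W_448h2_h61.LocA

/-!
# The cross series of energy at most twelve (MP_448cb3_co, Route T, block H): final form
-/

namespace Pool.Agent.GaussPoset.Win.H2

set_option linter.unusedSectionVars false

open Finset I2 K2 Ut

universe u

variable {P : Type u} [Fintype P] [PartialOrder P] [DecidableEq P] {r i : ℕ} {e : P → ℕ}

variable {ι : Type*} [DecidableEq ι] {κ : P → ι} {K C : Finset P} {psi : P → P}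

/-- THE CROSS SERIES OF ENERGY AT MOST TWELVE -/
theorem h2_twelve (H : Gr P r) (hir : i ≤ r) (hT : NoT P (i + 2))
    (hg : ∀ m, m + 1 = i → Good P m)
    (hκ : Split (i + 1) κ) (hM : Mat P i K psi) (hKs : K ⊆ dbL P i ∪ dbU P i)
    (hSS : ∀ z : P, lev z = i + 2 → z ∉ cuni (i + 1) κ → ∀ x ∈ uc z, (uc x).card = 1)
    (hJ : ∀ z : P, lev z = i + 2 → z ∉ cuni (i + 1) κ → ∃ x ∈ uc z, ∀ k ∈ K, κ k ≠ κ x)
    (hpart : ∀ a ∈ univ.image κ, (∀ k ∈ K, κ k ≠ a) ∨ ∃ w0 y u w2 x0 x1 x2,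
      KP i κ K a w0 y u w2 x0 x1 x2) :
    ∀ S, S ⊆ univ.image κ → S.Nonempty → ∀ n, 1 ≤ n → n ≤ 12 →
      dd ^ ((st i (US (i + 1) κ S)).card - (n - 1) / 2) ∣ XC i (i + 1) κ S n := by
  refine h2_of_loc H hir hT hg hκ hM hKs hSS hJ hpart ?_
  intro S e hs hL hU hd
  refine ⟨fun a _ => ⟨admL_rst hL a, admU_rst H hκ hU a, dis_rst H hκ hd a⟩, ?_,
    SK_sum H hκ hM hSS S⟩
  have h := loc (S := S) H hir hT.noQ hg hκ hs hL hU
  unfold crz
  convert h using 2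

end Pool.Agent.GaussPoset.Win.H2
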