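import Pool.Agent.W_448h2_h63.HM

/-!
# Separated configurations (MP_448cb3_co, case B, Route T, block H)

`Sep i f g`: the supports of `f` and `g` are disjoint and not adjacent, and no element is touched from
both. `tC_sep`: the term of `f + g` is the product of the terms.
-/

namespace Pool.Agent.GaussPoset.Win.H2

set_option linter.unusedSectionVars false

open Finset I2 K2 Ut

universe u

variable {P : Type u} [Fintype P] [PartialOrder P] [DecidableEq P] {r i : ℕ} {e f g : P → ℕ}

/-- separated configurations -/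
structure Sep (i : ℕ) (f g : P → ℕ) : Prop where
  dis : ∀ x, f x ≠ 0 → g x = 0
  up : ∀ x y, x ⋖ y → f x ≠ 0 → g y = 0
  dn : ∀ x y, x ⋖ y → f y ≠ 0 → g x = 0
  low : ∀ v, i ≤ lev v → FD f v → ¬ FD g v
  upp : ∀ v, lev v ≤ i → FU f v → ¬ FU g v
  lu : ∀ v, lev v = i → FD f v → ¬ FU g v
  ul : ∀ v, lev v = i → FU f v → ¬ FD g v

section sep

variable (S : Sep i f g)
include S

lemma Sep.dis' {x : P} (h : g x ≠ 0) : f x = 0 := by
  by_contra hn
  exact h (S.dis x hn)

lemma Sep.FD {z : P} : FD (f + g) z ↔ FD f z ∨ FD g z := by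
  constructor
  · rintro ⟨t, ht, hlt⟩
    rw [Pi.add_apply, Pi.add_apply] at hlt
    by_cases h : f t = 0
    · right
      exact ⟨t, ht, by omega⟩
    · left
      have h1 := S.dis t h
      have h2 := S.up t z ht h
      exact ⟨t, ht, by omega⟩
  · rintro (⟨t, ht, hlt⟩ | ⟨t, ht, hlt⟩)
    · have h : f t ≠ 0 := by omega
      have h1 := S.dis t h
      have h2 := S.up t z ht h
      exact ⟨t, ht, by rw [Pi.add_apply, Pi.add_apply]; omega⟩
    · have h : g t ≠ 0 := by omega
      have h1 := S.dis' h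
      have h2 : f z = 0 := by
        by_contra hn
        exact h (S.dn t z ht hn)
      exact ⟨t, ht, by rw [Pi.add_apply, Pi.add_apply]; omega⟩

lemma Sep.FU {z : P} : FU (f + g) z ↔ FU f z ∨ FU g z := by
  constructor
  · rintro ⟨t, ht, hlt⟩
    rw [Pi.add_apply, Pi.add_apply] at hlt
    by_cases h : f t = 0
    · right
      exact ⟨t, ht, by omega⟩
    · left
      have h1 := S.dis t h
      have h2 := S.dn z t ht h
      exact ⟨t, ht, by omega⟩
  · rintro (⟨t, ht, hlt⟩ | ⟨t, ht, hlt⟩)
    · have h : f t ≠ 0 := by omega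
      have h1 := S.dis t h
      have h2 := S.dn z t ht h
      exact ⟨t, ht, by rw [Pi.add_apply, Pi.add_apply]; omega⟩
    · have h : g t ≠ 0 := by omega
      have h1 := S.dis' h
      have h2 : f z = 0 := by
        by_contra hn
        exact h (S.up z t ht hn)
      exact ⟨t, ht, by rw [Pi.add_apply, Pi.add_apply]; omega⟩

omit S in
lemma GU_zero (H : Gr P r) {z : P} (hz : 1 ≤ lev z) (h : e z = 0) : GU e z := by
  obtain ⟨y, hy⟩ := uc_nonempty H hz
  exact ⟨y, mem_uc.1 hy, by omega⟩

omit S in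
lemma GD_zero (H : Gr P r) {z : P} (hz : lev z < r) (h : e z = 0) : GD e z := by
  obtain ⟨y, hy⟩ := dc_nonempty H hz
  exact ⟨y, mem_dc.1 hy, by omega⟩

lemma Sep.GU (H : Gr P r) {z : P} (hz : 1 ≤ lev z) : GU (f + g) z ↔ GU f z ∧ GU g z := by
  by_cases hf : f z = 0
  · by_cases hg : g z = 0
    · have h1 := GU_zero H hz hf
      have h2 := GU_zero H hz hg
      have h3 : Win.GU (f + g) z := GU_zero H hz (by rw [Pi.add_apply]; omega)
      exact ⟨fun _ => ⟨h1, h2⟩, fun _ => h3⟩
    · have h1 := GU_zero H hz hf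
      have key : ∀ y, z ⋖ y → f y = 0 := by
        intro y hy
        by_contra hn
        exact hg (S.dn z y hy hn)
      constructor
      · rintro ⟨y, hy, hle⟩
        rw [Pi.add_apply, Pi.add_apply, key y hy] at hle
        exact ⟨h1, y, hy, by omega⟩
      · rintro ⟨-, y, hy, hle⟩
        exact ⟨y, hy, by rw [Pi.add_apply, Pi.add_apply, key y hy]; omega⟩
  · have hg := S.dis z hf
    have h1 := GU_zero H hz hg
    have key : ∀ y, z ⋖ y → g y = 0 := fun y hy => S.up z y hy hf
    constructor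
    · rintro ⟨y, hy, hle⟩
      rw [Pi.add_apply, Pi.add_apply, key y hy] at hle
      exact ⟨⟨y, hy, by omega⟩, h1⟩
    · rintro ⟨⟨y, hy, hle⟩, -⟩
      exact ⟨y, hy, by rw [Pi.add_apply, Pi.add_apply, key y hy]; omega⟩

lemma Sep.GD (H : Gr P r) {z : P} (hz : lev z < r) : GD (f + g) z ↔ GD f z ∧ GD g z := by
  by_cases hf : f z = 0
  · by_cases hg : g z = 0
    · have h1 := GD_zero H hz hf
      have h2 := GD_zero H hz hg
      have h3 : Win.GD (f + g) z := GD_zero H hz (by rw [Pi.add_apply]; omega)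
      exact ⟨fun _ => ⟨h1, h2⟩, fun _ => h3⟩
    · have h1 := GD_zero H hz hf
      have key : ∀ y, y ⋖ z → f y = 0 := by
        intro y hy
        by_contra hn
        exact hg (S.up y z hy hn)
      constructor
      · rintro ⟨y, hy, hle⟩
        rw [Pi.add_apply, Pi.add_apply, key y hy] at hle
        exact ⟨h1, y, hy, by omega⟩
      · rintro ⟨-, y, hy, hle⟩
        exact ⟨y, hy, by rw [Pi.add_apply, Pi.add_apply, key y hy]; omega⟩
  · have hg := S.dis z hf
    have h1 := GD_zero H hz hg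
    have key : ∀ y, y ⋖ z → g y = 0 := fun y hy => S.dn y z hy hf
    constructor
    · rintro ⟨y, hy, hle⟩
      rw [Pi.add_apply, Pi.add_apply, key y hy] at hle
      exact ⟨⟨y, hy, by omega⟩, h1⟩
    · rintro ⟨⟨y, hy, hle⟩, -⟩
      exact ⟨y, hy, by rw [Pi.add_apply, Pi.add_apply, key y hy]; omega⟩

lemma Sep.admL (H : Gr P r) : AdmL i (f + g) ↔ AdmL i f ∧ AdmL i g := by
  unfold AdmL
  constructor
  · intro h
    constructor
    · rintro z hz ⟨h1, h2⟩
      refine h z hz ⟨S.FD.2 (Or.inl h1), (S.GU H (by omega)).2 ⟨h2, ?_⟩⟩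
      obtain ⟨t, ht, hlt⟩ := h1
      exact GU_zero H (by omega) (S.up t z ht (by omega))
    · rintro z hz ⟨h1, h2⟩
      refine h z hz ⟨S.FD.2 (Or.inr h1), (S.GU H (by omega)).2 ⟨?_, h2⟩⟩
      obtain ⟨t, ht, hlt⟩ := h1
      refine GU_zero H (by omega) ?_
      by_contra hn
      have := S.dn t z ht hn
      omega
  · rintro ⟨h1, h2⟩ z hz ⟨h3, h4⟩
    obtain ⟨h5, h6⟩ := (S.GU H (by omega)).1 h4
    rcases S.FD.1 h3 with h | h
    · exact h1 z hz ⟨h, h5⟩
    · exact h2 z hz ⟨h, h6⟩

lemma Sep.admU (H : Gr P r) (hir : i ≤ r) : AdmU i (f + g) ↔ AdmU i f ∧ AdmU i g := by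
  unfold AdmU
  constructor
  · intro h
    constructor
    · rintro z hz ⟨h1, h2⟩
      refine h z hz ⟨S.FU.2 (Or.inl h1), (S.GD H (by omega)).2 ⟨h2, ?_⟩⟩
      obtain ⟨t, ht, hlt⟩ := h1
      exact GD_zero H (by omega) (S.dn z t ht (by omega))
    · rintro z hz ⟨h1, h2⟩
      refine h z hz ⟨S.FU.2 (Or.inr h1), (S.GD H (by omega)).2 ⟨?_, h2⟩⟩
      obtain ⟨t, ht, hlt⟩ := h1
      refine GD_zero H (by omega) ?_
      by_contra hn
      have := S.up z t ht hn
      omega
  · rintro ⟨h1, h2⟩ z hz ⟨h3, h4⟩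
    obtain ⟨h5, h6⟩ := (S.GD H (by omega)).1 h4
    rcases S.FU.1 h3 with h | h
    · exact h1 z hz ⟨h, h5⟩
    · exact h2 z hz ⟨h, h6⟩

lemma Sep.AL : AL i (f + g) = AL i f ∪ AL i g ∧ Disjoint (AL i f) (AL i g) := by
  constructor
  · ext v
    rw [mem_union, NormD_mem_AL, NormD_mem_AL, NormD_mem_AL, S.FD]
    tauto
  · rw [disjoint_left]
    intro v h1 h2
    rw [NormD_mem_AL] at h1 h2
    exact S.low v h1.1.ge h1.2 h2.2

lemma Sep.AU : AU i (f + g) = AU i f ∪ AU i g ∧ Disjoint (AU i f) (AU i g) := by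
  constructor
  · ext v
    rw [mem_union, NormD_mem_AU, NormD_mem_AU, NormD_mem_AU, S.FU]
    tauto
  · rw [disjoint_left]
    intro v h1 h2
    rw [NormD_mem_AU] at h1 h2
    exact S.upp v h1.1.le h1.2 h2.2

lemma Sep.dAU : Disjoint (Win.AL i (f + g)) (Win.AU i (f + g)) ↔
    Disjoint (Win.AL i f) (Win.AU i f) ∧ Disjoint (Win.AL i g) (Win.AU i g) := by
  rw [S.AL.1, S.AU.1, disjoint_union_left, disjoint_union_right, disjoint_union_right]
  constructor
  · rintro ⟨⟨h1, -⟩, -, h2⟩
    exact ⟨h1, h2⟩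
  · rintro ⟨h1, h2⟩
    refine ⟨⟨h1, ?_⟩, ?_, h2⟩
    · rw [disjoint_left]
      intro v h3 h4
      rw [NormD_mem_AL] at h3
      rw [NormD_mem_AU] at h4
      exact S.lu v h3.1 h3.2 h4.2
    · rw [disjoint_left]
      intro v h3 h4
      rw [NormD_mem_AL] at h3
      rw [NormD_mem_AU] at h4
      exact S.ul v h3.1 h4.2 h3.2

open Classical in
lemma Sep.cnt (H : Gr P r) (hir : i ≤ r) : aL i (f + g) = aL i f + aL i g ∧
    aU i (f + g) = aU i f + aU i g ∧ pL i (f + g) = pL i f + pL i g ∧
    pU i (f + g) = pU i f + pU i g := by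
  refine ⟨?_, ?_, ?_, ?_⟩
  · unfold aL
    rw [← card_union_of_disjoint]
    · congr 1
      ext z
      rw [mem_union, mem_filter, mem_filter, mem_filter, S.FD]
      tauto
    · rw [disjoint_left]
      intro z h1 h2
      rw [mem_filter] at h1 h2
      exact S.low z h1.2.1.le h1.2.2 h2.2.2
  · unfold aU
    rw [← card_union_of_disjoint]
    · congr 1
      ext z
      rw [mem_union, mem_filter, mem_filter, mem_filter, S.FU]
      tauto
    · rw [disjoint_left]
      intro z h1 h2
      rw [mem_filter] at h1 h2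
      exact S.upp z h1.2.1.le h1.2.2 h2.2.2
  · unfold pL
    rw [← card_union_of_disjoint]
    · congr 1
      ext z
      rw [mem_union, mem_filter, mem_filter, mem_filter, S.FD]
      constructor
      · rintro ⟨h0, h1, h2, h3⟩
        rw [S.GU H (by omega), not_and_or] at h3
        rw [not_or] at h2
        rcases h3 with h3 | h3
        · exact Or.inl ⟨h0, h1, h2.1, h3⟩
        · exact Or.inr ⟨h0, h1, h2.2, h3⟩
      · rintro (⟨h0, h1, h2, h3⟩ | ⟨h0, h1, h2, h3⟩)
        · have hf : f z ≠ 0 := fun h => h3 (GU_zero H (by omega) h)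
          refine ⟨h0, h1, ?_, fun h => h3 ((S.GU H (by omega)).1 h).1⟩
          rintro (h | ⟨t, ht, hlt⟩)
          · exact h2 h
          · have := S.dn t z ht hf
            omega
        · have hg : g z ≠ 0 := fun h => h3 (GU_zero H (by omega) h)
          refine ⟨h0, h1, ?_, fun h => h3 ((S.GU H (by omega)).1 h).2⟩
          rintro (⟨t, ht, hlt⟩ | h)
          · exact hg (S.up t z ht (by omega))
          · exact h2 h
    · rw [disjoint_left]
      intro z h1 h2
      rw [mem_filter] at h1 h2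
      have hf : f z ≠ 0 := fun h => h1.2.2.2 (GU_zero H (by omega) h)
      exact h2.2.2.2 (GU_zero H (by omega) (S.dis z hf))
  · unfold pU
    rw [← card_union_of_disjoint]
    · congr 1
      ext z
      rw [mem_union, mem_filter, mem_filter, mem_filter, S.FU]
      constructor
      · rintro ⟨h0, h1, h2, h3⟩
        rw [S.GD H (by omega), not_and_or] at h3
        rw [not_or] at h2
        rcases h3 with h3 | h3
        · exact Or.inl ⟨h0, h1, h2.1, h3⟩
        · exact Or.inr ⟨h0, h1, h2.2, h3⟩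
      · rintro (⟨h0, h1, h2, h3⟩ | ⟨h0, h1, h2, h3⟩)
        · have hf : f z ≠ 0 := fun h => h3 (GD_zero H (by omega) h)
          refine ⟨h0, h1, ?_, fun h => h3 ((S.GD H (by omega)).1 h).1⟩
          rintro (h | ⟨t, ht, hlt⟩)
          · exact h2 h
          · have := S.up z t ht hf
            omega
        · have hg : g z ≠ 0 := fun h => h3 (GD_zero H (by omega) h)
          refine ⟨h0, h1, ?_, fun h => h3 ((S.GD H (by omega)).1 h).2⟩
          rintro (⟨t, ht, hlt⟩ | h)
          · exact hg (S.dn z t ht (by omega))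
          · exact h2 h
    · rw [disjoint_left]
      intro z h1 h2
      rw [mem_filter] at h1 h2
      have hf : f z ≠ 0 := fun h => h1.2.2.2 (GD_zero H (by omega) h)
      exact h2.2.2.2 (GD_zero H (by omega) (S.dis z hf))

/-- THE TERM of a sum of separated configurations -/
theorem tC_sep (H : Gr P r) (hir : i ≤ r) {C : Finset P} (hC : Part i C) (hf : Spt C f)
    (hg : Spt C g) : dd ^ (st i C).card * tC i C (f + g) = tC i C f * tC i C g := by
  classical
  have hs : Spt C (f + g) := by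
    intro x hx
    rw [Pi.add_apply, hf x hx, hg x hx]
  unfold tC
  by_cases hd : Disjoint (Win.AL i (f + g)) (Win.AU i (f + g))
  swap
  · rw [if_neg hd]
    rw [S.dAU, not_and_or] at hd
    rcases hd with h | h
    · rw [if_neg h]
      ring
    · rw [if_neg h]
      ring
  · obtain ⟨hd1, hd2⟩ := S.dAU.1 hd
    rw [if_pos hd, if_pos hd1, if_pos hd2]
    have hle : (Win.AL i (f + g)).card + (Win.AU i (f + g)).card ≤ (st i C).card := by
      rw [← card_union_of_disjoint hd]
      exact card_le_card (union_subset (AL_sub hC hs) (AU_sub H hC hs))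
    have hcL : (Win.AL i (f + g)).card = (Win.AL i f).card + (Win.AL i g).card := by
      rw [S.AL.1, card_union_of_disjoint S.AL.2]
    have hcU : (Win.AU i (f + g)).card = (Win.AU i f).card + (Win.AU i g).card := by
      rw [S.AU.1, card_union_of_disjoint S.AU.2]
    obtain ⟨c1, c2, c3, c4⟩ := S.cnt H hir
    unfold cw
    by_cases ha : AdmL i (f + g) ∧ AdmU i (f + g)
    · obtain ⟨a1, a2⟩ := (S.admL H).1 ha.1
      obtain ⟨a3, a4⟩ := (S.admU H hir).1 ha.2
      rw [if_pos ha, if_pos ⟨a1, a3⟩, if_pos ⟨a2, a4⟩, c1, c2, c3, c4, hcL, hcU]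
      rw [hcL, hcU] at hle
      obtain ⟨N, hN⟩ : ∃ N, (st i C).card = (Win.AL i f).card + (Win.AL i g).card +
          ((Win.AU i f).card + (Win.AU i g).card) + N := ⟨_, (Nat.add_sub_cancel' hle).symm⟩
      have e1 : (st i C).card - ((Win.AL i f).card + (Win.AL i g).card) -
          ((Win.AU i f).card + (Win.AU i g).card) = N := by omega
      have e2 : (st i C).card - (Win.AL i f).card - (Win.AU i f).card =
          (Win.AL i g).card + (Win.AU i g).card + N := by omega
      have e3 : (st i C).card - (Win.AL i g).card - (Win.AU i g).card =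
          (Win.AL i f).card + (Win.AU i f).card + N := by omega
      rw [e1, e2, e3, hN]
      ring
    · rw [if_neg ha]
      rw [S.admL H, S.admU H hir] at ha
      by_cases h1 : AdmL i f ∧ AdmU i f
      · by_cases h2 : AdmL i g ∧ AdmU i g
        · exact absurd ⟨⟨h1.1, h2.1⟩, h1.2, h2.2⟩ ha
        · rw [if_neg h2]
          ring
      · rw [if_neg h1]
        ring

end sep

end Pool.Agent.GaussPoset.Win.H2
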