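import Pool.Agent.W_448h2_h63.HN

/-!
# The six states of a part with unmatched elements (MP_448cb3_co, case B, Route T, block H)

`tC_near`: the term of a configuration on near elements. `Six`: the elements of the six states,
`fk`: the six states, `six_dvd`: the sum over the six states has one more factor `dd`.
-/

namespace Pool.Agent.GaussPoset.Win.H2

set_option linter.unusedSectionVars false

open Finset I2 K2 Ut

universe u

variable {P : Type u} [Fintype P] [PartialOrder P] [DecidableEq P] {r i : ℕ} {e f g : P → ℕ}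

open Classical in
/-- a term without `FD` and `FU` away from the sites -/
lemma tC_gen {C : Finset P} (W V : Finset P) (h1 : ∀ z, i < lev z → ¬ FD f z)
    (h2 : ∀ z, i < lev z → (¬ GU f z ↔ z ∈ W)) (h3 : ∀ z, lev z < i → ¬ FU f z)
    (h4 : ∀ z, lev z < i → (¬ GD f z ↔ z ∈ V)) (hW : ∀ w ∈ W, i < lev w) (hV : ∀ v ∈ V, lev v < i)
    (hd : Disjoint (AL i f) (AU i f)) :
    tC i C f = xx ^ (AL i f).card * xi ^ V.card * dd ^ (W.card + V.card) *
      dd ^ ((st i C).card - (AL i f).card - (AU i f).card) := by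
  have a1 : AdmL i f := fun z hz h => h1 z hz h.1
  have a2 : AdmU i f := fun z hz h => h3 z hz h.1
  have c1 : aL i f = 0 := by
    unfold aL
    rw [card_eq_zero, Finset.filter_eq_empty_iff]
    rintro z - ⟨h5, h6⟩
    exact h1 z h5 h6
  have c2 : aU i f = 0 := by
    unfold aU
    rw [card_eq_zero, Finset.filter_eq_empty_iff]
    rintro z - ⟨h5, h6⟩
    exact h3 z h5 h6
  have c3 : pL i f = W.card := by
    unfold pL
    congr 1
    ext z
    rw [mem_filter]
    constructor
    · rintro ⟨-, h5, -, h6⟩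
      exact (h2 z h5).1 h6
    · intro h
      have := hW z h
      exact ⟨mem_univ _, this, h1 z this, (h2 z this).2 h⟩
  have c4 : pU i f = V.card := by
    unfold pU
    congr 1
    ext z
    rw [mem_filter]
    constructor
    · rintro ⟨-, h5, -, h6⟩
      exact (h4 z h5).1 h6
    · intro h
      have := hV z h
      exact ⟨mem_univ _, this, h3 z this, (h4 z this).2 h⟩
  unfold tC cw
  rw [if_pos hd, if_pos ⟨a1, a2⟩, c1, c2, c3, c4]
  ring

/-- a configuration on near elements: `FD` -/
lemma near_FD (H : Gr P r) {W V : Finset P} (hW : ∀ w ∈ W, lev w = i + 1)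
    (hV : ∀ v ∈ V, lev v + 1 = i) (hf : ∀ z, f z ≠ 0 ↔ z ∈ W ∨ z ∈ V) {z : P} (hz : i ≤ lev z) :
    FD f z ↔ z ∈ W.biUnion uc := by
  rw [mem_biUnion]
  constructor
  · rintro ⟨t, ht, hlt⟩
    have h1 := lev_uc H (mem_uc.2 ht)
    rcases (hf t).1 (by omega) with h | h
    · exact ⟨t, h, mem_uc.2 ht⟩
    · have := hV t h
      omega
  · rintro ⟨t, ht, h⟩
    have h1 := lev_uc H h
    have h2 := hW t ht
    have h3 : f z = 0 := by
      by_contra hn
      rcases (hf z).1 hn with h | h
      · have := hW z h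
        omega
      · have := hV z h
        omega
    have h4 := (hf t).2 (Or.inl ht)
    exact ⟨t, mem_uc.1 h, by omega⟩

lemma near_FU (H : Gr P r) {W V : Finset P} (hW : ∀ w ∈ W, lev w = i + 1)
    (hV : ∀ v ∈ V, lev v + 1 = i) (hf : ∀ z, f z ≠ 0 ↔ z ∈ W ∨ z ∈ V) {z : P} (hz : lev z ≤ i) :
    FU f z ↔ z ∈ V.biUnion dc := by
  rw [mem_biUnion]
  constructor
  · rintro ⟨t, ht, hlt⟩
    have h1 := lev_uc H (mem_uc.2 ht)
    rcases (hf t).1 (by omega) with h | h
    · have := hW t h
      omega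
    · exact ⟨t, h, mem_dc.2 ht⟩
  · rintro ⟨t, ht, h⟩
    have h1 := lev_dc H h
    have h2 := hV t ht
    have h3 : f z = 0 := by
      by_contra hn
      rcases (hf z).1 hn with h | h
      · have := hW z h
        omega
      · have := hV z h
        omega
    have h4 := (hf t).2 (Or.inr ht)
    exact ⟨t, mem_dc.1 h, by omega⟩

/-- THE TERM OF A CONFIGURATION on near elements -/
theorem tC_near (H : Gr P r) (hir : i ≤ r) {C : Finset P} {W V : Finset P}
    (hW : ∀ w ∈ W, lev w = i + 1) (hV : ∀ v ∈ V, lev v + 1 = i)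
    (hf : ∀ z, f z ≠ 0 ↔ z ∈ W ∨ z ∈ V) (hd : Disjoint (W.biUnion uc) (V.biUnion dc)) :
    tC i C f = xx ^ (W.biUnion uc).card * xi ^ V.card * dd ^ (W.card + V.card) *
      dd ^ ((st i C).card - (W.biUnion uc).card - (V.biUnion dc).card) := by
  classical
  have eL : AL i f = W.biUnion uc := by
    ext v
    rw [NormD_mem_AL]
    constructor
    · rintro ⟨h1, h2⟩
      exact (near_FD H hW hV hf h1.ge).1 h2
    · intro h
      have h1 : lev v = i := by
        rw [mem_biUnion] at h
        obtain ⟨t, ht, h⟩ := h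
        have := lev_uc H h
        have := hW t ht
        omega
      exact ⟨h1, (near_FD H hW hV hf h1.ge).2 h⟩
  have eU : AU i f = V.biUnion dc := by
    ext v
    rw [NormD_mem_AU]
    constructor
    · rintro ⟨h1, h2⟩
      exact (near_FU H hW hV hf h1.le).1 h2
    · intro h
      have h1 : lev v = i := by
        rw [mem_biUnion] at h
        obtain ⟨t, ht, h⟩ := h
        have := lev_dc H h
        have := hV t ht
        omega
      exact ⟨h1, (near_FU H hW hV hf h1.le).2 h⟩
  have h := tC_gen (i := i) (f := f) (C := C) W V ?_ ?_ ?_ ?_ ?_ ?_ ?_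
  · rw [h, eL, eU]
  · intro z hz h
    rw [near_FD H hW hV hf hz.le, mem_biUnion] at h
    obtain ⟨t, ht, h⟩ := h
    have := lev_uc H h
    have := hW t ht
    omega
  · intro z hz
    constructor
    · intro h
      have h1 : f z ≠ 0 := fun h2 => h (GU_zero H (by omega) h2)
      rcases (hf z).1 h1 with h2 | h2
      · exact h2
      · have := hV z h2
        omega
    · rintro h ⟨t, ht, hle⟩
      have h1 := (hf z).2 (Or.inl h)
      have h2 := lev_uc H (mem_uc.2 ht)
      have h3 := hW z h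
      rcases (hf t).1 (by omega) with h4 | h4
      · have := hW t h4
        omega
      · have := hV t h4
        omega
  · intro z hz h
    rw [near_FU H hW hV hf hz.le, mem_biUnion] at h
    obtain ⟨t, ht, h⟩ := h
    have := lev_dc H h
    have := hV t ht
    omega
  · intro z hz
    constructor
    · intro h
      have h1 : f z ≠ 0 := fun h2 => h (GD_zero H (by omega) h2)
      rcases (hf z).1 h1 with h2 | h2
      · have := hW z h2
        omega
      · exact h2
    · rintro h ⟨t, ht, hle⟩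
      have h1 := (hf z).2 (Or.inr h)
      have h2 := lev_uc H (mem_uc.2 ht)
      have h3 := hV z h
      rcases (hf t).1 (by omega) with h4 | h4
      · have := hW t h4
        omega
      · have := hV t h4
        omega
  · intro w hw
    have := hW w hw
    omega
  · intro v hv
    have := hV v hv
    omega
  · rw [eL, eU]
    exact hd

/-- an element of level `i + 2` with label one below labelled elements does not change the term -/
lemma tC_child (H : Gr P r) {C : Finset P} {c : P} (hc : lev c = i + 2) (hfc : f c = 0)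
    (hgc : g c = 1) (hne : ∀ x, x ≠ c → g x = f x) (hu : ∀ w ∈ uc c, 1 ≤ f w)
    (ht : ∀ t ∈ dc c, f t = 0) : tC i C g = tC i C f := by
  classical
  have kFD : ∀ z, FD g z ↔ FD f z := by
    intro z
    constructor
    · rintro ⟨t, h1, h2⟩
      by_cases hz : z = c
      · subst hz
        have h3 : t ≠ z := by rintro rfl; omega
        rw [hne t h3, ht t (mem_dc.2 h1)] at h2
        omega
      · by_cases h3 : t = c
        · subst h3
          have := hu z (mem_uc.2 h1)
          rw [hne z hz] at h2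
          omega
        · rw [hne z hz, hne t h3] at h2
          exact ⟨t, h1, h2⟩
    · rintro ⟨t, h1, h2⟩
      by_cases hz : z = c
      · subst hz
        rw [ht t (mem_dc.2 h1)] at h2
        omega
      · have h3 : t ≠ c := by rintro rfl; omega
        exact ⟨t, h1, by rw [hne z hz, hne t h3]; exact h2⟩
  have kGU : ∀ z, 1 ≤ lev z → (GU g z ↔ GU f z) := by
    intro z hz1
    by_cases hz : z = c
    · subst hz
      obtain ⟨w, hw⟩ := uc_nonempty H hz1
      have h3 : w ≠ z := by
        rintro rfl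
        have := lev_uc H hw
        omega
      exact ⟨fun _ => GU_zero H hz1 hfc, fun _ => ⟨w, mem_uc.1 hw, by
        rw [hgc, hne w h3]
        exact hu w hw⟩⟩
    · by_cases h4 : z ∈ dc c
      · have h5 := ht z h4
        exact ⟨fun _ => GU_zero H hz1 h5, fun _ => GU_zero H hz1 (by rw [hne z hz]; exact h5)⟩
      · unfold GU
        refine exists_congr fun w => and_congr_right fun hw => ?_
        rw [hne z hz, hne w (by
          rintro rfl
          exact h4 (mem_dc.2 hw))]
  have kFU : ∀ z, lev z ≤ i → (FU g z ↔ FU f z) := by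
    intro z hz
    unfold FU
    refine exists_congr fun w => and_congr_right fun hw => ?_
    have h1 := lev_uc H (mem_uc.2 hw)
    rw [hne z (by rintro rfl; omega), hne w (by rintro rfl; omega)]
  have kGD : ∀ z, lev z < i → (GD g z ↔ GD f z) := by
    intro z hz
    unfold GD
    refine exists_congr fun w => and_congr_right fun hw => ?_
    have h1 := lev_uc H (mem_uc.2 hw)
    rw [hne z (by rintro rfl; omega), hne w (by rintro rfl; omega)]
  have eL : AL i g = AL i f := by
    ext v
    rw [NormD_mem_AL, NormD_mem_AL, kFD]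
  have eU : AU i g = AU i f := by
    ext v
    rw [NormD_mem_AU, NormD_mem_AU]
    exact and_congr_right fun h => kFU v h.le
  have a1 : AdmL i g ↔ AdmL i f := by
    unfold AdmL
    refine forall_congr' fun z => forall_congr' fun hz => not_congr ?_
    rw [kFD, kGU z (by omega)]
  have a2 : AdmU i g ↔ AdmU i f := by
    unfold AdmU
    refine forall_congr' fun z => forall_congr' fun hz => not_congr ?_
    rw [kFU z hz.le, kGD z hz]
  have c1 : aL i g = aL i f := by
    unfold aL
    congr 1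
    ext z
    rw [mem_filter, mem_filter, kFD]
  have c2 : aU i g = aU i f := by
    unfold aU
    congr 1
    ext z
    rw [mem_filter, mem_filter]
    exact and_congr_right fun _ => and_congr_right fun hz => kFU z hz.le
  have c3 : pL i g = pL i f := by
    unfold pL
    congr 1
    ext z
    rw [mem_filter, mem_filter]
    refine and_congr_right fun _ => and_congr_right fun hz => ?_
    rw [kFD, kGU z (by omega)]
  have c4 : pU i g = pU i f := by
    unfold pU
    congr 1
    ext z
    rw [mem_filter, mem_filter]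
    refine and_congr_right fun _ => and_congr_right fun hz => ?_
    rw [kFU z hz.le, kGD z hz]
  unfold tC cw
  rw [eL, eU, c1, c2, c3, c4, a1, a2]

/-- three labels -/
def t3 (a b c : P) (n m k : ℕ) : P → ℕ := fun x => if x = a then n else if x = b then m else
  if x = c then k else 0

lemma t3_a {a b c : P} {n m k : ℕ} : t3 a b c n m k a = n := by
  unfold t3
  rw [if_pos rfl]

lemma t3_b {a b c : P} {n m k : ℕ} (h : b ≠ a) : t3 a b c n m k b = m := by
  unfold t3
  rw [if_neg h, if_pos rfl]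

lemma t3_c {a b c : P} {n m k : ℕ} (h : c ≠ a) (h' : c ≠ b) : t3 a b c n m k c = k := by
  unfold t3
  rw [if_neg h, if_neg h', if_pos rfl]

lemma t3_o {a b c x : P} {n m k : ℕ} (h : x ≠ a) (h' : x ≠ b) (h2 : x ≠ c) :
    t3 a b c n m k x = 0 := by
  unfold t3
  rw [if_neg h, if_neg h', if_neg h2]

lemma t3_ne {a b c : P} {n m k : ℕ} (hn : n ≠ 0) (hm : m ≠ 0) (hk : k ≠ 0) (x : P) :
    t3 a b c n m k x ≠ 0 ↔ x = a ∨ x = b ∨ x = c := by
  unfold t3
  split_ifs with h1 h2 h3
  · simp [h1, hn]
  · simp [h2, hm]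
  · simp [h3, hk]
  · simp [h1, h2, h3]

/-- the elements of the six states -/
structure Six (i : ℕ) (y u x0 x1 x2 x3 x4 w2 w3 c u2 u3 : P) : Prop where
  ly : lev y = i + 1
  lu : lev u + 1 = i
  ucy : uc y = {x0, x1}
  dcu : dc u = {x1, x2}
  uc2 : uc w2 = {x2, x3}
  uc3 : uc w3 = {x3, x4}
  dcu2 : dc u2 = {x2, x3}
  dcu3 : dc u3 = {x3, x4}
  ucc : uc c = {w2}
  nd : [x0, x1, x2, x3, x4].Nodup

/-- the six states -/
def fk (y u x1 w2 w3 c u2 u3 : P) : Fin 6 → P → ℕ :=
  ![t3 y u x1 1 1 1, t3 y w2 c 1 1 1, t3 y w2 w2 1 2 2, t3 y u2 u2 1 2 2, t3 y w2 w3 1 1 1,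
    t3 y u2 u3 1 1 1]

section six

variable {y u x0 x1 x2 x3 x4 w2 w3 c u2 u3 : P}

/-- the levels -/
lemma Six.lv (S : Six i y u x0 x1 x2 x3 x4 w2 w3 c u2 u3) (H : Gr P r) : lev x0 = i ∧ lev x1 = i ∧
    lev x2 = i ∧ lev x3 = i ∧ lev x4 = i ∧ lev w2 = i + 1 ∧ lev w3 = i + 1 ∧ lev c = i + 2 ∧
    lev u2 + 1 = i ∧ lev u3 + 1 = i := by
  have h0 := S.ly
  have h1 := S.lu
  have a0 := lev_uc H (x := y) (v := x0) (by rw [S.ucy]; simp)
  have a1 := lev_uc H (x := y) (v := x1) (by rw [S.ucy]; simp)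
  have a2 := lev_dc H (x := u) (v := x2) (by rw [S.dcu]; simp)
  have a3 := lev_uc H (x := w2) (v := x2) (by rw [S.uc2]; simp)
  have a4 := lev_uc H (x := w2) (v := x3) (by rw [S.uc2]; simp)
  have a5 := lev_uc H (x := w3) (v := x3) (by rw [S.uc3]; simp)
  have a6 := lev_uc H (x := w3) (v := x4) (by rw [S.uc3]; simp)
  have a7 := lev_uc H (x := c) (v := w2) (by rw [S.ucc]; simp)
  have a8 := lev_dc H (x := u2) (v := x2) (by rw [S.dcu2]; simp)
  have a9 := lev_dc H (x := u3) (v := x3) (by rw [S.dcu3]; simp)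
  omega

lemma Six.ne (S : Six i y u x0 x1 x2 x3 x4 w2 w3 c u2 u3) (H : Gr P r) :
    x0 ≠ x1 ∧ x0 ≠ x2 ∧ x0 ≠ x3 ∧ x0 ≠ x4 ∧ x1 ≠ x2 ∧ x1 ≠ x3 ∧ x1 ≠ x4 ∧ x2 ≠ x3 ∧ x2 ≠ x4 ∧
    x3 ≠ x4 ∧ y ≠ w2 ∧ y ≠ w3 ∧ w2 ≠ w3 ∧ u2 ≠ u3 ∧ u ≠ u2 ∧ u ≠ u3 := by
  have nd := S.nd
  simp only [List.nodup_cons, List.mem_cons, List.not_mem_nil, or_false, not_or,
    List.nodup_nil, and_true, not_false_eq_true] at nd
  obtain ⟨⟨a, b, c', d⟩, ⟨a', b', c''⟩, ⟨a2, b2⟩, a3⟩ := nd
  refine ⟨a, b, c', d, a', b', c'', a2, b2, a3, ?_, ?_, ?_, ?_, ?_, ?_⟩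
  · rintro rfl
    have h : x0 ∈ ({x2, x3} : Finset P) := by rw [← S.uc2, S.ucy]; simp
    rw [mem_insert, mem_singleton] at h
    tauto
  · rintro rfl
    have h : x0 ∈ ({x3, x4} : Finset P) := by rw [← S.uc3, S.ucy]; simp
    rw [mem_insert, mem_singleton] at h
    tauto
  · rintro rfl
    have h : x2 ∈ ({x3, x4} : Finset P) := by rw [← S.uc3, S.uc2]; simp
    rw [mem_insert, mem_singleton] at h
    tauto
  · rintro rfl
    have h : x2 ∈ ({x3, x4} : Finset P) := by rw [← S.dcu3, S.dcu2]; simp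
    rw [mem_insert, mem_singleton] at h
    tauto
  · rintro rfl
    have h : x1 ∈ ({x2, x3} : Finset P) := by rw [← S.dcu2, S.dcu]; simp
    rw [mem_insert, mem_singleton] at h
    tauto
  · rintro rfl
    have h : x1 ∈ ({x3, x4} : Finset P) := by rw [← S.dcu3, S.dcu]; simp
    rw [mem_insert, mem_singleton] at h
    tauto

variable (S : Six i y u x0 x1 x2 x3 x4 w2 w3 c u2 u3) (H : Gr P r) (hir : i ≤ r)
include S H hir

/-- the term of the first state -/
lemma Six.t0 {C : Finset P} : tC i C (t3 y u x1 1 1 1) = xx * dd ^ ((st i C).card - 2) := by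
  classical
  obtain ⟨l0, l1, l2, l3, l4, l5, l6, l7, l8, l9⟩ := S.lv H
  have ly := S.ly
  have lu := S.lu
  obtain ⟨n01, n02, n03, n04, n12, n13, n14, n23, n24, n34, m1, m2, m3, m4, m5, m6⟩ := S.ne H
  set f := t3 y u x1 1 1 1 with hf
  have hyu : u ≠ y := by rintro rfl; omega
  have hyx : x1 ≠ y := by rintro rfl; omega
  have hux : x1 ≠ u := by rintro rfl; omega
  have fy : f y = 1 := t3_a
  have fu : f u = 1 := t3_b hyu
  have fx : f x1 = 1 := t3_c hyx hux
  have hne : ∀ x, f x ≠ 0 ↔ x = y ∨ x = u ∨ x = x1 := t3_ne one_ne_zero one_ne_zero one_ne_zero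
  have hle : ∀ x, f x ≤ 1 := by
    intro x
    by_cases h : f x = 0
    · omega
    · rcases (hne x).1 h with h | h | h <;> subst h <;> omega
  have f0 : f x0 = 0 := by
    by_contra h
    rcases (hne x0).1 h with h | h | h
    · rw [h] at l0; omega
    · rw [h] at l0; omega
    · exact n01 h
  have f2 : f x2 = 0 := by
    by_contra h
    rcases (hne x2).1 h with h | h | h
    · rw [h] at l2; omega
    · rw [h] at l2; omega
    · exact n12 h.symm
  have kFD : ∀ z, i ≤ lev z → (FD f z ↔ z = x0) := by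
    intro z hz
    constructor
    · rintro ⟨t, ht, hlt⟩
      have h1 := lev_uc H (mem_uc.2 ht)
      rcases (hne t).1 (by omega) with h | h | h
      · rw [h] at ht
        have h2 := mem_uc.2 ht
        rw [S.ucy, mem_insert, mem_singleton] at h2
        rcases h2 with h2 | h2
        · exact h2
        · rw [h2, fx] at hlt
          have := hle t
          omega
      · rw [h] at h1; omega
      · rw [h] at h1; omega
    · rintro rfl
      exact ⟨y, mem_uc.1 (by rw [S.ucy]; simp), by omega⟩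
  have kFU : ∀ z, lev z ≤ i → (FU f z ↔ z = x2) := by
    intro z hz
    constructor
    · rintro ⟨t, ht, hlt⟩
      have h1 := lev_uc H (mem_uc.2 ht)
      rcases (hne t).1 (by omega) with h | h | h
      · rw [h] at h1; omega
      · rw [h] at ht
        have h2 := mem_dc.2 ht
        rw [S.dcu, mem_insert, mem_singleton] at h2
        rcases h2 with h2 | h2
        · rw [h2, fx] at hlt
          have := hle t
          omega
        · exact h2
      · rw [h] at h1; omega
    · rintro rfl
      exact ⟨u, mem_dc.1 (by rw [S.dcu]; simp), by omega⟩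
  have eL : AL i f = {x0} := by
    ext v
    rw [NormD_mem_AL, mem_singleton]
    constructor
    · rintro ⟨h1, h2⟩
      exact (kFD v h1.ge).1 h2
    · rintro rfl
      exact ⟨l0, (kFD v l0.ge).2 rfl⟩
  have eU : AU i f = {x2} := by
    ext v
    rw [NormD_mem_AU, mem_singleton]
    constructor
    · rintro ⟨h1, h2⟩
      exact (kFU v h1.le).1 h2
    · rintro rfl
      exact ⟨l2, (kFU v l2.le).2 rfl⟩
  have h := tC_gen (i := i) (f := f) (C := C) ∅ ∅ ?_ ?_ ?_ ?_ ?_ ?_ ?_
  · rw [h, eL, eU, card_singleton, card_singleton, card_empty]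
    have : (st i C).card - 1 - 1 = (st i C).card - 2 := by omega
    rw [this]
    ring
  · intro z hz h
    rw [kFD z hz.le] at h
    rw [h] at hz
    omega
  · intro z hz
    refine ⟨fun h => absurd ?_ h, fun h => absurd h (notMem_empty _)⟩
    by_cases h0 : f z = 0
    · exact GU_zero H (by omega) h0
    · rcases (hne z).1 h0 with h1 | h1 | h1
      · rw [h1]
        exact ⟨x1, mem_uc.1 (by rw [S.ucy]; simp), by omega⟩
      · rw [h1] at hz; omega
      · rw [h1] at hz; omega
  · intro z hz h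
    rw [kFU z hz.le] at h
    rw [h] at hz
    omega
  · intro z hz
    refine ⟨fun h => absurd ?_ h, fun h => absurd h (notMem_empty _)⟩
    by_cases h0 : f z = 0
    · exact GD_zero H (by omega) h0
    · rcases (hne z).1 h0 with h1 | h1 | h1
      · rw [h1] at hz; omega
      · rw [h1]
        exact ⟨x1, mem_dc.1 (by rw [S.dcu]; simp), by omega⟩
      · rw [h1] at hz; omega
  · intro w hw
    exact absurd hw (notMem_empty _)
  · intro w hw
    exact absurd hw (notMem_empty _)
  · rw [eL, eU, disjoint_singleton]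
    exact n02

omit hir in
/-- the sites below the lower elements -/
lemma Six.sL : ({y, w2} : Finset P).biUnion uc = {x0, x1, x2, x3} ∧
    ({y} : Finset P).biUnion uc = {x0, x1} ∧
    ({y, w2, w3} : Finset P).biUnion uc = {x0, x1, x2, x3, x4} := by
  refine ⟨?_, ?_, ?_⟩
  · ext x
    simp only [mem_biUnion, mem_insert, mem_singleton, exists_eq_or_imp, exists_eq_left, S.ucy,
      S.uc2]
    tauto
  · ext x
    simp only [mem_biUnion, mem_insert, mem_singleton, exists_eq_left, S.ucy]
  · ext x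
    simp only [mem_biUnion, mem_insert, mem_singleton, exists_eq_or_imp, exists_eq_left, S.ucy,
      S.uc2, S.uc3]
    tauto

omit hir in
lemma Six.sU : ({u2} : Finset P).biUnion dc = {x2, x3} ∧
    ({u2, u3} : Finset P).biUnion dc = {x2, x3, x4} := by
  refine ⟨?_, ?_⟩
  · ext x
    simp only [mem_biUnion, mem_insert, mem_singleton, exists_eq_left, S.dcu2]
  · ext x
    simp only [mem_biUnion, mem_insert, mem_singleton, exists_eq_or_imp, exists_eq_left, S.dcu2,
      S.dcu3]
    tauto

lemma Six.tw {C : Finset P} (n : ℕ) (hn : n ≠ 0) (hst : 4 ≤ (st i C).card) :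
    tC i C (t3 y w2 w2 1 n n) = xx ^ 4 * dd ^ ((st i C).card - 2) := by
  classical
  obtain ⟨l0, l1, l2, l3, l4, l5, l6, l7, l8, l9⟩ := S.lv H
  have ly := S.ly
  obtain ⟨n01, n02, n03, n04, n12, n13, n14, n23, n24, n34, m1, m2, m3, m4, m5, m6⟩ := S.ne H
  have h := tC_near (i := i) (f := t3 y w2 w2 1 n n) (C := C) H hir (W := {y, w2}) (V := ∅) ?_ ?_
    ?_ ?_
  · rw [h, (S.sL H).1, biUnion_empty, card_empty]
    have h4 : ({x0, x1, x2, x3} : Finset P).card = 4 := by
      rw [card_insert_of_notMem, card_insert_of_notMem, card_insert_of_notMem, card_singleton]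
      · simp [n23]
      · simp [n12, n13]
      · simp [n01, n02, n03]
    rw [h4, card_pair m1]
    obtain ⟨N, hN⟩ := Nat.exists_eq_add_of_le hst
    have e1 : (st i C).card - 4 - 0 = N := by omega
    have e2 : (st i C).card - 2 = N + 2 := by omega
    rw [e1, e2]
    ring
  · intro w hw
    rw [mem_insert, mem_singleton] at hw
    rcases hw with rfl | rfl <;> assumption
  · intro v hv
    exact absurd hv (notMem_empty _)
  · intro z
    rw [t3_ne one_ne_zero hn hn, mem_insert, mem_singleton]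
    simp
  · rw [biUnion_empty]
    exact disjoint_empty_right _

lemma Six.t1 {C : Finset P} (hst : 4 ≤ (st i C).card) :
    tC i C (t3 y w2 c 1 1 1) = xx ^ 4 * dd ^ ((st i C).card - 2) := by
  classical
  obtain ⟨l0, l1, l2, l3, l4, l5, l6, l7, l8, l9⟩ := S.lv H
  have ly := S.ly
  obtain ⟨n01, n02, n03, n04, n12, n13, n14, n23, n24, n34, m1, m2, m3, m4, m5, m6⟩ := S.ne H
  rw [← S.tw H hir 1 one_ne_zero hst]
  have c1 : c ≠ y := by rintro rfl; omega
  have c2 : c ≠ w2 := by rintro rfl; omega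
  refine tC_child H l7 (t3_o c1 c2 c2) (t3_c c1 c2) ?_ ?_ ?_
  · intro x hx
    unfold t3
    split_ifs <;> rfl
  · intro w hw
    rw [S.ucc, mem_singleton] at hw
    rw [hw, t3_b m1.symm]
  · intro t ht
    have := lev_dc H ht
    refine t3_o ?_ ?_ ?_ <;> rintro rfl <;> omega

lemma Six.t3' {C : Finset P} (hst : 4 ≤ (st i C).card) :
    tC i C (t3 y u2 u2 1 2 2) = xx * dd ^ ((st i C).card - 2) := by
  classical
  obtain ⟨l0, l1, l2, l3, l4, l5, l6, l7, l8, l9⟩ := S.lv H
  have ly := S.ly
  obtain ⟨n01, n02, n03, n04, n12, n13, n14, n23, n24, n34, m1, m2, m3, m4, m5, m6⟩ := S.ne H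
  have h := tC_near (i := i) (f := t3 y u2 u2 1 2 2) (C := C) H hir (W := {y}) (V := {u2}) ?_ ?_
    ?_ ?_
  · rw [h, (S.sL H).2.1, (S.sU H).1, card_pair n01, card_pair n23, card_singleton, card_singleton]
    obtain ⟨N, hN⟩ := Nat.exists_eq_add_of_le hst
    have e1 : (st i C).card - 2 - 2 = N := by omega
    have e2 : (st i C).card - 2 = N + 2 := by omega
    rw [e1, e2]
    linear_combination (xx * dd ^ (N + 2)) * xx_mul_xi
  · intro w hw
    rw [mem_singleton] at hw
    rw [hw]
    exact ly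
  · intro v hv
    rw [mem_singleton] at hv
    rw [hv]
    exact l8
  · intro z
    rw [t3_ne one_ne_zero two_ne_zero two_ne_zero, mem_singleton, mem_singleton]
    simp
  · rw [(S.sL H).2.1, (S.sU H).1, disjoint_left]
    intro x h1 h2
    simp only [mem_insert, mem_singleton] at h1 h2
    rcases h1 with rfl | rfl
    · rcases h2 with h2 | h2
      · exact n02 h2
      · exact n03 h2
    · rcases h2 with h2 | h2
      · exact n12 h2
      · exact n13 h2

lemma Six.t4 {C : Finset P} (hst : 5 ≤ (st i C).card) :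
    tC i C (t3 y w2 w3 1 1 1) = xx ^ 5 * dd ^ ((st i C).card - 2) := by
  classical
  obtain ⟨l0, l1, l2, l3, l4, l5, l6, l7, l8, l9⟩ := S.lv H
  have ly := S.ly
  obtain ⟨n01, n02, n03, n04, n12, n13, n14, n23, n24, n34, m1, m2, m3, m4, m5, m6⟩ := S.ne H
  have h := tC_near (i := i) (f := t3 y w2 w3 1 1 1) (C := C) H hir (W := {y, w2, w3}) (V := ∅)
    ?_ ?_ ?_ ?_
  · rw [h, (S.sL H).2.2, biUnion_empty, card_empty]
    have h4 : ({x0, x1, x2, x3, x4} : Finset P).card = 5 := by
      rw [card_insert_of_notMem, card_insert_of_notMem, card_insert_of_notMem,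
        card_insert_of_notMem, card_singleton]
      · simp [n34]
      · simp [n23, n24]
      · simp [n12, n13, n14]
      · simp [n01, n02, n03, n04]
    have h5 : ({y, w2, w3} : Finset P).card = 3 := by
      rw [card_insert_of_notMem, card_insert_of_notMem, card_singleton]
      · simp [m3]
      · simp [m1, m2]
    rw [h4, h5]
    obtain ⟨N, hN⟩ := Nat.exists_eq_add_of_le hst
    have e1 : (st i C).card - 5 - 0 = N := by omega
    have e2 : (st i C).card - 2 = N + 3 := by omega
    rw [e1, e2]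
    ring
  · intro w hw
    simp only [mem_insert, mem_singleton] at hw
    rcases hw with rfl | rfl | rfl <;> assumption
  · intro v hv
    exact absurd hv (notMem_empty _)
  · intro z
    rw [t3_ne one_ne_zero one_ne_zero one_ne_zero]
    simp
  · rw [biUnion_empty]
    exact disjoint_empty_right _

lemma Six.t5 {C : Finset P} (hst : 5 ≤ (st i C).card) :
    tC i C (t3 y u2 u3 1 1 1) = dd ^ ((st i C).card - 2) := by
  classical
  obtain ⟨l0, l1, l2, l3, l4, l5, l6, l7, l8, l9⟩ := S.lv H
  have ly := S.ly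
  obtain ⟨n01, n02, n03, n04, n12, n13, n14, n23, n24, n34, m1, m2, m3, m4, m5, m6⟩ := S.ne H
  have h := tC_near (i := i) (f := t3 y u2 u3 1 1 1) (C := C) H hir (W := {y}) (V := {u2, u3})
    ?_ ?_ ?_ ?_
  · rw [h, (S.sL H).2.1, (S.sU H).2, card_pair n01, card_singleton, card_pair m4]
    have h4 : ({x2, x3, x4} : Finset P).card = 3 := by
      rw [card_insert_of_notMem, card_insert_of_notMem, card_singleton]
      · simp [n34]
      · simp [n23, n24]
    rw [h4]
    obtain ⟨N, hN⟩ := Nat.exists_eq_add_of_le hst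
    have e1 : (st i C).card - 2 - 3 = N := by omega
    have e2 : (st i C).card - 2 = N + 3 := by omega
    rw [e1, e2]
    linear_combination (dd ^ (N + 3) * (xx * xi + 1)) * xx_mul_xi
  · intro w hw
    rw [mem_singleton] at hw
    rw [hw]
    exact ly
  · intro v hv
    rw [mem_insert, mem_singleton] at hv
    rcases hv with rfl | rfl <;> assumption
  · intro z
    rw [t3_ne one_ne_zero one_ne_zero one_ne_zero]
    simp
  · rw [(S.sL H).2.1, (S.sU H).2, disjoint_left]
    intro x h1 h2
    simp only [mem_insert, mem_singleton] at h1 h2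
    rcases h1 with rfl | rfl
    · rcases h2 with h2 | h2 | h2
      · exact n02 h2
      · exact n03 h2
      · exact n04 h2
    · rcases h2 with h2 | h2 | h2
      · exact n12 h2
      · exact n13 h2
      · exact n14 h2

omit S H hir in
lemma dd_dvd_six : dd ∣ (xx + xx ^ 4 + xx ^ 4 + xx + xx ^ 5 + 1 : A) := by
  have h1 : dd ∣ 1 + xx ^ 3 := dd_dvd_cube
  have h2 : dd ∣ (1 + xx : A) := by
    unfold xx
    exact ⟨1, by ring⟩
  have h3 : (xx + xx ^ 4 + xx ^ 4 + xx + xx ^ 5 + 1 : A) =
      (1 + xx ^ 3) * (2 * xx) + (1 + xx) * (1 - xx + xx ^ 2 - xx ^ 3 + xx ^ 4) := by ring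
  rw [h3]
  exact dvd_add (Dvd.dvd.mul_right h1 _) (Dvd.dvd.mul_right h2 _)

/-- THE SUM OVER THE SIX STATES -/
theorem Six.dvd {C : Finset P} (hC : Part i C) (hst : 5 ≤ (st i C).card) {g : P → ℕ}
    (hg : Spt C g) (hf : ∀ k, Spt C (fk y u x1 w2 w3 c u2 u3 k))
    (hs : ∀ k, Sep i (fk y u x1 w2 w3 c u2 u3 k) g) :
    dd * tC i C (fk y u x1 w2 w3 c u2 u3 0 + g) ∣
      ∑ k, tC i C (fk y u x1 w2 w3 c u2 u3 k + g) := by
  have key : ∀ k, dd ^ (st i C).card * tC i C (fk y u x1 w2 w3 c u2 u3 k + g) =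
      tC i C (fk y u x1 w2 w3 c u2 u3 k) * tC i C g := fun k => tC_sep (hs k) H hir hC (hf k) hg
  have k0 := key 0
  have k1 := key 1
  have k2 := key 2
  have k3 := key 3
  have k4 := key 4
  have k5 := key 5
  have e0 : fk y u x1 w2 w3 c u2 u3 0 = t3 y u x1 1 1 1 := rfl
  have e1 : fk y u x1 w2 w3 c u2 u3 1 = t3 y w2 c 1 1 1 := rfl
  have e2 : fk y u x1 w2 w3 c u2 u3 2 = t3 y w2 w2 1 2 2 := rfl
  have e3 : fk y u x1 w2 w3 c u2 u3 3 = t3 y u2 u2 1 2 2 := rfl
  have e4 : fk y u x1 w2 w3 c u2 u3 4 = t3 y w2 w3 1 1 1 := rfl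
  have e5 : fk y u x1 w2 w3 c u2 u3 5 = t3 y u2 u3 1 1 1 := rfl
  rw [e0, S.t0 H hir] at k0
  rw [e1, S.t1 H hir (by omega)] at k1
  rw [e2, S.tw H hir 2 two_ne_zero (by omega)] at k2
  rw [e3, S.t3' H hir (by omega)] at k3
  rw [e4, S.t4 H hir hst] at k4
  rw [e5, S.t5 H hir hst] at k5
  rw [Fin.sum_univ_six, e0, e1, e2, e3, e4, e5]
  obtain ⟨q, hq⟩ := dd_dvd_six
  refine ⟨xi * q, ?_⟩
  have hne : (dd ^ (st i C).card : A) ≠ 0 := pow_ne_zero _ PowerSeries.X_ne_zero
  refine mul_left_cancel₀ hne ?_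
  have h := k0
  linear_combination k0 + k1 + k2 + k3 + k4 + k5 - dd * (xi * q) * k0 +
    (dd ^ ((st i C).card - 2) * tC i C g) * hq -
    (dd * q * dd ^ ((st i C).card - 2) * tC i C g) * xx_mul_xi

end six

end Pool.Agent.GaussPoset.Win.H2
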