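import Pool.Agent.W_448h2_h63.HO

/-!
# The states of energy four with a touched single (MP_448cb3_co, case B, Route T, block H)

`KX`: the further elements of a part with unmatched elements which is touched at a single.
`KX.states`: the states of energy four with the value zero.
-/

namespace Pool.Agent.GaussPoset.Win.H2

set_option linter.unusedSectionVars false

open Finset I2 K2 Ut

universe u

variable {P : Type u} [Fintype P] [PartialOrder P] [DecidableEq P] {r i : ℕ} {e f : P → ℕ}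

variable {ι : Type*} [DecidableEq ι] {κ : P → ι} {K C : Finset P} {psi : P → P}

variable {a : ι} {w0 y u w2 x0 x1 x2 x3 x4 w3 c s : P}

/-- the further elements of a part with unmatched elements which is touched at a single -/
structure KX (psi : P → P) (w2 x0 x1 x2 x3 x4 w3 c : P) : Prop where
  uc2 : uc w2 = {x2, x3}
  uc3 : uc w3 = {x3, x4}
  dc3 : dc x3 = {w2, w3}
  dc4 : ∀ s ∈ dc x4, (uc s).card = 2
  ucc : uc c = {w2}
  cun : ∀ t, uc t = {w2} → t = c
  nup : ∀ v, dc v ≠ {psi w2}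
  ue : ∀ v ∈ uc x0, v ∉ uc x1 → (dc v).card = 1
  nd : [x0, x1, x2, x3, x4].Nodup

/-- the label of a covered element is positive, below the sites -/
lemma excL (H : Gr P r) (hL : AdmL i f) {z q : P} (hzq : z ⋖ q) (hq : i < lev q) (h : 1 ≤ f z) :
    1 ≤ f q := by
  by_contra hn
  exact hL q hq ⟨⟨z, hzq, by omega⟩, GU_zero H (by omega) (by omega)⟩

/-- the label of a covering element is positive, above the sites -/
lemma excU (H : Gr P r) (hir : i ≤ r) (hU : AdmU i f) {q v : P} (hqv : q ⋖ v) (hq : lev q < i)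
    (h : 1 ≤ f v) : 1 ≤ f q := by
  by_contra hn
  exact hU q hq ⟨⟨v, hqv, by omega⟩, GD_zero H (by omega) (by omega)⟩

/-- a site with label zero is not touched from both sides -/
lemma conf (hd : Disjoint (AL i f) (AU i f)) {x t v : P} (hx : lev x = i) (h0 : f x = 0)
    (ht : t ∈ dc x) (h1 : 1 ≤ f t) (hv : v ∈ uc x) (h2 : 1 ≤ f v) : False := by
  have h3 : x ∈ AL i f := by
    rw [NormD_mem_AL]
    exact ⟨hx, t, mem_dc.1 ht, by omega⟩
  have h4 : x ∈ AU i f := by
    rw [NormD_mem_AU]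
    exact ⟨hx, v, mem_uc.1 hv, by omega⟩
  exact disjoint_left.1 hd h3 h4

/-- a configuration with known labels -/
lemma eq_t3 {a b c s : P} {n m k : ℕ} (ha : f a = n) (hb : f b = m) (hc : f c = k) (hs : f s = 1)
    (h1 : s ≠ a) (h2 : s ≠ b) (h3 : s ≠ c)
    (h0 : ∀ x, x ≠ a → x ≠ b → x ≠ c → x ≠ s → f x = 0) (x : P) :
    f x = t3 a b c n m k x + if x = s then 1 else 0 := by
  by_cases hx : x = s
  · rw [if_pos hx, hx, t3_o h1 h2 h3, hs]
  · rw [if_neg hx, add_zero]
    unfold t3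
    split_ifs with h4 h5 h6
    · rw [h4, ha]
    · rw [h5, hb]
    · rw [h6, hc]
    · exact h0 x h4 h5 h6 hx

/-- the sum over three or four elements -/
lemma sum3_le {a b c : P} (h1 : a ≠ b) (h2 : a ≠ c) (h3 : b ≠ c) :
    f a + f b + f c ≤ ∑ x, f x := by
  have h : ∑ x ∈ insert a (insert b {c}), f x ≤ ∑ x, f x := sum_sub
  rw [sum_insert, sum_insert, sum_singleton] at h
  · omega
  · simp [h3]
  · simp [h1, h2]

lemma sum4_le {a b c d : P} (h1 : a ≠ b) (h2 : a ≠ c) (h3 : a ≠ d) (h4 : b ≠ c) (h5 : b ≠ d)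
    (h6 : c ≠ d) : f a + f b + f c + f d ≤ ∑ x, f x := by
  have h : ∑ x ∈ insert a (insert b (insert c {d})), f x ≤ ∑ x, f x := sum_sub
  rw [sum_insert, sum_insert, sum_insert, sum_singleton] at h
  · omega
  · simp [h6]
  · simp [h4, h5]
  · simp [h1, h2, h3]

lemma sum5_le {a b c d g : P} (h1 : a ≠ b) (h2 : a ≠ c) (h3 : a ≠ d) (h4 : a ≠ g) (h5 : b ≠ c)
    (h6 : b ≠ d) (h7 : b ≠ g) (h8 : c ≠ d) (h9 : c ≠ g) (h10 : d ≠ g) :
    f a + f b + f c + f d + f g ≤ ∑ x, f x := by
  have h : ∑ x ∈ insert a (insert b (insert c (insert d {g}))), f x ≤ ∑ x, f x := sum_sub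
  rw [sum_insert, sum_insert, sum_insert, sum_insert, sum_singleton] at h
  · omega
  · simp [h10]
  · simp [h8, h9]
  · simp [h5, h6, h7]
  · simp [h1, h2, h3, h4]

/-- the data of the six states -/
theorem KP.six (H : Gr P r) (hκ : Split (i + 1) κ) (hM : Mat P i K psi)
    (Q : KP i κ K a w0 y u w2 x0 x1 x2) (X : KX psi w2 x0 x1 x2 x3 x4 w3 c) :
    Six i y u x0 x1 x2 x3 x4 w2 w3 c (psi w2) (psi w3) ∧ w2 ∉ K ∧ w3 ∉ K ∧ w2 ∈ dbL P i ∧
      w3 ∈ dbL P i ∧ κ w2 = a ∧ κ w3 = a ∧ κ x3 = a ∧ κ x4 = a ∧ w2 ≠ w0 ∧ w3 ≠ w0 ∧ w2 ≠ y ∧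
      w3 ≠ y := by
  have nd := X.nd
  simp only [List.nodup_cons, List.mem_cons, List.not_mem_nil, or_false, not_or,
    List.nodup_nil, and_true, not_false_eq_true] at nd
  obtain ⟨⟨n01, n02, n03, n04⟩, ⟨n12, n13, n14⟩, ⟨n23, n24⟩, n34⟩ := nd
  obtain ⟨l0, l1, l2, lw0, lw2⟩ := Q.lv H
  have ly := Q.ly
  have lu := Q.lu
  have h3 : x3 ∈ uc w2 := by rw [X.uc2]; simp
  have l3 := lev_uc H h3
  have h3' : x3 ∈ uc w3 := by rw [X.uc3]; simp
  have lw3 := lev_uc H h3'
  have h4' : x4 ∈ uc w3 := by rw [X.uc3]; simp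
  have l4 := lev_uc H h4'
  have k2 : κ x2 = a := Q.kst H hκ (Q.st.2 (Or.inr (Or.inr rfl)))
  have kw2 : κ w2 = a := by
    rw [hκ (x := w2) (y := x2) (mem_uc.1 (by rw [X.uc2]; simp)) (by omega), k2]
  have k3 : κ x3 = a := by
    rw [← hκ (x := w2) (y := x3) (mem_uc.1 h3) (by omega), kw2]
  have kw3 : κ w3 = a := by
    rw [hκ (x := w3) (y := x3) (mem_uc.1 h3') (by omega), k3]
  have k4 : κ x4 = a := by
    rw [← hκ (x := w3) (y := x4) (mem_uc.1 h4') (by omega), kw3]
  have m20 : w2 ≠ w0 := by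
    rintro rfl
    have h : x0 ∈ ({x2, x3} : Finset P) := by rw [← X.uc2, Q.uc0]; simp
    rw [mem_insert, mem_singleton] at h
    tauto
  have m30 : w3 ≠ w0 := by
    rintro rfl
    have h : x0 ∈ ({x3, x4} : Finset P) := by rw [← X.uc3, Q.uc0]; simp
    rw [mem_insert, mem_singleton] at h
    tauto
  have m2y : w2 ≠ y := by
    rintro rfl
    have h : x0 ∈ ({x2, x3} : Finset P) := by rw [← X.uc2, Q.ucy]; simp
    rw [mem_insert, mem_singleton] at h
    tauto
  have m3y : w3 ≠ y := by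
    rintro rfl
    have h : x0 ∈ ({x3, x4} : Finset P) := by rw [← X.uc3, Q.ucy]; simp
    rw [mem_insert, mem_singleton] at h
    tauto
  have nk2 : w2 ∉ K := by
    intro h
    rcases (Q.hK w2).1 ⟨h, kw2⟩ with h | h
    · exact m2y h
    · rw [h] at lw2
      omega
  have nk3 : w3 ∉ K := by
    intro h
    rcases (Q.hK w3).1 ⟨h, kw3⟩ with h | h
    · exact m3y h
    · rw [h] at lw3
      omega
  have d2 : w2 ∈ dbL P i := mem_dbL'.2 ⟨lw2, by rw [X.uc2, card_pair n23]⟩
  have d3 : w3 ∈ dbL P i := mem_dbL'.2 ⟨by omega, by rw [X.uc3, card_pair n34]⟩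
  obtain ⟨-, p2, -, -⟩ := K2.psi_low hM d2 nk2
  obtain ⟨-, p3, -, -⟩ := K2.psi_low hM d3 nk3
  exact ⟨⟨ly, lu, Q.ucy, Q.dcu, X.uc2, X.uc3, by rw [p2, X.uc2], by rw [p3, X.uc3], X.ucc, X.nd⟩,
    nk2, nk3, d2, d3, kw2, kw3, k3, k4, m20, m30, m2y, m3y⟩

section states

variable (H : Gr P r) (hir : i ≤ r) (hT : NoT P (i + 2)) (hg : ∀ m, m + 1 = i → Good P m)
include H hir hT hg

/-- an excited upper near element with one lower cover has slack -/
lemma slU_single {ZU XU : Finset P} {fU : P → P} (D : UpD i f ZU XU fU) {v : P}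
    (hl : lev v + 1 = i) (hc : (dc v).card = 1) (h1 : 1 ≤ f v) : 1 ≤ slU i f ZU v := by
  classical
  have S := I2.side_up (i := i) H hir hg
  have hnZ : v ∉ ZU := by
    intro h
    have := (D.zz v h).1
    omega
  have hnb : v ∉ bd dc uc f (fun x : P => i - lev x) (uS P i) := by
    intro h
    rw [mem_bd] at h
    have h2 := (cc_eq_two S h.2.2.2.2).1
    omega
  unfold slU sl
  rw [if_neg hnZ, if_neg hnb, sub_zero, add_zero]
  have h5 := sur_single (c := dc) (c' := uc) (e := f) hc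
  have : (1 : ℤ) ≤ f v := by exact_mod_cast h1
  linarith

omit hir hg in
/-- the slack of a near single -/
lemma slL_single {ZL XL : Finset P} {fL : P → P} (D : LowD i f ZL XL fL) {s : P}
    (hl : lev s = i + 1) (hc : (uc s).card = 1) : (f s : ℤ) ≤ slL i f ZL s := by
  classical
  have S := K2.side_low (i := i) H hT.noQ
  have hnZ : s ∉ ZL := by
    intro h
    have := (D.zz s h).1
    omega
  have hnb : s ∉ bd uc dc f (fun x : P => lev x - i) (lS P i) := by
    intro h
    rw [mem_bd] at h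
    have h2 := (cc_eq_two S h.2.2.2.2).1
    omega
  unfold slL sl
  rw [if_neg hnZ, if_neg hnb, sub_zero, add_zero]
  exact sur_single (c := uc) (c' := dc) (e := f) hc

/-- the slacks when the value is not positive and a near single is excited -/
theorem tight_s (W : Tw i C K w0 y u x1) (hM : Mat P i K psi) (hL : AdmL i f) (hU : AdmU i f)
    (hd : Disjoint (AL i f) (AU i f)) (hs : Spt C f) {ZL XL ZU XU : Finset P} {fL fU : P → P}
    (F : Full i K psi f ZL XL ZU XU fL fU) (ls : lev s = i + 1) (cs : (uc s).card = 1)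
    (es : 1 ≤ f s) (hV : EE i f + 2 * ((SK i K psi f).card : ℤ) ≤ 0) :
    f s = 1 ∧ SK i K psi f = ∅ ∧ (KB i K f).Nonempty ∧
      (∀ v, lev v + 1 = i → (dc v).card = 1 → f v = 0) ∧
      (∀ x, lev x = i → 1 ≤ f x → (x ∈ XL ∨ x ∈ XU ∨ (y ∈ KB i K f ∧ u ∈ KB i K f))) := by
  classical
  obtain ⟨s1, s2, s3, s4⟩ := sum_sl H hir hT hg hL hU F
  obtain ⟨t1, t2⟩ := tw_star H hir hT hg W hM hL hd hs F
  have h2 := F.ineq
  have h3 := slL_single H hT F.low ls cs
  have h4 := s3 s (by omega)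
  have h5 : (1 : ℤ) ≤ f s := by exact_mod_cast es
  have h6 : (0 : ℤ) ≤ (SK i K psi f).card := by positivity
  have q1 : ((SK i K psi f).card : ℤ) = 0 := by linarith
  have q2 : (f s : ℤ) = 1 := by linarith
  have q3 : ∑ z ∈ uS P i, slU i f ZU z = 0 := by linarith
  have q4 : ∑ x ∈ lv P i, (f x : ℤ) + 1 = ((KB i K f).card : ℤ) + XL.card + XU.card := by
    linarith
  have h0 := tw_lab H hir hT hg W hM hL hd hs F (Y := ∅) (fun x hx => absurd hx (notMem_empty x))
  rw [card_empty] at h0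
  push_cast at h0
  have hne : (KB i K f).Nonempty := by
    rw [← card_pos]
    have : (0 : ℤ) < (KB i K f).card := by linarith
    exact_mod_cast this
  have hdis := tw_dis H hir hT hg W hM hL hd hs F
  refine ⟨by exact_mod_cast q2, ?_, hne, ?_, ?_⟩
  · rw [← card_eq_zero]
    exact_mod_cast q1
  · intro v hv hc
    by_contra hn
    have a1 := slU_single H hir hT hg F.upp hv hc (by omega)
    have a2 := s4 v (by omega)
    linarith
  · intro x hx hx1
    rcases Nat.lt_or_ge (KB i K f).card 2 with hc | hc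
    · have hc' : ((KB i K f).card : ℤ) ≤ 1 := by
        have : (KB i K f).card ≤ 1 := by omega
        exact_mod_cast this
      have h7 := lab_eq H hir hT hg (e := f) (Y := XL ∪ XU) (by
        intro x hx
        rcases mem_union.1 hx with h | h
        · exact ⟨(F.low.xx x h).1, (F.low.xx x h).2.1⟩
        · exact ⟨(F.upp.xx x h).1, (F.upp.xx x h).2.1⟩) (by
        rw [card_union_of_disjoint hdis]
        push_cast
        linarith) hx hx1
      rcases mem_union.1 h7.1 with h | h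
      · exact Or.inl h
      · exact Or.inr (Or.inl h)
    · right
      right
      obtain ⟨k, hk, k', hk', hkk⟩ := Finset.one_lt_card.1 (by omega : 1 < (KB i K f).card)
      rcases KB_sub H hir hT hg W hs hk with ⟨h, -⟩ | ⟨h, -⟩ <;>
        rcases KB_sub H hir hT hg W hs hk' with ⟨h', -⟩ | ⟨h', -⟩
      · exact absurd (h.trans h'.symm) hkk
      · exact ⟨by rw [← h]; exact hk, by rw [← h']; exact hk'⟩
      · exact ⟨by rw [← h']; exact hk', by rw [← h]; exact hk⟩
      · exact absurd (h.trans h'.symm) hkk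

end states

end Pool.Agent.GaussPoset.Win.H2
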