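import Pool.Agent.W_448h2_h63.HP

/-!
# The states of energy four with a touched single: classification (MP_448cb3_co, Route T, block H)
-/

namespace Pool.Agent.GaussPoset.Win.H2

set_option linter.unusedSectionVars false

open Finset I2 K2 Ut

universe u

variable {P : Type u} [Fintype P] [PartialOrder P] [DecidableEq P] {r i : ℕ} {e f : P → ℕ}

variable {ι : Type*} [DecidableEq ι] {κ : P → ι} {K C : Finset P} {psi : P → P}

variable {a : ι} {w0 y u w2 x0 x1 x2 x3 x4 w3 c s : P}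

lemma ne_lv {p q : P} (h : lev p ≠ lev q) : p ≠ q := fun h' => h (by rw [h'])

section states

variable (H : Gr P r) (hir : i ≤ r) (hT : NoT P (i + 2)) (hg : ∀ m, m + 1 = i → Good P m)
include H hir hT hg

/-- a labelled site which pays for lower elements needs energy five -/
lemma five_low {ZL XL : Finset P} {fL : P → P} (D : LowD i f ZL XL fL) {x k s : P} (h : x ∈ XL)
    (nk : ∀ y', BLx i f y' → y' ≠ k) (ls : lev s = i + 1) (cs : (uc s).card = 1) (es : f s = 1)
    (ek : f k = 1) (hks : k ≠ s) (lk : lev k ≠ i) (lk' : lev k ≠ i + 2) : 5 ≤ ∑ x, f x := by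
  obtain ⟨hx, hx1, ⟨y', hy'⟩, hall, -⟩ := D.xx x h
  have hb := hall y' hy'
  obtain ⟨f1, -⟩ := D.fy y' hb
  obtain ⟨g1, g2, -⟩ := D.zz _ f1
  obtain ⟨b1, b2, b3, -⟩ := bL_data H hir hT.noQ hg hb.1
  have hys : y' ≠ s := by
    rintro rfl
    omega
  have h5 := sum5_le (f := f) (a := x) (b := y') (c := fL y') (d := s) (g := k)
    (ne_lv (by rw [hx, b1]; exact (Nat.lt_succ_self i).ne))
    (ne_lv (by rw [hx, g1]; exact (Nat.lt_add_of_pos_right two_pos).ne))
    (ne_lv (by rw [hx, ls]; exact (Nat.lt_succ_self i).ne)) (ne_lv (by rw [hx]; exact lk.symm))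
    (ne_lv (by rw [b1, g1]; exact (Nat.lt_succ_self (i + 1)).ne)) hys (nk y' hb)
    (ne_lv (by rw [g1, ls]; exact (Nat.lt_succ_self (i + 1)).ne'))
    (ne_lv (by rw [g1]; exact lk'.symm)) hks.symm
  omega

/-- a labelled site which pays for upper elements needs energy five -/
lemma five_upp {ZU XU : Finset P} {fU : P → P} (D : UpD i f ZU XU fU) {x k s : P} (h : x ∈ XU)
    (nk : ∀ y', BUx i f y' → y' ≠ k) (ls : lev s = i + 1) (es : f s = 1)
    (ek : f k = 1) (hks : k ≠ s) (lk : lev k ≠ i) (lk' : lev k + 2 ≠ i) : 5 ≤ ∑ x, f x := by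
  obtain ⟨hx, hx1, ⟨y', hy'⟩, hall, -⟩ := D.xx x h
  have hb := hall y' hy'
  obtain ⟨f1, -⟩ := D.fy y' hb
  obtain ⟨g1, g2, -⟩ := D.zz _ f1
  obtain ⟨b1, b2, b3, -⟩ := bU_data H hir hT.noQ hg hb.1
  have n1 : x ≠ y' := ne_lv (by omega)
  have n2 : x ≠ fU y' := ne_lv (by omega)
  have n3 : x ≠ s := ne_lv (by omega)
  have n4 : x ≠ k := ne_lv (by omega)
  have n5 : y' ≠ fU y' := ne_lv (by omega)
  have n6 : y' ≠ s := ne_lv (by omega)
  have n7 : fU y' ≠ s := ne_lv (by omega)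
  have n8 : fU y' ≠ k := ne_lv (by omega)
  have h5 := sum5_le (f := f) (a := x) (b := y') (c := fU y') (d := s) (g := k) n1 n2 n3 n4 n5 n6
    (nk y' hb) n7 n8 hks.symm
  omega

omit hT in
/-- the lower unmatched element is bad -/
lemma core_low (Q : KP i κ K a w0 y u w2 x0 x1 x2) (hU : AdmU i f)
    (hd : Disjoint (AL i f) (AU i f)) (hT : NoT P (i + 2)) (hsite : ∀ x, lev x = i → f x = 0)
    (hx2 : ∀ v ∈ uc x2, v ≠ u → v = psi w2) (nA : ¬ KsA y u f) (hyb : y ∈ bL i f)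
    (hy0 : ∀ z ∈ dc y, f z = 0) : f y = 1 ∧ f w0 = 0 ∧ f u = 0 ∧ (1 ≤ f w2 ∨ 1 ≤ f (psi w2)) := by
  classical
  obtain ⟨l0, l1, l2, -, -⟩ := Q.lv H
  have ly := Q.ly
  have lu := Q.lu
  have hstl : ∀ x ∈ uc y ∪ dc u, lev x = i := by
    intro x hx
    rcases Q.st.1 hx with h | h | h <;> rw [h] <;> assumption
  have hu1 : u ∈ uc x1 := mem_uc.2 (mem_dc.1 (by rw [Q.dcu]; simp))
  obtain ⟨-, -, ey, hns, -, hkr⟩ := bL_data H hir hT.noQ hg hyb
  have e0 : ∀ x ∈ uc y, ∀ w ∈ dc x, w ≠ y → f w = 0 := by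
    intro x hx w hw hne
    by_contra hn
    have h1 := hstl x (mem_union_left _ hx)
    have h2 := hsite x h1
    have h3 := hkr x (by rw [hns]; exact hx) h2
    have h5 : w ∈ kr dc f x := mem_kr.2 ⟨hw, by omega⟩
    rw [h3, mem_singleton] at h5
    exact hne h5
  have ew0 : f w0 = 0 := e0 x0 (by rw [Q.ucy]; simp) w0 (by rw [Q.dc0]; simp) Q.ne
  have hup : ∀ x ∈ uc y, ∀ v ∈ uc x, f v = 0 := by
    intro x hx v hv
    by_contra hn
    have h1 := hstl x (mem_union_left _ hx)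
    exact conf hd h1 (hsite x h1) (mem_dc.2 (mem_uc.1 hx)) ey.ge hv (Nat.one_le_iff_ne_zero.2 hn)
  have eu : f u = 0 := hup x1 (by rw [Q.ucy]; simp) u hu1
  refine ⟨ey, ew0, eu, ?_⟩
  by_contra hn
  rw [not_or] at hn
  apply nA
  refine ⟨⟨?_, ?_, ?_, hy0, ?_⟩, ey, eu⟩
  · exact fun x hx => hsite x (hstl x hx)
  · intro x hx w hw hne
    rcases Q.st.1 hx with h | h | h <;> rw [h] at hw
    · exact e0 x0 (by rw [Q.ucy]; simp) w hw hne
    · exact e0 x1 (by rw [Q.ucy]; simp) w hw hne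
    · rw [Q.dc2, mem_singleton] at hw
      rw [hw]
      omega
  · intro x hx v hv hne
    rcases Q.st.1 hx with h | h | h <;> rw [h] at hv
    · exact hup x0 (by rw [Q.ucy]; simp) v hv
    · exact hup x1 (by rw [Q.ucy]; simp) v hv
    · rw [hx2 v hv hne]
      omega
  · intro v hv
    by_contra hn'
    have := excU H hir hU (mem_uc.1 hv) (by omega) (Nat.one_le_iff_ne_zero.2 hn')
    omega

/-- the upper unmatched element is not bad -/
lemma core_upp (Q : KP i κ K a w0 y u w2 x0 x1 x2) (hL : AdmL i f)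
    (hd : Disjoint (AL i f) (AU i f)) (hsite : ∀ x, lev x = i → f x = 0)
    (hue : ∀ v ∈ uc x0, v ∉ uc x1 → f v = 0) (nB : ¬ KsB y u f) (hub : u ∈ bU i f)
    (hu0 : ∀ z ∈ uc u, f z = 0) : False := by
  classical
  obtain ⟨l0, l1, l2, -, -⟩ := Q.lv H
  have ly := Q.ly
  have lu := Q.lu
  have hstl : ∀ x ∈ uc y ∪ dc u, lev x = i := by
    intro x hx
    rcases Q.st.1 hx with h | h | h <;> rw [h] <;> assumption
  obtain ⟨-, -, eu, hns, -, hkr⟩ := bU_data H hir hT.noQ hg hub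
  have e0 : ∀ x ∈ dc u, ∀ v ∈ uc x, v ≠ u → f v = 0 := by
    intro x hx v hv hne
    by_contra hn
    have h1 := hstl x (mem_union_right _ hx)
    have h2 := hsite x h1
    have h3 := hkr x (by rw [hns]; exact hx) h2
    have h5 : v ∈ kr uc f x := mem_kr.2 ⟨hv, by omega⟩
    rw [h3, mem_singleton] at h5
    exact hne h5
  have hlo : ∀ x ∈ dc u, ∀ w ∈ dc x, f w = 0 := by
    intro x hx w hw
    by_contra hn
    have h1 := hstl x (mem_union_right _ hx)
    exact conf hd h1 (hsite x h1) hw (Nat.one_le_iff_ne_zero.2 hn) (mem_uc.2 (mem_dc.1 hx)) eu.ge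
  have ey : f y = 0 := hlo x1 (by rw [Q.dcu]; simp) y (by rw [Q.dc1]; simp)
  have ew0 : f w0 = 0 := hlo x1 (by rw [Q.dcu]; simp) w0 (by rw [Q.dc1]; simp)
  have ew2 : f w2 = 0 := hlo x2 (by rw [Q.dcu]; simp) w2 (by rw [Q.dc2]; simp)
  apply nB
  refine ⟨⟨?_, ?_, ?_, ?_, hu0⟩, ey, eu⟩
  · exact fun x hx => hsite x (hstl x hx)
  · intro x hx w hw hne
    rcases Q.st.1 hx with h | h | h <;> rw [h] at hw
    · rw [Q.dc0, mem_insert, mem_singleton] at hw
      rcases hw with h | h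
      · rw [h, ew0]
      · exact absurd h hne
    · rw [Q.dc1, mem_insert, mem_singleton] at hw
      rcases hw with h | h
      · rw [h, ew0]
      · exact absurd h hne
    · rw [Q.dc2, mem_singleton] at hw
      rw [hw, ew2]
  · intro x hx v hv hne
    rcases Q.st.1 hx with h | h | h <;> rw [h] at hv
    · by_cases hv1 : v ∈ uc x1
      · exact e0 x1 (by rw [Q.dcu]; simp) v hv1 hne
      · exact hue v hv hv1
    · exact e0 x1 (by rw [Q.dcu]; simp) v hv hne
    · exact e0 x2 (by rw [Q.dcu]; simp) v hv hne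
  · intro z hz
    by_contra hn
    have := excL H hL (mem_dc.1 hz) (by omega) (Nat.one_le_iff_ne_zero.2 hn)
    omega

/-- the core of the classification -/
theorem KX.core (hκ : Split (i + 1) κ) (hM : Mat P i K psi) (hKs : K ⊆ dbL P i ∪ dbU P i)
    (Q : KP i κ K a w0 y u w2 x0 x1 x2) (X : KX psi w2 x0 x1 x2 x3 x4 w3 c)
    (hL : AdmL i f) (hU : AdmU i f) (hd : Disjoint (AL i f) (AU i f))
    (hs : Spt (cext (i + 1) κ a) f) (ls : lev s = i + 1) (cs : (uc s).card = 1) (es : 1 ≤ f s)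
    (hV : EE i f + 2 * ((SK i K psi f).card : ℤ) ≤ 0) (h4 : ∑ x, f x ≤ 4)
    (nA : ¬ KsA y u f) (nB : ¬ KsB y u f) : f s = 1 ∧ SK i K psi f = ∅ ∧
      ((f y = 1 ∧ f u = 1 ∧ 1 ≤ f x1) ∨ ((∀ x, lev x = i → f x = 0) ∧ f y = 1 ∧ f w0 = 0 ∧
        f u = 0 ∧ (1 ≤ f w2 ∨ 1 ≤ f (psi w2)))) := by
  classical
  obtain ⟨ZL, XL, ZU, XU, fL, fU, F⟩ := full_T H hir hT hg hM hL hU hd
  have W := Q.twk hKs
  obtain ⟨c1, c2, c3, c4, c5⟩ := tight_s H hir hT hg W hM hL hU hd hs F ls cs es hV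
  clear hV
  have hn01 := Q.n01
  have ly := Q.ly
  have lu := Q.lu
  refine ⟨c1, c2, ?_⟩
  have hsy : s ≠ y := by
    rintro rfl
    rw [Q.ucy, card_pair hn01] at cs
    omega
  by_cases hboth : y ∈ KB i K f ∧ u ∈ KB i K f
  · left
    obtain ⟨h1, h2⟩ := hboth
    obtain ⟨-, hyb, -⟩ := (KB_sub H hir hT hg W hs h1).resolve_right (by
      rintro ⟨h, -⟩
      exact ne_lv (by omega) h)
    obtain ⟨-, hub, hu0⟩ := (KB_sub H hir hT hg W hs h2).resolve_left (by
      rintro ⟨h, -⟩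
      exact ne_lv (by omega) h)
    have ey := (bL_data H hir hT.noQ hg hyb).2.2.1
    have eu := (bU_data H hir hT.noQ hg hub).2.2.1
    have h3 := tw_both H hir hT hg W hM hL hd hs F (by omega) hub hu0
    exact ⟨ey, eu, h3.2.1⟩
  · right
    obtain ⟨k, hk⟩ := c3
    have hk1 := KB_sub H hir hT hg W hs hk
    have hk2 : f k = 1 ∧ k ≠ s ∧ lev k ≠ i ∧ lev k ≠ i + 2 ∧ lev k + 2 ≠ i := by
      rcases hk1 with ⟨h, h1, -⟩ | ⟨h, h1, -⟩
      · have h2 := (bL_data H hir hT.noQ hg h1).2.2.1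
        rw [h]
        exact ⟨h2, hsy.symm, by omega, by omega, by omega⟩
      · have h2 := (bU_data H hir hT.noQ hg h1).2.2.1
        rw [h]
        exact ⟨h2, ne_lv (by omega), by omega, by omega, by omega⟩
    have nkL : ∀ y', BLx i f y' → y' ≠ k := by
      rintro y' hb rfl
      rcases hk1 with ⟨h1, -⟩ | ⟨h1, -⟩
      · rw [h1] at hb
        exact not_BLx H hir hT hg W hL hb
      · have b1 := (bL_data H hir hT.noQ hg hb.1).1
        rw [h1] at b1
        omega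
    have nkU : ∀ y', BUx i f y' → y' ≠ k := by
      rintro y' hb rfl
      rcases hk1 with ⟨h1, -⟩ | ⟨h1, -, h2⟩
      · have b1 := (bU_data H hir hT.noQ hg hb.1).1
        rw [h1] at b1
        omega
      · obtain ⟨-, z, hz, hz1⟩ := hb
        rw [h1] at hz
        have := h2 z hz
        omega
    obtain ⟨k2, k3, k4, k5, k6⟩ := hk2
    have hsite : ∀ x, lev x = i → f x = 0 := by
      intro x hx
      by_contra hn
      rcases c5 x hx (Nat.one_le_iff_ne_zero.2 hn) with h | h | h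
      · have := five_low H hir hT hg F.low h nkL ls cs c1 k2 k3 k4 k5
        omega
      · have := five_upp H hir hT hg F.upp h nkU ls c1 k2 k3 k4 k6
        omega
      · exact hboth h
    rcases hk1 with ⟨-, hyb, hy0⟩ | ⟨-, hub, hu0⟩
    · refine ⟨hsite, core_low H hir hg Q hU hd hT hsite ?_ nA hyb hy0⟩
      obtain ⟨S6, -⟩ := Q.six H hκ hM X
      have m5 : u ≠ psi w2 := (S6.ne H).2.2.2.2.2.2.2.2.2.2.2.2.2.2.1
      have hu2 : u ∈ uc x2 := mem_uc.2 (mem_dc.1 (by rw [Q.dcu]; simp))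
      have hp2 : psi w2 ∈ uc x2 := mem_uc.2 (mem_dc.1 (by rw [S6.dcu2]; simp))
      intro v hv hvu
      have h1 : ({u, psi w2} : Finset P) = uc x2 := by
        refine Finset.eq_of_subset_of_card_le ?_ ?_
        · intro z hz
          rw [mem_insert, mem_singleton] at hz
          rcases hz with rfl | rfl <;> assumption
        · rw [card_pair m5]
          exact uc_card_le H x2
      rw [← h1, mem_insert, mem_singleton] at hv
      exact hv.resolve_left hvu
    · exfalso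
      refine core_upp H hir hT hg Q hL hd hsite ?_ nB hub hu0
      intro v hv hv1
      have h1 := lev_uc H hv
      have l0 := (Q.lv H).1
      exact c4 v (by omega) (X.ue v hv hv1)

end states

end Pool.Agent.GaussPoset.Win.H2
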