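import Pool.Agent.W_448h2_h63.HQ

/-!
# The states of energy four with a touched single: the six states (MP_448cb3_co, Route T, block H)
-/

namespace Pool.Agent.GaussPoset.Win.H2

set_option linter.unusedSectionVars false

open Finset I2 K2 Ut

universe u

variable {P : Type u} [Fintype P] [PartialOrder P] [DecidableEq P] {r i : ℕ} {e f : P → ℕ}

variable {ι : Type*} [DecidableEq ι] {κ : P → ι} {K C : Finset P} {psi : P → P}

variable {a : ι} {w0 y u w2 x0 x1 x2 x3 x4 w3 c s u2 u3 : P}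

/-- the elements of the six states are different -/
lemma Six.ns (S : Six i y u x0 x1 x2 x3 x4 w2 w3 c u2 u3) (H : Gr P r) :
    y ≠ u ∧ y ≠ x1 ∧ u ≠ x1 ∧ y ≠ c ∧ w2 ≠ c ∧ y ≠ u2 ∧ y ≠ u3 := by
  obtain ⟨l0, l1, l2, l3, l4, lw2, lw3, lc, lu2, lu3⟩ := S.lv H
  have ly := S.ly
  have lu := S.lu
  refine ⟨ne_lv ?_, ne_lv ?_, ne_lv ?_, ne_lv ?_, ne_lv ?_, ne_lv ?_, ne_lv ?_⟩ <;> omega

/-- a near single is different from them -/
lemma Six.nss (S : Six i y u x0 x1 x2 x3 x4 w2 w3 c u2 u3) (H : Gr P r) (ls : lev s = i + 1)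
    (cs : (uc s).card = 1) : s ≠ y ∧ s ≠ u ∧ s ≠ x1 ∧ s ≠ w2 ∧ s ≠ w3 ∧ s ≠ c ∧ s ≠ u2 ∧
      s ≠ u3 := by
  obtain ⟨n01, n02, n03, n04, n12, n13, n14, n23, n24, n34, -⟩ := S.ne H
  obtain ⟨l0, l1, l2, l3, l4, lw2, lw3, lc, lu2, lu3⟩ := S.lv H
  have lu := S.lu
  refine ⟨?_, ne_lv (by omega), ne_lv (by omega), ?_, ?_, ne_lv (by omega), ne_lv (by omega),
    ne_lv (by omega)⟩
  · rintro rfl
    rw [S.ucy, card_pair n01] at cs
    omega
  · rintro rfl
    rw [S.uc2, card_pair n23] at cs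
    omega
  · rintro rfl
    rw [S.uc3, card_pair n34] at cs
    omega

/-- the rest is zero: three elements with energy three -/
lemma rest3 {a b d : P} (h1 : a ≠ b) (h2 : a ≠ d) (h3 : b ≠ d) (h : ∑ x, f x ≤ f a + f b + f d)
    {x : P} (q1 : x ≠ a) (q2 : x ≠ b) (q3 : x ≠ d) : f x = 0 := by
  have := sum4_le (f := f) (a := a) (b := b) (c := d) (d := x) h1 h2 q1.symm h3 q2.symm q3.symm
  omega

lemma rest4 {a b d g : P} (h1 : a ≠ b) (h2 : a ≠ d) (h3 : a ≠ g) (h4 : b ≠ d) (h5 : b ≠ g)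
    (h6 : d ≠ g) (h : ∑ x, f x ≤ f a + f b + f d + f g) {x : P} (q1 : x ≠ a) (q2 : x ≠ b)
    (q3 : x ≠ d) (q4 : x ≠ g) : f x = 0 := by
  have := sum5_le (f := f) (a := a) (b := b) (c := d) (d := g) (g := x) h1 h2 h3 q1.symm h4 h5
    q2.symm h6 q3.symm q4.symm
  omega

section states

variable (H : Gr P r) (hir : i ≤ r) (hT : NoT P (i + 2)) (hg : ∀ m, m + 1 = i → Good P m)
include H hir hT hg

/-- the energy is at least four -/
theorem KX.four (hκ : Split (i + 1) κ) (hM : Mat P i K psi) (hKs : K ⊆ dbL P i ∪ dbU P i)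
    (Q : KP i κ K a w0 y u w2 x0 x1 x2) (X : KX psi w2 x0 x1 x2 x3 x4 w3 c)
    (hL : AdmL i f) (hU : AdmU i f) (hd : Disjoint (AL i f) (AU i f))
    (hs : Spt (cext (i + 1) κ a) f) (ls : lev s = i + 1) (cs : (uc s).card = 1) (es : 1 ≤ f s)
    (hV : Vl i K psi f = 0) (nA : ¬ KsA y u f) (nB : ¬ KsB y u f) :
    4 ≤ ∑ x, f x ∧ ∃ m : ℕ, ∑ x, f x = 2 * m := by
  classical
  obtain ⟨S6, -⟩ := Q.six H hκ hM X
  obtain ⟨k, hk⟩ := Vl_par (i := i) (K := K) (psi := psi) (e := f)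
  rw [hV] at hk
  have hev : ∃ m : ℕ, ∑ x, f x = 2 * m := ⟨(∑ x, f x) / 2, by omega⟩
  refine ⟨?_, hev⟩
  by_contra hn
  have hV' : EE i f + 2 * ((SK i K psi f).card : ℤ) ≤ 0 := le_of_eq hV
  obtain ⟨-, -, -, -, -, -, -, -, -, -, m1, -, -, -, -, -⟩ := S6.ne H
  obtain ⟨p1, p2, p3, p4, p5, p6, p7⟩ := S6.ns H
  obtain ⟨q1, q2, q3, q4, q5, q6, q7, q8⟩ := S6.nss H ls cs
  obtain ⟨c1, -, ⟨h1, h2, h3⟩ | ⟨-, h1, -, -, h | h⟩⟩ := KX.core H hir hT hg hκ hM hKs Q X hL hU hd
    hs ls cs es hV' (by omega) nA nB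
  · have := sum4_le (f := f) (a := y) (b := u) (c := x1) (d := s) p1 p2 q1.symm p3 q2.symm q3.symm
    omega
  · have := sum3_le (f := f) (a := y) (b := w2) (c := s) m1 q1.symm q4.symm
    obtain ⟨m, hm⟩ := hev
    omega
  · have := sum3_le (f := f) (a := y) (b := psi w2) (c := s) p6 q1.symm q7.symm
    obtain ⟨m, hm⟩ := hev
    omega

omit hg in
/-- the states with the lower double -/
theorem st_low (Q : KP i κ K a w0 y u w2 x0 x1 x2) (X : KX psi w2 x0 x1 x2 x3 x4 w3 c)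
    (S6 : Six i y u x0 x1 x2 x3 x4 w2 w3 c (psi w2) (psi w3)) (d2 : w2 ∈ dbL P i) (nk2 : w2 ∉ K)
    (m3y : w3 ≠ y) (hL : AdmL i f) (hU : AdmU i f) (hd : Disjoint (AL i f) (AU i f))
    (ls : lev s = i + 1) (cs : (uc s).card = 1) (h4 : ∑ x, f x = 4)
    (c1 : f s = 1) (c2 : SK i K psi f = ∅) (hsite : ∀ x, lev x = i → f x = 0) (h1 : f y = 1)
    (h2 : f w0 = 0) (h : 1 ≤ f w2) :
    ∃ k, ∀ x, f x = fk y u x1 w2 w3 c (psi w2) (psi w3) k x + if x = s then 1 else 0 := by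
  classical
  obtain ⟨l0, l1, l2, l3, l4, lw2, lw3, lc, lu2, lu3⟩ := S6.lv H
  obtain ⟨-, -, -, -, -, -, -, n23, -, -, m1, m2, m3, -, -, -⟩ := S6.ne H
  obtain ⟨p1, p2, p3, p4, p5, p6, p7⟩ := S6.ns H
  obtain ⟨q1, q2, q3, q4, q5, q6, q7, q8⟩ := S6.nss H ls cs
  have hsd : ∀ x, x ∈ uc w2 → s ∉ dc x := by
    intro x hx h
    rw [X.uc2, mem_insert, mem_singleton] at hx
    rcases hx with rfl | rfl
    · rw [Q.dc2, mem_singleton] at h
      exact q4 h
    · rw [X.dc3, mem_insert, mem_singleton] at h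
      rcases h with h | h
      · exact q4 h
      · exact q5 h
  rcases Nat.lt_or_ge 1 (f w2) with hw | hw
  · have h5 := sum3_le (f := f) (a := y) (b := w2) (c := s) m1 q1.symm q4.symm
    have h6 : f w2 = 2 := by omega
    exact ⟨2, eq_t3 h1 h6 h6 c1 q1 q4 q4 fun x r1 r2 _ r4 =>
      rest3 m1 q1.symm q4.symm (by omega) r1 r2 r4⟩
  · have hw1 : f w2 = 1 := by omega
    have hzero : ∀ t, t ≠ y → t ≠ s → t ≠ w2 → f t ≠ 0 → f t = 1 ∧ ∀ x, x ≠ y → x ≠ w2 →
        x ≠ t → x ≠ s → f x = 0 := by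
      intro t t1 t2 t3 ht
      have h5 := sum4_le (f := f) (a := y) (b := w2) (c := s) (d := t) m1 q1.symm t1.symm q4.symm
        t3.symm t2.symm
      refine ⟨by omega, fun x r1 r2 r3 r4 => ?_⟩
      exact rest4 m1 q1.symm t1.symm q4.symm t3.symm t2.symm (by omega) r1 r2 r4 r3
    have hup : ∀ x ∈ uc w2, ∀ v ∈ uc x, f v = 0 := by
      intro x hx v hv
      by_contra hn
      have hl := lev_uc H hx
      have hlx : lev x = i := by omega
      exact conf hd hlx (hsite x hlx) (mem_dc.2 (mem_uc.1 hx)) h hv (Nat.one_le_iff_ne_zero.2 hn)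
    by_cases hdc : ∃ t ∈ dc w2, f t ≠ 0
    · obtain ⟨t, ht, ht0⟩ := hdc
      have hlt := lev_dc H ht
      have hty : t ≠ y := ne_lv (by rw [hlt, lw2, S6.ly]; exact (Nat.lt_succ_self (i + 1)).ne')
      have hts : t ≠ s := ne_lv (by rw [hlt, lw2, ls]; exact (Nat.lt_succ_self (i + 1)).ne')
      have htw : t ≠ w2 := ne_lv (by rw [hlt]; exact (Nat.lt_succ_self _).ne')
      obtain ⟨g1, g2⟩ := hzero t hty hts htw ht0
      have ht1 : 1 ≤ f t := g1.ge
      have huc : uc t = {w2} := by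
        ext q
        rw [mem_singleton]
        constructor
        · intro hq
          have hlq := lev_uc H hq
          have hq1 := excL H hL (mem_uc.1 hq) (by omega) ht1
          by_contra hne
          by_cases hqy : q = y
          · rw [hqy] at hq
            have h6 := Q.kid t (mem_dc.2 (mem_uc.1 hq))
            have hl6 := lev_uc H h6
            have h7 := excL H hL (mem_uc.1 h6) (by omega) ht1
            omega
          · by_cases hqs : q = s
            · rw [hqs] at hq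
              obtain ⟨x, hx, hx'⟩ := hT t (by omega) w2 (mem_uc.2 (mem_dc.1 ht)) s hq
                q4.symm (by rw [X.uc2, card_pair n23])
              exact hsd x hx (mem_dc.2 (mem_uc.1 hx'))
            · have := g2 q hqy hne (by
                rintro rfl
                omega) hqs
              omega
        · rintro rfl
          exact mem_uc.2 (mem_dc.1 ht)
      have htc := X.cun t huc
      subst htc
      exact ⟨1, eq_t3 h1 hw1 g1 c1 q1 q4 q6 fun x r1 r2 r3 r4 => g2 x r1 r2 r3 r4⟩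
    · push Not at hdc
      by_cases hd3 : ∃ t ∈ dc x3, t ≠ w2 ∧ f t ≠ 0
      · obtain ⟨t, ht, htw, ht0⟩ := hd3
        rw [X.dc3, mem_insert, mem_singleton] at ht
        have ht3 : t = w3 := ht.resolve_left htw
        subst ht3
        obtain ⟨g1, g2⟩ := hzero t m3y q5.symm m3.symm ht0
        exact ⟨4, eq_t3 h1 hw1 g1 c1 q1 q4 q5 fun x r1 r2 r3 r4 => g2 x r1 r2 r3 r4⟩
      · push Not at hd3
        exfalso
        have hp2 : psi w2 ∈ uc x2 := mem_uc.2 (mem_dc.1 (by rw [S6.dcu2]; simp))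
        have hx2 : x2 ∈ uc w2 := by rw [X.uc2]; simp
        have : w2 ∈ SK i K psi f := by
          refine mem_SK.2 ⟨d2, nk2, Or.inl ⟨hw1, ?_⟩, hdc, ?_, ⟨x2, hx2, hsite x2 l2⟩, ?_, ?_⟩
          · exact hup x2 hx2 _ hp2
          · intro v hv
            by_contra hn
            have h6 := excU H hir hU (mem_uc.1 hv) (by omega) (Nat.one_le_iff_ne_zero.2 hn)
            have h7 := hup x2 hx2 _ hp2
            omega
          · intro x hx _ z hz hne
            rw [X.uc2, mem_insert, mem_singleton] at hx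
            rcases hx with rfl | rfl
            · rw [Q.dc2, mem_singleton] at hz
              exact absurd hz hne
            · exact hd3 z hz hne
          · intro x hx _ v hv _
            exact hup x hx v hv
        rw [c2] at this
        exact notMem_empty _ this

omit hg hT in
/-- the states with the upper double -/
theorem st_upp (Q : KP i κ K a w0 y u w2 x0 x1 x2) (X : KX psi w2 x0 x1 x2 x3 x4 w3 c)
    (S6 : Six i y u x0 x1 x2 x3 x4 w2 w3 c (psi w2) (psi w3)) (d2 : w2 ∈ dbL P i) (nk2 : w2 ∉ K)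
    (hL : AdmL i f) (hU : AdmU i f) (hd : Disjoint (AL i f) (AU i f))
    (ls : lev s = i + 1) (cs : (uc s).card = 1) (h4 : ∑ x, f x = 4)
    (c1 : f s = 1) (c2 : SK i K psi f = ∅) (hsite : ∀ x, lev x = i → f x = 0) (h1 : f y = 1)
    (h3 : f u = 0) (h : 1 ≤ f (psi w2)) :
    ∃ k, ∀ x, f x = fk y u x1 w2 w3 c (psi w2) (psi w3) k x + if x = s then 1 else 0 := by
  classical
  obtain ⟨l0, l1, l2, l3, l4, lw2, lw3, lc, lu2, lu3⟩ := S6.lv H
  obtain ⟨-, -, -, -, -, -, -, n23, -, -, m1, m2, m3, m4, m5, -⟩ := S6.ne H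
  obtain ⟨p1, p2, p3, p4, p5, p6, p7⟩ := S6.ns H
  obtain ⟨q1, q2, q3, q4, q5, q6, q7, q8⟩ := S6.nss H ls cs
  have hu2 : u ∈ uc x2 := mem_uc.2 (mem_dc.1 (by rw [Q.dcu]; simp))
  have hp2 : psi w2 ∈ uc x2 := mem_uc.2 (mem_dc.1 (by rw [S6.dcu2]; simp))
  have hp3 : psi w2 ∈ uc x3 := mem_uc.2 (mem_dc.1 (by rw [S6.dcu2]; simp))
  have hq3 : psi w3 ∈ uc x3 := mem_uc.2 (mem_dc.1 (by rw [S6.dcu3]; simp))
  have hx2 : ∀ v ∈ uc x2, v ≠ psi w2 → v = u := by
    intro v hv hvu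
    have h1 : ({u, psi w2} : Finset P) = uc x2 := by
      refine Finset.eq_of_subset_of_card_le ?_ ?_
      · intro z hz
        rw [mem_insert, mem_singleton] at hz
        rcases hz with rfl | rfl <;> assumption
      · rw [card_pair m5]
        exact uc_card_le H x2
    rw [← h1, mem_insert, mem_singleton] at hv
    exact hv.resolve_right hvu
  have hx3 : ∀ v ∈ uc x3, v ≠ psi w2 → v = psi w3 := by
    intro v hv hvu
    have h1 : ({psi w2, psi w3} : Finset P) = uc x3 := by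
      refine Finset.eq_of_subset_of_card_le ?_ ?_
      · intro z hz
        rw [mem_insert, mem_singleton] at hz
        rcases hz with rfl | rfl <;> assumption
      · rw [card_pair m4]
        exact uc_card_le H x3
    rw [← h1, mem_insert, mem_singleton] at hv
    exact hv.resolve_left hvu
  have hlo : ∀ x ∈ uc w2, ∀ t ∈ dc x, f t = 0 := by
    intro x hx t ht
    by_contra hn
    have hl := lev_uc H hx
    have hlx : lev x = i := by omega
    refine conf hd hlx (hsite x hlx) ht (Nat.one_le_iff_ne_zero.2 hn) (v := psi w2) ?_ h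
    rw [X.uc2, mem_insert, mem_singleton] at hx
    rcases hx with rfl | rfl <;> assumption
  have hx22 : x2 ∈ uc w2 := by rw [X.uc2]; simp
  have hw : f w2 = 0 := hlo x2 hx22 w2 (by rw [Q.dc2]; simp)
  rcases Nat.lt_or_ge 1 (f (psi w2)) with hw' | hw'
  · have h5 := sum3_le (f := f) (a := y) (b := psi w2) (c := s) p6 q1.symm q7.symm
    have h6 : f (psi w2) = 2 := by omega
    exact ⟨3, eq_t3 h1 h6 h6 c1 q1 q7 q7 fun x r1 r2 _ r4 =>
      rest3 p6 q1.symm q7.symm (by omega) r1 r2 r4⟩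
  · have hw1 : f (psi w2) = 1 := by omega
    have hzero : ∀ t, t ≠ y → t ≠ s → t ≠ psi w2 → f t ≠ 0 → f t = 1 ∧ ∀ x, x ≠ y →
        x ≠ psi w2 → x ≠ t → x ≠ s → f x = 0 := by
      intro t t1 t2 t3 ht
      have h5 := sum4_le (f := f) (a := y) (b := psi w2) (c := s) (d := t) p6 q1.symm t1.symm
        q7.symm t3.symm t2.symm
      refine ⟨by omega, fun x r1 r2 r3 r4 => ?_⟩
      exact rest4 p6 q1.symm t1.symm q7.symm t3.symm t2.symm (by omega) r1 r2 r4 r3
    have huc2 : ∀ v ∈ uc (psi w2), f v = 0 := by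
      intro v hv
      by_contra hn
      have hlv := lev_uc H hv
      have v1 : v ≠ y := ne_lv (by have := S6.ly; omega)
      have v2 : v ≠ s := ne_lv (by omega)
      have v3 : v ≠ psi w2 := ne_lv (by omega)
      obtain ⟨g1, g2⟩ := hzero v v1 v2 v3 hn
      apply X.nup v
      ext q
      rw [mem_singleton]
      constructor
      · intro hq
        have hlq := lev_dc H hq
        have hq1 := excU H hir hU (mem_dc.1 hq) (by omega) g1.ge
        by_contra hne
        have r1 : q ≠ y := ne_lv (by have := S6.ly; omega)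
        have r2 : q ≠ v := ne_lv (by omega)
        have r3 : q ≠ s := ne_lv (by omega)
        have := g2 q r1 hne r2 r3
        omega
      · rintro rfl
        exact mem_dc.2 (mem_uc.1 hv)
    by_cases hd3 : ∃ t ∈ uc x3, t ≠ psi w2 ∧ f t ≠ 0
    · obtain ⟨t, ht, htw, ht0⟩ := hd3
      have ht3 : t = psi w3 := hx3 t ht htw
      subst ht3
      obtain ⟨g1, g2⟩ := hzero _ p7.symm q8.symm m4.symm ht0
      exact ⟨5, eq_t3 h1 hw1 g1 c1 q1 q7 q8 fun x r1 r2 r3 r4 => g2 x r1 r2 r3 r4⟩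
    · push Not at hd3
      exfalso
      have : w2 ∈ SK i K psi f := by
        refine mem_SK.2 ⟨d2, nk2, Or.inr ⟨hw, hw1⟩, ?_, huc2, ⟨x2, hx22, hsite x2 l2⟩, ?_, ?_⟩
        · intro z hz
          by_contra hn
          have := excL H hL (mem_dc.1 hz) (by omega) (Nat.one_le_iff_ne_zero.2 hn)
          omega
        · intro x hx _ z hz _
          exact hlo x hx z hz
        · intro x hx _ v hv hne
          rw [X.uc2, mem_insert, mem_singleton] at hx
          rcases hx with rfl | rfl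
          · rw [hx2 v hv hne]
            exact h3
          · exact hd3 v hv hne
      rw [c2] at this
      exact notMem_empty _ this

/-- THE STATES OF ENERGY FOUR -/
theorem KX.states (hκ : Split (i + 1) κ) (hM : Mat P i K psi) (hKs : K ⊆ dbL P i ∪ dbU P i)
    (Q : KP i κ K a w0 y u w2 x0 x1 x2) (X : KX psi w2 x0 x1 x2 x3 x4 w3 c)
    (hL : AdmL i f) (hU : AdmU i f) (hd : Disjoint (AL i f) (AU i f))
    (hs : Spt (cext (i + 1) κ a) f) (ls : lev s = i + 1) (cs : (uc s).card = 1) (es : 1 ≤ f s)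
    (hV : EE i f + 2 * ((SK i K psi f).card : ℤ) ≤ 0) (h4 : ∑ x, f x = 4)
    (nA : ¬ KsA y u f) (nB : ¬ KsB y u f) :
    ∃ k, ∀ x, f x = fk y u x1 w2 w3 c (psi w2) (psi w3) k x + if x = s then 1 else 0 := by
  classical
  obtain ⟨c1, c2, ⟨h1, h2, h3⟩ | ⟨hsite, h1, h2, h3, h | h⟩⟩ := KX.core H hir hT hg hκ hM hKs Q X
    hL hU hd hs ls cs es hV h4.le nA nB
  · obtain ⟨S6, -⟩ := Q.six H hκ hM X
    obtain ⟨p1, p2, p3, p4, p5, p6, p7⟩ := S6.ns H
    obtain ⟨q1, q2, q3, q4, q5, q6, q7, q8⟩ := S6.nss H ls cs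
    have h5 := sum4_le (f := f) (a := y) (b := u) (c := x1) (d := s) p1 p2 q1.symm p3 q2.symm
      q3.symm
    have h6 : f x1 = 1 := by omega
    exact ⟨0, eq_t3 h1 h2 h6 c1 q1 q2 q3 fun x r1 r2 r3 r4 =>
      rest4 p1 p2 q1.symm p3 q2.symm q3.symm (by omega) r1 r2 r3 r4⟩
  · obtain ⟨S6, nk2, -, d2, -, -, -, -, -, -, -, -, m3y⟩ := Q.six H hκ hM X
    exact st_low H hir hT Q X S6 d2 nk2 m3y hL hU hd ls cs h4 c1 c2 hsite h1 h2 h
  · obtain ⟨S6, nk2, -, d2, -⟩ := Q.six H hκ hM X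
    exact st_upp H hir Q X S6 d2 nk2 hL hU hd ls cs h4 c1 c2 hsite h1 h3 h

end states

end Pool.Agent.GaussPoset.Win.H2
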