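import Pool.Agent.W_448h2_h63.HR

/-!
# The configurations with one of the six states (MP_448cb3_co, case B, Route T, block H)

`Exk`: on a part the configuration is one of the six states and a touched single. `chg k`: the change to
state `k`.
-/

namespace Pool.Agent.GaussPoset.Win.H2

set_option linter.unusedSectionVars false

open Finset I2 K2 Ut

universe u

variable {P : Type u} [Fintype P] [PartialOrder P] [DecidableEq P] {r i : ℕ} {e f : P → ℕ}

variable {ι : Type*} [DecidableEq ι] {κ : P → ι} {K C : Finset P} {psi : P → P}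

/-- the elements of a part with unmatched elements which is touched at a single -/
structure KF (P : Type u) extends KE P where
  x3 : P
  x4 : P
  w3 : P
  c : P

/-- the data of a part with unmatched elements which is touched at a single -/
structure KD (i : ℕ) (κ : P → ι) (K : Finset P) (psi : P → P) (a : ι) (t : KF P) : Prop where
  Q : KP i κ K a t.w0 t.y t.u t.w2 t.x0 t.x1 t.x2
  X : KX psi t.w2 t.x0 t.x1 t.x2 t.x3 t.x4 t.w3 t.c

/-- the elements of the six states -/
def T8 (psi : P → P) (t : KF P) (x : P) : Prop :=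
  x = t.y ∨ x = t.u ∨ x = t.x1 ∨ x = t.w2 ∨ x = t.w3 ∨ x = t.c ∨ x = psi t.w2 ∨ x = psi t.w3

/-- the six states -/
def fr (psi : P → P) (t : KF P) (k : Fin 6) : P → ℕ :=
  fk t.y t.u t.x1 t.w2 t.w3 t.c (psi t.w2) (psi t.w3) k

open Classical in
/-- the configuration without the elements of the six states -/
noncomputable def rs8 (psi : P → P) (t : KF P) (e : P → ℕ) : P → ℕ :=
  fun x => if T8 psi t x then 0 else e x

/-- the change to state `k` -/
noncomputable def chg (psi : P → P) (t : KF P) (k : Fin 6) (e : P → ℕ) : P → ℕ :=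
  fr psi t k + rs8 psi t e

/-- on a part the configuration is state `k` and a touched single `s` -/
structure Exk (i : ℕ) (κ : P → ι) (psi : P → P) (a : ι) (t : KF P) (k : Fin 6) (s : P)
    (e : P → ℕ) : Prop where
  fs : ∀ x ∈ cext (i + 1) κ a, x ≠ s → e x = fr psi t k x
  sC : s ∈ cext (i + 1) κ a
  ls : lev s = i + 1
  cs : (uc s).card = 1
  cr : ∀ x, x ∉ cuni (i + 1) κ → e x ≠ 0 → lev x = i + 2

section basic

variable {a : ι} {t : KF P} {k k' : Fin 6} {s : P}

lemma fr_off {x : P} (h : ¬ T8 psi t x) : fr psi t k x = 0 := by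
  unfold T8 at h
  rw [not_or, not_or, not_or, not_or, not_or, not_or, not_or] at h
  obtain ⟨h1, h2, h3, h4, h5, h6, h7, h8⟩ := h
  revert k
  intro k
  fin_cases k
  · exact t3_o h1 h2 h3
  · exact t3_o h1 h4 h6
  · exact t3_o h1 h4 h4
  · exact t3_o h1 h7 h7
  · exact t3_o h1 h4 h5
  · exact t3_o h1 h7 h8

lemma rs8_off {x : P} (h : ¬ T8 psi t x) : rs8 psi t e x = e x := by
  unfold rs8
  rw [if_neg h]

lemma rs8_in {x : P} (h : T8 psi t x) : rs8 psi t e x = 0 := by
  unfold rs8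
  rw [if_pos h]

lemma chg_off {x : P} (h : ¬ T8 psi t x) : chg psi t k e x = e x := by
  unfold chg
  rw [Pi.add_apply, fr_off h, rs8_off h, zero_add]

lemma chg_in {x : P} (h : T8 psi t x) : chg psi t k e x = fr psi t k x := by
  unfold chg
  rw [Pi.add_apply, rs8_in h, add_zero]

lemma rs8_chg : rs8 psi t (chg psi t k e) = rs8 psi t e := by
  funext x
  by_cases h : T8 psi t x
  · rw [rs8_in h, rs8_in h]
  · rw [rs8_off h, rs8_off h, chg_off h]

lemma chg_chg : chg psi t k (chg psi t k' e) = chg psi t k e := by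
  unfold chg
  rw [show fr psi t k' + rs8 psi t e = chg psi t k' e from rfl, rs8_chg]

variable (H : Gr P r) (hκ : Split (i + 1) κ) (hM : Mat P i K psi) (D : KD i κ K psi a t)
include H hκ hM D

lemma KD.six : Six i t.y t.u t.x0 t.x1 t.x2 t.x3 t.x4 t.w2 t.w3 t.c (psi t.w2) (psi t.w3) :=
  (D.Q.six H hκ hM D.X).1

/-- the elements of the six states are in the part -/
lemma KD.mem {x : P} (h : T8 psi t x) : x ∈ cext (i + 1) κ a ∧
    (lev x = i + 2 → x = t.c) ∧ lev x ≤ i + 2 ∧ i ≤ lev x + 1 := by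
  obtain ⟨S6, nk2, nk3, d2, d3, kw2, kw3, k3, k4, -⟩ := D.Q.six H hκ hM D.X
  obtain ⟨l0, l1, l2, l3, l4, lw2, lw3, lc, lu2, lu3⟩ := S6.lv H
  have ly := S6.ly
  have lu := S6.lu
  have k1 : κ t.x1 = a := D.Q.kst H hκ (D.Q.st.2 (Or.inr (Or.inl rfl)))
  have kx2 : κ t.x2 = a := D.Q.kst H hκ (D.Q.st.2 (Or.inr (Or.inr rfl)))
  have low : ∀ z, lev z ≤ i + 1 → κ z = a → x = z → i ≤ lev z + 1 → x ∈ cext (i + 1) κ a ∧
      (lev x = i + 2 → x = t.c) ∧ lev x ≤ i + 2 ∧ i ≤ lev x + 1 := by
    rintro z h1 h2 rfl h3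
    exact ⟨mem_cext_of_le hκ h1 h2, fun h4 => by omega, by omega, h3⟩
  rcases h with h | h | h | h | h | h | h | h
  · exact low _ (by omega) D.Q.ky.2 h (by omega)
  · exact low _ (by omega) D.Q.ku.2 h (by omega)
  · exact low _ (by omega) k1 h (by omega)
  · exact low _ (by omega) kw2 h (by omega)
  · exact low _ (by omega) kw3 h (by omega)
  · rw [h]
    refine ⟨?_, fun _ => rfl, by omega, by omega⟩
    rw [mem_cext]
    intro y' hy' hl
    obtain ⟨q, hq1, hq2⟩ := exists_covBy_le_of_lt (lt_of_le_of_ne hy' (by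
      rintro rfl
      omega))
    have hq := mem_uc.2 hq1
    rw [S6.ucc, mem_singleton] at hq
    rw [← kw2, ← hq]
    exact (hκ.le q hq2 (by rw [hq]; omega)).symm
  · refine low _ (by omega) ?_ h (by omega)
    rw [← kx2, hκ (x := t.x2) (y := psi t.w2) (mem_dc.1 (by rw [S6.dcu2]; simp)) (by omega)]
  · refine low _ (by omega) ?_ h (by omega)
    rw [← k3, hκ (x := t.x3) (y := psi t.w3) (mem_dc.1 (by rw [S6.dcu3]; simp)) (by omega)]

lemma KD.ns (ls : lev s = i + 1) (cs : (uc s).card = 1) : ¬ T8 psi t s := by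
  obtain ⟨q1, q2, q3, q4, q5, q6, q7, q8⟩ := (D.six H hκ hM).nss H ls cs
  rintro (h | h | h | h | h | h | h | h) <;> contradiction

/-- the values of the six states at `c` and `w2` -/
lemma KD.cle : fr psi t k t.c ≤ fr psi t k t.w2 := by
  have S6 := D.six H hκ hM
  obtain ⟨l0, l1, l2, l3, l4, lw2, lw3, lc, lu2, lu3⟩ := S6.lv H
  have ly := S6.ly
  have lu := S6.lu
  obtain ⟨-, -, -, -, -, -, -, -, -, -, m1, -⟩ := S6.ne H
  have c1 : t.c ≠ t.y := ne_lv (by omega)
  have c2 : t.c ≠ t.u := ne_lv (by omega)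
  have c3 : t.c ≠ t.x1 := ne_lv (by omega)
  have c4 : t.c ≠ t.w2 := ne_lv (by omega)
  have c5 : t.c ≠ t.w3 := ne_lv (by omega)
  have c6 : t.c ≠ psi t.w2 := ne_lv (by omega)
  have c7 : t.c ≠ psi t.w3 := ne_lv (by omega)
  have key : ∀ k, fr psi t k t.c = 0 ∨ (fr psi t k t.c = 1 ∧ fr psi t k t.w2 = 1) := by
    intro k
    fin_cases k
    · exact Or.inl (t3_o c1 c2 c3)
    · exact Or.inr ⟨t3_c c1 c4, t3_b m1.symm⟩
    · exact Or.inl (t3_o c1 c4 c4)
    · exact Or.inl (t3_o c1 c6 c6)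
    · exact Or.inl (t3_o c1 c4 c5)
    · exact Or.inl (t3_o c1 c6 c7)
  rcases key k with h | ⟨h, h'⟩
  · omega
  · omega

/-- the sites touched from below by a state -/
lemma KD.fdr {v : P} (hv : i ≤ lev v) (h : FD (fr psi t k) v) :
    v = t.x0 ∨ v = t.x1 ∨ v = t.x2 ∨ v = t.x3 ∨ v = t.x4 := by
  have S6 := D.six H hκ hM
  obtain ⟨l0, l1, l2, l3, l4, lw2, lw3, lc, lu2, lu3⟩ := S6.lv H
  have ly := S6.ly
  have lu := S6.lu
  obtain ⟨z, hz, hlt⟩ := h
  have hlz := lev_uc H (mem_uc.2 hz)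
  have h8 : T8 psi t z := by
    by_contra hn
    rw [fr_off hn] at hlt
    omega
  rcases h8 with h | h | h | h | h | h | h | h <;> subst h
  · have := mem_uc.2 hz
    rw [S6.ucy, mem_insert, mem_singleton] at this
    tauto
  · omega
  · omega
  · have := mem_uc.2 hz
    rw [S6.uc2, mem_insert, mem_singleton] at this
    tauto
  · have := mem_uc.2 hz
    rw [S6.uc3, mem_insert, mem_singleton] at this
    tauto
  · have h1 := mem_uc.2 hz
    rw [S6.ucc, mem_singleton] at h1
    rw [h1] at hlt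
    have := D.cle H hκ hM (k := k)
    omega
  · omega
  · omega

/-- the sites touched from above by a state -/
lemma KD.fur {v : P} (hv : lev v ≤ i) (h : FU (fr psi t k) v) :
    v = t.x1 ∨ v = t.x2 ∨ v = t.x3 ∨ v = t.x4 := by
  have S6 := D.six H hκ hM
  obtain ⟨l0, l1, l2, l3, l4, lw2, lw3, lc, lu2, lu3⟩ := S6.lv H
  have ly := S6.ly
  have lu := S6.lu
  obtain ⟨z, hz, hlt⟩ := h
  have hlz := lev_uc H (mem_uc.2 hz)
  have h8 : T8 psi t z := by
    by_contra hn
    rw [fr_off hn] at hlt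
    omega
  rcases h8 with h | h | h | h | h | h | h | h <;> subst h
  · omega
  · have := mem_dc.2 hz
    rw [S6.dcu, mem_insert, mem_singleton] at this
    tauto
  · omega
  · omega
  · omega
  · omega
  · have := mem_dc.2 hz
    rw [S6.dcu2, mem_insert, mem_singleton] at this
    tauto
  · have := mem_dc.2 hz
    rw [S6.dcu3, mem_insert, mem_singleton] at this
    tauto

/-- the sites are in the part -/
lemma KD.ksite {x : P} (h : x = t.x0 ∨ x = t.x1 ∨ x = t.x2 ∨ x = t.x3 ∨ x = t.x4) :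
    lev x = i ∧ κ x = a ∧ ∀ s ∈ dc x, (uc s).card = 2 := by
  obtain ⟨S6, nk2, nk3, d2, d3, kw2, kw3, k3, k4, -⟩ := D.Q.six H hκ hM D.X
  obtain ⟨l0, l1, l2, l3, l4, lw2, lw3, lc, lu2, lu3⟩ := S6.lv H
  obtain ⟨n01, n02, n03, n04, n12, n13, n14, n23, n24, n34, -⟩ := S6.ne H
  have kk : ∀ z, z = t.x0 ∨ z = t.x1 ∨ z = t.x2 → κ z = a := fun z hz =>
    D.Q.kst H hκ (D.Q.st.2 hz)
  have cw0 : (uc t.w0).card = 2 := by rw [D.Q.uc0, card_pair n01]
  have cy : (uc t.y).card = 2 := by rw [D.Q.ucy, card_pair n01]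
  have cw2 : (uc t.w2).card = 2 := by rw [S6.uc2, card_pair n23]
  have cw3 : (uc t.w3).card = 2 := by rw [S6.uc3, card_pair n34]
  rcases h with h | h | h | h | h
  · refine ⟨by rw [h]; exact l0, kk x (Or.inl h), ?_⟩
    intro s hs
    rw [h, D.Q.dc0, mem_insert, mem_singleton] at hs
    rcases hs with rfl | rfl <;> assumption
  · refine ⟨by rw [h]; exact l1, kk x (Or.inr (Or.inl h)), ?_⟩
    intro s hs
    rw [h, D.Q.dc1, mem_insert, mem_singleton] at hs
    rcases hs with rfl | rfl <;> assumption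
  · refine ⟨by rw [h]; exact l2, kk x (Or.inr (Or.inr h)), ?_⟩
    intro s hs
    rw [h, D.Q.dc2, mem_singleton] at hs
    rw [hs]
    exact cw2
  · refine ⟨by rw [h]; exact l3, by rw [h]; exact k3, ?_⟩
    intro s hs
    rw [h, D.X.dc3, mem_insert, mem_singleton] at hs
    rcases hs with rfl | rfl <;> assumption
  · refine ⟨by rw [h]; exact l4, by rw [h]; exact k4, ?_⟩
    intro s hs
    rw [h] at hs
    exact D.X.dc4 s hs

omit hM D in
/-- near and upper elements of a part -/
lemma cext_le {x : P} (hx : x ∈ cext (i + 1) κ a) (hl : lev x ≤ i + 1) : κ x = a :=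
  mem_cext.1 hx x le_rfl hl

omit D hM H hκ in
lemma Exk.eq [Fintype P] (E : Exk i κ psi a t k s e) (hmem : ∀ x, T8 psi t x →
    x ∈ cext (i + 1) κ a ∧ x ≠ s) : e = chg psi t k e := by
  funext x
  by_cases h : T8 psi t x
  · rw [chg_in h]
    exact E.fs x (hmem x h).1 (hmem x h).2
  · rw [chg_off h]

lemma KD.mem_s (E : Exk i κ psi a t k s e) {x : P} (h : T8 psi t x) :
    x ∈ cext (i + 1) κ a ∧ x ≠ s := by
  refine ⟨(D.mem H hκ hM h).1, ?_⟩
  rintro rfl
  exact D.ns H hκ hM E.ls E.cs h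

lemma KD.eq (E : Exk i κ psi a t k s e) : e = chg psi t k e :=
  E.eq fun _ h => D.mem_s H hκ hM E h

lemma KD.chg_out {x : P} (h : x ∉ cext (i + 1) κ a) : chg psi t k e x = e x :=
  chg_off fun h8 => h (D.mem H hκ hM h8).1

omit H hκ hM D in
/-- a state is read on the part and on the crossing elements only -/
lemma Exk.congr [Fintype P] (E : Exk i κ psi a t k s e) (h1 : ∀ x ∈ cext (i + 1) κ a, f x = e x)
    (h2 : ∀ x, x ∉ cuni (i + 1) κ → f x = e x) : Exk i κ psi a t k s f where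
  fs := fun x hx hne => by rw [h1 x hx]; exact E.fs x hx hne
  sC := E.sC
  ls := E.ls
  cs := E.cs
  cr := fun x hx h0 => E.cr x hx (by rw [← h2 x hx]; exact h0)

/-- the part is in the union of the parts -/
lemma KD.cun {x : P} (h : x ∈ cext (i + 1) κ a) : x ∈ cuni (i + 1) κ := by
  unfold cuni
  rw [mem_biUnion]
  exact ⟨a, mem_image.2 ⟨t.y, mem_univ _, D.Q.ky.2⟩, h⟩

/-- the change of the state -/
theorem KD.chg (E : Exk i κ psi a t k s e) : Exk i κ psi a t k' s (chg psi t k' e) where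
  fs := fun x hx hne => by
    by_cases h : T8 psi t x
    · exact chg_in h
    · rw [chg_off h, fr_off h, E.fs x hx hne, fr_off h]
  sC := E.sC
  ls := E.ls
  cs := E.cs
  cr := fun x hx h0 => by
    refine E.cr x hx ?_
    rw [D.chg_out H hκ hM (fun h => hx (D.cun H hκ hM h))] at h0
    exact h0

/-- the states and the rest are separated -/
theorem KD.sep (E : Exk i κ psi a t k s e)
    (hSS : ∀ z : P, lev z = i + 2 → z ∉ cuni (i + 1) κ → ∀ x ∈ uc z, (uc x).card = 1) :
    Sep i (fr psi t k') (rs8 psi t e) := by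
  have S6 := D.six H hκ hM
  obtain ⟨l0, l1, l2, l3, l4, lw2, lw3, lc, lu2, lu3⟩ := S6.lv H
  have ly := S6.ly
  have lu := S6.lu
  obtain ⟨n01, n02, n03, n04, n12, n13, n14, n23, n24, n34, -⟩ := S6.ne H
  have hPC : Part (i + 1) (cext (i + 1) κ a) := part_cext H le_rfl hκ a
  -- the rest vanishes on the part except at the single
  have g0 : ∀ x ∈ cext (i + 1) κ a, x ≠ s → rs8 psi t e x = 0 := by
    intro x hx hne
    by_cases h : T8 psi t x
    · exact rs8_in h
    · rw [rs8_off h, E.fs x hx hne, fr_off h]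
  have supp : ∀ x, fr psi t k' x ≠ 0 → T8 psi t x := by
    intro x h
    by_contra hn
    exact h (fr_off hn)
  -- the lower and upper neighbours of the sites
  have nb : ∀ x, (x = t.x0 ∨ x = t.x1 ∨ x = t.x2 ∨ x = t.x3 ∨ x = t.x4) →
      (∀ z ∈ dc x, rs8 psi t e z = 0) ∧ (∀ z ∈ uc x, rs8 psi t e z = 0) := by
    intro x hx
    obtain ⟨a1, a2, a3⟩ := D.ksite H hκ hM hx
    constructor
    · intro z hz
      have h1 := lev_dc H hz
      refine g0 z (mem_cext_of_le hκ (by omega) ?_) ?_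
      · rw [hκ (mem_dc.1 hz) (by omega), a2]
      · rintro rfl
        have := a3 z hz
        rw [E.cs] at this
        omega
    · intro z hz
      have h1 := lev_uc H hz
      refine g0 z (mem_cext_of_le hκ (by omega) ?_) (ne_lv (by have := E.ls; omega))
      rw [← hκ (mem_uc.1 hz) (by omega), a2]
  refine ⟨?_, ?_, ?_, ?_, ?_, ?_, ?_⟩
  · intro x hx
    obtain ⟨h1, h2⟩ := D.mem_s H hκ hM E (supp x hx)
    exact g0 x h1 h2
  · intro x z hxz hx
    have h8 := supp x hx
    obtain ⟨h1, h2⟩ := D.mem_s H hκ hM E h8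
    refine g0 z (hPC.up h1 hxz) ?_
    rintro rfl
    have hl := lev_uc H (mem_uc.2 hxz)
    have h3 := (D.mem H hκ hM h8).2.1 (by rw [hl, E.ls])
    rw [h3] at hxz
    have h4 := mem_uc.2 hxz
    rw [S6.ucc, mem_singleton] at h4
    have h5 := E.cs
    rw [h4, S6.uc2, card_pair n23] at h5
    omega
  · intro x z hxz hz
    have h8 := supp z hz
    obtain ⟨h1, h2⟩ := D.mem_s H hκ hM E h8
    have hl := lev_uc H (mem_uc.2 hxz)
    -- a double of level `i + 1`
    have dbl : lev z = i + 1 → (uc z).card = 2 → rs8 psi t e x = 0 := by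
      intro h3 h4
      have h5 : x ∈ cext (i + 1) κ a := by
        by_cases h : x ∈ cuni (i + 1) κ
        · exact mem_of_cuni h hxz.le h3.le (cext_le H hκ h1 h3.le)
        · have := hSS x (by omega) h z (mem_uc.2 hxz)
          omega
      exact g0 x h5 (ne_lv (by have := E.ls; omega))
    rcases h8 with h | h | h | h | h | h | h | h
    · exact dbl (by rw [h]; exact ly) (by rw [h, S6.ucy, card_pair n01])
    · rw [h] at hxz
      have h3 := mem_dc.2 hxz
      rw [S6.dcu, mem_insert, mem_singleton] at h3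
      obtain ⟨a1, a2, -⟩ := D.ksite H hκ hM (x := x) (by tauto)
      exact g0 x (mem_cext_of_le hκ (by omega) a2) (ne_lv (by have := E.ls; omega))
    · exact (nb z (by tauto)).1 x (mem_dc.2 hxz)
    · exact dbl (by rw [h]; exact lw2) (by rw [h, S6.uc2, card_pair n23])
    · exact dbl (by rw [h]; exact lw3) (by rw [h, S6.uc3, card_pair n34])
    · rw [h] at hl hxz
      by_cases hx : x ∈ cuni (i + 1) κ
      · have h3 : x ∈ cext (i + 1) κ a := by
          refine mem_of_cuni hx (hxz.le.trans (mem_uc.1 (by rw [S6.ucc]; simp) : t.c ⋖ t.w2).le)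
            (by omega) ?_
          exact cext_le H hκ (D.mem H hκ hM (x := t.w2) (by unfold T8; tauto)).1 (by omega)
        exact g0 x h3 (ne_lv (by have := E.ls; omega))
      · by_contra hn
        have h4 : ¬ T8 psi t x := fun h8 => hx (D.cun H hκ hM (D.mem H hκ hM h8).1)
        rw [rs8_off h4] at hn
        have := E.cr x hx hn
        omega
    · rw [h] at hxz
      have h3 := mem_dc.2 hxz
      rw [S6.dcu2, mem_insert, mem_singleton] at h3
      obtain ⟨a1, a2, -⟩ := D.ksite H hκ hM (x := x) (by tauto)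
      exact g0 x (mem_cext_of_le hκ (by omega) a2) (ne_lv (by have := E.ls; omega))
    · rw [h] at hxz
      have h3 := mem_dc.2 hxz
      rw [S6.dcu3, mem_insert, mem_singleton] at h3
      obtain ⟨a1, a2, -⟩ := D.ksite H hκ hM (x := x) (by tauto)
      exact g0 x (mem_cext_of_le hκ (by omega) a2) (ne_lv (by have := E.ls; omega))
  · rintro v hv h1 ⟨z, hz, hlt⟩
    have h2 := (nb v (D.fdr H hκ hM hv h1)).1 z (mem_dc.2 hz)
    omega
  · rintro v hv h1 ⟨z, hz, hlt⟩
    have h2 := (nb v (Or.inr (D.fur H hκ hM hv h1))).2 z (mem_uc.2 hz)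
    omega
  · rintro v hv h1 ⟨z, hz, hlt⟩
    have h2 := (nb v (D.fdr H hκ hM hv.ge h1)).2 z (mem_uc.2 hz)
    omega
  · rintro v hv h1 ⟨z, hz, hlt⟩
    have h2 := (nb v (Or.inr (D.fur H hκ hM hv.le h1))).1 z (mem_dc.2 hz)
    omega

end basic

end Pool.Agent.GaussPoset.Win.H2
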