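import Pool.Agent.W_448h2_h63.HS
import Pool.Agent.W_448h2_h63.HK

/-!
# The configurations with one of the six states: simple swaps (MP_448cb3_co, case B, Route T,
block H)
-/

namespace Pool.Agent.GaussPoset.Win.H2

set_option linter.unusedSectionVars false

open Finset I2 K2 Ut

universe u

variable {P : Type u} [Fintype P] [PartialOrder P] [DecidableEq P] {r i : ℕ} {e f : P → ℕ}

section tb

variable {y u x0 x1 x2 x3 x4 w2 w3 c u2 u3 : P}

/-- the values of the six states -/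
lemma Six.tab2 (S : Six i y u x0 x1 x2 x3 x4 w2 w3 c u2 u3) (H : Gr P r) (k : Fin 6) :
    fk y u x1 w2 w3 c u2 u3 k w2 = (![0, 1, 2, 0, 1, 0] : Fin 6 → ℕ) k := by
  obtain ⟨l0, l1, l2, l3, l4, lw2, lw3, lc, lu2, lu3⟩ := S.lv H
  have ly := S.ly
  have lu := S.lu
  obtain ⟨-, -, -, -, -, -, -, -, -, -, m1, m2, m3, m4, m5, m6⟩ := S.ne H
  have q2 : w2 ≠ u := ne_lv (by omega)
  have q3 : w2 ≠ x1 := ne_lv (by omega)
  have q4 : w2 ≠ c := ne_lv (by omega)
  have q5 : w2 ≠ u2 := ne_lv (by omega)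
  have q6 : w2 ≠ u3 := ne_lv (by omega)
  fin_cases k
  · exact t3_o m1.symm q2 q3
  · exact t3_b m1.symm
  · exact t3_b m1.symm
  · exact t3_o m1.symm q5 q5
  · exact t3_b m1.symm
  · exact t3_o m1.symm q5 q6

lemma Six.tabu (S : Six i y u x0 x1 x2 x3 x4 w2 w3 c u2 u3) (H : Gr P r) (k : Fin 6) :
    fk y u x1 w2 w3 c u2 u3 k u2 = (![0, 0, 0, 2, 0, 1] : Fin 6 → ℕ) k := by
  obtain ⟨l0, l1, l2, l3, l4, lw2, lw3, lc, lu2, lu3⟩ := S.lv H
  have ly := S.ly
  have lu := S.lu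
  obtain ⟨-, -, -, -, -, -, -, -, -, -, m1, m2, m3, m4, m5, m6⟩ := S.ne H
  have q1 : u2 ≠ y := ne_lv (by omega)
  have q3 : u2 ≠ x1 := ne_lv (by omega)
  have q4 : u2 ≠ c := ne_lv (by omega)
  have q5 : u2 ≠ w2 := ne_lv (by omega)
  have q6 : u2 ≠ w3 := ne_lv (by omega)
  fin_cases k
  · exact t3_o q1 m5.symm q3
  · exact t3_o q1 q5 q4
  · exact t3_o q1 q5 q5
  · exact t3_b q1
  · exact t3_o q1 q5 q6
  · exact t3_b q1

lemma Six.tabc (S : Six i y u x0 x1 x2 x3 x4 w2 w3 c u2 u3) (H : Gr P r) (k : Fin 6) :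
    fk y u x1 w2 w3 c u2 u3 k c = (![0, 1, 0, 0, 0, 0] : Fin 6 → ℕ) k := by
  obtain ⟨l0, l1, l2, l3, l4, lw2, lw3, lc, lu2, lu3⟩ := S.lv H
  have ly := S.ly
  have lu := S.lu
  have q1 : c ≠ y := ne_lv (by omega)
  have q2 : c ≠ u := ne_lv (by omega)
  have q3 : c ≠ x1 := ne_lv (by omega)
  have q4 : c ≠ w2 := ne_lv (by omega)
  have q5 : c ≠ w3 := ne_lv (by omega)
  have q6 : c ≠ u2 := ne_lv (by omega)
  have q7 : c ≠ u3 := ne_lv (by omega)
  fin_cases k
  · exact t3_o q1 q2 q3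
  · exact t3_c q1 q4
  · exact t3_o q1 q4 q4
  · exact t3_o q1 q6 q6
  · exact t3_o q1 q4 q5
  · exact t3_o q1 q6 q7

lemma Six.tab3 (S : Six i y u x0 x1 x2 x3 x4 w2 w3 c u2 u3) (H : Gr P r) (k : Fin 6) :
    fk y u x1 w2 w3 c u2 u3 k w3 = (![0, 0, 0, 0, 1, 0] : Fin 6 → ℕ) k := by
  obtain ⟨l0, l1, l2, l3, l4, lw2, lw3, lc, lu2, lu3⟩ := S.lv H
  have ly := S.ly
  have lu := S.lu
  obtain ⟨-, -, -, -, -, -, -, -, -, -, m1, m2, m3, m4, m5, m6⟩ := S.ne H
  have q2 : w3 ≠ u := ne_lv (by omega)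
  have q3 : w3 ≠ x1 := ne_lv (by omega)
  have q4 : w3 ≠ c := ne_lv (by omega)
  have q5 : w3 ≠ u2 := ne_lv (by omega)
  have q6 : w3 ≠ u3 := ne_lv (by omega)
  fin_cases k
  · exact t3_o m2.symm q2 q3
  · exact t3_o m2.symm m3.symm q4
  · exact t3_o m2.symm m3.symm m3.symm
  · exact t3_o m2.symm q5 q5
  · exact t3_c m2.symm m3.symm
  · exact t3_o m2.symm q5 q6

lemma Six.tabv (S : Six i y u x0 x1 x2 x3 x4 w2 w3 c u2 u3) (H : Gr P r) (k : Fin 6) :
    fk y u x1 w2 w3 c u2 u3 k u3 = (![0, 0, 0, 0, 0, 1] : Fin 6 → ℕ) k := by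
  obtain ⟨l0, l1, l2, l3, l4, lw2, lw3, lc, lu2, lu3⟩ := S.lv H
  have ly := S.ly
  have lu := S.lu
  obtain ⟨-, -, -, -, -, -, -, -, -, -, m1, m2, m3, m4, m5, m6⟩ := S.ne H
  have q1 : u3 ≠ y := ne_lv (by omega)
  have q3 : u3 ≠ x1 := ne_lv (by omega)
  have q4 : u3 ≠ c := ne_lv (by omega)
  have q5 : u3 ≠ w2 := ne_lv (by omega)
  have q6 : u3 ≠ w3 := ne_lv (by omega)
  fin_cases k
  · exact t3_o q1 m6.symm q3
  · exact t3_o q1 q5 q4
  · exact t3_o q1 q5 q5
  · exact t3_o q1 m4.symm m4.symm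
  · exact t3_o q1 q5 q6
  · exact t3_c q1 m4.symm

/-- the values at a site of level `i` -/
lemma Six.tabx (S : Six i y u x0 x1 x2 x3 x4 w2 w3 c u2 u3) (H : Gr P r) (k : Fin 6) {x : P}
    (hx : lev x = i) (h1 : x ≠ x1) : fk y u x1 w2 w3 c u2 u3 k x = 0 := by
  obtain ⟨l0, l1, l2, l3, l4, lw2, lw3, lc, lu2, lu3⟩ := S.lv H
  have ly := S.ly
  have lu := S.lu
  have q1 : x ≠ y := ne_lv (by omega)
  have q2 : x ≠ u := ne_lv (by omega)
  have q4 : x ≠ c := ne_lv (by omega)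
  have q5 : x ≠ w2 := ne_lv (by omega)
  have q6 : x ≠ w3 := ne_lv (by omega)
  have q7 : x ≠ u2 := ne_lv (by omega)
  have q8 : x ≠ u3 := ne_lv (by omega)
  fin_cases k
  · exact t3_o q1 q2 h1
  · exact t3_o q1 q5 q4
  · exact t3_o q1 q5 q5
  · exact t3_o q1 q7 q7
  · exact t3_o q1 q5 q6
  · exact t3_o q1 q7 q8

/-- the value of the first state at the middle site -/
lemma Six.tab0 (S : Six i y u x0 x1 x2 x3 x4 w2 w3 c u2 u3) (H : Gr P r) :
    fk y u x1 w2 w3 c u2 u3 0 x1 = 1 := by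
  obtain ⟨p1, p2, p3, p4, p5, p6, p7⟩ := S.ns H
  exact t3_c p2.symm p3.symm

/-- the energy of a state -/
lemma Six.sum (S : Six i y u x0 x1 x2 x3 x4 w2 w3 c u2 u3) (H : Gr P r) (k : Fin 6) :
    ∑ x, fk y u x1 w2 w3 c u2 u3 k x = 3 := by
  obtain ⟨p1, p2, p3, p4, p5, p6, p7⟩ := S.ns H
  obtain ⟨-, -, -, -, -, -, -, -, -, -, m1, m2, m3, m4, m5, m6⟩ := S.ne H
  have key : ∀ (a b c : P) (n m k : ℕ), a ≠ b → a ≠ c → b ≠ c →
      ∑ x, t3 a b c n m k x = n + m + k := by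
    intro a b c n m k h1 h2 h3
    have h4 : ∀ x, t3 a b c n m k x = (if x = a then n else 0) + (if x = b then m else 0) +
        (if x = c then k else 0) := by
      intro x
      unfold t3
      by_cases g1 : x = a
      · rw [if_pos g1, if_pos g1, if_neg (fun h => h1 (g1.symm.trans h)),
          if_neg (fun h => h2 (g1.symm.trans h))]
        omega
      · rw [if_neg g1, if_neg g1]
        by_cases g2 : x = b
        · rw [if_pos g2, if_pos g2, if_neg (fun h => h3 (g2.symm.trans h))]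
          omega
        · rw [if_neg g2, if_neg g2]
          omega
    rw [Finset.sum_congr rfl fun x _ => h4 x, Finset.sum_add_distrib, Finset.sum_add_distrib]
    simp
  have key2 : ∀ (a b : P) (n m k : ℕ), a ≠ b → ∑ x, t3 a b b n m k x = n + m := by
    intro a b n m k h1
    have h4 : ∀ x, t3 a b b n m k x = (if x = a then n else 0) + (if x = b then m else 0) := by
      intro x
      unfold t3
      by_cases g1 : x = a
      · rw [if_pos g1, if_pos g1, if_neg (fun h => h1 (g1.symm.trans h))]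
        omega
      · rw [if_neg g1, if_neg g1]
        by_cases g2 : x = b
        · rw [if_pos g2, if_pos g2]
          omega
        · rw [if_neg g2, if_neg g2, if_neg g2]
    rw [Finset.sum_congr rfl fun x _ => h4 x, Finset.sum_add_distrib]
    simp
  fin_cases k
  · exact key _ _ _ 1 1 1 p1 p2 p3
  · exact key _ _ _ 1 1 1 m1 p4 p5
  · exact key2 _ _ 1 2 2 m1
  · exact key2 _ _ 1 2 2 p6
  · exact key _ _ _ 1 1 1 m1 m2 m3
  · exact key _ _ _ 1 1 1 p6 p7 m4

end tb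

variable {ι : Type*} [DecidableEq ι] {κ : P → ι} {K C : Finset P} {psi : P → P}

variable {a : ι} {t : KF P} {k k' : Fin 6} {s : P}

section far

variable (H : Gr P r) (hκ : Split (i + 1) κ) (hM : Mat P i K psi) (D : KD i κ K psi a t)
include H hκ hM D

/-- the states are different -/
lemma KD.inj (h2 : fr psi t k t.w2 = fr psi t k' t.w2)
    (hu : fr psi t k (psi t.w2) = fr psi t k' (psi t.w2)) (hc : fr psi t k t.c = fr psi t k' t.c) :
    k = k' := by
  have S6 := D.six H hκ hM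
  unfold fr at h2 hu hc
  rw [S6.tab2 H, S6.tab2 H] at h2
  rw [S6.tabu H, S6.tabu H] at hu
  rw [S6.tabc H, S6.tabc H] at hc
  revert h2 hu hc
  revert k k'
  decide

/-- THERE IS NO SIMPLE EDGE on a part with one of the six states -/
theorem KD.nosw (E : Exk i κ psi a t k s e) {y0 : P} (hy0 : y0 ∈ SK i K psi e) : κ y0 ≠ a := by
  intro hk
  obtain ⟨S6, nk2, nk3, d2, d3, kw2, kw3, k3, k4, -⟩ := D.Q.six H hκ hM D.X
  obtain ⟨l1, c2, l2, p2, pp, ky0, kp0, hS⟩ := sk_data hM H hy0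
  obtain ⟨l0, lx1, lx2, l3, l4, lw2, lw3, lc, lu2, lu3⟩ := S6.lv H
  have ly := S6.ly
  have lu := S6.lu
  obtain ⟨-, -, -, -, -, -, -, -, -, -, m1, m2, m3, m4, m5, m6⟩ := S6.ne H
  have hx3 : t.x3 ≠ t.x1 := by
    obtain ⟨-, -, -, -, -, n13, -⟩ := S6.ne H
    exact n13.symm
  have h1 : y0 ∈ cext (i + 1) κ a := mem_cext_of_le hκ (by omega) hk
  obtain ⟨x, hx⟩ : (uc y0).Nonempty := by
    rw [← card_pos]
    omega
  have hlx := lev_uc H hx
  have hkp : κ (psi y0) = a := by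
    rw [← hκ (x := x) (y := psi y0) (mem_dc.1 (by rw [p2]; exact hx)) (by omega),
      ← hκ (x := y0) (y := x) (mem_uc.1 hx) (by omega), hk]
  have h2 : psi y0 ∈ cext (i + 1) κ a := mem_cext_of_le hκ (by omega) hkp
  have e1 : e y0 = fr psi t k y0 := E.fs _ h1 (by
    rintro rfl
    have := E.cs
    omega)
  have e2 : e (psi y0) = fr psi t k (psi y0) := E.fs _ h2 (ne_lv (by have := E.ls; omega))
  have hyK := D.Q.ky.1
  have huK := D.Q.ku.1
  obtain ⟨-, -, q2, -⟩ := K2.psi_low hM d2 nk2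
  obtain ⟨-, -, q3, -⟩ := K2.psi_low hM d3 nk3
  have hyy : y0 = t.w2 ∨ y0 = t.w3 := by
    rcases hS.one with ⟨g, -⟩ | ⟨-, g⟩
    · have h8 : T8 psi t y0 := by
        by_contra hn
        rw [e1, fr_off hn] at g
        omega
      rcases h8 with h | h | h | h | h | h | h | h
      · rw [h] at ky0
        exact absurd hyK ky0
      · rw [h] at l1
        omega
      · rw [h] at l1
        omega
      · exact Or.inl h
      · exact Or.inr h
      · rw [h] at l1
        omega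
      · rw [h] at l1
        omega
      · rw [h] at l1
        omega
    · have h8 : T8 psi t (psi y0) := by
        by_contra hn
        rw [e2, fr_off hn] at g
        omega
      rcases h8 with h | h | h | h | h | h | h | h
      · rw [h] at l2
        omega
      · rw [h] at kp0
        exact absurd huK kp0
      · rw [h] at l2
        omega
      · rw [h] at l2
        omega
      · rw [h] at l2
        omega
      · rw [h] at l2
        omega
      · left
        rw [← pp, h, q2]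
      · right
        rw [← pp, h, q3]
  have h3C : t.x3 ∈ cext (i + 1) κ a := mem_cext_of_le hκ (by omega) k3
  have e3 : e t.x3 = 0 := by
    rw [E.fs _ h3C (ne_lv (by have := E.ls; omega))]
    exact S6.tabx H k l3 hx3
  have mm : ∀ z, T8 psi t z → e z = fr psi t k z := fun z hz => by
    obtain ⟨g1, g2⟩ := D.mem_s H hκ hM E hz
    exact E.fs z g1 g2
  have v2 : e t.w2 = (![0, 1, 2, 0, 1, 0] : Fin 6 → ℕ) k := by
    rw [mm _ (by unfold T8; tauto)]
    exact S6.tab2 H k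
  have vu : e (psi t.w2) = (![0, 0, 0, 2, 0, 1] : Fin 6 → ℕ) k := by
    rw [mm _ (by unfold T8; tauto)]
    exact S6.tabu H k
  have vc : e t.c = (![0, 1, 0, 0, 0, 0] : Fin 6 → ℕ) k := by
    rw [mm _ (by unfold T8; tauto)]
    exact S6.tabc H k
  have v3 : e t.w3 = (![0, 0, 0, 0, 1, 0] : Fin 6 → ℕ) k := by
    rw [mm _ (by unfold T8; tauto)]
    exact S6.tab3 H k
  have vv : e (psi t.w3) = (![0, 0, 0, 0, 0, 1] : Fin 6 → ℕ) k := by
    rw [mm _ (by unfold T8; tauto)]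
    exact S6.tabv H k
  have u3 : t.x3 ∈ uc t.w2 := by rw [S6.uc2]; simp
  have u3' : t.x3 ∈ uc t.w3 := by rw [S6.uc3]; simp
  have w2d : t.w2 ∈ dc t.x3 := mem_dc.2 (mem_uc.1 u3)
  have w3d : t.w3 ∈ dc t.x3 := mem_dc.2 (mem_uc.1 u3')
  have p2d : psi t.w2 ∈ uc t.x3 := mem_uc.2 (mem_dc.1 (by rw [S6.dcu2]; simp))
  have p3d : psi t.w3 ∈ uc t.x3 := mem_uc.2 (mem_dc.1 (by rw [S6.dcu3]; simp))
  have cd : t.c ∈ dc t.w2 := mem_dc.2 (mem_uc.1 (by rw [S6.ucc]; simp))
  rcases hyy with rfl | rfl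
  · have g1 := hS.lo _ cd
    have g2 := hS.lo' _ u3 e3 _ w3d m3.symm
    have g3 := hS.up' _ u3 e3 _ p3d m4.symm
    have g4 := hS.one
    rw [vc] at g1
    rw [v3] at g2
    rw [vv] at g3
    rw [v2, vu] at g4
    revert g1 g2 g3 g4
    clear v2 vu vc v3 vv mm e1 e2 e3 E
    revert k
    decide
  · have g2 := hS.lo' _ u3' e3 _ w2d m3
    have g3 := hS.up' _ u3' e3 _ p2d m4
    have g4 := hS.one
    rw [v2] at g2
    rw [vu] at g3
    rw [v3, vv] at g4
    revert g2 g3 g4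
    clear v2 vu vc v3 vv mm e1 e2 e3 E
    revert k
    decide

/-- a state is not changed by a simple swap -/
theorem Exk.sw1 (E : Exk i κ psi a t k s e) {y0 : P} (hy0 : y0 ∈ SK i K psi e) :
    Exk i κ psi a t k s (sw psi y0 e) := by
  obtain ⟨l1, c2, l2, p2, pp, ky0, kp0, hS⟩ := sk_data hM H hy0
  have hne := D.nosw H hκ hM E hy0
  obtain ⟨x, hx⟩ : (uc y0).Nonempty := by
    rw [← card_pos]
    omega
  have hlx := lev_uc H hx
  have hkp : κ (psi y0) = κ y0 := by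
    rw [← hκ (x := x) (y := psi y0) (mem_dc.1 (by rw [p2]; exact hx)) (by omega),
      ← hκ (x := y0) (y := x) (mem_uc.1 hx) (by omega)]
  refine E.congr ?_ ?_
  · intro z hz
    refine sw_ne e ?_ ?_
    · rintro rfl
      exact hne (cext_le H hκ hz (by omega))
    · rintro rfl
      exact hne (by rw [← hkp]; exact cext_le H hκ hz (by omega))
  · intro z hz
    refine sw_ne e ?_ ?_
    · rintro rfl
      exact hz (le_mem_cuni hκ (by omega))
    · rintro rfl
      exact hz (le_mem_cuni hκ (by omega))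

theorem Exk.sw {y0 : P} (hy0 : y0 ∈ SK i K psi e) :
    Exk i κ psi a t k s (sw psi y0 e) ↔ Exk i κ psi a t k s e := by
  constructor
  · intro h
    have := h.sw1 H hκ hM D (sk_back hM H hy0)
    rwa [sw_sw] at this
  · intro h
    exact h.sw1 H hκ hM D hy0

end far

end Pool.Agent.GaussPoset.Win.H2
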