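import Pool.Agent.W_448h2_h63.HT

/-!
# The change of the state and the classes of configurations (MP_448cb3_co, case B, Route T, block H)
-/

namespace Pool.Agent.GaussPoset.Win.H2

set_option linter.unusedSectionVars false

open Finset I2 K2 Ut

universe u

variable {P : Type u} [Fintype P] [PartialOrder P] [DecidableEq P] {r i : ℕ} {e f : P → ℕ}

variable {ι : Type*} [DecidableEq ι] {κ : P → ι} {K C : Finset P} {psi : P → P}

variable {a b : ι} {t : KF P} {k k' : Fin 6} {s : P}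

/-- the family of the toggles and of the swaps -/
structure Env (i : ℕ) (κ : P → ι) (K : Finset P) (A : Finset ι) (kd : ι → KE P)
    (D Y : Finset P) (sD : P → Sw P) (ku : P → P) : Prop where
  kp : ∀ a ∈ A, KPr i κ K a (kd a)
  hD : ∀ z ∈ D, ∃ a ∈ A, lev z = i + 2 ∧ z ∈ cext (i + 1) κ a ∧ Bdr (kd a) (sD z) ∧
    uc z = {(sD z).w, (sD z).w'}
  hY : ∀ y ∈ Y, ∃ a ∈ A, (kd a).y = y ∧ ku y = (kd a).u ∧ κ y = a

/-- a class of configurations -/
def Cl (i : ℕ) (κ : P → ι) (S : Finset ι) (n : ℕ) (D Y : Finset P) (sD : P → Sw P) (ku : P → P)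
    (Q R : Finset P) (e : P → ℕ) : Prop :=
  (e ∈ (US (i + 1) κ S).piAntidiag n ∧ Ut.Tch (i + 1) κ e = S) ∧
    (∀ d ∈ D, ¬ StA d (sD d) e ∧ (StB d (sD d) e ↔ d ∈ Q)) ∧
    ∀ y ∈ Y, ¬ KsA y (ku y) e ∧ (KsB y (ku y) e ↔ y ∈ R)

section cls

variable (H : Gr P r) (hκ : Split (i + 1) κ) (hM : Mat P i K psi) (D : KD i κ K psi a t)
include H hκ hM D

/-- an element with two covers of level `i + 2` is not excited by a state -/
lemma KD.noSt (E : Exk i κ psi a t k s e) {d w w' : P} (hd : d ∈ cext (i + 1) κ a)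
    (ld : lev d = i + 2) (hu : uc d = {w, w'}) (hne : w ≠ w') : e d = 0 := by
  have S6 := D.six H hκ hM
  rw [E.fs d hd (ne_lv (by have := E.ls; omega))]
  by_contra h0
  have h8 : T8 psi t d := by
    by_contra hn
    exact h0 (fr_off hn)
  have h1 := (D.mem H hκ hM h8).2.1 ld
  have h2 := S6.ucc
  rw [← h1, hu] at h2
  have h3 : ({w, w'} : Finset P).card = 2 := card_pair hne
  rw [h2, card_singleton] at h3
  omega

/-- the state of the swap of the unmatched elements fails for the six states -/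
lemma KD.noKs (E : Exk i κ psi a t k s e) : ¬ KsC t.y t.u e := by
  intro h
  have S6 := D.six H hκ hM
  obtain ⟨l0, lx1, lx2, l3, l4, lw2, lw3, lc, lu2, lu3⟩ := S6.lv H
  have ly := S6.ly
  have lu := S6.lu
  obtain ⟨-, -, -, -, -, -, -, -, -, -, m1, m2, m3, m4, m5, m6⟩ := S6.ne H
  have mm : ∀ z, T8 psi t z → e z = fr psi t k z := fun z hz => by
    obtain ⟨g1, g2⟩ := D.mem_s H hκ hM E hz
    exact E.fs z g1 g2
  have v2 : e t.w2 = (![0, 1, 2, 0, 1, 0] : Fin 6 → ℕ) k := by
    rw [mm _ (by unfold T8; tauto)]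
    exact S6.tab2 H k
  have vu : e (psi t.w2) = (![0, 0, 0, 2, 0, 1] : Fin 6 → ℕ) k := by
    rw [mm _ (by unfold T8; tauto)]
    exact S6.tabu H k
  have x1y : t.x1 ∈ uc t.y ∪ dc t.u := by
    rw [D.Q.ucy]
    simp
  have x2u : t.x2 ∈ uc t.y ∪ dc t.u := by
    rw [D.Q.dcu]
    simp
  have g1 := h.s0 _ x1y
  have g2 := h.lo _ x2u t.w2 (mem_dc.2 (mem_uc.1 (by rw [S6.uc2]; simp))) m1.symm
  have g3 := h.up _ x2u (psi t.w2) (mem_uc.2 (mem_dc.1 (by rw [S6.dcu2]; simp))) m5.symm
  rw [v2] at g2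
  rw [vu] at g3
  have hk : k = 0 := by
    revert g2 g3
    clear v2 vu mm E
    revert k
    decide
  subst hk
  rw [mm _ (by unfold T8; tauto)] at g1
  have := S6.tab0 H
  unfold fr at g1
  omega

/-- a toggle of another part does not read the elements of the states -/
lemma KD.rdT {t' : KE P} {sz : Sw P} {z : P} (hab : b ≠ a) (B : Bdr t' sz) (hz : lev z = i + 2)
    (hzC : z ∈ cext (i + 1) κ b) (hu : uc z = {sz.w, sz.w'}) {y : P} (hy : Rd z sz y) :
    ¬ T8 psi t y := by
  intro h8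
  obtain ⟨g1, g2, g3, g4⟩ := D.mem H hκ hM h8
  obtain ⟨l1, l2, l3, l4, l5⟩ := B.lvs H hz hu
  obtain ⟨k1, k2, k3, k4, k5⟩ := B.kap H hκ hz hzC hu
  have kw2 : κ t.w2 = a := (D.Q.six H hκ hM D.X).2.2.2.2.2.1
  have key : ∀ x, lev x ≤ i + 1 → κ x = b → y = x → False := by
    rintro x h1 h2 rfl
    exact hab (by rw [← h2]; exact cext_le H hκ g1 h1)
  have key2 : ∀ x, y ⋖ x → lev x = i + 1 → κ x = b → False := by
    intro x h1 h2 h3
    have hl := lev_uc H (mem_uc.2 h1)
    have h4 := g2 (by omega)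
    have h5 := mem_uc.2 h1
    rw [h4, (D.six H hκ hM).ucc, mem_singleton] at h5
    rw [h5, kw2] at h3
    exact hab h3.symm
  rcases hy with g | g | g | g | g | g | g | ⟨-, g | g⟩ | g
  · exact key _ (by omega) k1 g
  · exact key _ (by omega) k2 g
  · exact key _ (by omega) k3 g
  · exact key _ (by omega) k5 g
  · exact key _ (by omega) k4 g
  · rw [g] at g1
    exact disjoint_left.1 (disj_cext hab) hzC g1
  · have := lev_uc H (mem_uc.2 g)
    omega
  · exact key2 _ g l1 k1
  · exact key2 _ g l2 k2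
  · have hl := lev_uc H (mem_uc.2 g)
    refine key y (by omega) ?_ rfl
    rw [← hκ g (by omega), k4]

/-- the swap of another part does not read the elements of the states -/
lemma KD.krdT {t' : KE P} (hab : b ≠ a) (Q' : KPr i κ K b t') {y : P} (hy : KRd t'.y t'.u y) :
    ¬ T8 psi t y := by
  intro h8
  obtain ⟨g1, g2, g3, g4⟩ := D.mem H hκ hM h8
  have kw2 : κ t.w2 = a := (D.Q.six H hκ hM D.X).2.2.2.2.2.1
  have ly := Q'.ly
  have lu := Q'.lu
  have ky := Q'.ky.2
  have kU := Q'.ku.2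
  have lst : ∀ x ∈ uc t'.y ∪ dc t'.u, lev x = i := by
    intro x hx
    obtain ⟨q0, q1, q2, -, -⟩ := KP.lv H Q'
    rcases (KP.st Q').1 hx with h2 | h2 | h2 <;> rw [h2] <;> assumption
  have key : ∀ x, lev x ≤ i + 1 → κ x = b → y = x → False := by
    rintro x h1 h2 rfl
    exact hab (by rw [← h2]; exact cext_le H hκ g1 h1)
  rcases hy with g | g | g | ⟨x, hx, g | g⟩ | g | g
  · exact key _ (by omega) ky g
  · exact key _ (by omega) kU g
  · exact key y (by have := lst y g; omega) (KP.kst H hκ Q' g) rfl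
  · have h1 := lst x hx
    have h2 := lev_dc H g
    refine key y (by omega) ?_ rfl
    rw [hκ (mem_dc.1 g) (by omega), KP.kst H hκ Q' hx]
  · have h1 := lst x hx
    have h2 := lev_uc H g
    refine key y (by omega) ?_ rfl
    rw [← hκ (mem_uc.1 g) (by omega), KP.kst H hκ Q' hx]
  · have hl := lev_dc H g
    have h4 := g2 (by omega)
    have h5 := mem_uc.2 (mem_dc.1 g)
    rw [h4, (D.six H hκ hM).ucc, mem_singleton] at h5
    rw [h5, kw2] at ky
    exact hab ky.symm
  · have := lev_uc H g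
    omega

/-- the energy is not changed -/
lemma KD.sum_chg (E : Exk i κ psi a t k s e) : ∑ x, H2.chg psi t k' e x = ∑ x, e x := by
  have S6 := D.six H hκ hM
  have h1 : ∀ k, ∑ x, H2.chg psi t k e x = 3 + ∑ x, rs8 psi t e x := by
    intro k
    unfold H2.chg
    rw [← S6.sum H k, ← Finset.sum_add_distrib]
    rfl
  have h2 := D.eq H hκ hM E
  rw [h1 k']
  conv_rhs => rw [h2]
  rw [h1 k]

/-- THE CLASS is not changed by a change of the state -/
theorem Cl.chg {S A : Finset ι} {kd : ι → KE P} {n : ℕ} {Dt Y Q R : Finset P} {sD : P → Sw P}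
    {ku : P → P} (V : Env i κ K A kd Dt Y sD ku) (hAS : A ⊆ S) (ha : a ∈ A)
    (ht : t.toKE = kd a) (E : Exk i κ psi a t k s e) (h : Cl i κ S n Dt Y sD ku Q R e) :
    Cl i κ S n Dt Y sD ku Q R (H2.chg psi t k' e) := by
  obtain ⟨⟨h1, h2⟩, h3, h4⟩ := h
  rw [mem_pa] at h1
  have E' : Exk i κ psi a t k' s (H2.chg psi t k' e) := D.chg H hκ hM E
  refine ⟨⟨?_, ?_⟩, ?_, ?_⟩
  · rw [mem_pa]
    refine ⟨by rw [D.sum_chg H hκ hM E]; exact h1.1, ?_⟩
    intro y hy
    rw [D.chg_out H hκ hM]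
    · exact h1.2 y hy
    · intro h
      exact hy (cext_sub_US (hAS ha) h)
  · rw [← h2]
    refine Tch_congr fun z hz => ?_
    rw [D.chg_out H hκ hM (fun h => hz (D.cun H hκ hM h))]
  · intro d hd
    obtain ⟨b, hb, ld, hdC, B, hu⟩ := V.hD d hd
    obtain ⟨g1, g2⟩ := h3 d hd
    by_cases hab : b = a
    · rw [hab] at hdC
      have z0 := D.noSt H hκ hM E hdC ld hu B.ne
      have z1 := D.noSt H hκ hM E' hdC ld hu B.ne
      constructor
      · intro hA
        have := hA.d2
        omega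
      · rw [← g2]
        constructor
        · intro hB
          have := hB.d1
          omega
        · intro hB
          have := hB.d1
          omega
    · have hrd : ∀ y, Rd d (sD d) y → H2.chg psi t k' e y = e y := fun y hy =>
        chg_off (D.rdT H hκ hM hab B ld hdC hu hy)
      constructor
      · intro hA
        exact g1 (hA.of_rd fun y hy => (hrd y hy).symm)
      · rw [← g2]
        exact ⟨fun hB => hB.of_rd fun y hy => (hrd y hy).symm, fun hB => hB.of_rd hrd⟩
  · intro y hy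
    obtain ⟨b, hb, q1, q2, q3⟩ := V.hY y hy
    obtain ⟨g1, g2⟩ := h4 y hy
    have Qb := V.kp b hb
    rw [q2, ← q1] at g1 g2 ⊢
    by_cases hab : b = a
    · rw [hab, ← ht] at g1 g2 ⊢
      refine ⟨fun hA => D.noKs H hκ hM E' hA.toKsC, ?_⟩
      rw [← g2]
      exact ⟨fun hB => absurd hB.toKsC (D.noKs H hκ hM E'),
        fun hB => absurd hB.toKsC (D.noKs H hκ hM E)⟩
    · have hrd : ∀ x, KRd (kd b).y (kd b).u x → H2.chg psi t k' e x = e x := fun x hx =>
        chg_off (D.krdT H hκ hM hab Qb hx)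
      have ly := Qb.ly
      have lu := Qb.lu
      constructor
      · intro hA
        exact g1 (hA.of_rd (fun x hx => (hrd x hx).symm) ly lu H)
      · rw [← g2]
        exact ⟨fun hB => hB.of_rd (fun x hx => (hrd x hx).symm) ly lu H,
          fun hB => hB.of_rd hrd ly lu H⟩

omit H hκ hM D in
/-- a state of another part is not changed -/
lemma Exk.chg_other (H : Gr P r) (hκ : Split (i + 1) κ) (hM : Mat P i K psi)
    (D : KD i κ K psi a t) {tb : KF P} {kb : Fin 6} {sb : P} (hab : b ≠ a) :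
    Exk i κ psi b tb kb sb (chg psi t k e) ↔ Exk i κ psi b tb kb sb e := by
  have h1 : ∀ x ∈ cext (i + 1) κ b, chg psi t k e x = e x := fun x hx =>
    D.chg_out H hκ hM fun h => disjoint_left.1 (disj_cext hab) hx h
  have h2 : ∀ x, x ∉ cuni (i + 1) κ → chg psi t k e x = e x := fun x hx =>
    D.chg_out H hκ hM fun h => hx (D.cun H hκ hM h)
  exact ⟨fun h => h.congr (fun x hx => (h1 x hx).symm) fun x hx => (h2 x hx).symm,
    fun h => h.congr h1 h2⟩

end cls

end Pool.Agent.GaussPoset.Win.H2
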