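import Pool.Agent.W_448h2_h63.HU

/-!
# The sum over the configurations with one of the six states (MP_448cb3_co, case B, Route T, block H)
-/

namespace Pool.Agent.GaussPoset.Win.H2

set_option linter.unusedSectionVars false

open Finset I2 K2 Ut

universe u

variable {P : Type u} [Fintype P] [PartialOrder P] [DecidableEq P] {r i : ℕ} {e f : P → ℕ}

/-- the quotient of the sum over the six states -/
noncomputable def q6 : A := xi * Classical.choose dd_dvd_six

section six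

variable {y u x0 x1 x2 x3 x4 w2 w3 c u2 u3 : P}

variable (S : Six i y u x0 x1 x2 x3 x4 w2 w3 c u2 u3) (H : Gr P r) (hir : i ≤ r)
include S H hir

/-- THE SUM OVER THE SIX STATES, exact -/
theorem Six.sum_eq {C : Finset P} (hC : Part i C) (hst : 5 ≤ (st i C).card) {g : P → ℕ}
    (hg : Spt C g) (hf : ∀ k, Spt C (fk y u x1 w2 w3 c u2 u3 k))
    (hs : ∀ k, Sep i (fk y u x1 w2 w3 c u2 u3 k) g) :
    ∑ k, tC i C (fk y u x1 w2 w3 c u2 u3 k + g) =
      dd * q6 * tC i C (fk y u x1 w2 w3 c u2 u3 0 + g) := by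
  have key : ∀ k, dd ^ (st i C).card * tC i C (fk y u x1 w2 w3 c u2 u3 k + g) =
      tC i C (fk y u x1 w2 w3 c u2 u3 k) * tC i C g := fun k => tC_sep (hs k) H hir hC (hf k) hg
  have k0 := key 0
  have k1 := key 1
  have k2 := key 2
  have k3 := key 3
  have k4 := key 4
  have k5 := key 5
  have e0 : fk y u x1 w2 w3 c u2 u3 0 = t3 y u x1 1 1 1 := rfl
  have e1 : fk y u x1 w2 w3 c u2 u3 1 = t3 y w2 c 1 1 1 := rfl
  have e2 : fk y u x1 w2 w3 c u2 u3 2 = t3 y w2 w2 1 2 2 := rfl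
  have e3 : fk y u x1 w2 w3 c u2 u3 3 = t3 y u2 u2 1 2 2 := rfl
  have e4 : fk y u x1 w2 w3 c u2 u3 4 = t3 y w2 w3 1 1 1 := rfl
  have e5 : fk y u x1 w2 w3 c u2 u3 5 = t3 y u2 u3 1 1 1 := rfl
  rw [e0, S.t0 H hir] at k0
  rw [e1, S.t1 H hir (by omega)] at k1
  rw [e2, S.tw H hir 2 two_ne_zero (by omega)] at k2
  rw [e3, S.t3' H hir (by omega)] at k3
  rw [e4, S.t4 H hir hst] at k4
  rw [e5, S.t5 H hir hst] at k5
  rw [Fin.sum_univ_six, e0, e1, e2, e3, e4, e5]
  have hq := Classical.choose_spec dd_dvd_six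
  unfold q6
  set q := Classical.choose dd_dvd_six
  have hne : (dd ^ (st i C).card : A) ≠ 0 := pow_ne_zero _ PowerSeries.X_ne_zero
  refine mul_left_cancel₀ hne ?_
  linear_combination k0 + k1 + k2 + k3 + k4 + k5 - dd * (xi * q) * k0 +
    (dd ^ ((st i C).card - 2) * tC i C g) * hq -
    (dd * q * dd ^ ((st i C).card - 2) * tC i C g) * xx_mul_xi

end six

variable {ι : Type*} [DecidableEq ι] {κ : P → ι} {K C : Finset P} {psi : P → P}

variable {a b : ι} {t : KF P} {k k' : Fin 6} {s s' : P}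

section cls

variable (H : Gr P r) (hκ : Split (i + 1) κ) (hM : Mat P i K psi) (D : KD i κ K psi a t)
include H hκ hM D

/-- the state is determined -/
lemma KD.uniq (E : Exk i κ psi a t k s e) (E' : Exk i κ psi a t k' s' e) : k = k' := by
  have key : ∀ z, T8 psi t z → fr psi t k z = fr psi t k' z := fun z hz => by
    obtain ⟨g1, g2⟩ := D.mem_s H hκ hM E hz
    obtain ⟨g1', g2'⟩ := D.mem_s H hκ hM E' hz
    rw [← E.fs z g1 g2, ← E'.fs z g1' g2']
  exact D.inj H hκ hM (key _ (by unfold T8; tauto)) (key _ (by unfold T8; tauto))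
    (key _ (by unfold T8; tauto))

/-- THE SUM OVER THE SIX STATES of a configuration -/
theorem KD.sum6 (hir : i ≤ r) (E : Exk i κ psi a t k s e)
    (hSS : ∀ z : P, lev z = i + 2 → z ∉ cuni (i + 1) κ → ∀ x ∈ uc z, (uc x).card = 1)
    (hC : Part i C) (hsub : cext (i + 1) κ a ⊆ C) (he : Spt C e) :
    ∑ k', tC i C (H2.chg psi t k' e) = dd * q6 * tC i C (H2.chg psi t 0 e) := by
  have S6 := D.six H hκ hM
  have hf : ∀ k, Spt C (fr psi t k) := by
    intro k x hx
    exact fr_off fun h => hx (hsub (D.mem H hκ hM h).1)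
  have hg : Spt C (rs8 psi t e) := by
    intro x hx
    rw [rs8_off fun h => hx (hsub (D.mem H hκ hM h).1)]
    exact he x hx
  have hst : 5 ≤ (st i C).card := by
    have nd := D.X.nd
    have h1 : [t.x0, t.x1, t.x2, t.x3, t.x4].toFinset ⊆ st i C := by
      intro x hx
      rw [List.mem_toFinset] at hx
      have h2 : x = t.x0 ∨ x = t.x1 ∨ x = t.x2 ∨ x = t.x3 ∨ x = t.x4 := by simpa using hx
      obtain ⟨g1, g2, -⟩ := D.ksite H hκ hM h2
      rw [mem_st]
      exact ⟨hsub (mem_cext_of_le hκ (by omega) g2), g1⟩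
    have h3 := card_le_card h1
    rw [List.toFinset_card_of_nodup nd] at h3
    exact h3
  exact S6.sum_eq H hir hC hst hg hf fun k => D.sep H hκ hM E hSS

open Classical in
/-- THE SUM OVER A CLASS of configurations with one of the six states -/
theorem KD.class_dvd (hir : i ≤ r)
    (hSS : ∀ z : P, lev z = i + 2 → z ∉ cuni (i + 1) κ → ∀ x ∈ uc z, (uc x).card = 1)
    (hC : Part i C) (hsub : cext (i + 1) κ a ⊆ C) {G : Finset (P → ℕ)}
    (hG : ∀ e ∈ G, Spt C e) (hex : ∀ e ∈ G, ∃ k s, Exk i κ psi a t k s e)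
    (hchg : ∀ e ∈ G, ∀ k, H2.chg psi t k e ∈ G)
    (hsw : ∀ e ∈ G, ∀ y ∈ SK i K psi e, sw psi y e ∈ G) {N : ℕ}
    (hN : ∀ e ∈ G, dd ^ N ∣ tC i C e * dd ^ (SK i K psi e).card) :
    dd ^ (N + 1) ∣ ∑ e ∈ G, tC i C e := by
  classical
  set Gk : Fin 6 → Finset (P → ℕ) := fun k => G.filter (fun e => ∃ s, Exk i κ psi a t k s e)
    with hGk
  have hun : G = univ.biUnion Gk := by
    ext e
    rw [mem_biUnion]
    constructor
    · intro he
      obtain ⟨k, s, h⟩ := hex e he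
      exact ⟨k, mem_univ _, mem_filter.2 ⟨he, s, h⟩⟩
    · rintro ⟨k, -, hk⟩
      exact (mem_filter.1 hk).1
  have hdis : ∀ k ∈ (univ : Finset (Fin 6)), ∀ k' ∈ (univ : Finset (Fin 6)), k ≠ k' →
      Disjoint (Gk k) (Gk k') := by
    intro k _ k' _ hne
    rw [disjoint_left]
    intro e h1 h2
    obtain ⟨-, s, E⟩ := mem_filter.1 h1
    obtain ⟨-, s', E'⟩ := mem_filter.1 h2
    exact hne (D.uniq H hκ hM E E')
  have hsum : ∑ e ∈ G, tC i C e = ∑ k, ∑ e ∈ Gk k, tC i C e := by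
    conv_lhs => rw [hun]
    exact Finset.sum_biUnion (fun k hk k' hk' hne => hdis k hk k' hk' hne)
  have hb : ∀ k, ∑ e ∈ Gk k, tC i C e = ∑ e ∈ Gk 0, tC i C (H2.chg psi t k e) := by
    intro k
    refine Finset.sum_bij' (fun e _ => H2.chg psi t 0 e) (fun e _ => H2.chg psi t k e) ?_ ?_ ?_ ?_
      ?_
    · intro e he
      obtain ⟨h1, s, E⟩ := mem_filter.1 he
      exact mem_filter.2 ⟨hchg e h1 0, s, D.chg H hκ hM E⟩
    · intro e he
      obtain ⟨h1, s, E⟩ := mem_filter.1 he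
      exact mem_filter.2 ⟨hchg e h1 k, s, D.chg H hκ hM E⟩
    · intro e he
      obtain ⟨h1, s, E⟩ := mem_filter.1 he
      rw [chg_chg]
      exact (D.eq H hκ hM E).symm
    · intro e he
      obtain ⟨h1, s, E⟩ := mem_filter.1 he
      rw [chg_chg]
      exact (D.eq H hκ hM E).symm
    · intro e he
      obtain ⟨h1, s, E⟩ := mem_filter.1 he
      rw [chg_chg, ← D.eq H hκ hM E]
  rw [hsum, Finset.sum_congr rfl fun k _ => hb k, Finset.sum_comm]
  have h6 : ∀ e ∈ Gk 0, ∑ k, tC i C (H2.chg psi t k e) = dd * q6 * tC i C e := by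
    intro e he
    obtain ⟨h1, s, E⟩ := mem_filter.1 he
    rw [D.sum6 H hκ hM hir E hSS hC hsub (hG e h1), ← D.eq H hκ hM E]
  rw [Finset.sum_congr rfl h6, ← Finset.mul_sum, pow_succ, mul_comm (dd ^ N), mul_assoc]
  refine mul_dvd_mul_left _ (Dvd.dvd.mul_left ?_ _)
  refine K2.class_dvd hM H ?_ ?_
  · intro e he y hy
    obtain ⟨h1, s, E⟩ := mem_filter.1 he
    exact mem_filter.2 ⟨hsw e h1 y hy, s, (Exk.sw H hκ hM D hy).2 E⟩
  · intro e he
    exact hN e (mem_filter.1 he).1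

end cls

end Pool.Agent.GaussPoset.Win.H2
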