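import Pool.Agent.W_448h2_h63.HV

/-!
# The count of a cross configuration of energy at most twelve, with the six states (MP_448cb3_co,
Route T, block H)
-/

namespace Pool.Agent.GaussPoset.Win.H2

set_option linter.unusedSectionVars false

open Finset I2 K2 Ut

universe u

variable {P : Type u} [Fintype P] [PartialOrder P] [DecidableEq P] {r i : ℕ} {e : P → ℕ}

variable {ι : Type*} [DecidableEq ι] {κ : P → ι} {K C : Finset P} {psi : P → P}

open Classical in
/-- THE COUNT, with the six states -/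
theorem count6 (H : Gr P r) (hir : i ≤ r) (hT : NoT P (i + 2)) (hg : ∀ m, m + 1 = i → Good P m)
    (hκ : Split (i + 1) κ) (hM : Mat P i K psi) (hKs : K ⊆ dbL P i ∪ dbU P i)
    (hSS : ∀ z : P, lev z = i + 2 → z ∉ cuni (i + 1) κ → ∀ x ∈ uc z, (uc x).card = 1)
    {S : Finset ι} (hS : Ut.Tch (i + 1) κ e = S) (hne : S.Nonempty) {D Y : Finset P}
    {sw : P → Sw P} {ku : P → P} {X : Finset ι} {kf : ι → KF P}
    (hX : ∀ a ∈ S, (∃ k ∈ K, κ k = a) → (∃ z x, lev z = i + 2 ∧ z ∉ cuni (i + 1) κ ∧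
      x ∈ uc z ∧ κ x = a) → a ∈ X ∧ KD i κ K psi a (kf a) ∧ (kf a).y ∈ Y ∧
        ku (kf a).y = (kf a).u)
    (hpart : ∀ a ∈ S, (∀ k ∈ K, κ k ≠ a) ∨ ∃ w0 y u w2 x0 x1 x2,
      KP i κ K a w0 y u w2 x0 x1 x2 ∧ y ∈ Y ∧ ku y = u ∧
      ∀ z p q l m s, lev z = i + 2 → z ∈ cext (i + 1) κ a → Bd w0 y w2 x0 x1 x2 p q l m s →
        uc z = {p, q} → z ∈ D ∧ (sw z = ⟨p, q, l, m, s⟩ ∨ sw z = ⟨q, p, s, m, l⟩))
    (hL : AdmL i e) (hadm : ∀ a ∈ S, AdmL i (rst (cext (i + 1) κ a) e) ∧
      AdmU i (rst (cext (i + 1) κ a) e) ∧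
      Disjoint (AL i (rst (cext (i + 1) κ a) e)) (AU i (rst (cext (i + 1) κ a) e)))
    (hloc : ∑ a ∈ S, EE i (rst (cext (i + 1) κ a) e) + ∑ z ∈ crz i κ, sur uc dc e z ≤ EE i e)
    (hSK : ∑ a ∈ S, (SK i K psi (rst (cext (i + 1) κ a) e)).card ≤ (SK i K psi e).card)
    (hA : ∀ d ∈ D, ¬ StA d (sw d) e) (hKA : ∀ y ∈ Y, ¬ KsA y (ku y) e)
    (h12 : ∑ x, e x ≤ 12) :
    (0 ≤ EE i e + 2 * ((SK i K psi e).card : ℤ) +
      2 * ((D.filter (fun d => StB d (sw d) e)).card : ℤ) +
      2 * ((Y.filter (fun y => KsB y (ku y) e)).card : ℤ)) ∧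
    (1 ≤ EE i e + 2 * ((SK i K psi e).card : ℤ) +
      2 * ((D.filter (fun d => StB d (sw d) e)).card : ℤ) +
      2 * ((Y.filter (fun y => KsB y (ku y) e)).card : ℤ) ∨
      ∃ a ∈ X, ∃ k s, Exk i κ psi a (kf a) k s e) := by
  classical
  set V : ι → ℤ := fun a => Vl i K psi (rst (cext (i + 1) κ a) e) with hV
  set Q := D.filter (fun d => StB d (sw d) e) with hQ
  set R := Y.filter (fun y => KsB y (ku y) e) with hR
  -- the natural parts
  have hnat : ∀ a ∈ S, (∀ k ∈ K, κ k ≠ a) → 0 ≤ V a ∧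
      (∀ s ∈ cext (i + 1) κ a, lev s = i + 1 → (uc s).card = 1 → 1 ≤ e s → 1 ≤ V a) := by
    intro a ha hn
    obtain ⟨q1, q2, q3⟩ := hadm a ha
    have h1 := nat_bound H hir hT hg hM q1 q2 q3 (rst_spt _ _) (C := cext (i + 1) κ a) (K := K)
      (psi := psi) (by
        intro k hk hkC
        exact hn k hk (mem_cext.1 hkC k le_rfl (K_lev hKs hk)))
    have h2 := Vl_ge (i := i) (K := K) (psi := psi) (e := rst (cext (i + 1) κ a) e)
    refine ⟨h1.1.trans h2, ?_⟩
    intro s hs l1 c1 e1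
    exact (h1.2 ⟨s, l1, c1, by rw [rst_mem hs]; exact e1⟩).trans h2
  -- the parts with unmatched elements
  have hkp : ∀ a ∈ S, -1 ≤ V a ∧ (V a < 0 → (∃ d ∈ Q, d ∈ cext (i + 1) κ a) ∨
      (∃ y ∈ R, y ∈ cext (i + 1) κ a) ∨ Hot i κ e a) := by
    intro a ha
    rcases hpart a ha with hn | ⟨w0, y, u, w2, x0, x1, x2, KPa, hyY, hku, hDD⟩
    · have := (hnat a ha hn).1
      exact ⟨by linarith, fun h => absurd h (by linarith)⟩
    · obtain ⟨q1, q2, q3⟩ := hadm a ha
      have hKA' : ¬ KsA y u e := by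
        rw [← hku]
        exact hKA y hyY
      obtain ⟨h1, h2⟩ := KPa.cases H hir hT hg hκ hM hKs hSS hDD hL q1 q2 q3 hA hKA'
        (by rw [hS]; exact ha)
      refine ⟨h1, fun h => ?_⟩
      rcases h2 h with ⟨d, d1, d2, d3⟩ | h3 | h3
      · exact Or.inl ⟨d, mem_filter.2 ⟨d1, d3⟩, d2⟩
      · refine Or.inr (Or.inl ⟨y, mem_filter.2 ⟨hyY, ?_⟩, ?_⟩)
        · rw [hku]
          exact h3
        · exact mem_cext_of_le hκ KPa.ly.le KPa.ky.2
      · exact Or.inr (Or.inr h3)
  set N1 := S.filter (fun a => V a < 0 ∧ ∃ d ∈ Q, d ∈ cext (i + 1) κ a) with hN1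
  set N2 := S.filter (fun a => V a < 0 ∧ ∃ y ∈ R, y ∈ cext (i + 1) κ a) with hN2
  set N3 := S.filter (fun a => V a < 0 ∧ Hot i κ e a) with hN3
  have c1 : N1.card ≤ Q.card := by
    refine (card_le_card (t := Q.image (lb κ)) ?_).trans card_image_le
    intro a ha
    rw [hN1, mem_filter] at ha
    obtain ⟨-, -, d, d1, d2⟩ := ha
    exact mem_image.2 ⟨d, d1, lb_eq d2⟩
  have c2 : N2.card ≤ R.card := by
    refine (card_le_card (t := R.image (lb κ)) ?_).trans card_image_le
    intro a ha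
    rw [hN2, mem_filter] at ha
    obtain ⟨-, -, d, d1, d2⟩ := ha
    exact mem_image.2 ⟨d, d1, lb_eq d2⟩
  have hVa : ∀ a ∈ S, -(if a ∈ N1 then (1 : ℤ) else 0) - (if a ∈ N2 then 1 else 0) -
      (if a ∈ N3 then 1 else 0) ≤ V a := by
    intro a ha
    obtain ⟨h1, h2⟩ := hkp a ha
    by_cases h3 : V a < 0
    · rcases h2 h3 with h | h | h
      · rw [if_pos (show a ∈ N1 by rw [hN1, mem_filter]; exact ⟨ha, h3, h⟩)]
        split_ifs <;> linarith
      · rw [if_pos (show a ∈ N2 by rw [hN2, mem_filter]; exact ⟨ha, h3, h⟩)]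
        split_ifs <;> linarith
      · rw [if_pos (show a ∈ N3 by rw [hN3, mem_filter]; exact ⟨ha, h3, h⟩)]
        split_ifs <;> linarith
    · split_ifs <;> linarith
  have hsumV : -(N1.card : ℤ) - N2.card - N3.card ≤ ∑ a ∈ S, V a := by
    have h1 := Finset.sum_le_sum hVa
    rw [Finset.sum_sub_distrib, Finset.sum_sub_distrib, Finset.sum_neg_distrib,
      Finset.sum_ite_mem, Finset.sum_ite_mem, Finset.sum_ite_mem, Finset.sum_const,
      Finset.sum_const, Finset.sum_const] at h1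
    have e1 : S ∩ N1 = N1 := inter_eq_right.2 (filter_subset _ _)
    have e2 : S ∩ N2 = N2 := inter_eq_right.2 (filter_subset _ _)
    have e3 : S ∩ N3 = N3 := inter_eq_right.2 (filter_subset _ _)
    rw [e1, e2, e3] at h1
    simpa using h1
  have hT1 : ∑ a ∈ S, V a + ∑ z ∈ crz i κ, sur uc dc e z ≤
      EE i e + 2 * ((SK i K psi e).card : ℤ) := by
    have h1 : ∑ a ∈ S, V a = ∑ a ∈ S, EE i (rst (cext (i + 1) κ a) e) +
        2 * ((∑ a ∈ S, (SK i K psi (rst (cext (i + 1) κ a) e)).card : ℕ) : ℤ) := by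
      rw [hV]
      unfold Vl
      rw [Finset.sum_add_distrib, ← Finset.mul_sum]
      push_cast
      rfl
    rw [h1]
    have h2 : ((∑ a ∈ S, (SK i K psi (rst (cext (i + 1) κ a) e)).card : ℕ) : ℤ) ≤
        (SK i K psi e).card := by exact_mod_cast hSK
    linarith
  have c1' : (N1.card : ℤ) ≤ Q.card := by exact_mod_cast c1
  have c2' : (N2.card : ℤ) ≤ R.card := by exact_mod_cast c2
  obtain ⟨a0, ha0⟩ := hne
  obtain ⟨cc0, t0, ht0, et0, htc0, -, -, -⟩ := touch H hκ hL (a := a0) (by rw [hS]; exact ha0)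
  have hz0 := crz_sum H hT hκ hL (mem_crz.2 ht0)
  rcases N3.eq_empty_or_nonempty with h3 | ⟨a, ha⟩
  · rw [h3, card_empty] at hsumV
    by_cases hN : N1 = ∅ ∧ N2 = ∅
    · -- no part with a negative value
      have hnn : ∀ a ∈ S, 0 ≤ V a := by
        intro a ha
        have := hVa a ha
        rw [hN.1, hN.2, h3] at this
        simpa using this
      have hs0 : 0 ≤ ∑ a ∈ S, V a := Finset.sum_nonneg hnn
      have q0 : (0 : ℤ) ≤ Q.card := by positivity
      have r0 : (0 : ℤ) ≤ R.card := by positivity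
      refine ⟨by linarith [hz0.1], ?_⟩
      by_contra hcon
      rw [not_or] at hcon
      obtain ⟨hcon, hEx⟩ := hcon
      have hQ0 : (Q.card : ℤ) = 0 := by
        by_contra h
        have : (1 : ℤ) ≤ Q.card := by omega
        exact hcon (by linarith [hz0.1])
      have hR0 : (R.card : ℤ) = 0 := by
        by_contra h
        have : (1 : ℤ) ≤ R.card := by omega
        exact hcon (by linarith [hz0.1])
      have hV0 : ∀ a ∈ S, V a = 0 := by
        intro a ha
        have h1 : V a ≤ ∑ a ∈ S, V a := Finset.single_le_sum hnn ha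
        have h2 := hnn a ha
        by_contra h
        have : 1 ≤ V a := by omega
        exact hcon (by linarith [hz0.1])
      have hsur : ∀ z ∈ crz i κ, sur uc dc e z ≤ 0 := by
        intro z hz
        by_contra h
        exact hcon (by linarith [(crz_sum H hT hκ hL hz).2])
      have hcr : ∀ z, z ∉ cuni (i + 1) κ → e z ≠ 0 → lev z = i + 2 ∧ 2 ≤ e z := by
        intro z hz hz0
        have hl := (two_up H hκ hz).1
        have h1 : 1 ≤ e z := Nat.one_le_iff_ne_zero.2 hz0
        have h2 := hsur z (mem_crz.2 hz)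
        refine ⟨?_, ?_⟩
        · by_contra hne
          have := crz_deep H hT hκ hL (mem_crz.2 hz) (by omega) h1
          linarith
        · by_contra hlt
          have h3 : e z = 1 := by omega
          have hk : ¬ kl uc e z := by
            rintro ⟨w, hw, hlt⟩
            have h4 := exc_le H hL h1 (mem_uc.1 hw).le (by have := lev_uc H hw; omega)
            omega
          unfold sur at h2
          rw [if_neg hk, h3] at h2
          norm_num at h2
      obtain ⟨hl2, het⟩ := hcr t0 ht0 (by omega)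
      -- the two covers
      have hside : ∀ x ∈ uc t0, κ x ∈ X ∧ KD i κ K psi (κ x) (kf (κ x)) ∧
          4 ≤ ∑ y ∈ cext (i + 1) κ (κ x), e y ∧ (∃ m : ℕ, ∑ y ∈ cext (i + 1) κ (κ x), e y = 2 * m) ∧
          (∑ y ∈ cext (i + 1) κ (κ x), e y = 4 →
            ∃ k, Exk i κ psi (κ x) (kf (κ x)) k x e) := by
        intro x hx
        have hlx := lev_uc H hx
        have hbS : κ x ∈ S := by
          rw [← hS, Ut.mem_Tch]
          exact ⟨x, ⟨by omega, t0, ht0, by omega, (mem_uc.1 hx).le⟩, rfl⟩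
        have hxC : x ∈ cext (i + 1) κ (κ x) := mem_cext_of_le hκ (by omega) rfl
        have ex : 1 ≤ e x := exc_le H hL et0 (mem_uc.1 hx).le (by omega)
        have cx := hSS t0 hl2 ht0 x hx
        have hK : ∃ k ∈ K, κ k = κ x := by
          by_contra hn
          push Not at hn
          have h1 := (hnat _ hbS hn).2 x hxC (by omega) cx ex
          rw [hV0 _ hbS] at h1
          omega
        obtain ⟨hXx, KDx, hyY, hku⟩ := hX _ hbS hK ⟨t0, x, hl2, ht0, hx, rfl⟩
        obtain ⟨o1, o2, o3⟩ := hadm _ hbS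
        have hv : Vl i K psi (rst (cext (i + 1) κ (κ x)) e) = 0 := hV0 _ hbS
        have nA : ¬ KsA (kf (κ x)).y (kf (κ x)).u (rst (cext (i + 1) κ (κ x)) e) := by
          intro h
          refine hKA _ hyY ?_
          rw [hku]
          exact (KDx.Q.ks H hκ hSS).1 h
        have nB : ¬ KsB (kf (κ x)).y (kf (κ x)).u (rst (cext (i + 1) κ (κ x)) e) := by
          intro h
          have h1 : (kf (κ x)).y ∈ R := by
            rw [hR, mem_filter]
            refine ⟨hyY, ?_⟩
            rw [hku]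
            exact (KDx.Q.ks H hκ hSS).2 h
          have h2 : R = ∅ := by
            rw [← card_eq_zero]
            exact_mod_cast hR0
          rw [h2] at h1
          exact notMem_empty _ h1
        obtain ⟨f4, fe⟩ := KX.four H hir hT hg hκ hM hKs KDx.Q KDx.X o1 o2 o3 (rst_spt _ _)
          (s := x) (by omega) cx (by rw [rst_mem hxC]; exact ex) hv nA nB
        rw [sum_rst'] at f4 fe
        refine ⟨hXx, KDx, f4, fe, fun h4 => ?_⟩
        obtain ⟨k, hk⟩ := KX.states H hir hT hg hκ hM hKs KDx.Q KDx.X o1 o2 o3 (rst_spt _ _)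
          (s := x) (by omega) cx (by rw [rst_mem hxC]; exact ex) hv.le (by rw [sum_rst']; exact h4)
          nA nB
        refine ⟨k, ?_, hxC, by omega, cx, fun z hz hz0 => (hcr z hz hz0).1⟩
        intro z hz hne
        have h1 := hk z
        rw [rst_mem hz, if_neg hne, Nat.add_zero] at h1
        exact h1
      obtain ⟨x, hx⟩ := uc_nonempty H (x := t0) (by omega)
      have hlx := lev_uc H hx
      have hta : t0 ∉ cext (i + 1) κ (κ x) := by
        intro h
        apply ht0
        unfold cuni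
        rw [mem_biUnion]
        exact ⟨κ x, mem_image.2 ⟨x, mem_univ x, rfl⟩, h⟩
      have hta' := hta
      rw [mem_cext] at hta'
      push Not at hta'
      obtain ⟨y', hy', hl', hne'⟩ := hta'
      obtain ⟨x', hc1, hc2⟩ := exists_covBy_le_of_lt (lt_of_le_of_ne hy' (by rintro rfl; omega))
      have hlc := lev_uc H (mem_uc.2 hc1)
      have hkp : κ x' ≠ κ x := by
        rw [hκ.le x' hc2 (by omega)]
        exact hne'
      obtain ⟨x1, x2, x3, ⟨m, x4⟩, x5⟩ := hside x hx
      obtain ⟨y1, y2, y3, ⟨m', y4⟩, y5⟩ := hside x' (mem_uc.2 hc1)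
      have hta2 : t0 ∉ cext (i + 1) κ (κ x') := by
        intro h
        apply ht0
        unfold cuni
        rw [mem_biUnion]
        exact ⟨κ x', mem_image.2 ⟨x', mem_univ x', rfl⟩, h⟩
      have h5 : ∑ z ∈ insert t0 (cext (i + 1) κ (κ x) ∪ cext (i + 1) κ (κ x')), e z ≤
          ∑ x, e x := sum_sub
      rw [sum_insert (by rw [mem_union, not_or]; exact ⟨hta, hta2⟩),
        sum_union (disj_cext (Ne.symm hkp))] at h5
      have h6 : ∑ y ∈ cext (i + 1) κ (κ x), e y = 4 ∨ ∑ y ∈ cext (i + 1) κ (κ x'), e y = 4 := by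
        omega
      rcases h6 with h6 | h6
      · obtain ⟨k, hk⟩ := x5 h6
        exact hEx ⟨κ x, x1, k, x, hk⟩
      · obtain ⟨k, hk⟩ := y5 h6
        exact hEx ⟨κ x', y1, k, x', hk⟩
    · have h4 : (1 : ℤ) ≤ Q.card + R.card := by
        have : 1 ≤ Q.card + R.card := by
          rw [not_and_or] at hN
          rcases hN with h | h
          · have := card_pos.2 (nonempty_iff_ne_empty.2 h)
            omega
          · have := card_pos.2 (nonempty_iff_ne_empty.2 h)
            omega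
        exact_mod_cast this
      push_cast at hsumV
      have h9 : 1 ≤ EE i e + 2 * ((SK i K psi e).card : ℤ) + 2 * (Q.card : ℤ) +
          2 * (R.card : ℤ) := by linarith [hz0.1]
      exact ⟨by linarith, Or.inl h9⟩
  · -- a hot part
    have haS := ha
    rw [hN3, mem_filter] at haS
    obtain ⟨haS, -, h7, d, hd, hld, t, htd, ht, ht2⟩ := haS
    have hlt := lev_uc H (mem_uc.2 htd)
    have et : e t = 2 := by
      by_contra hn
      exact hot_two H hT hκ hL h7 hd hld htd ht h12 (by omega)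
    have h5 := crz_two H hT hL (z := t) (by omega) et
    have h6 := (crz_sum H hT hκ hL (mem_crz.2 ht)).2
    have h8 : N3.card ≤ 1 := by
      rw [Finset.card_le_one]
      intro b hb b' hb'
      rw [hN3, mem_filter] at hb hb'
      by_contra hbb
      have h9 : ∑ x ∈ cext (i + 1) κ b ∪ cext (i + 1) κ b', e x ≤ ∑ x, e x := sum_sub
      rw [sum_union (disj_cext hbb)] at h9
      have := hb.2.2.1
      have := hb'.2.2.1
      omega
    have h8' : (N3.card : ℤ) ≤ 1 := by exact_mod_cast h8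
    have : (0 : ℤ) ≤ Q.card := by positivity
    have : (0 : ℤ) ≤ R.card := by positivity
    have h9 : 1 ≤ EE i e + 2 * ((SK i K psi e).card : ℤ) + 2 * (Q.card : ℤ) +
        2 * (R.card : ℤ) := by linarith
    exact ⟨by linarith, Or.inl h9⟩

end Pool.Agent.GaussPoset.Win.H2
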