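import Pool.Agent.W_448h2_h63.HW

/-!
# The cross series of energy at most twelve without a hypothesis on the crossing elements: the classes
(MP_448cb3_co, Route T, block H)
-/

namespace Pool.Agent.GaussPoset.Win.H2

set_option linter.unusedSectionVars false

open Finset I2 K2 Ut

universe u

variable {P : Type u} [Fintype P] [PartialOrder P] [DecidableEq P] {r i : ℕ} {e : P → ℕ}

variable {ι : Type*} [DecidableEq ι] {κ : P → ι} {K C : Finset P} {psi : P → P}

/-- the class is not changed by a simple swap -/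
theorem Cl.sw1 (H : Gr P r) (hκ : Split (i + 1) κ) (hM : Mat P i K psi) {S A : Finset ι}
    {kd : ι → KE P} {n : ℕ} {Dt Y Q R : Finset P} {sD : P → Sw P} {ku : P → P}
    (V : Env i κ K A kd Dt Y sD ku) (F : Fam P i Dt sD) (G : FamK P i Y ku)
    (h : Cl i κ S n Dt Y sD ku Q R e) {y0 : P} (hy0 : y0 ∈ SK i K psi e) :
    Cl i κ S n Dt Y sD ku Q R (I2.sw psi y0 e) := by
  have hPC : Part (i + 1) (US (i + 1) κ S) := part_US H le_rfl hκ S
  obtain ⟨⟨h1, h2⟩, h3, h4⟩ := h
  refine ⟨⟨?_, ?_⟩, ?_, ?_⟩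
  · exact (pa_sw hM H hy0 hPC n).2 h1
  · rw [Tch_sw hM H hy0 hκ]
    exact h2
  · intro d hd
    rw [StA_sw hM H hy0 (F.ok d hd), StB_sw hM H hy0 (F.ok d hd)]
    exact h3 d hd
  · intro y hy
    obtain ⟨a, ha, g1, g2, -⟩ := V.hY y hy
    have Qa := V.kp a ha
    have hyK : y ∈ K := by rw [← g1]; exact Qa.ky.1
    have huK : ku y ∈ K := by rw [g2]; exact Qa.ku.1
    have hyd : y ∈ dbL P i := mem_dbL'.2 ⟨G.ly y hy, G.cy y hy⟩
    have hud : ku y ∈ dbU P i := mem_dbU'.2 ⟨G.lu y hy, G.cu y hy⟩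
    rw [KsA_sw hM H hy0 hyK huK hyd hud, KsB_sw hM H hy0 hyK huK hyd hud]
    exact h4 y hy

open Classical in
/-- THE SUM OVER A CLASS -/
theorem cl_dvd (H : Gr P r) (hir : i ≤ r) (hκ : Split (i + 1) κ) (hM : Mat P i K psi)
    (hSS : ∀ z : P, lev z = i + 2 → z ∉ cuni (i + 1) κ → ∀ x ∈ uc z, (uc x).card = 1)
    {S A X : Finset ι} {kf : ι → KF P} {n : ℕ} {Dt Y Q R : Finset P} {sD : P → Sw P}
    {ku : P → P} (V : Env i κ K A (fun a => (kf a).toKE) Dt Y sD ku) (F : Fam P i Dt sD)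
    (G : FamK P i Y ku) (hAS : A ⊆ S) (hXA : X ⊆ A) (hKD : ∀ a ∈ X, KD i κ K psi a (kf a))
    {Ω : Finset (P → ℕ)} (hΩ : ∀ e, e ∈ Ω ↔ Cl i κ S n Dt Y sD ku Q R e) {N N' : ℕ}
    (hNN : N' ≤ N + 1)
    (h0 : ∀ e ∈ Ω, dd ^ N ∣ tC i (US (i + 1) κ S) e * dd ^ (SK i K psi e).card)
    (h1 : ∀ e ∈ Ω, (∀ a ∈ X, ¬ ∃ k s, Exk i κ psi a (kf a) k s e) →
      dd ^ N' ∣ tC i (US (i + 1) κ S) e * dd ^ (SK i K psi e).card) :
    dd ^ N' ∣ ∑ e ∈ Ω, tC i (US (i + 1) κ S) e := by
  classical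
  have hC1 : Part (i + 1) (US (i + 1) κ S) := part_US H le_rfl hκ S
  have hC : Part i (US (i + 1) κ S) := part_US H (Nat.le_succ i) hκ S
  have hspt : ∀ e ∈ Ω, Spt (US (i + 1) κ S) e := fun e he => spt_of_mem ((hΩ e).1 he).1.1
  have hswx : ∀ a ∈ X, ∀ e ∈ Ω, ∀ y0 ∈ SK i K psi e,
      ((∃ k s, Exk i κ psi a (kf a) k s (I2.sw psi y0 e)) ↔
        ∃ k s, Exk i κ psi a (kf a) k s e) := by
    intro a ha e he y0 hy0
    constructor
    · rintro ⟨k, s, h⟩
      exact ⟨k, s, (Exk.sw H hκ hM (hKD a ha) hy0).1 h⟩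
    · rintro ⟨k, s, h⟩
      exact ⟨k, s, (Exk.sw H hκ hM (hKD a ha) hy0).2 h⟩
  have hsw : ∀ e ∈ Ω, ∀ y0 ∈ SK i K psi e, I2.sw psi y0 e ∈ Ω := by
    intro e he y0 hy0
    rw [hΩ] at he ⊢
    exact he.sw1 H hκ hM V F G hy0
  -- the induction over the parts
  have key : ∀ B, B ⊆ X → dd ^ N' ∣ ∑ e ∈ Ω.filter (fun e => ∀ b ∈ B,
      ¬ ∃ k s, Exk i κ psi b (kf b) k s e), tC i (US (i + 1) κ S) e →
      dd ^ N' ∣ ∑ e ∈ Ω, tC i (US (i + 1) κ S) e := by
    intro B
    induction B using Finset.induction_on with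
    | empty =>
      intro _ h
      rw [filter_true_of_mem (by simp)] at h
      exact h
    | insert a B haB ih =>
      intro hB h
      have ha : a ∈ X := hB (mem_insert_self _ _)
      have hB' : B ⊆ X := fun x hx => hB (mem_insert_of_mem hx)
      have Da := hKD a ha
      refine ih hB' ?_
      rw [← Finset.sum_filter_add_sum_filter_not (Ω.filter (fun e => ∀ b ∈ B,
        ¬ ∃ k s, Exk i κ psi b (kf b) k s e)) (fun e => ∃ k s, Exk i κ psi a (kf a) k s e)]
      refine dvd_add ?_ ?_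
      · refine (pow_dvd_pow dd hNN).trans ?_
        refine Da.class_dvd H hκ hM hir hSS hC (cext_sub_US (hAS (hXA ha))) ?_ ?_ ?_ ?_ ?_
        · intro e he
          rw [mem_filter, mem_filter] at he
          exact hspt e he.1.1
        · intro e he
          rw [mem_filter, mem_filter] at he
          exact he.2
        · intro e he k'
          rw [mem_filter, mem_filter] at he ⊢
          obtain ⟨⟨g1, g2⟩, k, s, E⟩ := he
          refine ⟨⟨?_, ?_⟩, k', s, Da.chg H hκ hM E⟩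
          · rw [hΩ] at g1 ⊢
            exact g1.chg H hκ hM Da V hAS (hXA ha) rfl E
          · rintro b hb ⟨kb, sb, Eb⟩
            refine g2 b hb ⟨kb, sb, ?_⟩
            refine (Exk.chg_other H hκ hM Da ?_).1 Eb
            rintro rfl
            exact haB hb
        · intro e he y0 hy0
          rw [mem_filter, mem_filter] at he ⊢
          obtain ⟨⟨g1, g2⟩, g3⟩ := he
          refine ⟨⟨hsw e g1 y0 hy0, ?_⟩, (hswx a ha e g1 y0 hy0).2 g3⟩
          intro b hb
          rw [hswx b (hB' hb) e g1 y0 hy0]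
          exact g2 b hb
        · intro e he
          rw [mem_filter, mem_filter] at he
          exact h0 e he.1.1
      · convert h using 2
        rw [filter_filter]
        refine filter_congr fun e _ => ?_
        constructor
        · rintro ⟨g1, g2⟩ b hb
          rcases mem_insert.1 hb with rfl | hb
          · exact g2
          · exact g1 b hb
        · intro g
          exact ⟨fun b hb => g b (mem_insert_of_mem hb), g a (mem_insert_self _ _)⟩
  refine key X (Finset.Subset.refl _) ?_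
  refine K2.class_dvd hM H ?_ ?_
  · intro e he y0 hy0
    rw [mem_filter] at he ⊢
    refine ⟨hsw e he.1 y0 hy0, fun b hb => ?_⟩
    rw [hswx b hb e he.1 y0 hy0]
    exact he.2 b hb
  · intro e he
    rw [mem_filter] at he
    exact h1 e he.1 he.2

end Pool.Agent.GaussPoset.Win.H2
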