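import Pool.Agent.W_448h2_h63.HX
import Pool.Agent.W_448h2_h63.HM

/-!
# The cross series of energy at most twelve (MP_448cb3_co, case B, Route T, block H): final form without
a hypothesis on the elements between two parts

`h2_twelve6`: the statement of `h2_twelve` (file `HM`) without the hypothesis that every element between
two parts has a cover in a part without unmatched elements. Instead: a part with unmatched elements which
is touched at a single element has the data `KX`.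
-/

namespace Pool.Agent.GaussPoset.Win.H2

set_option linter.unusedSectionVars false

open Finset I2 K2 Ut

universe u

variable {P : Type u} [Fintype P] [PartialOrder P] [DecidableEq P] {r i : ℕ} {e : P → ℕ}

variable {ι : Type*} [DecidableEq ι] {κ : P → ι} {K C : Finset P} {psi : P → P}

open Classical in
/-- THE CROSS SERIES OF ENERGY AT MOST TWELVE, given the localisation -/
theorem h2_of_loc6 (H : Gr P r) (hir : i ≤ r) (hT : NoT P (i + 2))
    (hg : ∀ m, m + 1 = i → Good P m)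
    (hκ : Split (i + 1) κ) (hM : Mat P i K psi) (hKs : K ⊆ dbL P i ∪ dbU P i)
    (hSS : ∀ z : P, lev z = i + 2 → z ∉ cuni (i + 1) κ → ∀ x ∈ uc z, (uc x).card = 1)
    (hpart : ∀ a ∈ univ.image κ, (∀ k ∈ K, κ k ≠ a) ∨ ∃ w0 y u w2 x0 x1 x2,
      KP i κ K a w0 y u w2 x0 x1 x2)
    (hX : ∀ a ∈ univ.image κ, (∃ k ∈ K, κ k = a) → (∃ z x, lev z = i + 2 ∧
      z ∉ cuni (i + 1) κ ∧ x ∈ uc z ∧ κ x = a) → ∃ t : KF P, KD i κ K psi a t)
    (hloc : ∀ S e, Spt (US (i + 1) κ S) e → AdmL i e → AdmU i e →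
      Disjoint (AL i e) (AU i e) → Loc i κ K psi S e) :
    ∀ S, S ⊆ univ.image κ → S.Nonempty → ∀ n, 1 ≤ n → n ≤ 12 →
      dd ^ ((st i (US (i + 1) κ S)).card - (n - 1) / 2) ∣ XC i (i + 1) κ S n := by
  classical
  intro S hS hne n hn1 hn12
  obtain ⟨a0, ha0⟩ := hne
  obtain ⟨xx0, -, -⟩ := mem_image.1 (hS ha0)
  haveI : Nonempty (KF P) := ⟨⟨⟨xx0, xx0, xx0, xx0, xx0, xx0, xx0⟩, xx0, xx0, xx0, xx0⟩⟩
  have hex : ∀ a, (a ∈ S ∧ ¬ ∀ k ∈ K, κ k ≠ a) → ∃ t : KF P, KPr i κ K a t.toKE ∧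
      ((∃ z x, lev z = i + 2 ∧ z ∉ cuni (i + 1) κ ∧ x ∈ uc z ∧ κ x = a) →
        KD i κ K psi a t) := by
    intro a ha
    by_cases htc : ∃ z x, lev z = i + 2 ∧ z ∉ cuni (i + 1) κ ∧ x ∈ uc z ∧ κ x = a
    · have hk : ∃ k ∈ K, κ k = a := by
        have h1 := ha.2
        push Not at h1
        exact h1
      obtain ⟨t, ht⟩ := hX a (hS ha.1) hk htc
      exact ⟨t, ht.Q, fun _ => ht⟩
    · rcases hpart a (hS ha.1) with h | ⟨w0, y, u, w2, x0, x1, x2, h⟩
      · exact absurd h ha.2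
      · exact ⟨⟨⟨w0, y, u, w2, x0, x1, x2⟩, w0, w0, w0, w0⟩, h, fun h1 => absurd h1 htc⟩
  choose! kf hkf using hex
  set kd : ι → KE P := fun a => (kf a).toKE with hkd
  set A := S.filter (fun a => ¬ ∀ k ∈ K, κ k ≠ a) with hA
  have hAS : ∀ a ∈ A, a ∈ S ∧ KPr i κ K a (kd a) := by
    intro a ha
    rw [hA, mem_filter] at ha
    exact ⟨ha.1, (hkf a ha).1⟩
  set X := A.filter (fun a => ∃ z x, lev z = i + 2 ∧ z ∉ cuni (i + 1) κ ∧ x ∈ uc z ∧ κ x = a)
    with hXd
  have hXK : ∀ a ∈ X, KD i κ K psi a (kf a) := by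
    intro a ha
    rw [hXd, mem_filter] at ha
    have h1 := ha.1
    rw [hA, mem_filter] at h1
    exact (hkf a h1).2 ha.2
  set D := univ.filter (fun z : P => ∃ s : Sw P, ∃ a ∈ A, lev z = i + 2 ∧
    z ∈ cext (i + 1) κ a ∧ Bdr (kd a) s ∧ uc z = {s.w, s.w'}) with hD
  haveI : Nonempty (Sw P) := ⟨⟨xx0, xx0, xx0, xx0, xx0⟩⟩
  have hex2 : ∀ z, z ∈ D → ∃ s : Sw P, ∃ a ∈ A, lev z = i + 2 ∧
      z ∈ cext (i + 1) κ a ∧ Bdr (kd a) s ∧ uc z = {s.w, s.w'} := by
    intro z hz
    exact (mem_filter.1 hz).2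
  choose! sw hsw using hex2
  set Y := A.image (fun a => (kd a).y) with hY
  set ku : P → P := fun y => (kd (κ y)).u with hku
  have hYa : ∀ y ∈ Y, ∃ a ∈ A, (kd a).y = y ∧ ku y = (kd a).u ∧ κ y = a := by
    intro y hy
    obtain ⟨a, ha, rfl⟩ := mem_image.1 hy
    have h1 := (hAS a ha).2.ky.2
    refine ⟨a, ha, rfl, ?_, h1⟩
    rw [hku]
    simp only
    rw [h1]
  have V : Env i κ K A kd D Y sw ku := ⟨fun a ha => (hAS a ha).2, hsw, hYa⟩
  have F : Fam P i D sw := by
    refine ⟨?_, ?_, ?_, ?_⟩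
    · intro z hz
      obtain ⟨a, ha, h1, h2, h3, h4⟩ := hsw z hz
      exact h3.ok H h1 h4
    · intro z hz
      obtain ⟨a, ha, h1, h2, h3, h4⟩ := hsw z hz
      exact h3.lm
    · intro z hz
      obtain ⟨a, ha, h1, h2, h3, h4⟩ := hsw z hz
      exact h3.sm
    · intro z hz
      obtain ⟨a, ha, h1, h2, h3, h4⟩ := hsw z hz
      exact h3.ne
  have G : FamK P i Y ku := by
    refine ⟨?_, ?_, ?_, ?_⟩
    · intro y hy
      obtain ⟨a, ha, h1, h2, -⟩ := hYa y hy
      rw [← h1]
      exact (hAS a ha).2.ly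
    · intro y hy
      obtain ⟨a, ha, h1, h2, -⟩ := hYa y hy
      rw [h2]
      exact (hAS a ha).2.lu
    · intro y hy
      obtain ⟨a, ha, h1, h2, -⟩ := hYa y hy
      rw [← h1, (hAS a ha).2.ucy, card_pair (hAS a ha).2.n01]
    · intro y hy
      obtain ⟨a, ha, h1, h2, -⟩ := hYa y hy
      rw [h2, (hAS a ha).2.dcu, card_pair (hAS a ha).2.n12]
  have hPC : Part (i + 1) (US (i + 1) κ S) := part_US H le_rfl hκ S
  refine XC_toggle2 H le_rfl hκ F G ?_ ?_ ?_ ?_ ?_ n _ ?_
  · intro z hz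
    obtain ⟨a, ha, h1, h2, h3, h4⟩ := hsw z hz
    exact cext_sub_US (hAS a ha).1 h2
  · intro z hz
    obtain ⟨a, ha, h1, h2, h3, h4⟩ := hsw z hz
    exact cext_sub_cuni (hS (hAS a ha).1) h2
  · intro y hy
    obtain ⟨a, ha, h1, h2, -⟩ := hYa y hy
    have Q := (hAS a ha).2
    have l1 := Q.ly
    have l2 := Q.lu
    rw [h2, ← h1]
    exact ⟨cext_sub_US (hAS a ha).1 (mem_cext_of_le hκ (by omega) Q.ky.2),
      cext_sub_US (hAS a ha).1 (mem_cext_of_le hκ (by omega) Q.ku.2)⟩
  · intro z hz y hy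
    obtain ⟨a, ha, h1, h2, h3, h4⟩ := hsw z hz
    obtain ⟨b, hb, g1, g2, -⟩ := hYa y hy
    rw [g2, ← g1]
    exact indep H hκ h3 h1 h2 h4 (hAS b hb).2 (fun h => by rw [h])
  · intro y hy y' hy' hne'
    obtain ⟨a, ha, g1, g2, -⟩ := hYa y hy
    obtain ⟨b, hb, g1', g2', -⟩ := hYa y' hy'
    rw [g2, ← g1, g2', ← g1']
    refine indep2 H hκ (hAS a ha).2 (hAS b hb).2 ?_
    rintro rfl
    exact hne' (g1.symm.trans g1')
  · intro Q hQ R hR
    set N := (st i (US (i + 1) κ S)).card - (n - 1) / 2 with hN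
    set q := Q.card + R.card with hq
    rcases Nat.lt_or_ge N q with hNq | hNq
    · exact Dvd.dvd.mul_right (pow_dvd_pow dd hNq.le) _
    have hsplit : dd ^ N = dd ^ q * dd ^ ((st i (US (i + 1) κ S)).card - ((n - 1) / 2 + q)) := by
      rw [← pow_add]
      congr 1
      omega
    rw [hsplit]
    refine mul_dvd_mul_left _ ?_
    -- the count
    have hcnt : ∀ e, Cl i κ S n D Y sw ku Q R e → AdmL i e → AdmU i e →
        Disjoint (AL i e) (AU i e) →
        (0 ≤ (n : ℤ) - 2 * (((AL i e).card : ℤ) + (AU i e).card) +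
            2 * ((pL i e : ℤ) + pU i e) + 2 * ((SK i K psi e).card : ℤ) + 2 * (q : ℤ)) ∧
        (1 ≤ (n : ℤ) - 2 * (((AL i e).card : ℤ) + (AU i e).card) +
            2 * ((pL i e : ℤ) + pU i e) + 2 * ((SK i K psi e).card : ℤ) + 2 * (q : ℤ) ∨
          ∃ a ∈ X, ∃ k s, Exk i κ psi a (kf a) k s e) := by
      intro e he hL hU hd
      obtain ⟨⟨h1, h2⟩, h3, h4⟩ := he
      have hspt := spt_of_mem h1
      have hsum : ∑ x, e x = n := (mem_pa.1 h1).1
      obtain ⟨o1, o2, o3⟩ := hloc S e hspt hL hU hd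
      have hc := count6 (D := D) (Y := Y) (sw := sw) (ku := ku) (X := X) (kf := kf) H hir hT hg
        hκ hM hKs hSS h2 ⟨a0, ha0⟩ ?_ ?_ hL o1 o2 o3 (fun d hd => (h3 d hd).1)
        (fun y hy => (h4 y hy).1) (by omega)
      · have e1 : D.filter (fun d => StB d (sw d) e) = Q := by
          ext d
          rw [mem_filter]
          constructor
          · rintro ⟨g1, g2⟩
            exact (h3 d g1).2.1 g2
          · intro g1
            exact ⟨hQ g1, (h3 d (hQ g1)).2.2 g1⟩
        have e2 : Y.filter (fun y => KsB y (ku y) e) = R := by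
          ext y
          rw [mem_filter]
          constructor
          · rintro ⟨g1, g2⟩
            exact (h4 y g1).2.1 g2
          · intro g1
            exact ⟨hR g1, (h4 y (hR g1)).2.2 g1⟩
        rw [e1, e2] at hc
        unfold EE at hc
        have e3 : ∑ x, (e x : ℤ) = n := by
          rw [← hsum]
          push_cast
          rfl
        rw [e3] at hc
        have e4 : (q : ℤ) = Q.card + R.card := by
          rw [hq]
          push_cast
          rfl
        rw [e4]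
        refine ⟨by linarith [hc.1], ?_⟩
        rcases hc.2 with h | h
        · exact Or.inl (by linarith)
        · exact Or.inr h
      · intro a ha hk htc
        have haA : a ∈ A := by
          rw [hA, mem_filter]
          refine ⟨ha, ?_⟩
          push Not
          exact hk
        have haX : a ∈ X := by
          rw [hXd, mem_filter]
          exact ⟨haA, htc⟩
        have hyY : (kd a).y ∈ Y := mem_image_of_mem _ haA
        refine ⟨haX, hXK a haX, hyY, ?_⟩
        rw [hku]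
        simp only
        rw [show κ (kf a).y = a from (hAS a haA).2.ky.2]
      · intro a ha
        by_cases hn : ∀ k ∈ K, κ k ≠ a
        · exact Or.inl hn
        · right
          have haA : a ∈ A := by rw [hA, mem_filter]; exact ⟨ha, hn⟩
          have Qa := (hAS a haA).2
          have hyY : (kd a).y ∈ Y := mem_image_of_mem _ haA
          refine ⟨(kd a).w0, (kd a).y, (kd a).u, (kd a).w2, (kd a).x0, (kd a).x1, (kd a).x2, Qa,
            hyY, ?_, ?_⟩
          · rw [hku]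
            simp only
            rw [show κ (kd a).y = a from Qa.ky.2]
          · intro z p q' l m s hz hzC B huz
            have hzD : z ∈ D := by
              rw [hD, mem_filter]
              exact ⟨mem_univ _, ⟨p, q', l, m, s⟩, a, haA, hz, hzC, B, huz⟩
            refine ⟨hzD, ?_⟩
            obtain ⟨b', hb', -, -, g6, g7⟩ := hsw z hzD
            exact B.eq g6 huz g7
    refine cl_dvd (n := n) (N := (st i (US (i + 1) κ S)).card - (n / 2 + q)) (Q := Q) (R := R) H hir hκ hM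
      hSS V F G (fun a ha => (hAS a ha).1) (filter_subset _ _) hXK ?_ (by omega) ?_ ?_
    · intro e
      rw [mem_filter, mem_filter]
      rfl
    · intro e he
      rw [mem_filter, mem_filter] at he
      refine tC_dvd fun hL hU hd => ?_
      have := (hcnt e he hL hU hd).1
      omega
    · intro e he hnx
      rw [mem_filter, mem_filter] at he
      refine tC_dvd fun hL hU hd => ?_
      rcases (hcnt e he hL hU hd).2 with h | ⟨a, ha, h⟩
      · omega
      · exact absurd h (hnx a ha)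

/-- THE CROSS SERIES OF ENERGY AT MOST TWELVE, without a hypothesis on the elements between the parts -/
theorem h2_twelve6 (H : Gr P r) (hir : i ≤ r) (hT : NoT P (i + 2))
    (hg : ∀ m, m + 1 = i → Good P m)
    (hκ : Split (i + 1) κ) (hM : Mat P i K psi) (hKs : K ⊆ dbL P i ∪ dbU P i)
    (hSS : ∀ z : P, lev z = i + 2 → z ∉ cuni (i + 1) κ → ∀ x ∈ uc z, (uc x).card = 1)
    (hpart : ∀ a ∈ univ.image κ, (∀ k ∈ K, κ k ≠ a) ∨ ∃ w0 y u w2 x0 x1 x2,
      KP i κ K a w0 y u w2 x0 x1 x2)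
    (hX : ∀ a ∈ univ.image κ, (∃ k ∈ K, κ k = a) → (∃ z x, lev z = i + 2 ∧
      z ∉ cuni (i + 1) κ ∧ x ∈ uc z ∧ κ x = a) → ∃ t : KF P, KD i κ K psi a t) :
    ∀ S, S ⊆ univ.image κ → S.Nonempty → ∀ n, 1 ≤ n → n ≤ 12 →
      dd ^ ((st i (US (i + 1) κ S)).card - (n - 1) / 2) ∣ XC i (i + 1) κ S n := by
  refine h2_of_loc6 H hir hT hg hκ hM hKs hSS hpart hX ?_
  intro S e hs hL hU hd
  refine ⟨fun a _ => ⟨admL_rst hL a, admU_rst H hκ hU a, dis_rst H hκ hd a⟩, ?_,
    SK_sum H hκ hM hSS S⟩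
  have h := loc (S := S) H hir hT.noQ hg hκ hs hL hU
  unfold crz
  convert h using 2

end Pool.Agent.GaussPoset.Win.H2
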