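import Pool.Agent.W_448h2_h63.HY
import Pool.Agent.W_448ce_h84.CeG
import Pool.Agent.W_448so_h64.SoT

/-!
# The list gives the data of block (H) (MP_448cb3_co, G2, case B)

`LOut.kd`: a part of the list which is touched at a near single has the data `H2.KD`.
-/

namespace Pool.Agent.GaussPoset.Win.W4

set_option linter.unusedSectionVars false

open Finset I2
open Pool.Agent.GaussPoset.Win.H2 (NoT KP Bd K_lev KX KF KD)

universe u

variable {P : Type u} [Fintype P] [PartialOrder P] [DecidableEq P] {r i : ℕ}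
variable {psi : P → P} {C K : Finset P} {w v : P} {m : ℕ} {x : ℕ → P}
variable {y0 : P} {f : ℕ → P} {a : P}

variable {ι : Type*} [DecidableEq ι] {κ : P → ι} {b : ι}

/-- the twins and the doubles: no single near element when `m = 4` except the pendant -/
theorem LOut.no_touch4 (hκ : Split (i + 1) κ)
    (hSS : ∀ z : P, lev z = i + 2 → z ∉ cuni (i + 1) κ → ∀ x ∈ uc z, (uc x).card = 1)
    (h : CeH r i K psi (cext (i + 1) κ b) w v m x)
    (O : LOut i (cext (i + 1) κ b) w y0 m x f a) (hm4 : m = 4)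
    (ht : ∃ z x', lev z = i + 2 ∧ z ∉ cuni (i + 1) κ ∧ x' ∈ uc z ∧ κ x' = b) : False := by
  classical
  have H := h.D.W.H
  subst hm4
  obtain ⟨z, s, hz, hzn, hs, hk⟩ := ht
  have hls := lev_uc H hs
  have cs := hSS z hz hzn s hs
  have hsC : s ∈ cext (i + 1) κ b := mem_cext_of_le hκ (by omega) hk
  obtain ⟨q, hq⟩ : (uc s).Nonempty := by
    rw [← card_pos]
    omega
  have hlq := lev_uc H hq
  have hqC : q ∈ cext (i + 1) κ b := h.D.W.hC.up hsC (mem_uc.1 hq)
  obtain ⟨k, hk4, rfl⟩ := h.D.W.surj q hqC (by omega)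
  have hsd : s ∈ dc (x k) := mem_dc.2 (mem_uc.1 hq)
  have n01 : x 0 ≠ x 1 := O.xne h (by omega) (by omega) (by omega)
  have n23 : x 2 ≠ x 3 := O.xne h (by omega) (by omega) (by omega)
  have n34 : x 3 ≠ x 4 := O.xne h (by omega) (by omega) (by omega)
  have cw : (uc w).card = 2 := by rw [O.L.uw, card_pair n01]
  have cy : (uc y0).card = 2 := by rw [O.L.uy, card_pair n01]
  have c2 : (uc (f 2)).card = 2 := by
    rw [O.L.uf 2 le_rfl (by omega), card_pair n23]
  have c3 : (uc (f 3)).card = 2 := by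
    rw [O.L.uf 3 (by omega) (by omega), card_pair n34]
  have key : ∀ y, (uc y).card = 2 → s ≠ y := by
    rintro y hy rfl
    omega
  have hk' : k = 4 := by
    by_contra hne
    interval_cases k
    · rw [O.L.d0, mem_insert, mem_singleton] at hsd
      rcases hsd with h1 | h1
      · exact key _ cw h1
      · exact key _ cy h1
    · rw [O.L.d1, mem_insert, mem_singleton] at hsd
      rcases hsd with h1 | h1
      · exact key _ cw h1
      · exact key _ cy h1
    · rw [O.L.d2, mem_singleton] at hsd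
      exact key _ c2 hsd
    · rw [O.L.dk 3 le_rfl (by omega), mem_insert, mem_singleton] at hsd
      rcases hsd with h1 | h1
      · exact key _ c2 h1
      · exact key _ c3 h1
    · exact hne rfl
  subst hk'
  rw [O.L.dm, mem_insert] at hsd
  rcases hsd with h1 | h1
  · exact key _ c3 h1
  · rcases O.fin with ⟨-, p, g1, g2, g3⟩ | ⟨g, -⟩ | ⟨k', g, g', -⟩
    · rw [g1, mem_singleton] at h1
      rw [h1] at hs
      have h2 : z ∈ dc (f 3) := by
        rw [← g2]
        exact mem_dc.2 (mem_uc.1 hs)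
      have := hSS z hz hzn (f 3) (mem_uc.2 (mem_dc.1 h2))
      omega
    · omega
    · omega

/-- THE LIST GIVES `KD` -/
theorem LOut.kd (hκ : Split (i + 1) κ) (hKs : K ⊆ dbL P i ∪ dbU P i)
    (hSS : ∀ z : P, lev z = i + 2 → z ∉ cuni (i + 1) κ → ∀ x ∈ uc z, (uc x).card = 1)
    (h : CeH r i K psi (cext (i + 1) κ b) w v m x)
    (O : LOut i (cext (i + 1) κ b) w y0 m x f a)
    (ht : ∃ z x', lev z = i + 2 ∧ z ∉ cuni (i + 1) κ ∧ x' ∈ uc z ∧ κ x' = b) :
    ∃ t : KF P, KD i κ K psi b t := by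
  classical
  have H := h.D.W.H
  have hm := h.hm4
  have hm5 : 5 ≤ m := by
    by_contra hn
    exact O.no_touch4 hκ hSS h (by omega) ht
  have hM := h.D.Q.hM
  have hne : ∀ k l, k ≤ m → l ≤ m → k ≠ l → x k ≠ x l := fun k l hk hl hkl => O.xne h hk hl hkl
  have f2 := O.L.uf 2 le_rfl (by omega)
  have f3 := O.L.uf 3 (by omega) (by omega)
  have f4 := O.L.uf 4 (by omega) (by omega)
  have l2 := O.L.lf 2 le_rfl (by omega)
  -- `f 2` is matched
  have nK : f 2 ∉ K := by
    intro hK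
    rcases (h.D.Q.hK (f 2) (O.L.fC 2 le_rfl (by omega))).1 hK with h1 | h1
    · exact (O.f_ne h le_rfl (by omega)).1 h1
    · have h4 := h.D.Q.lv0
      rw [h1] at l2
      omega
  have d2 : f 2 ∈ dbL P i := by
    rw [mem_dbL]
    exact ⟨l2, by rw [f2, card_pair (hne _ _ (by omega) (by omega) (by omega))]⟩
  obtain ⟨g1, g2⟩ := hM.low (f 2) d2 nK
  rw [mem_dbU] at g1
  refine ⟨⟨⟨y0, w, v, f 2, x 0, x 1, x 2⟩, x 3, x 4, f 3, a⟩, O.kp hκ hKs h, ?_⟩
  refine ⟨f2, f3, O.L.dk 3 le_rfl (by omega), ?_, O.ua, ?_, ?_, ?_, ?_⟩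
  · intro s hs
    rw [O.L.dk 4 (by omega) (by omega), mem_insert, mem_singleton] at hs
    rcases hs with rfl | rfl
    · rw [f3, card_pair (hne _ _ (by omega) (by omega) (by omega))]
    · rw [f4, card_pair (hne _ _ (by omega) (by omega) (by omega))]
  · intro t ht
    have h1 : t ∈ dc (f 2) := mem_dc.2 (mem_uc.1 (by rw [ht]; exact mem_singleton_self _))
    rw [O.da, mem_singleton] at h1
    exact h1
  · intro v' hv'
    have h1 : v' ∈ uc (psi (f 2)) := mem_uc.2 (mem_dc.1 (by rw [hv']; exact mem_singleton_self _))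
    have hl := lev_uc H h1
    have hx2 : psi (f 2) ∈ uc (x 2) := by
      refine mem_uc.2 (mem_dc.1 ?_)
      rw [g2, f2]
      exact mem_insert_self _ _
    have hvC : v' ∈ cext (i + 1) κ b :=
      h.D.W.hC.up (h.D.W.hC.up (h.D.W.mem 2 (by omega)) (mem_uc.1 hx2)) (mem_uc.1 h1)
    have h3 : v' ∈ UE i (cext (i + 1) κ b) x 2 := by
      rw [mem_UE]
      refine ⟨hvC, ?_, ?_⟩
      · rw [PlD_mem_PU]
        exact ⟨by omega, by rw [hv']; exact card_singleton _, psi (f 2), mem_uc.1 h1, g1.2⟩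
      · rw [SO.sit_PU H (by omega) hv', g2, f2]
        rfl
    rw [O.ue2] at h3
    exact notMem_empty _ h3
  · intro v' hv' hv1
    change v' ∈ uc (x 0) at hv'
    change v' ∉ uc (x 1) at hv1
    have hl := lev_uc H hv'
    have hlx := h.D.W.lev_x 0 (by omega)
    have hvC : v' ∈ cext (i + 1) κ b := h.D.W.hC.up (h.D.W.mem 0 (by omega)) (mem_uc.1 hv')
    by_contra hne1
    have h2 : (dc v').card = 2 := by
      have h3 := dc_card_le H v'
      have h4 : 0 < (dc v').card := card_pos.2 ⟨x 0, mem_dc.2 (mem_uc.1 hv')⟩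
      omega
    have hl9 : lev v' + 1 = i := by omega
    obtain ⟨k, hk, hdk⟩ := h.D.W.up_ed hvC hl9 h2
    have h5 : x 0 ∈ ed x k := by
      rw [← hdk]
      exact mem_dc.2 (mem_uc.1 hv')
    have h6 := (h.D.W.mem_ed (by omega) hk).1 h5
    have h7 : k = 0 := by omega
    subst h7
    apply hv1
    refine mem_uc.2 (mem_dc.1 ?_)
    rw [hdk]
    exact mem_insert_of_mem (mem_singleton_self _)
  · simp only [List.nodup_cons, List.mem_cons, List.not_mem_nil, or_false, not_or,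
      List.nodup_nil, and_true, not_false_eq_true]
    refine ⟨⟨hne 0 1 ?_ ?_ ?_, hne 0 2 ?_ ?_ ?_, hne 0 3 ?_ ?_ ?_, hne 0 4 ?_ ?_ ?_⟩,
      ⟨hne 1 2 ?_ ?_ ?_, hne 1 3 ?_ ?_ ?_, hne 1 4 ?_ ?_ ?_⟩,
      ⟨hne 2 3 ?_ ?_ ?_, hne 2 4 ?_ ?_ ?_⟩, hne 3 4 ?_ ?_ ?_⟩ <;> omega

end Pool.Agent.GaussPoset.Win.W4
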